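import Pool.Agent.JXD.S5
import Pool.Agent.JD.S6
import Pool.Agent.JD.S7

/-!
# [JXD-S6] the `L`-series and the period of `E_D`

As in `JD.S6`, `JD.S7`, for the class `Cl0`.
-/

set_option autoImplicit false

open NumberField IsDedekindDomain ArithmeticFunction MeasureTheory
open scoped Classical ComplexConjugate

namespace JXD

open CM27 CMT NAB CF JZ JX JD
open CU (la om eE t5b_lo)

theorem LCW_ED {D : Eis} (hD : Cl0 D) :
    LCW KK (ED (jK D)) = IL KK (fun I => emb (Psi6 (eE D) I)) * IL KK (fun I => conj (emb (Psi6 (eE D) I))) := by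
  refine LCW_eq_IL KK _ (fun I => emb (Psi6 (eE D) I)) (fun I => conj (emb (Psi6 (eE D) I)))
    (by simp only [Psi6_one, map_one]) (by simp only [Psi6_one, map_one])
    (fun I J => by simp only [Psi6_mul, map_mul]) (fun I J => by simp only [Psi6_mul, map_mul]) ?_
  intro v
  rw [bc]
  have key : ¬ IsUnit (6 * t5b_lo v D) → psv6 (eE D) v = 0 →
      ∃ a b : ℤ, (ED (algebraMap (v.adicCompletionIntegers KK) (v.adicCompletion KK) (t5b_lo v D))).localPolynomial
        (v.adicCompletionIntegers KK) = 1 - Polynomial.C a * Polynomial.X + Polynomial.C b * Polynomial.X ^ 2 ∧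
      (a : ℂ) = emb (Psi6 (eE D) v.asIdeal) + conj (emb (Psi6 (eE D) v.asIdeal)) ∧
      (b : ℂ) = emb (Psi6 (eE D) v.asIdeal) * conj (emb (Psi6 (eE D) v.asIdeal)) := by
    intro h1 h2
    refine ⟨0, 0, ?_, ?_, ?_⟩
    · rw [localPoly_bad _ _ _ h1 (fun T hT => min_all v hD T hT)]
      simp
    · rw [Psi6_prime, h2]
      simp
    · rw [Psi6_prime, h2]
      simp
  rcases place_cases v hD with hv | ⟨b, hb, hp, hv, hbD, hu⟩ | ⟨h2, h3, h2i, k, D', hk, hD', hlo, -⟩ |
    ⟨hDv, h6, l, D', hl, hD', hlo⟩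
  · refine key ?_ (psv6_la _ hv)
    intro h
    have h1 : (6 : v.adicCompletionIntegers KK) * t5b_lo v D =
        t5b_lo v la * (2 * t5b_lo v (-om ^ 2) * t5b_lo v la * t5b_lo v D) := by
      have h3 := CU.t5b_three v
      linear_combination (2 * t5b_lo v D) * h3
    rw [h1] at h
    exact (CU.t5b_irr' CU.la_prime hv).not_isUnit (isUnit_of_mul_isUnit_left h)
  · exact s6b_good v hb hp hv hbD hu
  · refine key ?_ (psv6_zero _ (Or.inl ?_))
    · intro h
      have h1 : (6 : v.adicCompletionIntegers KK) * t5b_lo v D = 2 * (3 * t5b_lo v D) := by ring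
      rw [h1] at h
      exact h2i.not_isUnit (isUnit_of_mul_isUnit_left h)
    · rwa [map_ofNat] at h2
  · refine key ?_ (psv6_zero _ (Or.inr hDv))
    intro h
    rw [hlo] at h
    exact hl.not_isUnit (isUnit_of_mul_isUnit_left (isUnit_of_mul_isUnit_right h))

theorem entire_ED {D : Eis} (hD : Cl0 D) (Φ : ℂ → ℂ) (hΦ : Differentiable ℂ Φ)
    (hs : ∀ s : ℂ, 3 / 2 < s.re → Φ s = LSeries (fun n => IL KK (fun I => conj (emb (Psi6 (eE D) I))) n) s) :
    SBSD2.IsEntireLSeries (ED (jK D)) (fun s => Φ s * conj (Φ (conj s))) := by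
  obtain ⟨g, hg⟩ : ∃ g : Ideal (𝓞 KK) → ℂ, g = fun I => emb (Psi6 (eE D) I) := ⟨_, rfl⟩
  have hlam : ∀ I : Ideal (𝓞 KK), I ≠ 0 → ‖g I‖ ^ 2 ≤ Ideal.absNorm I := by
    intro I hI
    rw [hg]
    exact Psi6_norm_le (eE D) I hI
  have hlam' : ∀ I : Ideal (𝓞 KK), I ≠ 0 → ‖conj (g I)‖ ^ 2 ≤ Ideal.absNorm I := by
    intro I hI
    rw [Complex.norm_conj]
    exact hlam I hI
  have hs' : ∀ s : ℂ, 3 / 2 < s.re →
      Φ s = LSeries (fun n => IL KK (fun I => conj (g I)) n) s := by
    intro s h5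
    rw [hg]
    exact hs s h5
  have cc : Differentiable ℂ (fun s => conj (Φ (conj s))) :=
    fun s => differentiableAt_conj_conj_iff.2 (hΦ (conj s))
  have hLf : (fun k => ((ED (jK D)).LFunction k : ℂ)) =
      fun k => (IL KK g * IL KK (fun I => conj (g I))) k := by
    have h6 := LCW_ED hD
    rw [hg, ← h6]
    rfl
  refine ⟨hΦ.mul cc, ?_⟩
  intro s h5
  have t1 := LSeriesSummable_IL KK _ hlam s h5
  have t2 := LSeriesSummable_IL KK _ hlam' s h5
  have t3 : (ED (jK D)).LSeries s =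
      LSeries (fun k => ((ED (jK D)).LFunction k : ℂ)) s := rfl
  rw [t3, hLf]
  refine ⟨ArithmeticFunction.LSeriesSummable_mul t1 t2, ?_⟩
  change Φ s * conj (Φ (conj s)) = _
  rw [ArithmeticFunction.LSeries_mul' t1 t2, hs' s h5, hs' (conj s) (by
    rw [Complex.conj_re]; exact h5), NAB.LSeries_conj, NAB.LSeries_conj, Complex.conj_conj, Complex.conj_conj,
    mul_comm]

theorem period_ED {D : Eis} (hD : Cl0 D) : SBSD.period (ED (jK D)) = √3 * Om ^ 2 / ‖emb (4 * D)‖ ^ ((1 : ℝ) / 3) := by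
  have hne : D ≠ 0 := by
    rintro rfl
    exact not_squarefree_zero hD.1
  have h1 : ∀ v : InfinitePlace KK,
      SBSD.archPeriod (ED (jK D)) v = √3 * Om ^ 2 / ‖emb (4 * D)‖ ^ ((1 : ℝ) / 3) := by
    intro v
    have hne2 : v.embedding (jK D) ≠ 0 := by
      rw [jK_apply, ← norm_ne_zero_iff, CU.norm_embedding_KK, norm_ne_zero_iff, ← map_zero emb]
      exact fun h0 => hne (emb_injective h0)
    have h5 : ‖4 * v.embedding (jK D)‖ = ‖emb (4 * D)‖ := by
      rw [norm_mul, jK_apply, CU.norm_embedding_KK, map_mul, norm_mul]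
      congr 1
      have h6 : emb (4 : Eis) = 4 := map_ofNat emb 4
      rw [h6]
    unfold SBSD.archPeriod
    rw [dif_neg (CU.not_isReal_KK v), ED_map, complexArea_ED _ hne2, h5]
    ring
  unfold SBSD.period
  rw [finprod_neron hD, mul_one]
  simp only [h1]
  rw [Finset.prod_const, Finset.card_univ, CU.card_place_KK, pow_one]

end JXD
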