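import Pool.Agent.JD.S3
import Pool.Agent.JD.S4

/-!
# [JXD-S4] the Tamagawa number of `y² = x³ + D` at `λ` is `1` if `D ≡ ± 1 + d₁ λ mod λ²`, `d₁ = ± 1` (abstract discrete valuation ring `A`, uniformizer `l`, residue field `F₃`, `3 = ε l²`)

PROOF. `unit_la` (JD/S2.lean) gives the hypothesis `hu` of `index_one` (JD/S3.lean). So it is enough that every point `P` satisfies `VC63.NR (ED D) P`. `P = 0`: `NR`. `P = (x, y)`, `y² = x³ + algebraMap D`, `V` = the valuation of the maximal ideal.
`1 ≤ V y`: `NR` (`JD.nr_iff` in JD/S4.lean: copy the direction `←` of its proof, which uses `s4b_nonsing`, `s4b_x`, `s4b_mem` and not the digits of `D`).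
`V y < 1`: `y = algebraMap b`, `l ∣ b`, `x = algebraMap a` (`s4b_x`), `b² = a³ + D`. `a ≡ s = 0, 1, -1 mod l` (`hres`), `a³ ≡ s mod l³` (`a = s + l m`, `3 = ε l²`; see `JD.sing_form`), `l² ∣ b²`, so `l² ∣ D + s`: for `s = 0` impossible (`D` is a unit, `l` is not), for `s = ± 1` impossible (`h2` with `η = -s`).
-/

set_option autoImplicit false

open NumberField IsDedekindDomain
open scoped Classical

namespace JXD

open JD

section
variable {A : Type} [CommRing A] [IsDomain A] [IsDiscreteValuationRing A] (K : Type) [Field K]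
  [Algebra A K] [IsFractionRing A K] {l ε D : A} (hl : Irreducible l) (hε : IsUnit ε) (h3 : (3 : A) = ε * l ^ 2)
  (hres : ∀ x : A, l ∣ x ∨ l ∣ x - 1 ∨ l ∣ x + 1) (hD : IsUnit D)
  (h2 : ∀ η : A, (η = 1 ∨ η = -1) → ¬ l ^ 2 ∣ D - η)
include hl hε h3 hres hD h2

/-- [S4] -/
theorem tamagawa_laX : SBSD.tamagawa A (ED (algebraMap A K D)) = 1 := by
  refine index_one A K D (unit_la (K := K) l ε hl hε h3 D hD) ?_
  intro P
  match P with
  | .zero => exact trivial
  | .some x y h =>
    have hinj : Function.Injective (algebraMap A K) := IsFractionRing.injective A K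
    have heq : y ^ 2 = x ^ 3 + algebraMap A K D := by
      have h1 := h.1
      rw [ED_map, ED_equation] at h1
      exact h1
    have hred : (ED D).map (IsLocalRing.residue A) = ED (IsLocalRing.residue A D) := ED_map _ _
    have hl' : l ∈ IsLocalRing.maximalIdeal A := (IsLocalRing.mem_maximalIdeal l).2 hl.not_isUnit
    have h30 : (3 : IsLocalRing.ResidueField A) = 0 := by
      have h1 : IsLocalRing.residue A 3 = 0 := by
        rw [IsLocalRing.residue_eq_zero_iff, h3]
        exact Ideal.mul_mem_left _ _ (Ideal.pow_mem_of_mem _ hl' 2 (by norm_num))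
      rwa [map_ofNat] at h1
    by_cases hy : 1 ≤ (IsDiscreteValuationRing.maximalIdeal A).valuation K y
    · simp only [VC63.NR, hred]
      intro a b ha hb
      rw [s4b_nonsing _ h30]
      subst ha hb
      have hAeq : b ^ 2 = a ^ 3 + D := by
        apply hinj
        rw [map_pow, map_add, map_pow]
        exact heq
      refine ⟨?_, ?_⟩
      · rw [← map_pow, hAeq, map_add, map_pow]
      · rw [Ne, IsLocalRing.residue_eq_zero_iff]
        intro hmem
        rw [← s4b_mem (K := K)] at hmem
        exact absurd hy (not_le.2 hmem)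
    · exfalso
      rw [not_le] at hy
      obtain ⟨b, hb⟩ := IsDiscreteValuationRing.exists_lift_of_le_one hy.le
      obtain ⟨a, ha⟩ := s4b_x heq hb
      have hAeq : b ^ 2 = a ^ 3 + D := by
        apply hinj
        rw [map_pow, map_add, map_pow, ha, hb]
        exact heq
      have hlb : l ∣ b := by
        rw [← hb, s4b_mem] at hy
        rw [hl.maximalIdeal_eq] at hy
        exact Ideal.mem_span_singleton.1 hy
      obtain ⟨u, hu⟩ := hlb
      rcases hres a with ⟨c, hc⟩ | ⟨c, hc⟩ | ⟨c, hc⟩
      · have hlD : l ∣ D := by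
          refine ⟨l * u ^ 2 - l ^ 2 * c ^ 3, ?_⟩
          rw [hu, hc] at hAeq
          linear_combination -hAeq
        exact hl.not_isUnit (isUnit_of_dvd_unit hlD hD)
      · apply h2 (-1) (Or.inr rfl)
        refine ⟨u ^ 2 - ε * l * c - 3 * c ^ 2 - l * c ^ 3, ?_⟩
        have hc' : a = 1 + l * c := by linear_combination hc
        rw [hu, hc'] at hAeq
        linear_combination -hAeq - l * c * h3
      · apply h2 1 (Or.inl rfl)
        refine ⟨u ^ 2 - ε * l * c + 3 * c ^ 2 - l * c ^ 3, ?_⟩
        have hc' : a = -1 + l * c := by linear_combination hc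
        rw [hu, hc'] at hAeq
        linear_combination -hAeq - l * c * h3

end

end JXD
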