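import Pool.Agent.JXD.E7
import Pool.Agent.JD.E10

/-!
# [JXD-E10] `E_D(K)` finite and no element of order `3` in `Sha` imply `NoBadX`

As `JD.noBad_of_fin`.
-/

set_option autoImplicit false

open NumberField IsDedekindDomain
open scoped Classical

namespace JXD

open CM27 CF JZ JX JD
open CU (la om eE W3)
open CUD (gal_comm alg_comm tau_comm am_ne am_o)

theorem noBad_of_finX {D : Eis} {F : Type} [Field F] [NumberField F] [Algebra KK F] {r : F} {τ : F ≃ₐ[KK] F}
    (hD : ClY D) (hQ : Quad D r τ) (hfin : Finite (ED (jK D)).toAffine.Point)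
    (hsha : ∀ x : SBSD.Sha (ED (jK D)), 3 • x = 0 → x = 0) : NoBadX D r τ := by
  intro α hα
  have hD0 : D ≠ 0 := ne_of_cl (cl0_of hD)
  have hjD : jK D ≠ 0 := fun h => hD0 (jK_inj (h.trans (map_zero jK).symm))
  obtain ⟨u, y, huy⟩ := exists_uv hD0 hQ α
  have h1 := lam_normX hQ hα huy
  have halg := N3a_alg F
  have hCK : CharZero (AlgebraicClosure KK) :=
    charZero_of_injective_algebraMap (algebraMap KK (AlgebraicClosure KK)).injective
  let ι : F →ₐ[KK] AlgebraicClosure KK := IsAlgClosed.lift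
  have hι : Function.Injective ι := RingHom.injective (ι : F →+* AlgebraicClosure KK)
  have hρ : (ι r) ^ 2 = algebraMap KK (AlgebraicClosure KK) (jK D) := by
    rw [← map_pow, hQ.sq, jF_apply, ι.commutes]
  have h0 : 2 * ι r ≠ 0 := by
    refine mul_ne_zero two_ne_zero ?_
    exact (map_ne_zero_iff ι hι).2 (r_ne hD0 hQ)
  obtain ⟨s, hs⟩ := IsAlgClosed.exists_pow_nat_eq (ι α) (n := 3) (by norm_num)
  have hs' : s ^ 3 = algebraMap KK (AlgebraicClosure KK) u + algebraMap KK (AlgebraicClosure KK) y * ι r := by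
    rw [hs, huy, map_add, map_mul, ι.commutes, ι.commutes]
  obtain ⟨R, hR⟩ := cob_of_sha hjD exists_o h1 hsha hρ h0 hs' (fun v ρ' hρ' => locSol_allX hD hQ hα huy v hρ')
  have hfix := fix_of_cob hjD exists_o (not_sq hD.2.2.1) h1 hfin hρ h0 hs' R hR
  have hmem : s ∈ IntermediateField.adjoin KK {ι r} := by
    rw [← InfiniteGalois.fixedField_fixingSubgroup (IntermediateField.adjoin KK {ι r}),
      IntermediateField.mem_fixedField_iff]
    intro σ hσ
    refine hfix σ ?_
    rw [IntermediateField.mem_fixingSubgroup_iff] at hσ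
    exact hσ _ (IntermediateField.mem_adjoin_simple_self KK (ι r))
  have hle : IntermediateField.adjoin KK {ι r} ≤ ι.fieldRange := by
    rw [IntermediateField.adjoin_le_iff]
    rintro _ rfl
    exact ⟨r, rfl⟩
  obtain ⟨c, hc⟩ := hle hmem
  refine ⟨c, hι ?_⟩
  rw [map_pow, ← hs]
  exact congrArg (fun z => z ^ 3) hc

end JXD
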