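import Pool.Agent.JXD.F3
import Pool.Agent.JXD.C1
import Pool.Agent.JX.Field
import Pool.Agent.JD.T1

/-!
# [JXD-T1] the field `ℚ(ω, √D)` inside `ℂ`

As in `JD.T1`, `JD.T3`, with `PX` and `UCX`.
-/

set_option autoImplicit false

open NumberField IsDedekindDomain
open scoped Classical

namespace JXD

open CM27 CF JZ JX JD
open CU (la om eE)
open JL (KD sD)

section
variable {D : Eis} {F : Type} [Field F] [NumberField F] [Algebra KK F] {r : F} {τ : F ≃ₐ[KK] F}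

/-- `PX` for a unit as an integrality condition -/
theorem px_iff_int (hD : Cl0 D) (hQ : Quad D r τ) (u : (𝓞 F)ˣ) :
    PX D r ((u : F) / τ (u : F)) ↔ ∃ d₀ d₁ d₂ t : ℤ, Dig D d₀ d₁ d₂ ∧
      IsIntegral ℤ ((((u : F) / τ (u : F)) ^ 8 - (((u : F) / τ (u : F)) ^ 8)⁻¹ -
        (t : F) * jF F (la * (1 + ((d₁ * (1 + d₂) : ℤ) : Eis) * la)) * r) / jF F la ^ 3) := by
  have hla : jF F la ≠ 0 := by
    intro h0
    have h1 : (la : Eis) = 0 := jF_inj F (h0.trans (map_zero _).symm)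
    exact absurd h1 (by decide)
  have hla3 : jF F la ^ 3 ≠ 0 := pow_ne_zero 3 hla
  have hcast : ∀ (t : ℤ) (x : Eis), (t : F) * jF F (la * x) = jF F (la * ((t : Eis) * x)) := by
    intro t x
    rw [map_mul, map_mul, map_mul, map_intCast]
    ring
  have hb1 : ∀ w : HeightOneSpectrum (𝓞 F), w.valuation F ((u : F) / τ (u : F)) = 1 := by
    intro w
    rw [map_div₀, g5a_unit, g5a_tau, div_one]
  constructor
  · rintro ⟨q, hq, d₀, d₁, d₂, t, hd, hqt⟩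
    refine ⟨d₀, d₁, d₂, t, hd, ?_⟩
    have hq' := ps_congr hD hQ hq hqt
    have key : ∀ w : HeightOneSpectrum (𝓞 F), w.valuation F ((((u : F) / τ (u : F)) ^ 8 -
        (((u : F) / τ (u : F)) ^ 8)⁻¹ -
        (t : F) * jF F (la * (1 + ((d₁ * (1 + d₂) : ℤ) : Eis) * la)) * r) / jF F la ^ 3) ≤ 1 := by
      intro w
      rw [hcast, map_div₀, map_pow]
      by_cases hw : OvLa w
      · exact div_le_one_of_le₀ (hq' w hw) zero_le
      · have h4 : w.valuation F (jF F la) = 1 := by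
          apply le_antisymm
          · exact q3a_le w (int_jF F la)
          · exact not_lt.1 hw
        rw [h4, one_pow, div_one]
        refine Valuation.map_sub_le _ (Valuation.map_sub_le _ ?_ ?_) ?_
        · rw [map_pow, hb1 w, one_pow]
        · rw [map_inv₀, map_pow, hb1 w, one_pow, inv_one]
        · exact q3a_le w ((int_jF F _).mul (int_r hQ))
    obtain ⟨z, hz⟩ := HeightOneSpectrum.mem_integers_of_valuation_le_one (K := F) _ key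
    rw [← hz]
    exact RingOfIntegers.isIntegral_coe z
  · rintro ⟨d₀, d₁, d₂, t, hd, hi⟩
    refine ⟨(t : Eis) * (1 + ((d₁ * (1 + d₂) : ℤ) : Eis) * la), ?_, d₀, d₁, d₂, t, hd, by rw [sub_self]; exact dvd_zero _⟩
    intro w hw
    have h1 := q3a_le w hi
    rw [hcast] at h1
    have h2 := mul_le_mul_left h1 (w.valuation F (jF F la ^ 3))
    rw [← map_mul, div_mul_cancel₀ _ hla3, one_mul, map_pow] at h2
    exact h2

end

theorem t1_not {D : Eis} (hD : Cl0 D) : sD D ∉ KK := by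
  intro h
  apply not_sq hD.2.2 ⟨sD D, h⟩
  apply Subtype.ext
  have h4 : ((jK D : KK) : ℂ) = emb D := CU.eE_coe D
  rw [h4]
  exact JL.sD_sq D

theorem finrank_KD {D : Eis} (hD : Cl0 D) : letI := algK (KD D) (w_mem D); Module.finrank KK (KD D) = 2 := by
  exact t1a_fin (KD D) (w_mem D) (sD D) (sD_mem D) (t1_not hD) (fun z hz => t1a_mem hz)

/-- the quadratic extension exists -/
theorem exists_quad {D : Eis} (hD : Cl0 D) : letI := algK (KD D) (w_mem D);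
    ∃ τ : KD D ≃ₐ[KK] KD D, Quad D (⟨sD D, sD_mem D⟩ : KD D) τ := by
  exact @exists_tau D hD.2.2 (KD D) _ _ (algK (KD D) (w_mem D)) (finrank_KD hD) ⟨sD D, sD_mem D⟩
    (t1a_sq (KD D) (w_mem D) D (sD_mem D))

/-- the same integrality in `F` and in `ℂ` -/
theorem int_iff {D : Eis} (x y : KD D) (U V : ℂ) (hx : (x : ℂ) = U) (hy : (y : ℂ) = V) (t : ℤ) (c : Eis) :
    letI := algK (KD D) (w_mem D);
    IsIntegral ℤ (((x / y) ^ 8 - ((x / y) ^ 8)⁻¹ - (t : KD D) * jF (KD D) c * ⟨sD D, sD_mem D⟩) / jF (KD D) la ^ 3) ↔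
    IsIntegral ℤ (((U / V) ^ 8 - ((U / V) ^ 8)⁻¹ - (t : ℂ) * emb c * sD D) / emb la ^ 3) := by
  letI := algK (KD D) (w_mem D)
  have e : (((((x / y) ^ 8 - ((x / y) ^ 8)⁻¹ - (t : KD D) * jF (KD D) c * ⟨sD D, sD_mem D⟩) / jF (KD D) la ^ 3 : KD D)) : ℂ) =
      ((U / V) ^ 8 - ((U / V) ^ 8)⁻¹ - (t : ℂ) * emb c * sD D) / emb la ^ 3 := by
    rw [← hx, ← hy, ← jF_coe D c, ← jF_coe D la]
    push_cast
    rfl
  rw [← e]
  exact (isIntegral_algebraMap_iff (A := KD D) (B := ℂ) (algebraMap (KD D) ℂ).injective).symm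

theorem uc_of_noBadX {D : Eis} (hD : Cl0 D) : letI := algK (KD D) (w_mem D);
    ∀ τ : KD D ≃ₐ[KK] KD D, Quad D (⟨sD D, sD_mem D⟩ : KD D) τ →
      NoBadX D (⟨sD D, sD_mem D⟩ : KD D) τ → UCX D := by
  letI := algK (KD D) (w_mem D)
  intro τ hQ hN
  obtain ⟨h1, u, hu⟩ := class_unitX hD hQ hN
  refine ⟨h1, ?_⟩
  have hD0 : D ≠ 0 := ne_of_cl hD
  obtain ⟨u₁, u₂, huv⟩ := exists_uv hD0 hQ ((u : 𝓞 (KD D)) : KD D)
  have hτ : τ ((u : 𝓞 (KD D)) : KD D) = algebraMap KK (KD D) u₁ - algebraMap KK (KD D) u₂ * ⟨sD D, sD_mem D⟩ := by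
    rw [huv, map_add, map_mul, AlgEquiv.commutes, AlgEquiv.commutes, hQ.tau]
    ring
  have e1 : (((u : 𝓞 (KD D)) : KD D) : ℂ) = (u₁ : ℂ) + (u₂ : ℂ) * sD D := by
    rw [huv]
    rfl
  have e2 : ((τ ((u : 𝓞 (KD D)) : KD D) : KD D) : ℂ) = (u₁ : ℂ) - (u₂ : ℂ) * sD D := by
    rw [hτ]
    rfl
  have e3 : (((u⁻¹ : (𝓞 (KD D))ˣ) : KD D) : ℂ) = ((u₁ : ℂ) + (u₂ : ℂ) * sD D)⁻¹ := by
    rw [← e1]
    have h2 : (((u⁻¹ : (𝓞 (KD D))ˣ) : 𝓞 (KD D)) : KD D) * ((u : 𝓞 (KD D)) : KD D) = 1 := by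
      rw [← map_mul, Units.inv_mul, map_one]
    have h3 := congrArg (fun x : KD D => (x : ℂ)) h2
    simp only [MulMemClass.coe_mul, OneMemClass.coe_one] at h3
    exact eq_inv_of_mul_eq_one_left h3
  refine ⟨u₁, u₂, u₁.2, u₂.2, ?_, ?_, ?_, ?_⟩
  · rw [← e1]
    intro h0
    have h2 : (((u⁻¹ : (𝓞 (KD D))ˣ) : 𝓞 (KD D)) : KD D) * ((u : 𝓞 (KD D)) : KD D) = 1 := by
      rw [← map_mul, Units.inv_mul, map_one]
    have h3 : ((u : 𝓞 (KD D)) : KD D) = 0 := by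
      apply Subtype.ext
      exact h0
    rw [h3, mul_zero] at h2
    exact zero_ne_one h2
  · rw [← e1]
    exact (RingOfIntegers.isIntegral_coe (u : 𝓞 (KD D))).algebraMap (B := ℂ)
  · rw [← e3]
    exact (RingOfIntegers.isIntegral_coe ((u⁻¹ : (𝓞 (KD D))ˣ) : 𝓞 (KD D))).algebraMap (B := ℂ)
  · rintro ⟨d₀, d₁, d₂, t, hd, hi⟩
    apply hu
    rw [px_iff_int hD hQ u]
    exact ⟨d₀, d₁, d₂, t, hd, (int_iff _ _ _ _ e1 e2 t _).2 hi⟩

theorem uc_of_noFormX {D : Eis} (hD : Cl0 D) (h : ¬ HasFormX D) : UCX D := by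
  letI := algK (KD D) (w_mem D)
  obtain ⟨τ, hQ⟩ := exists_quad hD
  exact uc_of_noBadX hD τ hQ (noBad_ofX hD hQ h)

theorem noBad_of_UCX {D : Eis} (hD : Cl0 D) (h : UCX D) : letI := algK (KD D) (w_mem D);
    ∀ τ : KD D ≃ₐ[KK] KD D, Quad D (⟨sD D, sD_mem D⟩ : KD D) τ → NoBadX D (⟨sD D, sD_mem D⟩ : KD D) τ := by
  letI := algK (KD D) (w_mem D)
  intro τ hQ
  obtain ⟨h1, u₁, u₂, hu₁, hu₂, hne, hi, hi', hn⟩ := h
  obtain ⟨x, hx⟩ : ∃ x : KD D, x = algebraMap KK (KD D) ⟨u₁, hu₁⟩ +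
    algebraMap KK (KD D) ⟨u₂, hu₂⟩ * ⟨sD D, sD_mem D⟩ := ⟨_, rfl⟩
  have ex : (x : ℂ) = u₁ + u₂ * sD D := by
    rw [hx]
    rfl
  have hτ : τ x = algebraMap KK (KD D) ⟨u₁, hu₁⟩ -
      algebraMap KK (KD D) ⟨u₂, hu₂⟩ * ⟨sD D, sD_mem D⟩ := by
    rw [hx, map_add, map_mul, AlgEquiv.commutes, AlgEquiv.commutes, hQ.tau]
    ring
  have eτ : ((τ x : KD D) : ℂ) = u₁ - u₂ * sD D := by
    rw [hτ]
    rfl
  have hx0 : x ≠ 0 := by
    intro h0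
    apply hne
    rw [← ex, h0]
    rfl
  have hxi : IsIntegral ℤ x := by
    refine (isIntegral_algebraMap_iff (A := KD D) (B := ℂ) (algebraMap (KD D) ℂ).injective).1 ?_
    rw [← ex] at hi
    exact hi
  have hxi' : IsIntegral ℤ x⁻¹ := by
    refine (isIntegral_algebraMap_iff (A := KD D) (B := ℂ) (algebraMap (KD D) ℂ).injective).1 ?_
    rw [← ex] at hi'
    rw [map_inv₀]
    exact hi'
  let u : (𝓞 (KD D))ˣ := ⟨⟨x, hxi⟩, ⟨x⁻¹, hxi'⟩, RingOfIntegers.ext (mul_inv_cancel₀ hx0),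
    RingOfIntegers.ext (inv_mul_cancel₀ hx0)⟩
  refine noBad_of_ucX hD hQ h1 ⟨u, fun hPX => hn ?_⟩
  obtain ⟨d₀, d₁, d₂, t, hd, hii⟩ := (px_iff_int hD hQ u).1 hPX
  exact ⟨d₀, d₁, d₂, t, hd, (int_iff x (τ x) _ _ ex eτ t _).1 hii⟩

end JXD
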