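import Pool.Agent.JXD.T4
import Pool.Agent.JX.Z

/-!
# [JXD-T5] the final theorems
-/

set_option autoImplicit false

open NumberField IsDedekindDomain
open scoped Classical ComplexConjugate

namespace JXD

open CM27 NAB CF JZ JX JD
open CU (la om eE)
open JL (KD sD)

theorem lVal_ofX {D : Eis} (hD : ClY D) (hu : ¬ IsUnit D) : LValX D := by
  obtain ⟨Φ, h1, h2, q, -, h3, h4, h5⟩ := JX.L_main hD hu
  exact ⟨Φ, h1, h2, q, h3, h4, h5⟩

/-- The conjecture of Birch and Swinnerton-Dyer modulo `3` for all `D` of the class. -/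
theorem modThree_D {D : Eis} (hD : ClY D) (hu : ¬ IsUnit D) : CUE.ModThree (ED (jK D)) :=
  modThreeX hD (lVal_ofX hD hu)

/-- The `3`-part of the conjecture, if the class number of `ℚ(ω, √D)` is prime to `3` and there is a unit `u` such that
`(u / ū) ^ 8` is not on the line of `D`. -/
theorem threePart_of_UC {D : Eis} (hD : ClY D) (hu : ¬ IsUnit D) (h : UCX D) :
    SBSD3.ThreePartRankZero (ED (jK D)) := final_allX hD h (lVal_ofX hD hu)

/-- The `3`-part of the conjecture, if there is no form. -/
theorem threePart_of_noForm {D : Eis} (hD : ClY D) (hu : ¬ IsUnit D) (h : ¬ HasFormX D) :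
    SBSD3.ThreePartRankZero (ED (jK D)) := threePart_of_UC hD hu (uc_of_noFormX (cl0_of hD) h)

end JXD
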