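import Pool.Agent.JXD.Q3
import Pool.Agent.JD.M2

/-!
# [JXD-M2] if `phiE` is surjective on `E_D(K)` then `E_D(K)` is finite of order prime to `3`

As `JD.finite_of_phiE`, for the class `Cl0`.
-/

set_option autoImplicit false

open NumberField IsDedekindDomain
open scoped Classical

namespace JXD

open CM27 CF JZ JX JD
open CU (la om eE)

section
variable {D : Eis} {F : Type} [Field F] [NumberField F] [Algebra KK F] {r : F} {τ : F ≃ₐ[KK] F}

theorem exists_H (hD : Cl0 D) (hQ : Quad D r τ) {o : KK} (ho : o ^ 2 + o + 1 = 0) :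
    ∃ (w : Valuation KK (WithZero (Multiplicative ℤ))) (H : AddSubgroup (ED (jK D)).toAffine.Point),
      w 3 < 1 ∧ (∀ P, P ∈ H ↔ InKE w P) ∧ Finite ((ED (jK D)).toAffine.Point ⧸ H) ∧
      ∀ (x y : KK) (h : (ED (jK D)).toAffine.Nonsingular x y), 1 < w x →
        ∃ (x' y' : KK) (h' : (ED (jK D)).toAffine.Nonsingular x' y'),
          phiE ho (.some x y h) = .some x' y' h' ∧ w x' * w 3 = w x := by
  obtain ⟨v, hv⟩ := exists_ov hD hQ
  have hr0 : r ≠ 0 := r_ne (ne_of_cl hD) hQ
  have h2r : (2 : F) * r ≠ 0 := mul_ne_zero two_ne_zero hr0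
  have hint : v.valuation F (2 * r) ≤ 1 := by
    have h1 : IsIntegral ℤ (2 * r) := by
      rw [two_mul]
      exact (int_r hQ).add (int_r hQ)
    exact v.valuation_le_one (⟨2 * r, h1⟩ : 𝓞 F)
  have h3 : v.valuation F 3 < 1 := by
    have h4 : (3 : F) = jF F la * (jF F la * jF F (-om ^ 2)) := by
      rw [← map_mul, ← map_mul, ← map_ofNat (jF F)]
      congr 1
    have h5 : v.valuation F (jF F la * jF F (-om ^ 2)) ≤ 1 := by
      rw [← map_mul]
      exact v.valuation_le_one (⟨jF F (la * -om ^ 2), int_jF F _⟩ : 𝓞 F)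
    rw [h4, map_mul]
    calc v.valuation F (jF F la) * v.valuation F (jF F la * jF F (-om ^ 2)) ≤
        v.valuation F (jF F la) * 1 := mul_le_mul_right h5 _
      _ < 1 := by rw [mul_one]; exact hv
  obtain ⟨H, h6, h7, h8⟩ := M2a_gen hQ.sq h2r ho v hint
  refine ⟨(v.valuation F).comap (algebraMap KK F), H, ?_, h6, h7, h8⟩
  have hw3 : (v.valuation F).comap (algebraMap KK F) 3 = v.valuation F 3 := by
    change v.valuation F (algebraMap KK F 3) = _
    rw [map_ofNat]
  rw [hw3]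
  exact h3

private theorem M2b_abs {A : Type} [AddCommGroup A] (f : A → A)
    (hadd : ∀ P Q, f (P + Q) = f P + f Q) (hs : ∀ P, ∃ Q, f Q = P)
    (H : AddSubgroup A) (hfin : Finite (A ⧸ H)) (ht : A → ℕ) (h1 : ∀ P ∈ H, f P ∈ H)
    (h2 : ∀ P ∈ H, P ≠ 0 → ht P < ht (f P)) : Finite A := by
  let φ : A →+ A := AddMonoidHom.mk' f hadd
  have h1 : ∀ P ∈ H, φ P ∈ H := h1
  have h2 : ∀ P ∈ H, P ≠ 0 → ht P < ht (φ P) := h2
  have hs : ∀ P, ∃ Q, φ Q = P := hs
  have hpres : H ≤ H.comap φ := h1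
  have hhalf : ∀ Q, φ Q ∈ H → Q ∈ H := by
    let ψ := QuotientAddGroup.map H H φ hpres
    have hg : Function.Surjective ψ := by
      intro q
      obtain ⟨P, rfl⟩ := QuotientAddGroup.mk_surjective q
      obtain ⟨Q, hQP⟩ := hs P
      refine ⟨(Q : A ⧸ H), ?_⟩
      change ((φ Q : A) : A ⧸ H) = (P : A ⧸ H)
      rw [hQP]
    have hinj : Function.Injective ψ := Finite.injective_iff_surjective.2 hg
    intro Q hQH
    have h5 : ψ (Q : A ⧸ H) = ψ 0 := by
      rw [map_zero]
      exact (QuotientAddGroup.eq_zero_iff _).2 hQH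
    exact (QuotientAddGroup.eq_zero_iff _).1 (hinj h5)
  have hker : ∀ n : ℕ, ∀ P ∈ H, ht P = n → P = 0 := by
    intro n
    induction n using Nat.strong_induction_on with
    | _ n ih =>
      intro P hP hn
      obtain ⟨Q, rfl⟩ := hs P
      have hQ1 : Q ∈ H := hhalf Q hP
      by_cases hQ0 : Q = 0
      · rw [hQ0, map_zero]
      · have h3 := h2 Q hQ1 hQ0
        exact absurd (ih (ht Q) (by omega) Q hQ1 rfl) hQ0
  refine Finite.of_injective (fun P : A => (P : A ⧸ H)) fun P Q hPQ => ?_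
  have h5 : -P + Q ∈ H := QuotientAddGroup.eq.1 hPQ
  have h6 := hker _ _ h5 rfl
  have h7 : Q = P + (-P + Q) := by abel
  rw [h7, h6, add_zero]

private theorem M2b_card {A : Type} [AddCommGroup A] [Finite A]
    (h : ∀ P : A, 3 • P = 0 → P = 0) : ¬ 3 ∣ Nat.card A := by
  intro hdvd
  have : Fintype A := Fintype.ofFinite _
  have : Fact (Nat.Prime 3) := ⟨Nat.prime_three⟩
  obtain ⟨P, hP⟩ := exists_prime_addOrderOf_dvd_card (G := A) 3 (by
    rw [← Nat.card_eq_fintype_card]
    exact hdvd)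
  have h3P : 3 • P = 0 := by rw [← hP]; exact addOrderOf_nsmul_eq_zero P
  rw [h P h3P, addOrderOf_zero] at hP
  omega

/-- the logarithm of `w x(P)` -/
private noncomputable def M2b_ht {K : Type} [Field K]
    (w : Valuation K (WithZero (Multiplicative ℤ))) {d : K} : (ED d).toAffine.Point → ℕ
  | .zero => 0
  | .some x _ _ => (WithZero.log (w x)).toNat

private theorem M2b_lt {K : Type} [Field K]
    (w : Valuation K (WithZero (Multiplicative ℤ))) {x x' : K} (h3 : w 3 < 1) (hx : 1 < w x)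
    (h : w x' * w 3 = w x) : 1 < w x' ∧ (WithZero.log (w x)).toNat < (WithZero.log (w x')).toNat := by
  have h8 : w x < w x' := by
    have h0 : w x' ≠ 0 := by
      intro h0
      rw [h0, zero_mul] at h
      rw [← h] at hx
      exact absurd hx (not_lt.2 zero_le)
    rw [← h]
    calc w x' * w 3 < w x' * 1 := mul_lt_mul_of_pos_left h3 (zero_lt_iff.mpr h0)
      _ = w x' := mul_one _
  have hx' := hx.trans h8
  refine ⟨hx', ?_⟩
  obtain ⟨n, hn⟩ := CUD.c10c_exp w hx
  obtain ⟨n', hn'⟩ := CUD.c10c_exp w hx'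
  rw [hn, hn', WithZero.exp_lt_exp] at h8
  rw [hn, hn', WithZero.log_exp, WithZero.log_exp]
  omega

private theorem M2b_ker (hD : Cl0 D) {o : KK} (ho : o ^ 2 + o + 1 = 0)
    (P : (ED (jK D)).toAffine.Point) (hP : phiE ho P = 0) : P = 0 := by
  have hD0 : jK D ≠ 0 := by
    intro h0
    exact hD.1.ne_zero (jK_inj (h0.trans (map_zero jK).symm))
  rw [phiE_eq_zero hD0 ho] at hP
  cases P with
  | zero => rfl
  | some x y hxy =>
    have hx : x = 0 := hP
    subst hx
    have heq : y ^ 2 = 0 ^ 3 + jK D := (ED_equation (jK D) 0 y).1 hxy.1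
    exact (not_sq hD.2.2 y (by linear_combination heq)).elim

private theorem M2b_core {K : Type} [Field K] [CharZero K] [inst : DecidableEq K] {d o : K}
    (hd : d ≠ 0) (ho : o ^ 2 + o + 1 = 0) (w : Valuation K (WithZero (Multiplicative ℤ)))
    (H : AddSubgroup (ED d).toAffine.Point) (h3 : w 3 < 1) (hH : ∀ P, P ∈ H ↔ InKE w P)
    (hfin : Finite ((ED d).toAffine.Point ⧸ H))
    (hraise : ∀ (x y : K) (h : (ED d).toAffine.Nonsingular x y), 1 < w x →
        ∃ (x' y' : K) (h' : (ED d).toAffine.Nonsingular x' y'),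
          phiE ho (.some x y h) = .some x' y' h' ∧ w x' * w 3 = w x)
    (h : ∀ P : (ED d).toAffine.Point, ∃ Q, phiE ho Q = P)
    (hker : ∀ P : (ED d).toAffine.Point, phiE ho P = 0 → P = 0) :
    Finite (ED d).toAffine.Point ∧ ¬ 3 ∣ Nat.card (ED d).toAffine.Point := by
  obtain rfl : inst = fun a b => Classical.propDecidable (a = b) := Subsingleton.elim _ _
  have hfinE : Finite (ED d).toAffine.Point := by
    refine M2b_abs (phiE ho) (phiE_add ho) h H hfin (M2b_ht w) ?_ ?_
    · intro P hP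
      rcases P with _ | ⟨x, y, k⟩
      · have : phiE ho (.zero : (ED d).toAffine.Point) = 0 := phiE_zero ho
        rw [this]
        exact H.zero_mem
      · have hx : 1 < w x := (hH _).1 hP
        obtain ⟨x', y', h', h5, h6⟩ := hraise x y k hx
        rw [h5, hH]
        exact (M2b_lt w h3 hx h6).1
    · intro P hP hP0
      rcases P with _ | ⟨x, y, k⟩
      · exact absurd rfl hP0
      · have hx : 1 < w x := (hH _).1 hP
        obtain ⟨x', y', h', h5, h6⟩ := hraise x y k hx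
        rw [h5]
        exact (M2b_lt w h3 hx h6).2
  refine ⟨hfinE, M2b_card fun P h3P => hker P (hker _ ?_)⟩
  have h4 : 3 • omE ho P = omE ho (3 • P) := (map_nsmul (omE ho) 3 P).symm
  rw [phiE_phiE hd, h4, h3P, map_zero, neg_zero]

theorem finite_of_phiE (hD : Cl0 D) (hQ : Quad D r τ) {o : KK} (ho : o ^ 2 + o + 1 = 0)
    (h : ∀ P : (ED (jK D)).toAffine.Point, ∃ Q, phiE ho Q = P) :
    Finite (ED (jK D)).toAffine.Point ∧ ¬ 3 ∣ Nat.card (ED (jK D)).toAffine.Point := by
  have hD0 : jK D ≠ 0 := by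
    intro h0
    exact hD.1.ne_zero (jK_inj (h0.trans (map_zero jK).symm))
  obtain ⟨w, H, h3, hH, hfin, hraise⟩ := exists_H hD hQ ho
  exact M2b_core hD0 ho w H h3 hH hfin hraise h (M2b_ker hD ho)

end

end JXD
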