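import Pool.Agent.JXD.M1
import Pool.Agent.JXD.M2
import Pool.Agent.JXD.N5
import Pool.Agent.JXD.S6
import Pool.Agent.JD.Z1

/-!
# [JXD-Z1] the quotient of the conjecture of Birch and Swinnerton-Dyer and the final theorem (given the central value and `NoBadX`)
-/

set_option autoImplicit false

open NumberField IsDedekindDomain ArithmeticFunction
open scoped Classical ComplexConjugate

namespace JXD

open CM27 NAB CF JZ JX JD
open CU (la om eE)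

theorem z1_norm {D : Eis} (hD : Cl0 D) : D.norm.natAbs ≠ 0 ∧ ¬ 3 ∣ D.norm.natAbs := by
  have h1 := s5b_not_la hD
  rw [CU.la_dvd_iff] at h1
  have h3 : ¬ (3 : ℤ) ∣ D.norm := by
    rw [norm_eq]
    intro h3
    apply h1
    have h4 : (3 : ℤ) ∣ (D.re + D.im) ^ 2 := by
      have : (D.re + D.im) ^ 2 = (D.re ^ 2 - D.re * D.im + D.im ^ 2) + 3 * (D.re * D.im) := by ring
      rw [this]
      exact dvd_add h3 (dvd_mul_right _ _)
    exact Int.prime_three.dvd_of_dvd_pow h4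
  constructor
  · intro h0
    rw [Int.natAbs_eq_zero] at h0
    exact h3 (h0 ▸ dvd_zero _)
  · intro h
    exact h3 (Int.natCast_dvd.2 h)

theorem quot_eq {D : Eis} (hD : ClY D) : ∃ c : ℕ, c ≠ 0 ∧ ¬ 3 ∣ c ∧ ∀ (a : ℂ) (q : ℚ),
    a = (((q : ℝ) * ‖emb (4 * D)‖ ^ ((2 : ℝ) / 3) / (144 * ‖emb D‖ ^ 3) : ℝ) : ℂ) * (Om : ℂ) ^ 2 →
    ∀ t : ℕ, quot D a t = ((q * (t : ℚ) ^ 2 / (36 * (c : ℚ)) : ℚ) : ℂ) := by
  obtain ⟨c, hc, hc3, htam⟩ : ∃ c : ℕ, c ≠ 0 ∧ ¬ 3 ∣ c ∧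
      ∏ᶠ v : HeightOneSpectrum (𝓞 KK), SBSD.tam (ED (jK D)) v = c := ⟨1, one_ne_zero, by norm_num, finprod_tam hD⟩
  obtain ⟨hn, hn3⟩ := z1_norm (cl0_of hD)
  have hD0 : D ≠ 0 := ne_of_cl (cl0_of hD)
  refine ⟨D.norm.natAbs * c, mul_ne_zero hn hc, ?_, ?_⟩
  · intro h
    rcases (Nat.Prime.dvd_mul Nat.prime_three).1 h with h1 | h1
    · exact hn3 h1
    · exact hc3 h1
  · intro a q ha t
    have hR0 : (0 : ℝ) < ‖emb D‖ := norm_pos_iff.2 ((map_ne_zero_iff emb emb_injective).2 hD0)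
    have hN : ‖emb D‖ ^ 2 = (D.norm.natAbs : ℝ) := CU.norm_emb D
    have h4 : ‖emb (4 * D)‖ = 4 * ‖emb D‖ := by
      rw [map_mul, map_ofNat, norm_mul]
      norm_num
    have hX0 : (0 : ℝ) < ‖emb (4 * D)‖ := by rw [h4]; positivity
    have hX : ‖emb (4 * D)‖ ^ ((2 : ℝ) / 3) * ‖emb (4 * D)‖ ^ ((1 : ℝ) / 3) = 4 * ‖emb D‖ := by
      rw [← Real.rpow_add hX0, ← h4]
      norm_num
    have hOm0 : (0 : ℝ) < Om := Om_pos
    have hs3 : (0 : ℝ) < √3 := by positivity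
    have hY0 : (0 : ℝ) < ‖emb (4 * D)‖ ^ ((1 : ℝ) / 3) := Real.rpow_pos_of_pos hX0 _
    generalize ‖emb (4 * D)‖ ^ ((2 : ℝ) / 3) = X at *
    rw [quot, period_ED (cl0_of hD), htam, CU.abs_discr_KK, ha]
    generalize ‖emb (4 * D)‖ ^ ((1 : ℝ) / 3) = Y at *
    have hc0 : (c : ℝ) ≠ 0 := by exact_mod_cast hc
    have hn0 : (D.norm.natAbs : ℝ) ≠ 0 := by exact_mod_cast hn
    have key : (q : ℝ) * X / (144 * ‖emb D‖ ^ 3) * Om ^ 2 * √3 * (t : ℝ) ^ 2 / (√3 * Om ^ 2 / Y * (c : ℝ)) =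
        (q : ℝ) * (t : ℝ) ^ 2 / (36 * ((D.norm.natAbs : ℝ) * c)) := by
      rw [← hN]
      field_simp
      linear_combination (36 * (q : ℝ) * (t : ℝ) ^ 2) * hX
    have key2 := congrArg (fun x : ℝ => (x : ℂ)) key
    simp only [Complex.ofReal_mul, Complex.ofReal_div, Complex.ofReal_pow, Complex.ofReal_natCast,
      Complex.ofReal_ratCast, Complex.ofReal_ofNat] at key2
    push_cast
    exact key2

section
variable {D : Eis} {F : Type} [Field F] [NumberField F] [Algebra KK F] {r : F} {τ : F ≃ₐ[KK] F}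

/-- The descent. -/
theorem descent (hD : ClY D) (hQ : Quad D r τ) (hN : NoBadX D r τ) :
    Finite (ED (jK D)).toAffine.Point ∧ ¬ 3 ∣ Nat.card (ED (jK D)).toAffine.Point ∧
      ∀ (x : SBSD.Sha (ED (jK D))) (k : ℕ), 3 ^ k • x = 0 → x = 0 := by
  obtain ⟨h1, h2⟩ := finite_of_phiE (cl0_of hD) hQ exists_o (exists_phiE hD hQ hN exists_o)
  exact ⟨h1, h2, fun x k h => sha_zero hD hQ hN x k h⟩

theorem final_of (hD : ClY D) (hQ : Quad D r τ) (hN : NoBadX D r τ) (Φ : ℂ → ℂ) (hΦ : Differentiable ℂ Φ)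
    (hs : ∀ s : ℂ, 3 / 2 < s.re → Φ s = LSeries (fun n => IL KK (fun I => conj (emb (Psi6 (eE D) I))) n) s)
    (q : ℚ) (hL : Φ 1 * conj (Φ 1) =
      (((q : ℝ) * ‖emb (4 * D)‖ ^ ((2 : ℝ) / 3) / (144 * ‖emb D‖ ^ 3) : ℝ) : ℂ) * (Om : ℂ) ^ 2)
    (hq : q ≠ 0) (hv : padicValRat 3 q = 2) : SBSD3.ThreePartRankZero (ED (jK D)) := by
  obtain ⟨hfin, hcard, hsha⟩ := descent hD hQ hN
  obtain ⟨c, hc, hc3, hquot⟩ := quot_eq hD
  have hE := entire_ED (cl0_of hD) Φ hΦ hs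
  have hD0 : D ≠ 0 := ne_of_cl (cl0_of hD)
  have hL1 : Φ 1 * conj (Φ (conj 1)) =
      (((q : ℝ) * ‖emb (4 * D)‖ ^ ((2 : ℝ) / 3) / (144 * ‖emb D‖ ^ 3) : ℝ) : ℂ) * (Om : ℂ) ^ 2 := by
    rw [map_one]
    exact hL
  set t := Nat.card (ED (jK D)).toAffine.Point with ht
  have ht0 : (t : ℚ) ≠ 0 := by
    intro h
    have : t = 0 := by exact_mod_cast h
    rw [this] at hcard
    exact hcard (dvd_zero 3)
  have hc1 : (c : ℚ) ≠ 0 := by exact_mod_cast hc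
  have hL0 : Φ 1 * conj (Φ (conj 1)) ≠ 0 := by
    rw [hL1]
    have hR0 : (0 : ℝ) < ‖emb D‖ := norm_pos_iff.2 ((map_ne_zero_iff emb emb_injective).2 hD0)
    have := CM27.eis_isDomain
    have hX0 : (0 : ℝ) < ‖emb (4 * D)‖ :=
      norm_pos_iff.2 ((map_ne_zero_iff emb emb_injective).2 (mul_ne_zero (by decide) hD0))
    have hY0 : (0 : ℝ) < ‖emb (4 * D)‖ ^ ((2 : ℝ) / 3) := Real.rpow_pos_of_pos hX0 _
    have hOmC : (Om : ℂ) ≠ 0 := by exact_mod_cast Om_pos.ne'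
    refine mul_ne_zero ?_ (pow_ne_zero _ hOmC)
    rw [Complex.ofReal_ne_zero]
    have hq1 : (q : ℝ) ≠ 0 := by exact_mod_cast hq
    positivity
  refine ⟨z1_elliptic hD0, hfin, fun s => Φ s * conj (Φ (conj s)), hE, ?_, hL0, hsha,
    q * (t : ℚ) ^ 2 / (36 * (c : ℚ)), ?_, ?_, ?_⟩
  · exact CMT.order_eq _ (AnalyticAt.analyticOrderAt_eq_zero (hE.1.analyticAt 1) |>.2 hL0)
  · exact div_ne_zero (mul_ne_zero hq (pow_ne_zero _ ht0)) (mul_ne_zero (by norm_num) hc1)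
  · rw [z1_val q hq t c hcard hc3 hc, hv]
    norm_num
  · have h5 := hquot _ q hL1 t
    rw [quot] at h5
    rw [SBSD2.bsdQuotient, CMT.card_tors]
    exact h5

end

/-- All `D` of the class: `L(E_D, 1) √3 / (Ω ∏ c_v)` is a rational number without `3` in the denominator; it is a `3`-adic unit if and only if `q ≠ 0` and `v₃(q) = 2`. -/
theorem quot_all {D : Eis} (hD : ClY D) (Φ : ℂ → ℂ) (q : ℚ) (hL : Φ 1 * conj (Φ 1) =
      (((q : ℝ) * ‖emb (4 * D)‖ ^ ((2 : ℝ) / 3) / (144 * ‖emb D‖ ^ 3) : ℝ) : ℂ) * (Om : ℂ) ^ 2)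
    (hv : q = 0 ∨ 2 ≤ padicValRat 3 q) :
    ∃ q' : ℚ, quot D (Φ 1 * conj (Φ (conj 1))) 1 = q' ∧ (q' = 0 ∨ 0 ≤ padicValRat 3 q') ∧
      ((q' ≠ 0 ∧ padicValRat 3 q' = 0) ↔ (q ≠ 0 ∧ padicValRat 3 q = 2)) := by
  obtain ⟨c, hc, hc3, hquot⟩ := quot_eq hD
  have hL1 : Φ 1 * conj (Φ (conj 1)) =
      (((q : ℝ) * ‖emb (4 * D)‖ ^ ((2 : ℝ) / 3) / (144 * ‖emb D‖ ^ 3) : ℝ) : ℂ) * (Om : ℂ) ^ 2 := by
    rw [map_one]
    exact hL
  have hc1 : (c : ℚ) ≠ 0 := by exact_mod_cast hc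
  refine ⟨q * ((1 : ℕ) : ℚ) ^ 2 / (36 * (c : ℚ)), hquot _ q hL1 1, ?_, ?_⟩
  · rcases eq_or_ne q 0 with h0 | h0
    · left
      rw [h0]
      simp
    · right
      rw [z1_val q h0 1 c (by norm_num) hc3 hc]
      have := hv.resolve_left h0
      omega
  · rcases eq_or_ne q 0 with h0 | h0
    · rw [h0]
      simp
    · rw [z1_val q h0 1 c (by norm_num) hc3 hc]
      constructor
      · rintro ⟨-, h⟩
        exact ⟨h0, by omega⟩
      · rintro ⟨-, h⟩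
        refine ⟨?_, by omega⟩
        exact div_ne_zero (mul_ne_zero h0 (by norm_num)) (mul_ne_zero (by norm_num) hc1)

end JXD
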