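import Pool.Agent.JXD.T1
import Pool.Agent.JXD.Z1
import Pool.Agent.JXD.E10
import Pool.Agent.JD.T4

/-!
# [JXD-T4] the conjecture of Birch and Swinnerton-Dyer modulo `3` for all `D` prime to `λ`, `D ≢ ± 1 mod 3`, given the central values
-/

set_option autoImplicit false

open NumberField IsDedekindDomain
open scoped Classical ComplexConjugate

namespace JXD

open CM27 NAB CF JZ JX JD
open CU (la om eE)
open JL (KD sD)

/-- The statement on the central values of the L-function of `E_D`. -/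
def LValX (D : Eis) : Prop :=
  ∃ Φ : ℂ → ℂ, Differentiable ℂ Φ ∧
    (∀ s : ℂ, 3 / 2 < s.re → Φ s = LSeries (fun n => IL KK (fun I => conj (emb (Psi6 (eE D) I))) n) s) ∧
    ∃ q : ℚ, Φ 1 * conj (Φ 1) =
      (((q : ℝ) * ‖emb (4 * D)‖ ^ ((2 : ℝ) / 3) / (144 * ‖emb D‖ ^ 3) : ℝ) : ℂ) * (Om : ℂ) ^ 2 ∧
      (q = 0 ∨ 2 ≤ padicValRat 3 q) ∧ ((q ≠ 0 ∧ padicValRat 3 q = 2) ↔ UCX D)

theorem descent_UCX {D : Eis} (hD : ClY D) (h : UCX D) :
    Finite (ED (jK D)).toAffine.Point ∧ ¬ 3 ∣ Nat.card (ED (jK D)).toAffine.Point ∧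
      ∀ (x : SBSD.Sha (ED (jK D))) (k : ℕ), 3 ^ k • x = 0 → x = 0 := by
  letI := algK (KD D) (w_mem D)
  obtain ⟨τ, hQ⟩ := exists_quad (cl0_of hD)
  exact descent hD hQ (noBad_of_UCX (cl0_of hD) h τ hQ)

/-- The class number of `ℚ(ω, √D)` is prime to `3` and there is a unit `u` such that `(u / ū) ^ 8` is not on the line of `D`, if and only if `E_D(K)` is finite and the
Tate–Shafarevich group has no element of order `3`. -/
theorem uc_iffX {D : Eis} (hD : ClY D) : UCX D ↔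
    (Finite (ED (jK D)).toAffine.Point ∧ ∀ x : SBSD.Sha (ED (jK D)), 3 • x = 0 → x = 0) := by
  constructor
  · intro h
    obtain ⟨h1, -, h3⟩ := descent_UCX hD h
    exact ⟨h1, fun x hx => h3 x 1 (by rw [pow_one]; exact hx)⟩
  · rintro ⟨h1, h2⟩
    letI := algK (KD D) (w_mem D)
    obtain ⟨τ, hQ⟩ := exists_quad (cl0_of hD)
    exact uc_of_noBadX (cl0_of hD) τ hQ (noBad_of_finX hD hQ h1 h2)

theorem final_allX {D : Eis} (hD : ClY D) (h : UCX D) (hL : LValX D) : SBSD3.ThreePartRankZero (ED (jK D)) := by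
  letI := algK (KD D) (w_mem D)
  obtain ⟨τ, hQ⟩ := exists_quad (cl0_of hD)
  obtain ⟨Φ, hΦ, hs, q, hq, -, hu⟩ := hL
  obtain ⟨h0, h2⟩ := hu.2 h
  exact final_of hD hQ (noBad_of_UCX (cl0_of hD) h τ hQ) Φ hΦ hs q hq h0 h2

theorem modThreeX {D : Eis} (hD : ClY D) (hL : LValX D) : CUE.ModThree (ED (jK D)) := by
  obtain ⟨Φ, hΦ, hs, q, hq, hv, hu⟩ := hL
  obtain ⟨c, hc, hc3, hquot⟩ := quot_eq hD
  have hf : Fact (Nat.Prime 3) := ⟨Nat.prime_three⟩
  have hL1 : Φ 1 * conj (Φ (conj 1)) =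
      (((q : ℝ) * ‖emb (4 * D)‖ ^ ((2 : ℝ) / 3) / (144 * ‖emb D‖ ^ 3) : ℝ) : ℂ) * (Om : ℂ) ^ 2 := by
    rw [map_one]
    exact hq
  set t := tcard (ED (jK D)) with ht
  have hc1 : (c : ℚ) ≠ 0 := by exact_mod_cast hc
  have e3 : padicValRat 3 (36 : ℚ) = 2 := by
    have h := z1_val 1 one_ne_zero 1 1 (by norm_num) (by norm_num) one_ne_zero
    have h36 : ((1 : ℚ) * ((1 : ℕ) : ℚ) ^ 2 / (36 * ((1 : ℕ) : ℚ))) = (36 : ℚ)⁻¹ := by norm_num
    rw [h36, padicValRat.inv, padicValRat.one] at h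
    linarith
  have hval : q ≠ 0 → t ≠ 0 → padicValRat 3 (q * (t : ℚ) ^ 2 / (36 * (c : ℚ))) =
      padicValRat 3 q - 2 + 2 * padicValRat 3 (t : ℚ) := by
    intro h1 h2
    have h2' : (t : ℚ) ≠ 0 := by exact_mod_cast h2
    rw [padicValRat.div (mul_ne_zero h1 (pow_ne_zero _ h2')) (mul_ne_zero (by norm_num) hc1),
      padicValRat.mul h1 (pow_ne_zero _ h2'), padicValRat.mul (by norm_num) hc1, padicValRat.pow, e3,
      CU.z1_padic_nat c hc3]
    push_cast
    ring
  have ht0 : 0 ≤ padicValRat 3 (t : ℚ) := by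
    rw [padicValRat.of_nat]
    positivity
  refine ⟨z1_elliptic (ne_of_cl (cl0_of hD)), fun s => Φ s * conj (Φ (conj s)), entire_ED (cl0_of hD) Φ hΦ hs,
    q * (t : ℚ) ^ 2 / (36 * (c : ℚ)), ?_, ?_, ?_⟩
  · have h5 := hquot _ q hL1 t
    rw [quot] at h5
    rw [bsd_eq]
    exact h5
  · by_cases h1 : q = 0
    · rw [h1]; simp
    by_cases h2 : t = 0
    · rw [h2]; simp
    rw [hval h1 h2]
    have := hv.resolve_left h1
    linarith
  · rw [← uc_iffX hD, ← hu]
    constructor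
    · rintro ⟨h1, h2⟩
      have h3 : q ≠ 0 := by
        rintro rfl
        simp at h1
      have h4 : t ≠ 0 := by
        intro h5
        rw [h5] at h1
        simp at h1
      rw [hval h3 h4] at h2
      have := hv.resolve_left h3
      exact ⟨h3, by linarith⟩
    · intro h
      obtain ⟨hfin, hcard, -⟩ := descent_UCX hD (hu.1 h)
      obtain ⟨h1, h2⟩ := h
      have ht3 : ¬ 3 ∣ t := by
        rw [ht, tcard_eq]
        exact hcard
      have h4 : t ≠ 0 := by
        intro h5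
        rw [h5] at ht3
        exact ht3 (dvd_zero 3)
      have h4' : (t : ℚ) ≠ 0 := by exact_mod_cast h4
      refine ⟨div_ne_zero (mul_ne_zero h1 (pow_ne_zero _ h4')) (mul_ne_zero (by norm_num) hc1), ?_⟩
      rw [hval h1 h4, h2, CU.z1_padic_nat t ht3]
      norm_num

/-- The `3`-part of the conjecture, if the class number of `ℚ(ω, √D)` is prime to `3` and there is a unit `u` such that `(u / ū) ^ 8` is not on the
line of `D`. -/
theorem threePart_of_UCX {D : Eis} (hD : ClY D) (hL : LValX D) (h : UCX D) :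
    SBSD3.ThreePartRankZero (ED (jK D)) := final_allX hD h hL

/-- The `3`-part of the conjecture, if there is no form. -/
theorem threePart_of_noFormX {D : Eis} (hD : ClY D) (hL : LValX D) (h : ¬ HasFormX D) :
    SBSD3.ThreePartRankZero (ED (jK D)) := threePart_of_UCX hD hL (uc_of_noFormX (cl0_of hD) h)

end JXD
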