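import Pool.Agent.JXD.Q3

/-!
# [JXD-Q5] denominators prime to `λ`

PROOF. `I = {x ∈ 𝓞 F : x z ∈ 𝓞 F}` is an ideal of `𝓞 F`. `I ⊔ (la) = ⊤`: otherwise both are contained in a maximal ideal, a place `w` over `λ`; by hypothesis `w z ≤ 1`, so there is `d ∉ w` with `d z ∈ 𝓞 F`
(`HeightOneSpectrum.exists_primeCompl_mul_eq_of_integer`), `d ∈ I ≤ w`, contradiction. So there are integers `x, y` with `x = 1 + la y`, `x z` integral. `x * τ x = 1 + la (y + τ y + la y τ y)`, where `y + τ y + la y τ y` is integral and fixed by `τ`,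
so it is `jF c` (`fix_int`): `s = 1 + la c`, `jF s = x * τ x`, and `jF s * z = τ x * (x z)` is integral, so it is `jF a + jF b r` (`exists_int`).
-/

set_option autoImplicit false

open NumberField IsDedekindDomain
open scoped Classical

namespace JXD

open CM27 CF JZ JX JD
open CU (la om eE)

section
variable {D : Eis} {F : Type} [Field F] [NumberField F] [Algebra KK F] {r : F} {τ : F ≃ₐ[KK] F}
  (hD : Cl0 D) (hQ : Quad D r τ)
include hD hQ

omit hD hQ in
omit [NumberField F] [Algebra KK F] in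
theorem q5_coe {x : F} (h : IsIntegral ℤ x) : ∃ a : 𝓞 F, algebraMap (𝓞 F) F a = x :=
  (IsIntegralClosure.isIntegral_iff (A := 𝓞 F)).1 h

omit hD hQ in
/-- An element with denominators prime to `λ` has a denominator congruent to one modulo `λ`. -/
theorem q5_den {z : F} (h : ∀ w : HeightOneSpectrum (𝓞 F), OvLa w → w.valuation F z ≤ 1) :
    ∃ x y : F, IsIntegral ℤ y ∧ IsIntegral ℤ (x * z) ∧ x = 1 + jF F la * y := by
  obtain ⟨l, hl⟩ := q5_coe (int_jF F la)
  have hl0 : l ≠ 0 := by
    intro h0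
    have h1 : jF F la = 0 := by rw [← hl, h0, map_zero]
    have h2 : la = 0 := jF_inj F (by rw [h1, map_zero])
    exact CU.la_prime.ne_zero h2
  let I : Ideal (𝓞 F) :=
    { carrier := {x | IsIntegral ℤ (algebraMap (𝓞 F) F x * z)}
      add_mem' := by
        intro a b ha hb
        change IsIntegral ℤ (algebraMap (𝓞 F) F (a + b) * z)
        rw [map_add, add_mul]
        exact IsIntegral.add ha hb
      zero_mem' := by
        change IsIntegral ℤ (algebraMap (𝓞 F) F 0 * z)
        rw [map_zero, zero_mul]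
        exact isIntegral_zero
      smul_mem' := by
        intro c a ha
        change IsIntegral ℤ (algebraMap (𝓞 F) F (c * a) * z)
        rw [map_mul, mul_assoc]
        exact IsIntegral.mul (RingOfIntegers.isIntegral_coe c) ha }
  have hI : ∀ x : 𝓞 F, x ∈ I ↔ IsIntegral ℤ (algebraMap (𝓞 F) F x * z) := fun x => Iff.rfl
  have htop : I ⊔ Ideal.span {l} = ⊤ := by
    by_contra hne
    obtain ⟨M, hM, hle⟩ := Ideal.exists_le_maximal _ hne
    have hlM : l ∈ M := hle (Ideal.mem_sup_right (Ideal.mem_span_singleton_self l))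
    have hMb : M ≠ ⊥ := by
      intro hb
      rw [hb, Ideal.mem_bot] at hlM
      exact hl0 hlM
    obtain ⟨w, hw⟩ : ∃ w : HeightOneSpectrum (𝓞 F), w.asIdeal = M :=
      ⟨⟨M, hM.isPrime, hMb⟩, rfl⟩
    have hov : OvLa w := by
      unfold OvLa
      rw [← hl, HeightOneSpectrum.valuation_lt_one_iff_mem, hw]
      exact hlM
    obtain ⟨n, d, hd⟩ := w.exists_primeCompl_mul_eq_of_integer z (h w hov)
    have hdI : (d : 𝓞 F) ∈ I := by
      rw [hI, mul_comm, hd]
      exact RingOfIntegers.isIntegral_coe n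
    have hdM : (d : 𝓞 F) ∈ w.asIdeal := hw.ge (hle (Ideal.mem_sup_left hdI))
    exact d.2 hdM
  have h1 : (1 : 𝓞 F) ∈ I ⊔ Ideal.span {l} := by
    rw [htop]
    trivial
  obtain ⟨x, hx, v, hv, hxv⟩ := Submodule.mem_sup.mp h1
  obtain ⟨y, rfl⟩ := Ideal.mem_span_singleton'.mp hv
  refine ⟨algebraMap (𝓞 F) F x, - algebraMap (𝓞 F) F y,
    (RingOfIntegers.isIntegral_coe y).neg, (hI x).1 hx, ?_⟩
  have h2 := congrArg (algebraMap (𝓞 F) F) hxv
  rw [map_add, map_mul, map_one, hl] at h2
  linear_combination h2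

theorem exists_den {z : F} (h : ∀ w : HeightOneSpectrum (𝓞 F), OvLa w → w.valuation F z ≤ 1) :
    ∃ s a b : Eis, la ∣ s - 1 ∧ jF F s * z = jF F a + jF F b * r := by
  obtain ⟨x, y, hy, hxz, hx⟩ := q5_den h
  have hint : ∀ u : F, IsIntegral ℤ u → IsIntegral ℤ (τ u) := fun u hu => hu.map τ
  have hxi : IsIntegral ℤ x := by
    rw [hx]
    exact isIntegral_one.add ((int_jF F la).mul hy)
  have hτx : τ x = 1 + jF F la * τ y := by
    rw [hx, map_add, map_mul, map_one, tau_jF]
  have htt := tau_tau (ne_of_cl hD) hQ y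
  obtain ⟨c, hc⟩ := fix_int hD hQ (z := y + τ y + jF F la * (y * τ y))
    (by
      rw [map_add, map_add, map_mul, map_mul, htt, tau_jF]
      ring)
    ((hy.add (hint y hy)).add ((int_jF F la).mul (hy.mul (hint y hy))))
  have hs : jF F (1 + la * c) = x * τ x := by
    rw [map_add, map_mul, map_one, ← hc, hτx, hx]
    ring
  have hsz : IsIntegral ℤ (jF F (1 + la * c) * z) := by
    have e : jF F (1 + la * c) * z = τ x * (x * z) := by
      rw [hs]
      ring
    rw [e]
    exact (hint x hxi).mul hxz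
  obtain ⟨a, b, hab⟩ := exists_int hD hQ hsz
  refine ⟨1 + la * c, a, b, ⟨c, ?_⟩, hab⟩
  ring

end

end JXD
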