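import Pool.Agent.JXD.Q4
import Pool.Agent.JXD.Q5

/-!
# [JXD-PA] the class of an element of norm `1` in `O / λ²`, and the line of `D`

Notation: `w` a place of `F` over `λ` (`OvLa w`); `w (jF F la) = exp (-1)` (`ov_val`), `w r = 1` (`ov_D`), `w 3 = w (la)²` (`CU.three_eq`), `w 2 = 1`. `N1 τ b`: `b τ b = 1` and `w b = 1` for all `w` over `λ`. `E = b^8` satisfies `w (E - 1) < 1` (`ov_eight`, Q4), `τ E = E⁻¹`.
`Ps r b q`: `E - E⁻¹ ≡ λ q r mod λ³` at all `w` over `λ`.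

PROOF. `ps_exists` [PAa]: `z = (E - E⁻¹) / λ` has `w z ≤ 1` for all `w` over `λ` (`w (E - 1) ≤ exp (-1)`, `E - E⁻¹ = (E - 1) + (E - 1) E⁻¹`). `exists_den` (Q5): `s, a, c : Eis` with `la ∣ s - 1` and `jF s * z = jF a + jF c r`. `τ z = -z`: apply `τ`: `jF s * (-z) = jF a - jF c r`, so `jF a = 0`. Choose `s' : Eis` with
`la² ∣ s s' - 1` (`s' = 2 - s`: `s (2 - s) = 1 - (s - 1)²`). `q = s' c`: `jF la * jF q r = jF (s') (jF s) (E - E⁻¹) = (E - E⁻¹) + jF (s s' - 1) (E - E⁻¹)`, and `w` of the last term is `≤ w(la)² w(la)`.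
`ps_congr` [PAa]: `la² ∣ q - q'`: `w (jF (la (q - q')) r) ≤ w(la)³`. `ps_unique` [PAa]: `w (jF (la (q - q')) r) ≤ w (la)³` at a place over `λ` (`exists_ov`), so `w (jF (q - q')) ≤ w (la)²`, `la² ∣ q - q'` (by `ov_mem` twice: `la ∣ q - q'`, `q - q' = la m`, `w (jF m) < 1`).
`n1_mul`, `n1_inv`, `n1_pow` [PAb]: clear. `ps_mul` [PAb]: `E = 1 + x`, `E' = 1 + x'` with `w x, w x' ≤ w(la)`. Put `A = (E + E⁻¹)/2`, `B = (E - E⁻¹)/2`, same for `E'`: `E E' - (E E')⁻¹ = 2 (A B' + A' B)` and `A - 1 = (E - 1)² / (2 E)`: `w (A - 1) ≤ w(la)²`, `w B, w B' ≤ w(la)`. So it is `≡ 2 B' + 2 B mod λ³`.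
`ps_inv` [PAb]: the negative. `ps_cube` [PAb]: `ps_exists` for `b` and `ps_mul` twice: `Ps r (b^3) (q + q + q)`, `3 q ≡ 0 mod λ²` (`CU.three_eq`), `ps_congr`.
`ps_tau` [PAb]: if the congruence holds at one place over `λ` it holds at all: `ov_trans` (Q3): `w' = w` or `w' x = w (τ x)`, and `τ (E - E⁻¹ - jF (la q) r) = -(E - E⁻¹ - jF (la q) r)` (`tau_jF`, `hQ.tau`, `τ b = b⁻¹`).
`dig_unique` [PAc]: `la³` divides the difference of the two expansions, whose digits differences are in `{-2, ..., 2}`; `la ∣ n` for an integer `n` iff `3 ∣ n` (`CU.la_dvd_iff`); so `d₀ = e₀`, then divide by `la`, etc.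
`exists_dig` [PAc]: `¬ la ∣ D`: choose successively residues modulo `la` (`Eis / la = F₃`, representatives `0, 1, -1`).
`ln_zero`, `ln_add`, `ln_neg`, `ln_congr` [PAc]: `dig_unique` for the addition; the multiples `t (1 + c la)` with `t : ℤ`. `ln_line` [PAc]: with `c = d₁ (1 + d₂)`: `q ≡ m + n la mod la²` with integers `m, n` (digits); `Ln D q` iff `3 ∣ n - c m` (`la ∣ n - c m`). If `n_b - c m_b` is not divisible by 3 then one of `j = 0, 1, 2` has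
`3 ∣ (n_a - c m_a) + j (n_b - c m_b)`.
`px_mul`, `px_inv`, `px_cube`, `px_adjust` [PAd]: from these. `px_one` [PAd].
-/

set_option autoImplicit false

open NumberField IsDedekindDomain
open scoped Classical

namespace JXD

open CM27 CF JZ JX JD
open CU (la om eE)

/-- `b^8 - b⁻⁸ ≡ λ q √D` modulo `λ³` at the places over `λ` -/
def Ps {F : Type} [Field F] [NumberField F] [Algebra KK F] (r b : F) (q : Eis) : Prop :=
  ∀ w : HeightOneSpectrum (𝓞 F), OvLa w →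
    w.valuation F (b ^ 8 - (b ^ 8)⁻¹ - jF F (la * q) * r) ≤ w.valuation F (jF F la) ^ 3

/-- norm `1` and a unit at the places over `λ` -/
def N1 {F : Type} [Field F] [NumberField F] [Algebra KK F] (τ : F ≃ₐ[KK] F) (b : F) : Prop :=
  b * τ b = 1 ∧ ∀ w : HeightOneSpectrum (𝓞 F), OvLa w → w.valuation F b = 1

/-- the class of `b` is on the line of `D` -/
def PX {F : Type} [Field F] [NumberField F] [Algebra KK F] (D : Eis) (r b : F) : Prop :=
  ∃ q : Eis, Ps r b q ∧ Ln D q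

/-- The elements `a` with `a ā = 1` whose divisor is a cube, units over `λ`, with class on the line of `D`. -/
def LamX {F : Type} [Field F] [NumberField F] [Algebra KK F] (D : Eis) (r : F) (τ : F ≃ₐ[KK] F) (a : F) : Prop :=
  a * τ a = 1 ∧
  (∀ w : HeightOneSpectrum (𝓞 F), ∃ g : WithZero (Multiplicative ℤ), w.valuation F a = g ^ 3) ∧
  (∀ w : HeightOneSpectrum (𝓞 F), OvLa w → w.valuation F a = 1) ∧ PX D r a

/-- All elements of `LamX` are cubes. -/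
def NoBadX {F : Type} [Field F] [NumberField F] [Algebra KK F] (D : Eis) (r : F) (τ : F ≃ₐ[KK] F) : Prop :=
  ∀ a : F, LamX D r τ a → ∃ c : F, c ^ 3 = a

theorem pac_int (n : ℤ) : la ∣ (n : Eis) ↔ (3 : ℤ) ∣ n := by
  rw [CU.la_dvd_iff]
  simp

theorem pac_la0 : la ≠ 0 := CU.la_prime.ne_zero

theorem pac_exp {n₀ n₁ n₂ : ℤ} (b0 : -2 ≤ n₀ ∧ n₀ ≤ 2) (b1 : -2 ≤ n₁ ∧ n₁ ≤ 2) (b2 : -2 ≤ n₂ ∧ n₂ ≤ 2)
    (h : la ^ 3 ∣ (n₀ : Eis) + (n₁ : Eis) * la + (n₂ : Eis) * la ^ 2) : n₀ = 0 ∧ n₁ = 0 ∧ n₂ = 0 := by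
  have : IsDomain Eis := CM27.eis_isDomain
  obtain ⟨k, hk⟩ := h
  have h0 : (3 : ℤ) ∣ n₀ := by
    rw [← pac_int]
    refine ⟨la ^ 2 * k - (n₁ : Eis) - (n₂ : Eis) * la, ?_⟩
    linear_combination hk
  have e0 : n₀ = 0 := by omega
  subst e0
  have hk1 : (n₁ : Eis) + (n₂ : Eis) * la = la ^ 2 * k := by
    apply mul_left_cancel₀ pac_la0
    rw [Int.cast_zero] at hk
    linear_combination hk
  have h1 : (3 : ℤ) ∣ n₁ := by
    rw [← pac_int]
    refine ⟨la * k - (n₂ : Eis), ?_⟩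
    linear_combination hk1
  have e1 : n₁ = 0 := by omega
  subst e1
  have hk2 : (n₂ : Eis) = la * k := by
    apply mul_left_cancel₀ pac_la0
    rw [Int.cast_zero] at hk1
    linear_combination hk1
  have h2 : (3 : ℤ) ∣ n₂ := by
    rw [← pac_int]
    exact ⟨k, hk2⟩
  exact ⟨rfl, rfl, by omega⟩

theorem pac_digit (a : Eis) : ∃ d : ℤ, (d = 0 ∨ d = 1 ∨ d = -1) ∧ ∃ b : Eis, a = (d : Eis) + la * b := by
  have h0 : (a.re + a.im) % 3 = 0 ∨ (a.re + a.im) % 3 = 1 ∨ (a.re + a.im) % 3 = 2 := by omega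
  have key : ∀ d : ℤ, (3 : ℤ) ∣ a.re + a.im - d → ∃ b : Eis, a = (d : Eis) + la * b := by
    intro d hd
    have h1 : la ∣ a - (d : Eis) := by
      rw [CU.la_dvd_iff]
      have e : (a - (d : Eis)).re + (a - (d : Eis)).im = a.re + a.im - d := by
        simp
        ring
      rw [e]
      exact hd
    obtain ⟨b, hb⟩ := h1
    exact ⟨b, by linear_combination hb⟩
  rcases h0 with h0 | h0 | h0
  · exact ⟨0, Or.inl rfl, key 0 (by omega)⟩
  · exact ⟨1, Or.inr (Or.inl rfl), key 1 (by omega)⟩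
  · exact ⟨-1, Or.inr (Or.inr rfl), key (-1) (by omega)⟩

/-- [PAc] -/
theorem dig_unique {D : Eis} {d₀ d₁ d₂ e₀ e₁ e₂ : ℤ} (h : Dig D d₀ d₁ d₂) (h' : Dig D e₀ e₁ e₂) :
    d₀ = e₀ ∧ d₁ = e₁ ∧ d₂ = e₂ := by
  obtain ⟨a0, a1, a2, k, hk⟩ := h
  obtain ⟨b0, b1, b2, m, hm⟩ := h'
  have h3 : la ^ 3 ∣ ((d₀ - e₀ : ℤ) : Eis) + ((d₁ - e₁ : ℤ) : Eis) * la + ((d₂ - e₂ : ℤ) : Eis) * la ^ 2 := by
    refine ⟨m - k, ?_⟩
    push_cast
    linear_combination hm - hk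
  have h4 := pac_exp (by omega) (by omega) (by omega) h3
  exact ⟨by omega, by omega, by omega⟩

/-- [PAc] -/
theorem exists_dig {D : Eis} (h : ¬ la ∣ D) : ∃ d₀ d₁ d₂ : ℤ, Dig D d₀ d₁ d₂ := by
  obtain ⟨d₀, h0, b, hb⟩ := pac_digit D
  obtain ⟨d₁, h1, c, hc⟩ := pac_digit b
  obtain ⟨d₂, h2, e, he⟩ := pac_digit c
  refine ⟨d₀, d₁, d₂, ?_, h1, h2, e, ?_⟩
  · rcases h0 with rfl | h0
    · exfalso
      apply h
      refine ⟨b, ?_⟩
      rw [hb, Int.cast_zero, zero_add]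
    · exact h0
  · rw [hb, hc, he]
    ring

/-- [PAc] -/
theorem ln_zero {D : Eis} (h : ¬ la ∣ D) : Ln D 0 := by
  obtain ⟨d₀, d₁, d₂, hd⟩ := exists_dig h
  refine ⟨d₀, d₁, d₂, 0, hd, ?_⟩
  rw [Int.cast_zero, zero_mul, sub_zero]
  exact dvd_zero _

/-- [PAc] -/
theorem ln_add {D q q' : Eis} (h : Ln D q) (h' : Ln D q') : Ln D (q + q') := by
  obtain ⟨d₀, d₁, d₂, t, hd, k, hk⟩ := h
  obtain ⟨e₀, e₁, e₂, t', he, k', hk'⟩ := h'
  obtain ⟨rfl, rfl, rfl⟩ := dig_unique hd he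
  refine ⟨d₀, d₁, d₂, t + t', hd, k + k', ?_⟩
  push_cast at hk hk' ⊢
  linear_combination hk + hk'

/-- [PAc] -/
theorem ln_neg {D q : Eis} (h : Ln D q) : Ln D (-q) := by
  obtain ⟨d₀, d₁, d₂, t, hd, k, hk⟩ := h
  refine ⟨d₀, d₁, d₂, -t, hd, -k, ?_⟩
  push_cast at hk ⊢
  linear_combination -hk

/-- [PAc] -/
theorem ln_congr {D q q' : Eis} (h : Ln D q) (hq : la ^ 2 ∣ q - q') : Ln D q' := by
  obtain ⟨d₀, d₁, d₂, t, hd, k, hk⟩ := h
  obtain ⟨m, hm⟩ := hq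
  refine ⟨d₀, d₁, d₂, t, hd, k - m, ?_⟩
  linear_combination hk - hm

theorem pac_mk {D q : Eis} {d₀ d₁ d₂ m n : ℤ} (hd : Dig D d₀ d₁ d₂) (hq : la ^ 2 ∣ q - ((m : Eis) + (n : Eis) * la))
    (h : (3 : ℤ) ∣ n - d₁ * (1 + d₂) * m) : Ln D q := by
  obtain ⟨k, hk⟩ := hq
  obtain ⟨l, hl⟩ := (pac_int _).2 h
  refine ⟨d₀, d₁, d₂, m, hd, k + l, ?_⟩
  push_cast at hl ⊢
  linear_combination hk + la * hl

theorem pac_mod (q : Eis) : ∃ m n : ℤ, la ^ 2 ∣ q - ((m : Eis) + (n : Eis) * la) := by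
  obtain ⟨m, -, b, hb⟩ := pac_digit q
  obtain ⟨n, -, c, hc⟩ := pac_digit b
  refine ⟨m, n, c, ?_⟩
  rw [hb, hc]
  ring

/-- [PAc] -/
theorem ln_line {D : Eis} (h : ¬ la ∣ D) (q q' : Eis) (hq : ¬ Ln D q') :
    Ln D q ∨ Ln D (q + q') ∨ Ln D (q + (q' + q')) := by
  obtain ⟨d₀, d₁, d₂, hd⟩ := exists_dig h
  obtain ⟨m, n, h1⟩ := pac_mod q
  obtain ⟨m', n', h2⟩ := pac_mod q'
  have h3 : ¬ (3 : ℤ) ∣ n' - d₁ * (1 + d₂) * m' := fun h3 => hq (pac_mk hd h2 h3)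
  have h4 : (3 : ℤ) ∣ n - d₁ * (1 + d₂) * m ∨ (3 : ℤ) ∣ (n + n') - d₁ * (1 + d₂) * (m + m') ∨
      (3 : ℤ) ∣ (n + (n' + n')) - d₁ * (1 + d₂) * (m + (m' + m')) := by
    have e1 : (n + n') - d₁ * (1 + d₂) * (m + m') = (n - d₁ * (1 + d₂) * m) + (n' - d₁ * (1 + d₂) * m') := by ring
    have e2 : (n + (n' + n')) - d₁ * (1 + d₂) * (m + (m' + m')) =
        (n - d₁ * (1 + d₂) * m) + 2 * (n' - d₁ * (1 + d₂) * m') := by ring
    rw [e1, e2]
    generalize n - d₁ * (1 + d₂) * m = x at *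
    generalize n' - d₁ * (1 + d₂) * m' = y at *
    have hx : x % 3 = 0 ∨ x % 3 = 1 ∨ x % 3 = 2 := by omega
    have hy : y % 3 = 1 ∨ y % 3 = 2 := by omega
    rcases hx with hx | hx | hx <;> rcases hy with hy | hy
    · left; omega
    · left; omega
    · right; right; omega
    · right; left; omega
    · right; left; omega
    · right; right; omega
  obtain ⟨k, hk⟩ := h1
  obtain ⟨k', hk'⟩ := h2
  rcases h4 with h4 | h4 | h4
  · left
    exact pac_mk hd ⟨k, hk⟩ h4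
  · right; left
    refine pac_mk hd ⟨k + k', ?_⟩ h4
    push_cast
    linear_combination hk + hk'
  · right; right
    refine pac_mk hd ⟨k + (k' + k'), ?_⟩ h4
    push_cast
    linear_combination hk + 2 * hk'

section
variable {D : Eis} {F : Type} [Field F] [NumberField F] [Algebra KK F] {r : F} {τ : F ≃ₐ[KK] F}
  (hD : Cl0 D) (hQ : Quad D r τ)
include hD hQ

omit hD hQ in
theorem paa_lt {x : WithZero (Multiplicative ℤ)} (hx : x < 1) : x ≤ WithZero.exp (-1 : ℤ) := by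
  by_cases h0 : x = 0
  · rw [h0]
    exact zero_le
  · obtain ⟨n, hn⟩ : ∃ n : ℤ, x = WithZero.exp n := ⟨WithZero.log x, (WithZero.exp_log h0).symm⟩
    rw [hn] at hx ⊢
    rw [← WithZero.exp_zero, WithZero.exp_lt_exp] at hx
    rw [WithZero.exp_le_exp]
    omega

/-- `w (E - 1) ≤ w la` -/
theorem paa_one {w : HeightOneSpectrum (𝓞 F)} (hw : OvLa w) {b : F} (hb : w.valuation F b = 1) :
    w.valuation F (b ^ 8 - 1) ≤ w.valuation F (jF F la) := by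
  rw [ov_val hD hQ w hw]
  exact paa_lt (ov_eight hD hQ w hw hb)

omit hD hQ in
theorem paa_ne {w : HeightOneSpectrum (𝓞 F)} {b : F} (hb : w.valuation F b = 1) : b ≠ 0 := by
  rintro rfl
  rw [map_zero] at hb
  exact zero_ne_one hb

omit hD hQ in
theorem paa_tau {b : F} (hb : N1 τ b) (hb0 : b ≠ 0) : τ (b ^ 8 - (b ^ 8)⁻¹) = -(b ^ 8 - (b ^ 8)⁻¹) := by
  have h1 : τ b = b⁻¹ := eq_inv_of_mul_eq_one_right hb.1
  rw [map_sub, map_inv₀, map_pow, h1, inv_pow, inv_inv]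
  ring

/-- [PAa] -/
theorem ps_exists {b : F} (hb : N1 τ b) : ∃ q : Eis, Ps r b q := by
  obtain ⟨w₀, hw₀⟩ := exists_ov hD hQ
  have hb0 : b ≠ 0 := paa_ne (hb.2 w₀ hw₀)
  have hla0 : jF F la ≠ 0 := by
    intro h0
    have h1 : la = 0 := jF_inj F (by rw [h0, map_zero])
    exact CU.la_prime.ne_zero h1
  have hE0 : b ^ 8 ≠ 0 := pow_ne_zero 8 hb0
  have hEE : ∀ w : HeightOneSpectrum (𝓞 F), OvLa w →
      w.valuation F (b ^ 8 - (b ^ 8)⁻¹) ≤ w.valuation F (jF F la) := by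
    intro w hw
    have h1 := paa_one hD hQ hw (hb.2 w hw)
    have e : b ^ 8 - (b ^ 8)⁻¹ = (b ^ 8 - 1) + (b ^ 8 - 1) * (b ^ 8)⁻¹ := by
      rw [sub_mul, mul_inv_cancel₀ hE0]
      ring
    rw [e]
    refine Valuation.map_add_le _ h1 ?_
    rw [map_mul, map_inv₀, map_pow, hb.2 w hw, one_pow, inv_one, mul_one]
    exact h1
  obtain ⟨s, a, c, hs, hz⟩ := exists_den hD hQ (z := (b ^ 8 - (b ^ 8)⁻¹) / jF F la) (by
    intro w hw
    rw [map_div₀]
    exact div_le_one_of_le₀ (hEE w hw) zero_le)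
  have hz2 : jF F s * (-((b ^ 8 - (b ^ 8)⁻¹) / jF F la)) = jF F a - jF F c * r := by
    have h1 := congrArg τ hz
    rw [map_mul, tau_jF, map_div₀, tau_jF, paa_tau hb hb0, map_add, map_mul, tau_jF, tau_jF, hQ.tau] at h1
    rw [neg_div] at h1
    rw [h1]
    ring
  have ha : jF F a = 0 := by
    have h2 : (2 : F) * jF F a = 0 := by linear_combination -hz - hz2
    rcases mul_eq_zero.1 h2 with h2 | h2
    · exact absurd h2 two_ne_zero
    · exact h2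
  rw [ha, zero_add] at hz
  have hz3 : jF F s * (b ^ 8 - (b ^ 8)⁻¹) = jF F la * jF F c * r := by
    have h1 : jF F la * (jF F s * ((b ^ 8 - (b ^ 8)⁻¹) / jF F la)) = jF F s * (b ^ 8 - (b ^ 8)⁻¹) := by
      field_simp
    rw [← h1, hz]
    ring
  refine ⟨(2 - s) * c, ?_⟩
  intro w hw
  obtain ⟨k, hk⟩ := hs
  have e : b ^ 8 - (b ^ 8)⁻¹ - jF F (la * ((2 - s) * c)) * r = jF F la ^ 2 * jF F (k ^ 2) * (b ^ 8 - (b ^ 8)⁻¹) := by
    have h1 : jF F (la * ((2 - s) * c)) * r = jF F (2 - s) * (jF F la * jF F c * r) := by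
      rw [map_mul, map_mul]
      ring
    rw [h1, ← hz3]
    have h2 : jF F (s - 1) = jF F (la * k) := by rw [hk]
    rw [map_sub, map_one, map_mul] at h2
    rw [map_sub, map_ofNat, map_pow]
    linear_combination (b ^ 8 - (b ^ 8)⁻¹) * (jF F s - 1 + jF F la * jF F k) * h2
  rw [e, map_mul, map_mul, map_pow]
  calc w.valuation F (jF F la) ^ 2 * w.valuation F (jF F (k ^ 2)) * w.valuation F (b ^ 8 - (b ^ 8)⁻¹) ≤
        w.valuation F (jF F la) ^ 2 * 1 * w.valuation F (jF F la) := by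
        gcongr
        · exact q3a_le w (int_jF F _)
        · exact hEE w hw
    _ = _ := by rw [mul_one]; exact (pow_succ _ 2).symm

/-- [PAa] -/
theorem ps_congr {b : F} {q q' : Eis} (h : Ps r b q) (hq : la ^ 2 ∣ q - q') : Ps r b q' := by
  obtain ⟨m, hm⟩ := hq
  intro w hw
  have e : b ^ 8 - (b ^ 8)⁻¹ - jF F (la * q') * r = (b ^ 8 - (b ^ 8)⁻¹ - jF F (la * q) * r) +
      jF F la ^ 3 * (jF F m * r) := by
    have h1 : jF F (q - q') = jF F (la ^ 2 * m) := by rw [hm]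
    rw [map_sub, map_mul, map_pow] at h1
    rw [map_mul, map_mul]
    linear_combination jF F la * r * h1
  rw [e]
  refine Valuation.map_add_le _ (h w hw) ?_
  rw [map_mul, map_pow]
  calc w.valuation F (jF F la) ^ 3 * w.valuation F (jF F m * r) ≤ w.valuation F (jF F la) ^ 3 * 1 := by
        gcongr
        exact q3a_le w ((int_jF F m).mul (int_r hQ))
    _ = _ := mul_one _

/-- [PAa] -/
theorem ps_unique {b : F} {q q' : Eis} (h : Ps r b q) (h' : Ps r b q') : la ^ 2 ∣ q - q' := by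
  obtain ⟨w, hw⟩ := exists_ov hD hQ
  have hr : w.valuation F r = 1 := (ov_D hD hQ w hw).2
  have hlt : w.valuation F (jF F la) < 1 := hw
  have hla0 : w.valuation F (jF F la) ≠ 0 := by
    rw [ov_val hD hQ w hw]
    exact WithZero.exp_ne_zero
  have h1 : w.valuation F (jF F la * jF F (q - q')) ≤ w.valuation F (jF F la) ^ 3 := by
    have e : jF F la * jF F (q - q') * r = (b ^ 8 - (b ^ 8)⁻¹ - jF F (la * q') * r) -
        (b ^ 8 - (b ^ 8)⁻¹ - jF F (la * q) * r) := by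
      rw [map_sub, map_mul, map_mul]
      ring
    have h2 : w.valuation F (jF F la * jF F (q - q') * r) ≤ w.valuation F (jF F la) ^ 3 := by
      rw [e]
      exact Valuation.map_sub_le _ (h' w hw) (h w hw)
    rwa [map_mul _ _ r, hr, mul_one] at h2
  have hpos : 0 < w.valuation F (jF F la) := zero_lt_iff.2 hla0
  have h2 : w.valuation F (jF F (q - q')) ≤ w.valuation F (jF F la) ^ 2 := by
    rw [map_mul, pow_succ' _ 2] at h1
    exact le_of_mul_le_mul_left h1 hpos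
  have h3 : la ∣ q - q' := by
    rw [← ov_mem w hw]
    exact lt_of_le_of_lt h2 (pow_lt_one₀ zero_le hlt two_ne_zero)
  obtain ⟨m, hm⟩ := h3
  rw [hm, map_mul, map_mul, pow_succ' _ 1, pow_one] at h2
  have h4 : w.valuation F (jF F m) ≤ w.valuation F (jF F la) := le_of_mul_le_mul_left h2 hpos
  obtain ⟨n, hn⟩ := (ov_mem w hw m).1 (lt_of_le_of_lt h4 hlt)
  refine ⟨n, ?_⟩
  rw [hm, hn]
  ring

omit hD hQ in
/-- [PAb] -/
theorem n1_mul {a b : F} (ha : N1 τ a) (hb : N1 τ b) : N1 τ (a * b) := by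
  refine ⟨?_, ?_⟩
  · rw [map_mul]
    calc a * b * (τ a * τ b) = (a * τ a) * (b * τ b) := by ring
      _ = 1 := by rw [ha.1, hb.1, one_mul]
  · intro w hw
    rw [map_mul, ha.2 w hw, hb.2 w hw, one_mul]

omit hD hQ in
/-- [PAb] -/
theorem n1_inv {a : F} (ha : N1 τ a) : N1 τ a⁻¹ := by
  refine ⟨?_, ?_⟩
  · rw [map_inv₀, ← mul_inv, ha.1, inv_one]
  · intro w hw
    rw [map_inv₀, ha.2 w hw, inv_one]

omit hD hQ in
/-- [PAb] -/
theorem n1_pow {a : F} (ha : N1 τ a) (n : ℕ) : N1 τ (a ^ n) := by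
  induction n with
  | zero =>
    rw [pow_zero]
    exact ⟨by rw [map_one, one_mul], fun w _ => map_one _⟩
  | succ n ih =>
    rw [pow_succ]
    exact n1_mul ih ha

omit hD hQ in
theorem pab_lt {x : WithZero (Multiplicative ℤ)} (hx : x < 1) : x ≤ WithZero.exp (-1 : ℤ) := by
  by_cases h0 : x = 0
  · rw [h0]
    exact zero_le
  · obtain ⟨n, hn⟩ : ∃ n : ℤ, x = WithZero.exp n := ⟨WithZero.log x, (WithZero.exp_log h0).symm⟩
    rw [hn] at hx ⊢
    rw [← WithZero.exp_zero, WithZero.exp_lt_exp] at hx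
    rw [WithZero.exp_le_exp]
    omega

/-- `w (E - 1) ≤ w la` -/
theorem pab_one {w : HeightOneSpectrum (𝓞 F)} (hw : OvLa w) {b : F} (hb : w.valuation F b = 1) :
    w.valuation F (b ^ 8 - 1) ≤ w.valuation F (jF F la) := by
  rw [ov_val hD hQ w hw]
  exact pab_lt (ov_eight hD hQ w hw hb)

omit hD hQ in
theorem pab_ne {w : HeightOneSpectrum (𝓞 F)} {b : F} (hb : w.valuation F b = 1) : b ≠ 0 := by
  rintro rfl
  rw [map_zero] at hb
  exact zero_ne_one hb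

/-- [PAb] -/
theorem ps_mul {a b : F} (ha : N1 τ a) (hb : N1 τ b) {q q' : Eis} (h : Ps r a q) (h' : Ps r b q') :
    Ps r (a * b) (q + q') := by
  intro w hw
  have va := ha.2 w hw
  have vb := hb.2 w hw
  have ea := pab_one hD hQ hw va
  have eb := pab_one hD hQ hw vb
  have a0 : a ^ 8 ≠ 0 := pow_ne_zero 8 (pab_ne va)
  have b0 : b ^ 8 ≠ 0 := pow_ne_zero 8 (pab_ne vb)
  have hc : w.valuation F (a ^ 8 * b ^ 8 - 1) ≤ w.valuation F (jF F la) := by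
    have e : a ^ 8 * b ^ 8 - 1 = (a ^ 8 - 1) * b ^ 8 + (b ^ 8 - 1) := by ring
    rw [e]
    refine Valuation.map_add_le _ ?_ eb
    rw [map_mul, map_pow _ b, vb, one_pow, mul_one]
    exact ea
  have e : (a * b) ^ 8 - ((a * b) ^ 8)⁻¹ - jF F (la * (q + q')) * r =
      ((a ^ 8 - (a ^ 8)⁻¹ - jF F (la * q) * r) + (b ^ 8 - (b ^ 8)⁻¹ - jF F (la * q') * r)) +
      (a ^ 8 - 1) * (b ^ 8 - 1) * (a ^ 8 * b ^ 8 - 1) * (a ^ 8)⁻¹ * (b ^ 8)⁻¹ := by
    rw [mul_pow, mul_add, map_add]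
    generalize a ^ 8 = A at *
    generalize b ^ 8 = B at *
    field_simp
    ring
  rw [e]
  refine Valuation.map_add_le _ (Valuation.map_add_le _ (h w hw) (h' w hw)) ?_
  rw [map_mul, map_mul, map_mul, map_mul, map_inv₀, map_inv₀, map_pow _ a, map_pow _ b, va, vb, one_pow, inv_one,
    mul_one, mul_one]
  calc w.valuation F (a ^ 8 - 1) * w.valuation F (b ^ 8 - 1) * w.valuation F (a ^ 8 * b ^ 8 - 1) ≤
        w.valuation F (jF F la) * w.valuation F (jF F la) * w.valuation F (jF F la) := by gcongr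
    _ = _ := by rw [pow_succ, pow_two]

/-- [PAb] -/
theorem ps_inv {a : F} (ha : N1 τ a) {q : Eis} (h : Ps r a q) : Ps r a⁻¹ (-q) := by
  intro w hw
  have h1 := h w hw
  have e : a⁻¹ ^ 8 - (a⁻¹ ^ 8)⁻¹ - jF F (la * -q) * r = -(a ^ 8 - (a ^ 8)⁻¹ - jF F (la * q) * r) := by
    rw [inv_pow, inv_inv, mul_neg, map_neg]
    ring
  rw [e, Valuation.map_neg]
  exact h1

/-- [PAb] -/
theorem ps_cube {a : F} (ha : N1 τ a) : Ps r (a ^ 3) 0 := by
  obtain ⟨q, hq⟩ := ps_exists hD hQ ha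
  have h1 := ps_mul hD hQ ha (n1_mul ha ha) hq (ps_mul hD hQ ha ha hq hq)
  have e : a * (a * a) = a ^ 3 := by ring
  rw [e] at h1
  refine ps_congr hD hQ h1 ⟨-om ^ 2 * q, ?_⟩
  linear_combination q * CU.three_eq

/-- [PAb] -/
theorem ps_tau {b : F} (hb : N1 τ b) {q : Eis} (w : HeightOneSpectrum (𝓞 F)) (hw : OvLa w)
    (h : w.valuation F (b ^ 8 - (b ^ 8)⁻¹ - jF F (la * q) * r) ≤ w.valuation F (jF F la) ^ 3) : Ps r b q := by
  have hw0 : w.valuation F b = 1 := hb.2 w hw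
  have hb0 : b ≠ 0 := pab_ne hw0
  intro w' hw'
  rcases ov_trans hD hQ w w' hw hw' with h1 | h1
  · rw [h1, h1]
    exact h
  · have h2 : τ b = b⁻¹ := eq_inv_of_mul_eq_one_right hb.1
    rw [h1, h1, tau_jF]
    have e : τ (b ^ 8 - (b ^ 8)⁻¹ - jF F (la * q) * r) = -(b ^ 8 - (b ^ 8)⁻¹ - jF F (la * q) * r) := by
      rw [map_sub, map_sub, map_inv₀, map_pow, h2, inv_pow, inv_inv, map_mul, tau_jF, hQ.tau]
      ring
    rw [e, Valuation.map_neg]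
    exact h

/-- [PAd] -/
theorem px_mul {a b : F} (ha : N1 τ a) (hb : N1 τ b) (h : PX D r a) (h' : PX D r b) : PX D r (a * b) := by
  obtain ⟨q, h1, h2⟩ := h
  obtain ⟨q', h1', h2'⟩ := h'
  exact ⟨q + q', ps_mul hD hQ ha hb h1 h1', ln_add h2 h2'⟩

/-- [PAd] -/
theorem px_inv {a : F} (ha : N1 τ a) (h : PX D r a) : PX D r a⁻¹ := by
  obtain ⟨q, h1, h2⟩ := h
  exact ⟨-q, ps_inv hD hQ ha h1, ln_neg h2⟩

/-- [PAd] -/
theorem px_cube {a : F} (ha : N1 τ a) : PX D r (a ^ 3) := by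
  exact ⟨0, ps_cube hD hQ ha, ln_zero hD.2.1⟩

/-- [PAd] -/
theorem px_one {a : F} (h : a ^ 8 = 1) : PX D r a := by
  refine ⟨0, ?_, ln_zero hD.2.1⟩
  intro w _
  have e : a ^ 8 - (a ^ 8)⁻¹ - jF F (la * 0) * r = 0 := by
    rw [h, mul_zero, map_zero, zero_mul, inv_one, sub_self, sub_zero]
  rw [e, map_zero]
  exact zero_le

/-- [PAd] -/
theorem px_sq {a : F} (ha : N1 τ a) (h : PX D r (a ^ 2)) : PX D r a := by
  have ha0 : a ≠ 0 := by
    intro h0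
    have h1 := ha.1
    rw [h0, zero_mul] at h1
    exact zero_ne_one h1
  have h2 : N1 τ (a ^ 2) := n1_pow ha 2
  have h3 : N1 τ (a ^ 3) := n1_pow ha 3
  have h4 : PX D r (a ^ 2 * a ^ 2) := px_mul hD hQ h2 h2 h h
  have h5 : PX D r (a ^ 3)⁻¹ := px_inv hD hQ h3 (px_cube hD hQ ha)
  have h6 : PX D r (a ^ 2 * a ^ 2 * (a ^ 3)⁻¹) := px_mul hD hQ (n1_mul h2 h2) (n1_inv h3) h4 h5
  have e : a ^ 2 * a ^ 2 * (a ^ 3)⁻¹ = a := by
    field_simp
  rwa [e] at h6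

/-- [PAd] -/
theorem px_adjust {a b : F} (ha : N1 τ a) (hb : N1 τ b) (h : ¬ PX D r b) :
    ∃ j : ℕ, PX D r (a * b ^ j) := by
  obtain ⟨q, h1⟩ := ps_exists hD hQ ha
  obtain ⟨q', h2⟩ := ps_exists hD hQ hb
  have h3 : ¬ Ln D q' := fun h3 => h ⟨q', h2, h3⟩
  rcases ln_line hD.2.1 q q' h3 with h4 | h4 | h4
  · refine ⟨0, ?_⟩
    rw [pow_zero, mul_one]
    exact ⟨q, h1, h4⟩
  · refine ⟨1, ?_⟩
    rw [pow_one]
    exact ⟨q + q', ps_mul hD hQ ha hb h1 h2, h4⟩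
  · refine ⟨2, ?_⟩
    rw [pow_two]
    exact ⟨q + (q' + q'), ps_mul hD hQ ha (n1_mul hb hb) h1 (ps_mul hD hQ hb hb h2 h2), h4⟩

end

end JXD
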