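import Pool.Agent.JXD.F1
import Pool.Agent.JXD.PA
import Pool.Agent.JD.G1

/-!
# [JXD-F2] `¬ NoBadX → HasFormX D`

PROOF. `ps_beta`: `w` over `λ`: `w (jF A) = 1`, `w r = 1`. `ε = jF (la m) r / jF A`, `w ε ≤ w (la)`; `b = β / τ β = (1 + ε) / (1 - ε)`;
`(b^8 - b⁻⁸) (1 - ε²)^8 = (1 + ε)^16 - (1 - ε)^16 = 32 ε + ε³ P(ε)`, so `(b^8 - b⁻⁸ + η la m r) (1 - ε²)^8 = la m r (32 + η A) / A + ε³ (..) + la m r ε² (..)`, and `la² ∣ 32 + η A` (`η A ≡ 1`, `33 = 3 · 11`).
-/

set_option autoImplicit false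

open NumberField IsDedekindDomain
open scoped Classical

namespace JXD

open CM27 CF JZ JX JD
open CU (la om eE)

/-- the pure computation -/
theorem f2_pure {F : Type} [Field F] (w : Valuation F (WithZero (Multiplicative ℤ))) {L : WithZero (Multiplicative ℤ)}
    (hL : L < 1) (hn : ∀ n : ℕ, w (n : F) ≤ 1) {e t : F} (he : w e ≤ L) (ht : w (32 * e - t) ≤ L ^ 3) (h1 : (1 - e) ≠ 0)
    (h2 : 1 + e ≠ 0) : w (((1 + e) / (1 - e)) ^ 8 - (((1 + e) / (1 - e)) ^ 8)⁻¹ - t) ≤ L ^ 3 := by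
  have he1 : w e < 1 := lt_of_le_of_lt he hL
  have hL1 : L ≤ 1 := hL.le
  have hE2 : w (e ^ 2) < 1 := by
    rw [map_pow]
    exact pow_lt_one₀ zero_le he1 two_ne_zero
  have hU : w (1 - e ^ 2) = 1 := by
    rw [Valuation.map_sub_eq_of_lt_left]
    · exact map_one w
    · rw [map_one]; exact hE2
  have hU8 : w ((1 - e ^ 2) ^ 8) = 1 := by rw [map_pow, hU, one_pow]
  have hle : w e ≤ 1 := he1.le
  have hpl : ∀ n : ℕ, w (e ^ n) ≤ 1 := fun n => by rw [map_pow]; exact pow_le_one' hle n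
  have hte : w t ≤ L := by
    have e1 : t = 32 * e - (32 * e - t) := by ring
    rw [e1]
    refine (Valuation.map_sub _ _ _).trans (max_le ?_ (ht.trans ?_))
    · rw [map_mul]
      have h32 : w (32 : F) ≤ 1 := by exact_mod_cast hn 32
      calc w 32 * w e ≤ 1 * L := mul_le_mul' h32 he
        _ = L := one_mul _
    · calc L ^ 3 = L * L ^ 2 := pow_succ' _ _
        _ ≤ L * 1 := mul_le_mul_right (pow_le_one' hL1 2) _
        _ = L := mul_one _
  have key : (((1 + e) / (1 - e)) ^ 8 - (((1 + e) / (1 - e)) ^ 8)⁻¹ - t) * (1 - e ^ 2) ^ 8 =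
      (32 * e - t) + (e ^ 3 * (1120 + 8736 * e ^ 2 + 22880 * e ^ 4 + 22880 * e ^ 6 + 8736 * e ^ 8 + 1120 * e ^ 10 + 32 * e ^ 12)
        + t * e ^ 2 * (8 - 28 * e ^ 2 + 56 * e ^ 4 - 70 * e ^ 6 + 56 * e ^ 8 - 28 * e ^ 10 + 8 * e ^ 12 - e ^ 14)) := by
    have e1 : (1 - e ^ 2) = (1 - e) * (1 + e) := by ring
    have e2 : ((((1 + e) / (1 - e)) ^ 8)⁻¹) = ((1 - e) / (1 + e)) ^ 8 := by
      rw [← inv_pow, inv_div]
    rw [e2]
    have e3 : (((1 + e) / (1 - e)) ^ 8 - ((1 - e) / (1 + e)) ^ 8 - t) * (1 - e ^ 2) ^ 8 =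
        (1 + e) ^ 16 - (1 - e) ^ 16 - t * (1 - e ^ 2) ^ 8 := by
      rw [e1]
      field_simp
    rw [e3]
    ring
  have hle2 : ∀ {x y : F}, w x ≤ L ^ 3 → w y ≤ 1 → w (x * y) ≤ L ^ 3 := fun {x y} hx hy => by
    rw [map_mul]
    calc w x * w y ≤ L ^ 3 * 1 := mul_le_mul' hx hy
      _ = _ := mul_one _
  have hnat : ∀ (n : ℕ) (k : ℕ), w ((n : F) * e ^ k) ≤ 1 := fun n k => by
    rw [map_mul]
    exact mul_le_one' (hn n) (hpl k)
  have hP : w (1120 + 8736 * e ^ 2 + 22880 * e ^ 4 + 22880 * e ^ 6 + 8736 * e ^ 8 + 1120 * e ^ 10 + 32 * e ^ 12) ≤ 1 := by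
    have a0 : w (1120 : F) ≤ 1 := by exact_mod_cast hn 1120
    have a1 : w (8736 * e ^ 2) ≤ 1 := by exact_mod_cast hnat 8736 2
    have a2 : w (22880 * e ^ 4) ≤ 1 := by exact_mod_cast hnat 22880 4
    have a3 : w (22880 * e ^ 6) ≤ 1 := by exact_mod_cast hnat 22880 6
    have a4 : w (8736 * e ^ 8) ≤ 1 := by exact_mod_cast hnat 8736 8
    have a5 : w (1120 * e ^ 10) ≤ 1 := by exact_mod_cast hnat 1120 10
    have a6 : w (32 * e ^ 12) ≤ 1 := by exact_mod_cast hnat 32 12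
    exact Valuation.map_add_le _ (Valuation.map_add_le _ (Valuation.map_add_le _ (Valuation.map_add_le _
      (Valuation.map_add_le _ (Valuation.map_add_le _ a0 a1) a2) a3) a4) a5) a6
  have hQ : w (8 - 28 * e ^ 2 + 56 * e ^ 4 - 70 * e ^ 6 + 56 * e ^ 8 - 28 * e ^ 10 + 8 * e ^ 12 - e ^ 14) ≤ 1 := by
    have a0 : w (8 : F) ≤ 1 := by exact_mod_cast hn 8
    have a1 : w (28 * e ^ 2) ≤ 1 := by exact_mod_cast hnat 28 2
    have a2 : w (56 * e ^ 4) ≤ 1 := by exact_mod_cast hnat 56 4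
    have a3 : w (70 * e ^ 6) ≤ 1 := by exact_mod_cast hnat 70 6
    have a4 : w (56 * e ^ 8) ≤ 1 := by exact_mod_cast hnat 56 8
    have a5 : w (28 * e ^ 10) ≤ 1 := by exact_mod_cast hnat 28 10
    have a6 : w (8 * e ^ 12) ≤ 1 := by exact_mod_cast hnat 8 12
    exact Valuation.map_sub_le _ (Valuation.map_add_le _ (Valuation.map_sub_le _ (Valuation.map_add_le _
      (Valuation.map_sub_le _ (Valuation.map_add_le _ (Valuation.map_sub_le _ a0 a1) a2) a3) a4) a5) a6) (hpl 14)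
  have h3 : w (e ^ 3) ≤ L ^ 3 := by
    rw [map_pow]
    exact pow_le_pow_left' he 3
  have h4 : w (t * e ^ 2) ≤ L ^ 3 := by
    rw [map_mul, map_pow, pow_succ' L 2]
    exact mul_le_mul' hte (pow_le_pow_left' he 2)
  have h5 : w ((((1 + e) / (1 - e)) ^ 8 - (((1 + e) / (1 - e)) ^ 8)⁻¹ - t) * (1 - e ^ 2) ^ 8) ≤ L ^ 3 := by
    rw [key]
    exact Valuation.map_add_le _ ht (Valuation.map_add_le _ (hle2 h3 hP) (hle2 h4 hQ))
  rwa [map_mul, hU8, mul_one] at h5

section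
variable {D : Eis} {F : Type} [Field F] [NumberField F] [Algebra KK F] {r : F} {τ : F ≃ₐ[KK] F} {α : F}
  (hD : Cl0 D) (hQ : Quad D r τ)
include hD hQ

theorem ps_beta {A m η : Eis} (hη : η = 1 ∨ η = -1) (hA : la ^ 2 ∣ A - η) :
    Ps r ((jF F A + jF F (la * m) * r) / τ (jF F A + jF F (la * m) * r)) (-(η * m)) := by
  intro w hw
  have hlaA : ¬ la ∣ A := by
    intro h
    have h1 : la ∣ η := by
      have h2 : la ∣ A - η := (Dvd.intro_left la (by ring : la * la = la ^ 2)).trans hA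
      have h3 := dvd_sub h h2
      rwa [sub_sub_cancel] at h3
    rcases hη with rfl | rfl
    · exact CU.la_prime.not_isUnit (isUnit_of_dvd_one h1)
    · exact CU.la_prime.not_isUnit (isUnit_of_dvd_one ((dvd_neg).1 h1))
  have hwA : w.valuation F (jF F A) = 1 := by
    apply le_antisymm (q3b_le w (int_jF F A))
    rw [← not_lt, ov_mem w hw]
    exact hlaA
  have hA0 : jF F A ≠ 0 := by
    intro h
    rw [h, map_zero] at hwA
    exact zero_ne_one hwA
  have hr := (ov_D hD hQ w hw).2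
  set e : F := jF F (la * m) * r / jF F A with he
  have hwe : w.valuation F e ≤ w.valuation F (jF F la) := by
    rw [he, map_div₀, hwA, div_one, map_mul, hr, mul_one, map_mul, map_mul]
    exact mul_le_of_le_one_right' (q3b_le w (int_jF F m))
  have hwe1 : w.valuation F e < 1 := lt_of_le_of_lt hwe hw
  have h1e : (1 - e) ≠ 0 := by
    intro h
    have h2 : e = 1 := (sub_eq_zero.1 h).symm
    rw [h2, map_one] at hwe1
    exact lt_irrefl _ hwe1
  have h2e : (1 + e) ≠ 0 := by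
    intro h
    have h2 : e = -1 := by linear_combination h
    rw [h2, Valuation.map_neg, map_one] at hwe1
    exact lt_irrefl _ hwe1
  have hb : (jF F A + jF F (la * m) * r) / τ (jF F A + jF F (la * m) * r) = (1 + e) / (1 - e) := by
    have h1 : τ (jF F A + jF F (la * m) * r) = jF F A * (1 - e) := by
      rw [map_add, map_mul, tau_jF, tau_jF, hQ.tau, he]
      field_simp
      ring
    have h2 : jF F A + jF F (la * m) * r = jF F A * (1 + e) := by
      rw [he]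
      field_simp
    rw [h1, h2, mul_div_mul_left _ _ hA0]
  rw [hb]
  refine f2_pure _ hw (fun n => G1_nat w n) hwe ?_ h1e h2e
  obtain ⟨c, hc⟩ : la ^ 2 ∣ 32 + η * A := by
    have h1 : (32 + η * A : Eis) = 3 * 11 + η * (A - η) + (η ^ 2 - 1) := by ring
    have h2 : η ^ 2 - 1 = 0 := by rcases hη with rfl | rfl <;> ring
    rw [h1, h2, add_zero]
    refine dvd_add ?_ (hA.mul_left _)
    rw [CU.three_eq]
    exact Dvd.intro_left _ rfl |>.mul_right _
  have h3 : 32 * e - jF F (la * -(η * m)) * r = jF F (la ^ 3 * (m * c)) * r / jF F A := by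
    have h4 : jF F (la * m * (32 + η * A)) = jF F (la * m * (la ^ 2 * c)) := by rw [hc]
    rw [he]
    field_simp
    simp only [map_mul, map_add, map_neg, map_pow, map_ofNat] at h4 ⊢
    linear_combination r * h4
  rw [h3, map_div₀, hwA, div_one, map_mul, hr, mul_one, map_mul, map_mul, map_pow, map_pow]
  exact mul_le_of_le_one_right' (q3b_le w (int_jF F _))

end

end JXD
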