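import Mathlib

/-!
# [JXD-LX] the points of `y² = x³ + d` over a field with `3 = ε l²`, `ε ≡ -1`, `d = d₀ + d₁ l + d₂ l² mod l³`, `d₁ = ± 1`

Write `c = d₁ (1 + d₂)`, `Λ = l (1 + c l)`. A convenient way: work modulo `l³`, where `3 = -l²`, `3 l = 0`, `9 = 0` (`3 + l² = (ε + 1) l²` has `w ≤ exp (-3)`); an element is `≡ 0 mod l^n` iff `w ≤ exp (-n)`. (For example in the ring `w.integer` with the divisibility by
`l ^ 3`, or by writing `d = d₀ + d₁ l + d₂ l² + l³ z`, `ε = -1 + l e` with `w z, w e ≤ 1`.)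

PROOF. `dt_eps`, `dt_two`, `dt_d` [LXa]: `ε = -1 + (ε + 1)`; `2 = -1 + 3`, `w 3 = exp (-2)`; `d = d₀ + (..)`. `dt_int` [LXa]: an integer is a sum of `± 1`.
`dt_sq` [LXa]: `(z - σ (1 - d₁ l)) (z + σ (1 - d₁ l)) = z² - (1 - d₁ l)² = (z² - (1 + d₁ l)) + 3 d₁ l - l²` (`d₁² = 1`), `w (..) ≤ exp (-2)`, and `z + σ (1 - d₁ l) = 2 σ + (z - σ) - σ d₁ l` has `w = 1`.
`dt_cube` [LXa]: `z³ = (σ + l m)³ = σ + 3 l m + 3 σ l² m² + l³ m³` (`σ³ = σ`, `σ² = 1`).
`dt_four` [LXb]: `d₀ = 1`, `D = 4 d = (1 + 3) d ≡ (1 - l²)(1 + d₁ l + d₂ l²) ≡ 1 + d₁ l + (d₂ - 1) l²`. For `E = 1 + l m` (`w m ≤ 1`): `E³ ≡ 1 mod l³` (`3 l ≡ 0`). So `D^8 ≡ D²` and `(D^8)⁻¹ ≡ D⁻² ≡ D` (`D³ ≡ 1`). `D² - D = D (D - 1) ≡ (1 + d₁ l)(d₁ l + (d₂ - 1) l²) ≡ d₁ l + (d₂ - 1 + 1) l² = d₁ l + d₂ l² mod l³`.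
`dt_two_r` [LXb]: `(2 r)^16 = (4 d)^8`. `r ≡ ρ (1 - d₁ l) mod l²` (`dt_sq`; `r² = d ≡ 1 + d₁ l mod l²`). `ρ d₁ Λ r ≡ ρ d₁ l (1 + c l) ρ (1 - d₁ l) = d₁ l (1 + (c - d₁) l) = d₁ l + (d₁ c - 1) l² mod l³` (`ρ² = d₁² = 1`), `d₁ c - 1 = d₂`. So it is `dt_four`.
`pow8` [LXc]: `(u + y r)² = (2 u² - 1) + 2 u y r` for `u² - y² d = 1`, three times (or `field_simp; ring` after replacing `r²`); `T8 u = T₂(T₂(T₂ u))`, `T₂ x = 2 x² - 1`, `y U7 u = 8 u T₂(u) T₂(T₂ u) y`.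
`dt_theta8` [LXc]: `d₀ = -1`: `1 - 2 d ≡ 3 - 2 d₁ l - 2 d₂ l² ≡ d₁ l + (d₂ - 1) l² mod l³` (`3 ≡ -l²`, `-2 l ≡ l`), so `w A ≤ exp (-1)`, `w B ≤ 1`, `T8 A - 1 = A² (..)`: `w ≤ exp (-2)`; `2 B U7 A = -16 A B + A³ (..)`, `-16 A B ≡ -A B` (`15 A ≡ 0 mod l³`), `B ≡ 2 y mod l²`, so `-A B ≡ -2 A y ≡ A y mod l³`
(`3 A ≡ 0`), `y² ≡ d - 1 ≡ -2 + d₁ l ≡ 1 + d₁ l mod l²`, so `y ≡ σ (1 - d₁ l) mod l²` (`dt_sq`). `A y ≡ σ (d₁ l + (d₂ - 1) l²)(1 - d₁ l) = σ (d₁ l + (d₂ - 2) l²) ≡ σ d₁ l (1 + d₁ (d₂ + 1) l) mod l³` (`d₁² = 1`, `-2 ≡ 1`).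
`dt_theta` [LXd]: `E = (A + B r)^8 = P + Q r` (`pow8`: `P = T8 A`, `Q = B U7 A`), `P² - Q² d = 1`, so `E⁻¹ = P - Q r`, `E² - E⁻² = 4 P Q r`. `w (P - 1) ≤ exp (-2)`, `2 Q ≡ σ d₁ Λ mod l³`, `w Q ≤ exp (-1)`: `4 P Q ≡ 4 Q = 2 (2 Q) ≡ 2 σ d₁ Λ ≡ -σ d₁ Λ mod l³` (`3 Λ ≡ 0`).
`lx_point` [LXe]: `w y > 1`: `w x > 1`, `w y ^ 2 = w x ^ 3`, `w y ≥ exp 3`; `h = (y - r)/x`, `u = (y + r)/(y - r)`: `h³ u = (y - r)² (y + r)/x³ = y - r`; `u - 1 = 2 r/(y - r)`, `w ≤ exp (-3)`: `w u = 1`, `u^16 ≡ 1`, `(u^16)⁻¹ ≡ 1`: `t = 0`.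
`w y ≤ 1`: `w x ≤ 1`. `w y < 1`: `w (x³ + d) = w (y²)`; `w x = 1` (otherwise `w (x³ + d) = w d = 1`), `x³ ≡ s = ± 1 mod l³` (`dt_cube`), `y² ≡ s + d₀ + d₁ l + d₂ l²`, `w (y²) < 1` so `s + d₀ = 0` (`w 2 = 1`), and then `w (y²) = exp (-1)`: impossible (`w y = exp k`, `2 k = -1`).
`w y = 1`: `y ≡ σ = ± 1`. `w x < 1`: `w x³ ≤ exp (-3)`. `1 ≡ y² ≡ d ≡ d₀ mod l`: `d₀ = 1`. `(y - r)(y + r) = x³`, `(y + r) - (y - r) = 2 r` has `w = 1`.
 - `w (y + r) = 1`: `w (y - r) ≤ exp (-3)`, `r ≡ σ`; `h = x` (`x ≠ 0` as `y ≠ r`), `u = (y + r)⁻¹`, `u⁻¹ ≡ 2 r mod l³`, `u^(-16) ≡ (2 r)^16`, `u^16 ≡ (2 r)^(-16)`: `t = -σ d₁` (`dt_two_r`).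
 - `w (y - r) = 1`, `w (y + r) ≤ exp (-3)`, `r ≡ -σ`: `h = 1`, `u = y - r ≡ -2 r mod l³`, `u^16 ≡ (2 r)^16`: `t = -σ d₁`.
 `w x = 1`: `x ≡ s`, `x³ ≡ s mod l³`, `1 ≡ y² ≡ s + d₀ mod l`, so `s = d₀ = -1`. `y² ≡ d - 1 mod l³`. `w (y - r) = w (y + r) = 1` (product `x³`). `h = (y - r)/x`, `u = (y + r)/(y - r) = (y + r)²/(y² - d) = A + B r`, `A = (y² + d)/x³ = 1 + 2 d/x³`, `B = 2 y/x³`, `A² - B² d = (y² - d)²/x⁶ = 1`,
 `A ≡ 1 - 2 d mod l³` and `B ≡ 2 (-y) mod l³` (`x⁻³ ≡ -1`): `dt_theta` for `-y`, `-σ`.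
-/

set_option autoImplicit false

namespace JXD

open WithZero

/-- the data at `λ` -/
structure Dt {C : Type} [Field C] (w : Valuation C (WithZero (Multiplicative ℤ))) (l ε d : C) (d₀ d₁ d₂ : ℤ) : Prop where
  hl : w l = exp (-1 : ℤ)
  heps : w (ε + 1) < 1
  three : (3 : C) = ε * l ^ 2
  h0 : d₀ = 1 ∨ d₀ = -1
  h1 : d₁ = 1 ∨ d₁ = -1
  dig : w (d - ((d₀ : C) + (d₁ : C) * l + (d₂ : C) * l ^ 2)) ≤ exp (-3 : ℤ)

/-- the Chebyshev polynomials: `(u + y r)^8 = T8 u + y U7 u r` for `u² - y² r² = 1` -/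
def T8 {C : Type} [Field C] (x : C) : C := 128 * x ^ 8 - 256 * x ^ 6 + 160 * x ^ 4 - 32 * x ^ 2 + 1

def U7 {C : Type} [Field C] (x : C) : C := 128 * x ^ 7 - 192 * x ^ 5 + 80 * x ^ 3 - 8 * x

theorem LXa_lt {x : WithZero (Multiplicative ℤ)} (h : x < 1) : x ≤ exp (-1 : ℤ) := by
  by_cases hx : x = 0
  · rw [hx]; exact zero_le
  · have h1 : x < exp (0 : ℤ) := by rwa [exp_zero]
    have h2 := (log_lt_iff_lt_exp hx).2 h1
    exact (log_le_iff_le_exp hx).1 (by omega)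

theorem LXa_exp_lt : exp (-1 : ℤ) < (1 : WithZero (Multiplicative ℤ)) := by
  rw [← exp_zero, exp_lt_exp]; norm_num

theorem LXa_exp_lt2 : exp (-2 : ℤ) < (1 : WithZero (Multiplicative ℤ)) := by
  rw [← exp_zero, exp_lt_exp]; norm_num

theorem LXa_exp_lt3 : exp (-3 : ℤ) < (1 : WithZero (Multiplicative ℤ)) := by
  rw [← exp_zero, exp_lt_exp]; norm_num

theorem LXa_sum {C : Type} [Field C] (w : Valuation C (WithZero (Multiplicative ℤ))) {x y : C}
    {g : WithZero (Multiplicative ℤ)} (hx : w x ≤ g) (hy : w y ≤ g) : w (x + y) ≤ g :=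
  (w.map_add x y).trans (max_le hx hy)

theorem LXa_sub {C : Type} [Field C] (w : Valuation C (WithZero (Multiplicative ℤ))) {x y : C}
    {g : WithZero (Multiplicative ℤ)} (hx : w x ≤ g) (hy : w y ≤ g) : w (x - y) ≤ g :=
  (w.map_sub x y).trans (max_le hx hy)

theorem LXa_mul {C : Type} [Field C] (w : Valuation C (WithZero (Multiplicative ℤ))) {x y : C}
    {m n k : ℤ} (hx : w x ≤ exp m) (hy : w y ≤ exp n) (hk : m + n ≤ k) : w (x * y) ≤ exp k := by
  rw [map_mul]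
  calc w x * w y ≤ exp m * exp n := mul_le_mul' hx hy
    _ = exp (m + n) := (exp_add m n).symm
    _ ≤ exp k := exp_le_exp.2 hk

theorem LXa_sgn {C : Type} [Field C] (w : Valuation C (WithZero (Multiplicative ℤ))) {n : ℤ}
    (hn : n = 1 ∨ n = -1) : w (n : C) = 1 := by
  rcases hn with rfl | rfl
  · rw [Int.cast_one, map_one]
  · rw [Int.cast_neg, Int.cast_one, Valuation.map_neg, map_one]

theorem LXa_sgn' {C : Type} [Field C] (w : Valuation C (WithZero (Multiplicative ℤ))) {n : C}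
    (hn : n = 1 ∨ n = -1) : w n = 1 := by
  rcases hn with rfl | rfl
  · rw [map_one]
  · rw [Valuation.map_neg, map_one]

section
variable {C : Type} [Field C] {w : Valuation C (WithZero (Multiplicative ℤ))} {l ε d : C} {d₀ d₁ d₂ : ℤ}
  (h : Dt w l ε d d₀ d₁ d₂)

/-- [LXa] -/
theorem dt_int (n : ℤ) : w (n : C) ≤ 1 := by
  exact (Valuation.mem_integer_iff w _).1 (intCast_mem w.integer n)

include h

/-- [LXa] -/
theorem dt_eps : w ε = 1 := by
  have e : ε = (ε + 1) + (-1) := by ring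
  have h1 : w (-1 : C) = 1 := by rw [Valuation.map_neg, map_one]
  rw [e, Valuation.map_add_eq_of_lt_right _ (by rw [h1]; exact h.heps), h1]

/-- [LXa] -/
theorem dt_three : w (3 : C) = exp (-2 : ℤ) := by
  rw [h.three, map_mul, map_pow, dt_eps h, h.hl, one_mul, pow_two, ← exp_add]
  norm_num

/-- [LXa] -/
theorem dt_two : w (2 : C) = 1 := by
  have e : (2 : C) = 3 + (-1) := by norm_num
  have h1 : w (-1 : C) = 1 := by rw [Valuation.map_neg, map_one]
  rw [e, Valuation.map_add_eq_of_lt_right _ (by rw [h1, dt_three h]; exact LXa_exp_lt2), h1]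

/-- [LXa] -/
theorem dt_d : w d = 1 := by
  have e : d = ((d - ((d₀ : C) + (d₁ : C) * l + (d₂ : C) * l ^ 2)) +
      ((d₁ : C) * l + (d₂ : C) * l ^ 2)) + (d₀ : C) := by ring
  have h1 : w (d₀ : C) = 1 := LXa_sgn w h.h0
  have h2 : w ((d - ((d₀ : C) + (d₁ : C) * l + (d₂ : C) * l ^ 2)) +
      ((d₁ : C) * l + (d₂ : C) * l ^ 2)) ≤ exp (-1 : ℤ) := by
    refine LXa_sum w (h.dig.trans (exp_le_exp.2 (by norm_num))) (LXa_sum w ?_ ?_)
    · refine LXa_mul w (m := 0) (n := -1) ?_ h.hl.le (by norm_num)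
      rw [exp_zero]
      exact dt_int d₁
    · refine LXa_mul w (m := 0) (n := -2) ?_ ?_ (by norm_num)
      · rw [exp_zero]
        exact dt_int d₂
      · rw [map_pow, h.hl, pow_two, ← exp_add]
        norm_num
  rw [e, Valuation.map_add_eq_of_lt_right _ (by rw [h1]; exact lt_of_le_of_lt h2 LXa_exp_lt), h1]

/-- [LXa] -/
theorem dt_sq {z σ : C} (hσ : σ = 1 ∨ σ = -1) (hz : w (z - σ) < 1) (h2 : w (z ^ 2 - (1 + (d₁ : C) * l)) ≤ exp (-2 : ℤ)) :
    w (z - σ * (1 - (d₁ : C) * l)) ≤ exp (-2 : ℤ) := by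
  have hσ2 : σ ^ 2 = 1 := by rcases hσ with rfl | rfl <;> norm_num
  have hd2 : (d₁ : C) ^ 2 = 1 := by rcases h.h1 with h1 | h1 <;> rw [h1] <;> norm_num
  have wσ : w σ = 1 := LXa_sgn' w hσ
  have wd1 : w (d₁ : C) = 1 := LXa_sgn w h.h1
  have e1 : (z - σ * (1 - (d₁ : C) * l)) * (z + σ * (1 - (d₁ : C) * l)) =
      ((z ^ 2 - (1 + (d₁ : C) * l)) + 3 * ((d₁ : C) * l)) - l ^ 2 := by
    linear_combination (-(1 - (d₁ : C) * l) ^ 2) * hσ2 - l ^ 2 * hd2
  have wl2 : w (l ^ 2) ≤ exp (-2 : ℤ) := by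
    rw [map_pow, h.hl, pow_two, ← exp_add]
    norm_num
  have h3 : w (3 * ((d₁ : C) * l)) ≤ exp (-2 : ℤ) := by
    refine LXa_mul w (m := -2) (n := -1) (dt_three h).le ?_ (by norm_num)
    rw [map_mul, wd1, one_mul, h.hl]
  have h4 : w ((z - σ * (1 - (d₁ : C) * l)) * (z + σ * (1 - (d₁ : C) * l))) ≤ exp (-2 : ℤ) := by
    rw [e1]
    exact LXa_sub w (LXa_sum w h2 h3) wl2
  have h5 : w (z + σ * (1 - (d₁ : C) * l)) = 1 := by
    have e2 : z + σ * (1 - (d₁ : C) * l) = ((z - σ) - σ * ((d₁ : C) * l)) + 2 * σ := by ring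
    have h6 : w (2 * σ) = 1 := by rw [map_mul, dt_two h, wσ, one_mul]
    have h7 : w ((z - σ) - σ * ((d₁ : C) * l)) ≤ exp (-1 : ℤ) := by
      refine LXa_sub w (LXa_lt hz) ?_
      rw [map_mul, map_mul, wσ, wd1, one_mul, one_mul, h.hl]
    rw [e2, Valuation.map_add_eq_of_lt_right _ (by rw [h6]; exact lt_of_le_of_lt h7 LXa_exp_lt), h6]
  rwa [map_mul, h5, mul_one] at h4

/-- [LXa] -/
theorem dt_cube {z σ : C} (hσ : σ = 1 ∨ σ = -1) (hz : w (z - σ) < 1) : w (z ^ 3 - σ) ≤ exp (-3 : ℤ) := by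
  have hσ2 : σ ^ 2 = 1 := by rcases hσ with rfl | rfl <;> norm_num
  have wσ : w σ = 1 := LXa_sgn' w hσ
  have ht := LXa_lt hz
  have e1 : z ^ 3 - σ = (3 * (z - σ) + (3 * σ) * (z - σ) ^ 2) + (z - σ) ^ 3 := by
    linear_combination (3 * z - 2 * σ) * hσ2
  have ht2 : w ((z - σ) ^ 2) ≤ exp (-2 : ℤ) := by
    rw [pow_two]
    exact LXa_mul w ht ht (by norm_num)
  rw [e1]
  refine LXa_sum w (LXa_sum w ?_ ?_) ?_
  · exact LXa_mul w (dt_three h).le ht (by norm_num)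
  · refine LXa_mul w (m := -2) (n := -2) ?_ ht2 (by norm_num)
    rw [map_mul, wσ, mul_one]
    exact (dt_three h).le
  · rw [pow_succ]
    exact LXa_mul w ht2 ht (by norm_num)

omit h in
theorem lxb_lt {x : C} (hx : w x < 1) : w x ≤ exp (-1 : ℤ) := by
  by_cases h0 : w x = 0
  · rw [h0]
    exact zero_le'
  · obtain ⟨n, hn⟩ : ∃ n : ℤ, w x = exp n := ⟨log (w x), (exp_log h0).symm⟩
    rw [hn] at hx ⊢
    rw [← exp_zero, exp_lt_exp] at hx
    rw [exp_le_exp]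
    omega

theorem lxb_l : l ≠ 0 ∧ w l ≤ 1 := by
  have h1 : w l = exp (-1 : ℤ) := h.hl
  constructor
  · rintro rfl
    rw [map_zero] at h1
    exact exp_ne_zero h1.symm
  · rw [h1, ← exp_zero, exp_le_exp]
    norm_num

theorem lxb_fin {T : C} (n : ℕ) (hT : w T ≤ 1) : w (l ^ n * T) ≤ exp (-(n : ℤ)) := by
  have h1 : w (l ^ n) = exp (-(n : ℤ)) := by
    rw [map_pow, h.hl, ← exp_nsmul]
    congr 1
    simp
  rw [map_mul, h1]
  calc exp (-(n : ℤ)) * w T ≤ exp (-(n : ℤ)) * 1 := by gcongr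
    _ = _ := mul_one _

theorem lxb_div {x : C} (n : ℕ) (hx : w x ≤ exp (-(n : ℤ))) : ∃ z : C, w z ≤ 1 ∧ x = l ^ n * z := by
  have h1 : w (l ^ n) = exp (-(n : ℤ)) := by
    rw [map_pow, h.hl, ← exp_nsmul]
    congr 1
    simp
  have h0 := (lxb_l h).1
  refine ⟨x / l ^ n, ?_, ?_⟩
  · rw [map_div₀, h1]
    exact div_le_one_of_le₀ hx zero_le'
  · rw [mul_div_cancel₀ _ (pow_ne_zero n h0)]

theorem lxb_data : ∃ e z : C, w e ≤ 1 ∧ w z ≤ 1 ∧ ε = -1 + l * e ∧ (3 : C) = (-1 + l * e) * l ^ 2 ∧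
    d = (d₀ : C) + (d₁ : C) * l + (d₂ : C) * l ^ 2 + l ^ 3 * z := by
  obtain ⟨e, he, he'⟩ := lxb_div h (x := ε + 1) 1 (lxb_lt h.heps)
  obtain ⟨z, hz, hz'⟩ := lxb_div h 3 h.dig
  have h1 : ε = -1 + l * e := by linear_combination he'
  refine ⟨e, z, he, hz, h1, ?_, by linear_combination hz'⟩
  rw [← h1]
  exact h.three

theorem lxb_dd : (d₁ : C) * d₁ = 1 := by
  rcases h.h1 with h1 | h1 <;> rw [h1] <;> norm_num

/-- [LXb] -/
theorem dt_four (h0 : d₀ = 1) : w ((4 * d) ^ 8 - ((4 * d) ^ 8)⁻¹ - ((d₁ : C) * l + (d₂ : C) * l ^ 2)) ≤ exp (-3 : ℤ) := by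
  obtain ⟨e, z, he, hz, -, h3, hd⟩ := lxb_data h
  have hdd := lxb_dd h
  have hl0 := (lxb_l h).1
  have iL : l ∈ w.integer := (lxb_l h).2
  have iE : e ∈ w.integer := he
  have iZ : z ∈ w.integer := hz
  have iD : d ∈ w.integer := (dt_d h).le
  rw [h0, Int.cast_one] at hd
  have hm : ∃ m ∈ w.integer, 4 * d = 1 + (d₁ : C) * l + ((d₂ : C) - 1) * l ^ 2 + l ^ 3 * m := by
    refine ⟨z - (d₁ : C) - (d₂ : C) * l - l ^ 2 * z + e * d, ?_, ?_⟩
    · repeat' first
        | assumption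
        | exact dt_int _
        | exact one_mem _
        | exact ofNat_mem _ _
        | exact pow_mem ‹_› _
        | apply add_mem
        | apply sub_mem
        | apply mul_mem
        | apply neg_mem
        | apply pow_mem
    · have e1 : 4 * d = d + (-1 + l * e) * l ^ 2 * d := by
        rw [← h3]
        ring
      rw [e1]
      linear_combination (1 - l ^ 2) * hd
  obtain ⟨m, iM, hm⟩ := hm
  have vD : w (4 * d) = 1 := by
    rw [map_mul, dt_d h, mul_one, show (4 : C) = 2 * 2 by norm_num, map_mul, dt_two h, mul_one]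
  have hD0 : (4 * d : C) ≠ 0 := by
    intro h4
    rw [h4, map_zero] at vD
    exact zero_ne_one vD
  generalize 4 * d = D at hm vD hD0
  have iDD : D ∈ w.integer := vD.le
  have iI : (D ^ 8)⁻¹ ∈ w.integer := by
    show w ((D ^ 8)⁻¹) ≤ 1
    rw [map_inv₀, map_pow, vD, one_pow, inv_one]
  have hm1 : ∃ m1 ∈ w.integer, D = 1 + l * m1 ∧ m1 = (d₁ : C) + l * (((d₂ : C) - 1) + l * m) := by
    refine ⟨(d₁ : C) + l * (((d₂ : C) - 1) + l * m), ?_, ?_, rfl⟩
    · repeat' first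
        | assumption
        | exact dt_int _
        | exact one_mem _
        | exact ofNat_mem _ _
        | exact pow_mem ‹_› _
        | apply add_mem
        | apply sub_mem
        | apply mul_mem
        | apply neg_mem
        | apply pow_mem
    · rw [hm]
      ring
  obtain ⟨m1, iM1, hm1, hm1'⟩ := hm1
  have hq : ∃ q ∈ w.integer, D ^ 3 - 1 = l ^ 3 * q := by
    refine ⟨(-1 + l * e) * m1 + (-1 + l * e) * l * m1 ^ 2 + m1 ^ 3, ?_, ?_⟩
    · repeat' first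
        | assumption
        | exact dt_int _
        | exact one_mem _
        | exact ofNat_mem _ _
        | exact pow_mem ‹_› _
        | apply add_mem
        | apply sub_mem
        | apply mul_mem
        | apply neg_mem
        | apply pow_mem
    · rw [hm1]
      linear_combination (l * m1 + l ^ 2 * m1 ^ 2) * h3
  obtain ⟨q, iQ, hq⟩ := hq
  have hs : D ^ 2 - D - ((d₁ : C) * l + (d₂ : C) * l ^ 2) = l ^ 3 * (m + 2 * (d₁ : C) * (((d₂ : C) - 1) + l * m) +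
      l * (((d₂ : C) - 1) + l * m) ^ 2) := by
    rw [hm1, hm1']
    linear_combination l ^ 2 * hdd
  have hinv : (D ^ 8)⁻¹ * D ^ 8 = 1 := inv_mul_cancel₀ (pow_ne_zero 8 hD0)
  have key : D ^ 8 - (D ^ 8)⁻¹ - ((d₁ : C) * l + (d₂ : C) * l ^ 2) =
      l ^ 3 * (D ^ 2 * (D ^ 3 + 1) * q + (D ^ 8)⁻¹ * q * (1 + D ^ 3 + D ^ 6) + (m + 2 * (d₁ : C) * (((d₂ : C) - 1) + l * m) +
      l * (((d₂ : C) - 1) + l * m) ^ 2)) := by
    linear_combination hs + (D ^ 2 * (D ^ 3 + 1) + (D ^ 8)⁻¹ * (1 + D ^ 3 + D ^ 6)) * hq - D * hinv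
  rw [key]
  refine lxb_fin h 3 ?_
  show _ ∈ w.integer
  repeat' first
    | assumption
    | exact dt_int _
    | exact one_mem _
    | exact ofNat_mem _ _
    | exact pow_mem ‹_› _
    | apply add_mem
    | apply sub_mem
    | apply mul_mem
    | apply neg_mem
    | apply pow_mem

/-- [LXb] -/
theorem dt_two_r (h0 : d₀ = 1) {r : C} (hr : r ^ 2 = d) {ρ : ℤ} (hρ : ρ = 1 ∨ ρ = -1) (hrρ : w (r - (ρ : C)) < 1) :
    w ((2 * r) ^ 16 - ((2 * r) ^ 16)⁻¹ - ((ρ * d₁ : ℤ) : C) * (l * (1 + ((d₁ * (1 + d₂) : ℤ) : C) * l)) * r) ≤ exp (-3 : ℤ) := by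
  have hρC : ((ρ : ℤ) : C) = 1 ∨ ((ρ : ℤ) : C) = -1 := by
    rcases hρ with rfl | rfl
    · left; norm_num
    · right; norm_num
  have hρρ : ((ρ : ℤ) : C) * ρ = 1 := by
    rcases hρC with h1 | h1 <;> rw [h1] <;> norm_num
  have hdd := lxb_dd h
  obtain ⟨e, z, he, hz, -, h3, hd⟩ := lxb_data h
  rw [h0, Int.cast_one] at hd
  have iL : l ∈ w.integer := (lxb_l h).2
  have iZ : z ∈ w.integer := hz
  have h1 := dt_sq h hρC hrρ (by
    rw [hr]
    have e1 : d - (1 + (d₁ : C) * l) = l ^ 2 * ((d₂ : C) + l * z) := by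
      linear_combination hd
    rw [e1]
    refine lxb_fin h 2 ?_
    show _ ∈ w.integer
    repeat' first
      | assumption
      | exact dt_int _
      | exact one_mem _
      | exact ofNat_mem _ _
      | exact pow_mem ‹_› _
      | apply add_mem
      | apply sub_mem
      | apply mul_mem
      | apply neg_mem
      | apply pow_mem)
  obtain ⟨η, hη, hη'⟩ := lxb_div h 2 h1
  have iη : η ∈ w.integer := hη
  have h4 := dt_four h h0
  have e4 : (2 * r) ^ 16 = (4 * d) ^ 8 := by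
    rw [← hr]
    ring
  rw [e4]
  have e5 : (4 * d) ^ 8 - ((4 * d) ^ 8)⁻¹ - ((ρ * d₁ : ℤ) : C) * (l * (1 + ((d₁ * (1 + d₂) : ℤ) : C) * l)) * r =
      ((4 * d) ^ 8 - ((4 * d) ^ 8)⁻¹ - ((d₁ : C) * l + (d₂ : C) * l ^ 2)) +
      l ^ 3 * ((d₁ : C) * (1 + (d₂ : C)) - (ρ : C) * (d₁ : C) * (1 + (d₁ : C) * (1 + (d₂ : C)) * l) * η) := by
    push_cast
    have e6 : r = (ρ : C) * (1 - (d₁ : C) * l) + l ^ 2 * η := by linear_combination hη'
    rw [e6]
    linear_combination (-(l * (d₁ : C) * (1 + (d₁ : C) * (1 + (d₂ : C)) * l) * (1 - (d₁ : C) * l))) * hρρ +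
      (-(l ^ 2 * (d₂ : C)) + l ^ 3 * (d₁ : C) * (1 + (d₂ : C))) * hdd
  rw [e5]
  refine Valuation.map_add_le _ h4 (lxb_fin h 3 ?_)
  show _ ∈ w.integer
  repeat' first
    | assumption
    | exact dt_int _
    | exact one_mem _
    | exact ofNat_mem _ _
    | exact pow_mem ‹_› _
    | apply add_mem
    | apply sub_mem
    | apply mul_mem
    | apply neg_mem
    | apply pow_mem

omit h in
theorem lxc_lt {x : C} (hx : w x < 1) : w x ≤ exp (-1 : ℤ) := by
  by_cases h0 : w x = 0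
  · rw [h0]
    exact zero_le'
  · obtain ⟨n, hn⟩ : ∃ n : ℤ, w x = exp n := ⟨log (w x), (exp_log h0).symm⟩
    rw [hn] at hx ⊢
    rw [← exp_zero, exp_lt_exp] at hx
    rw [exp_le_exp]
    omega

theorem lxc_l : l ≠ 0 ∧ w l ≤ 1 := by
  have h1 : w l = exp (-1 : ℤ) := h.hl
  constructor
  · rintro rfl
    rw [map_zero] at h1
    exact exp_ne_zero h1.symm
  · rw [h1, ← exp_zero, exp_le_exp]
    norm_num

theorem lxc_fin {T : C} (n : ℕ) (hT : w T ≤ 1) : w (l ^ n * T) ≤ exp (-(n : ℤ)) := by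
  have h1 : w (l ^ n) = exp (-(n : ℤ)) := by
    rw [map_pow, h.hl, ← exp_nsmul]
    congr 1
    simp
  rw [map_mul, h1]
  calc exp (-(n : ℤ)) * w T ≤ exp (-(n : ℤ)) * 1 := by gcongr
    _ = _ := mul_one _

theorem lxc_div {x : C} (n : ℕ) (hx : w x ≤ exp (-(n : ℤ))) : ∃ z : C, w z ≤ 1 ∧ x = l ^ n * z := by
  have h1 : w (l ^ n) = exp (-(n : ℤ)) := by
    rw [map_pow, h.hl, ← exp_nsmul]
    congr 1
    simp
  have h0 := (lxc_l h).1
  refine ⟨x / l ^ n, ?_, ?_⟩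
  · rw [map_div₀, h1]
    exact div_le_one_of_le₀ hx zero_le'
  · rw [mul_div_cancel₀ _ (pow_ne_zero n h0)]

theorem lxc_data : ∃ e z : C, w e ≤ 1 ∧ w z ≤ 1 ∧ ε = -1 + l * e ∧ (3 : C) = (-1 + l * e) * l ^ 2 ∧
    d = (d₀ : C) + (d₁ : C) * l + (d₂ : C) * l ^ 2 + l ^ 3 * z := by
  obtain ⟨e, he, he'⟩ := lxc_div h (x := ε + 1) 1 (lxc_lt h.heps)
  obtain ⟨z, hz, hz'⟩ := lxc_div h 3 h.dig
  have h1 : ε = -1 + l * e := by linear_combination he'
  refine ⟨e, z, he, hz, h1, ?_, by linear_combination hz'⟩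
  rw [← h1]
  exact h.three

theorem lxc_dd : (d₁ : C) * d₁ = 1 := by
  rcases h.h1 with h1 | h1 <;> rw [h1] <;> norm_num

omit h in
theorem lxc_step {u y r : C} (hr : r ^ 2 = d) (hu : u ^ 2 - y ^ 2 * d = 1) :
    (u + y * r) ^ 2 = (2 * u ^ 2 - 1) + (2 * u * y) * r ∧ (2 * u ^ 2 - 1) ^ 2 - (2 * u * y) ^ 2 * d = 1 := by
  constructor
  · linear_combination y ^ 2 * hr - hu
  · linear_combination 4 * u ^ 2 * hu

omit h in
/-- [LXc] -/
theorem pow8 {u y r : C} (hr : r ^ 2 = d) (hu : u ^ 2 - y ^ 2 * d = 1) :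
    (u + y * r) ^ 8 = T8 u + y * U7 u * r ∧ T8 u ^ 2 - (y * U7 u) ^ 2 * d = 1 := by
  obtain ⟨a1, b1⟩ := lxc_step hr hu
  obtain ⟨a2, b2⟩ := lxc_step hr b1
  obtain ⟨a3, b3⟩ := lxc_step hr b2
  constructor
  · have e1 : (u + y * r) ^ 8 = (((u + y * r) ^ 2) ^ 2) ^ 2 := by ring
    rw [e1, a1, a2, a3]
    unfold T8 U7
    ring
  · rw [← b3]
    unfold T8 U7
    ring

/-- [LXc] -/
theorem dt_theta8 (h0 : d₀ = -1) {A B y : C} {σ : ℤ} (hσ : σ = 1 ∨ σ = -1) (hy : w (y - (σ : C)) < 1)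
    (hy2 : w (y ^ 2 - (d - 1)) ≤ exp (-3 : ℤ)) (hA : w (A - (1 - 2 * d)) ≤ exp (-3 : ℤ)) (hB : w (B - 2 * y) ≤ exp (-2 : ℤ)) :
    w (T8 A - 1) ≤ exp (-2 : ℤ) ∧
      w (2 * (B * U7 A) - ((σ * d₁ : ℤ) : C) * (l * (1 + ((d₁ * (1 + d₂) : ℤ) : C) * l))) ≤ exp (-3 : ℤ) := by
  obtain ⟨e, z, he, hz, -, h3, hd⟩ := lxc_data h
  have hdd := lxc_dd h
  have iL : l ∈ w.integer := (lxc_l h).2
  have iE : e ∈ w.integer := he
  have iZ : z ∈ w.integer := hz
  obtain ⟨α, iα, hα⟩ := lxc_div h 3 hA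
  obtain ⟨β, iβ, hβ⟩ := lxc_div h 2 hB
  obtain ⟨γ, iγ, hγ⟩ := lxc_div h 3 hy2
  change α ∈ w.integer at iα
  change β ∈ w.integer at iβ
  change γ ∈ w.integer at iγ
  rw [h0, Int.cast_neg, Int.cast_one] at hd
  -- the class of `A`
  have hA1 : ∃ a ∈ w.integer, A = (d₁ : C) * l + ((d₂ : C) - 1) * l ^ 2 + l ^ 3 * a := by
    refine ⟨e - (-1 + l * e) * (d₁ : C) - (-1 + l * e) * (d₂ : C) * l - 2 * z + α, ?_, ?_⟩
    · repeat' first
        | assumption
        | exact dt_int _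
        | exact one_mem _
        | exact ofNat_mem _ _
        | exact pow_mem ‹_› _
        | apply add_mem
        | apply sub_mem
        | apply mul_mem
        | apply neg_mem
        | apply pow_mem
    · linear_combination hα - 2 * hd + (1 - (d₁ : C) * l - (d₂ : C) * l ^ 2) * h3
  obtain ⟨a, iA, hA1⟩ := hA1
  have hA2 : ∃ a1 ∈ w.integer, A = l * a1 := by
    refine ⟨(d₁ : C) + ((d₂ : C) - 1) * l + l ^ 2 * a, ?_, ?_⟩
    · repeat' first
        | assumption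
        | exact dt_int _
        | exact one_mem _
        | exact ofNat_mem _ _
        | exact pow_mem ‹_› _
        | apply add_mem
        | apply sub_mem
        | apply mul_mem
        | apply neg_mem
        | apply pow_mem
    · rw [hA1]
      ring
  obtain ⟨a1, iA1, hA2⟩ := hA2
  constructor
  · have e1 : T8 A - 1 = l ^ 2 * (a1 ^ 2 * (128 * A ^ 6 - 256 * A ^ 4 + 160 * A ^ 2 - 32)) := by
      have e2 : T8 A - 1 = A ^ 2 * (128 * A ^ 6 - 256 * A ^ 4 + 160 * A ^ 2 - 32) := by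
        unfold T8
        ring
      rw [e2]
      conv_lhs => rw [hA2]
      conv_rhs => rw [hA2]
      ring
    have iAA : A ∈ w.integer := by
      rw [hA2]
      exact mul_mem iL iA1
    rw [e1]
    refine lxc_fin h 2 ?_
    show _ ∈ w.integer
    repeat' first
      | assumption
      | exact dt_int _
      | exact one_mem _
      | exact ofNat_mem _ _
      | exact pow_mem ‹_› _
      | apply add_mem
      | apply sub_mem
      | apply mul_mem
      | apply neg_mem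
      | apply pow_mem
  · have hσC : ((σ : ℤ) : C) = 1 ∨ ((σ : ℤ) : C) = -1 := by
      rcases hσ with rfl | rfl
      · left; norm_num
      · right; norm_num
    have h5 := dt_sq h hσC hy (by
      have e1 : y ^ 2 - (1 + (d₁ : C) * l) = l ^ 2 * (-(-1 + l * e) + (d₂ : C) + l * z + l * γ) := by
        linear_combination hγ + hd - h3
      rw [e1]
      refine lxc_fin h 2 ?_
      show _ ∈ w.integer
      repeat' first
        | assumption
        | exact dt_int _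
        | exact one_mem _
        | exact ofNat_mem _ _
        | exact pow_mem ‹_› _
        | apply add_mem
        | apply sub_mem
        | apply mul_mem
        | apply neg_mem
        | apply pow_mem)
    obtain ⟨η, iη, hη⟩ := lxc_div h 2 h5
    change η ∈ w.integer at iη
    have iy : y ∈ w.integer := by
      have e1 : y = (σ : C) * (1 - (d₁ : C) * l) + l ^ 2 * η := by linear_combination hη
      rw [e1]
      repeat' first
        | assumption
        | exact dt_int _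
        | exact one_mem _
        | exact ofNat_mem _ _
        | exact pow_mem ‹_› _
        | apply add_mem
        | apply sub_mem
        | apply mul_mem
        | apply neg_mem
        | apply pow_mem
    have iAA : A ∈ w.integer := by
      rw [hA2]
      exact mul_mem iL iA1
    have iB : B ∈ w.integer := by
      have e1 : B = 2 * y + l ^ 2 * β := by linear_combination hβ
      rw [e1]
      repeat' first
        | assumption
        | exact dt_int _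
        | exact one_mem _
        | exact ofNat_mem _ _
        | exact pow_mem ‹_› _
        | apply add_mem
        | apply sub_mem
        | apply mul_mem
        | apply neg_mem
        | apply pow_mem
    -- `2 B U7 A = A y + l³ ..`
    have e6 : 2 * (B * U7 A) = A * y + l ^ 3 * (2 * B * a1 ^ 3 * (128 * A ^ 4 - 192 * A ^ 2 + 80) -
        5 * (-1 + l * e) * a1 * B - a1 * β - (-1 + l * e) * a1 * y) := by
      have e7 : 2 * (B * U7 A) = A ^ 3 * (2 * B * (128 * A ^ 4 - 192 * A ^ 2 + 80)) - A * B - 5 * (3 * (A * B)) := by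
        unfold U7
        ring
      have e8 : A ^ 3 * (2 * B * (128 * A ^ 4 - 192 * A ^ 2 + 80)) =
          l ^ 3 * (2 * B * a1 ^ 3 * (128 * A ^ 4 - 192 * A ^ 2 + 80)) := by
        generalize 128 * A ^ 4 - 192 * A ^ 2 + 80 = t
        rw [hA2]
        ring
      have e9 : 5 * (3 * (A * B)) = l ^ 3 * (5 * (-1 + l * e) * a1 * B) := by
        rw [h3, hA2]
        ring
      have e10 : A * B = -(A * y) + 3 * (A * y) + A * (l ^ 2 * β) := by
        linear_combination A * hβ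
      have e11 : 3 * (A * y) = l ^ 3 * ((-1 + l * e) * a1 * y) := by
        rw [h3, hA2]
        ring
      have e12 : A * (l ^ 2 * β) = l ^ 3 * (a1 * β) := by
        rw [hA2]
        ring
      rw [e7, e8, e9, e10, e11, e12]
      ring
    have e13 : A * y = ((σ * d₁ : ℤ) : C) * (l * (1 + ((d₁ * (1 + d₂) : ℤ) : C) * l)) +
        l ^ 3 * (a * y + ((d₁ : C) + ((d₂ : C) - 1) * l) * η - (σ : C) * (d₁ : C) * ((d₂ : C) - 1) -
          (σ : C) * (-1 + l * e) * l) := by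
      have e14 : A * y = ((d₁ : C) * l + ((d₂ : C) - 1) * l ^ 2) * ((σ : C) * (1 - (d₁ : C) * l) + l ^ 2 * η) + l ^ 3 * (a * y) := by
        linear_combination y * hA1 + ((d₁ : C) * l + ((d₂ : C) - 1) * l ^ 2) * hη
      rw [e14]
      push_cast
      linear_combination (-(σ : C) * l ^ 2 - (σ : C) * l ^ 2 * (1 + (d₂ : C))) * hdd - (σ : C) * l ^ 2 * h3
    rw [e6, e13]
    have e15 : ∀ S T U : C, S + l ^ 3 * T + l ^ 3 * U - S = l ^ 3 * (T + U) := by
      intro S T U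
      ring
    rw [e15]
    refine lxc_fin h 3 ?_
    show _ ∈ w.integer
    repeat' first
      | assumption
      | exact dt_int _
      | exact one_mem _
      | exact ofNat_mem _ _
      | exact pow_mem ‹_› _
      | apply add_mem
      | apply sub_mem
      | apply mul_mem
      | apply neg_mem
      | apply pow_mem

/-- [LXd] -/
theorem dt_theta (h0 : d₀ = -1) {A B y r : C} (hr : r ^ 2 = d) (hAB : A ^ 2 - B ^ 2 * d = 1) {σ : ℤ} (hσ : σ = 1 ∨ σ = -1)
    (hy : w (y - (σ : C)) < 1)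
    (hy2 : w (y ^ 2 - (d - 1)) ≤ exp (-3 : ℤ)) (hA : w (A - (1 - 2 * d)) ≤ exp (-3 : ℤ)) (hB : w (B - 2 * y) ≤ exp (-2 : ℤ)) :
    w ((A + B * r) ^ 16 - ((A + B * r) ^ 16)⁻¹ -
      ((-(σ * d₁) : ℤ) : C) * (l * (1 + ((d₁ * (1 + d₂) : ℤ) : C) * l)) * r) ≤ exp (-3 : ℤ) := by
  have hmul : ∀ {a b : C} {m n k : ℤ}, w a ≤ exp m → w b ≤ exp n → m + n = k → w (a * b) ≤ exp k := by
    intro a b m n k ha hb hk
    rw [map_mul, ← hk, exp_add]
    exact mul_le_mul' ha hb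
  have hadd : ∀ {a b : C} {k : ℤ}, w a ≤ exp k → w b ≤ exp k → w (a + b) ≤ exp k :=
    fun ha hb => w.map_add_le ha hb
  have hint : ∀ n : ℤ, w (n : C) ≤ exp (0 : ℤ) := by
    intro n
    rw [exp_zero]
    exact dt_int n
  obtain ⟨h8, hn⟩ := pow8 hr hAB
  obtain ⟨hP, hQ⟩ := dt_theta8 h h0 hσ hy hy2 hA hB
  have hE : (T8 A + B * U7 A * r) * (T8 A - B * U7 A * r) = 1 := by
    linear_combination hn - (B * U7 A) ^ 2 * hr
  have hinv : (T8 A + B * U7 A * r)⁻¹ = T8 A - B * U7 A * r := inv_eq_of_mul_eq_one_right hE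
  have h16 : (A + B * r) ^ 16 = (T8 A + B * U7 A * r) ^ 2 := by
    rw [← h8, ← pow_mul]
  have hd : (A + B * r) ^ 16 - ((A + B * r) ^ 16)⁻¹ = 4 * T8 A * (B * U7 A) * r := by
    rw [h16, ← inv_pow, hinv]
    ring
  have hl1 : w l ≤ exp (-1 : ℤ) := h.hl.le
  have hl0 : w l ≤ exp (0 : ℤ) := hl1.trans (exp_le_exp.2 (by norm_num))
  have hone : w (1 : C) ≤ exp (0 : ℤ) := by rw [exp_zero, map_one]
  have hL : w (l * (1 + ((d₁ * (1 + d₂) : ℤ) : C) * l)) ≤ exp (-1 : ℤ) :=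
    hmul hl1 (hadd hone (hmul (hint _) hl0 (by norm_num))) (by norm_num)
  have hwr : w r ≤ exp (0 : ℤ) := by
    rw [exp_zero]
    have h1 : w r ^ 2 = 1 := by rw [← map_pow, hr, dt_d h]
    exact ((pow_eq_one_iff.1 h1).resolve_right (by norm_num)).le
  have h2w : w (2 : C) ≤ exp (0 : ℤ) := by rw [exp_zero, dt_two h]
  have h4w : w (4 : C) ≤ exp (0 : ℤ) := by
    have := hint 4
    rwa [Int.cast_ofNat] at this
  have h3w : w (3 : C) ≤ exp (-2 : ℤ) := (dt_three h).le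
  have hsL : w (((σ * d₁ : ℤ) : C) * (l * (1 + ((d₁ * (1 + d₂) : ℤ) : C) * l))) ≤ exp (-1 : ℤ) :=
    hmul (hint _) hL (by norm_num)
  have hwQ : w (B * U7 A) ≤ exp (-1 : ℤ) := by
    have h1 : w (2 * (B * U7 A)) ≤ exp (-1 : ℤ) := by
      have h2 : 2 * (B * U7 A) = (2 * (B * U7 A) - ((σ * d₁ : ℤ) : C) * (l * (1 + ((d₁ * (1 + d₂) : ℤ) : C) * l))) +
          ((σ * d₁ : ℤ) : C) * (l * (1 + ((d₁ * (1 + d₂) : ℤ) : C) * l)) := by ring
      rw [h2]
      exact hadd (hQ.trans (exp_le_exp.2 (by norm_num))) hsL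
    rwa [map_mul, dt_two h, one_mul] at h1
  have hid : (A + B * r) ^ 16 - ((A + B * r) ^ 16)⁻¹ -
      ((-(σ * d₁) : ℤ) : C) * (l * (1 + ((d₁ * (1 + d₂) : ℤ) : C) * l)) * r =
      (4 * ((T8 A - 1) * (B * U7 A)) +
        2 * (2 * (B * U7 A) - ((σ * d₁ : ℤ) : C) * (l * (1 + ((d₁ * (1 + d₂) : ℤ) : C) * l))) +
        3 * (((σ * d₁ : ℤ) : C) * (l * (1 + ((d₁ * (1 + d₂) : ℤ) : C) * l)))) * r := by
    rw [hd, Int.cast_neg]
    ring
  rw [hid]
  have hS : ∀ {a : C}, w a ≤ exp (-3 : ℤ) → w (a * r) ≤ exp (-3 : ℤ) := fun ha => hmul ha hwr (by norm_num)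
  refine hS (hadd (hadd ?_ ?_) ?_)
  · exact hmul h4w (hmul hP hwQ rfl) (by norm_num)
  · exact hmul h2w hQ (by norm_num)
  · exact hmul h3w hsL (by norm_num)

omit h in
/-- [LXe] powers of congruent elements -/
theorem lxe_pow {a b : C} {g : WithZero (Multiplicative ℤ)} (ha : w a ≤ 1) (hb : w b ≤ 1)
    (h : w (a - b) ≤ g) (n : ℕ) : w (a ^ n - b ^ n) ≤ g := by
  induction n with
  | zero => rw [pow_zero, pow_zero, sub_self, map_zero]; exact zero_le
  | succ n ih =>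
    have e : a ^ (n + 1) - b ^ (n + 1) = (a ^ n - b ^ n) * a + b ^ n * (a - b) := by ring
    rw [e]
    apply Valuation.map_add_le
    · rw [map_mul]
      exact (mul_le_of_le_one_right' ha).trans ih
    · rw [map_mul, map_pow]
      exact (mul_le_of_le_one_left' (pow_le_one' hb n)).trans h

omit h in
/-- [LXe] the function `a^16 - a^(-16)` for congruent units -/
theorem lxe_both {a b : C} {g : WithZero (Multiplicative ℤ)} (ha : w a = 1) (hb : w b = 1)
    (h : w (a - b) ≤ g) :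
    w ((a ^ 16 - (a ^ 16)⁻¹) - (b ^ 16 - (b ^ 16)⁻¹)) ≤ g := by
  have h1 := lxe_pow ha.le hb.le h 16
  have ha0 : a ≠ 0 := by
    rintro rfl
    rw [map_zero] at ha
    exact zero_ne_one ha
  have hb0 : b ≠ 0 := by
    rintro rfl
    rw [map_zero] at hb
    exact zero_ne_one hb
  have ha16 : w (a ^ 16) = 1 := by rw [map_pow, ha, one_pow]
  have hb16 : w (b ^ 16) = 1 := by rw [map_pow, hb, one_pow]
  have e : (a ^ 16 - (a ^ 16)⁻¹) - (b ^ 16 - (b ^ 16)⁻¹) =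
      (a ^ 16 - b ^ 16) + (a ^ 16 - b ^ 16) / (a ^ 16 * b ^ 16) := by
    field_simp
    ring
  rw [e]
  apply Valuation.map_add_le _ h1
  rw [map_div₀, map_mul, ha16, hb16, mul_one, div_one]
  exact h1

omit h in
/-- [LXe] `exp (-3) ≤ exp (-2)` and so on -/
theorem lxe_exp {m n : ℤ} (h : m ≤ n) : (exp m : WithZero (Multiplicative ℤ)) ≤ exp n :=
  WithZero.exp_le_exp.2 h

omit h in
theorem lxe_lt {a : WithZero (Multiplicative ℤ)} (h : a < 1) : a ≤ exp (-1 : ℤ) := by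
  by_cases h0 : a = 0
  · rw [h0]
    exact zero_le
  · have h1 : a = exp (WithZero.log a) := (WithZero.exp_log h0).symm
    rw [h1, ← WithZero.exp_zero, WithZero.exp_lt_exp] at h
    rw [h1, WithZero.exp_le_exp]
    omega

omit h in
theorem lxe_pow3 {a : WithZero (Multiplicative ℤ)} (h : a < 1) : a ^ 3 ≤ exp (-3 : ℤ) := by
  have h1 := pow_le_pow_left₀ zero_le (lxe_lt h) 3
  refine h1.trans (le_of_eq ?_)
  rw [← WithZero.exp_nsmul]
  rfl

omit h in
/-- [LXe] `2 a = 3 b`, `b > 0` -/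
theorem lxe_big {a b : WithZero (Multiplicative ℤ)} (hb : 1 < b) (h : a ^ 2 = b ^ 3) :
    exp (3 : ℤ) ≤ a := by
  have hb0 : b ≠ 0 := (zero_lt_one.trans hb).ne'
  have ha0 : a ≠ 0 := by
    rintro rfl
    rw [zero_pow two_ne_zero] at h
    exact pow_ne_zero 3 hb0 h.symm
  have h1 : a = exp (WithZero.log a) := (WithZero.exp_log ha0).symm
  have h2 : b = exp (WithZero.log b) := (WithZero.exp_log hb0).symm
  have h3 := congrArg WithZero.log h
  rw [WithZero.log_pow, WithZero.log_pow] at h3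
  rw [h2, ← WithZero.exp_zero, WithZero.exp_lt_exp] at hb
  rw [h1, WithZero.exp_le_exp]
  have h4 : (2 : ℤ) * WithZero.log a = 3 * WithZero.log b := by
    simpa using h3
  omega

omit h in
/-- [LXe] `exp (-1)` is not a square -/
theorem lxe_odd {a : WithZero (Multiplicative ℤ)} (h : a ^ 2 = exp (-1 : ℤ)) : False := by
  have h3 := congrArg WithZero.log h
  rw [WithZero.log_pow, WithZero.log_exp] at h3
  have h4 : (2 : ℤ) * WithZero.log a = -1 := by simpa using h3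
  omega

/-- [LXe] the value of `r` -/
theorem lxe_r {r : C} (hr : r ^ 2 = d) : w r = 1 := by
  have h1 : w r ^ 2 = 1 := by rw [← map_pow, hr, dt_d h]
  exact (pow_eq_one_iff.mp h1).resolve_right two_ne_zero

/-- [LXe] `d ≡ d₀` modulo `l` -/
theorem lxe_d0 : w (d - (d₀ : C)) < 1 := by
  have e : d - (d₀ : C) = (d - ((d₀ : C) + (d₁ : C) * l + (d₂ : C) * l ^ 2)) +
      ((d₁ : C) * l + (d₂ : C) * l ^ 2) := by ring
  have hl1 : w l < 1 := by
    rw [h.hl, ← WithZero.exp_zero, WithZero.exp_lt_exp]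
    norm_num
  rw [e]
  apply Valuation.map_add_lt
  · refine lt_of_le_of_lt h.dig ?_
    rw [← WithZero.exp_zero, WithZero.exp_lt_exp]
    norm_num
  · apply Valuation.map_add_lt
    · rw [map_mul]
      exact lt_of_le_of_lt (mul_le_of_le_one_left' (dt_int _)) hl1
    · rw [map_mul, map_pow]
      refine lt_of_le_of_lt (mul_le_of_le_one_left' (dt_int _)) ?_
      exact pow_lt_one₀ zero_le hl1 two_ne_zero

/-- [LXe] `w y > 1` -/
theorem lxe_case1 {x y r : C} (hr : r ^ 2 = d) (he : y ^ 2 = x ^ 3 + d) (hne : y - r ≠ 0)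
    (hy : 1 < w y) : ∃ h u : C, h ≠ 0 ∧ y - r = h ^ 3 * u ∧ w u = 1 ∧
      ∃ t : ℤ, w (u ^ 16 - (u ^ 16)⁻¹ - (t : C) * (l * (1 + ((d₁ * (1 + d₂) : ℤ) : C) * l)) * r) ≤
        exp (-3 : ℤ) := by
  have hd := dt_d h
  have hr1 := lxe_r h hr
  have h2 := dt_two h
  have hx : 1 < w x := by
    by_contra hx
    rw [not_lt] at hx
    have h1 : w (y ^ 2) ≤ 1 := by
      rw [he]
      apply Valuation.map_add_le
      · rw [map_pow]
        exact pow_le_one' hx 3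
      · exact hd.le
    rw [map_pow] at h1
    exact absurd (one_lt_pow₀ hy two_ne_zero) (not_lt.2 h1)
  have hx3 : 1 < w x ^ 3 := one_lt_pow₀ hx three_ne_zero
  have hsq : w y ^ 2 = w x ^ 3 := by
    rw [← map_pow, he, Valuation.map_add_eq_of_lt_left, map_pow]
    rw [hd, map_pow]
    exact hx3
  have hy3 : exp (3 : ℤ) ≤ w y := lxe_big hx hsq
  have hyr : w (y - r) = w y := Valuation.map_sub_eq_of_lt_left _ (by rw [hr1]; exact hy)
  have hyr' : w (y + r) = w y := Valuation.map_add_eq_of_lt_left _ (by rw [hr1]; exact hy)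
  have hy0 : w y ≠ 0 := (zero_lt_one.trans hy).ne'
  have hx0 : x ≠ 0 := by
    rintro rfl
    rw [map_zero] at hx
    exact absurd hx (not_lt.2 zero_le)
  have hprod : (y - r) * (y + r) = x ^ 3 := by linear_combination he - hr
  have hu1 : w ((y + r) / (y - r)) = 1 := by rw [map_div₀, hyr, hyr', div_self hy0]
  have hu : w ((y + r) / (y - r) - 1) ≤ exp (-3 : ℤ) := by
    have e : (y + r) / (y - r) - 1 = 2 * r / (y - r) := by
      field_simp
      ring
    rw [e, map_div₀, map_mul, h2, hr1, one_mul, hyr, one_div]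
    have h3 : (exp (-3 : ℤ) : WithZero (Multiplicative ℤ)) = (exp (3 : ℤ))⁻¹ := by
      rw [← WithZero.exp_neg]
    rw [h3]
    exact inv_anti₀ (by rw [← WithZero.exp_zero] at *; exact WithZero.exp_pos) hy3
  refine ⟨(y - r) / x, (y + r) / (y - r), div_ne_zero hne hx0, ?_, hu1, 0, ?_⟩
  · field_simp
    linear_combination -hprod
  · have h3 := lxe_both hu1 (map_one w) hu
    have e : ((y + r) / (y - r)) ^ 16 - (((y + r) / (y - r)) ^ 16)⁻¹ -
        ((0 : ℤ) : C) * (l * (1 + ((d₁ * (1 + d₂) : ℤ) : C) * l)) * r =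
        ((y + r) / (y - r)) ^ 16 - (((y + r) / (y - r)) ^ 16)⁻¹ - ((1 : C) ^ 16 - ((1 : C) ^ 16)⁻¹) := by
      push_cast
      rw [one_pow, inv_one]
      ring
    rw [e]
    exact h3

/-- [LXe] `w y < 1` is impossible -/
theorem lxe_case2 {x y : C} (he : y ^ 2 = x ^ 3 + d) (hy : w y < 1)
    (hx : w x ≤ 1) (hx' : w x < 1 ∨ w (x - 1) < 1 ∨ w (x + 1) < 1) : False := by
  have hd := dt_d h
  have h2 := dt_two h
  have hy2 : w (y ^ 2) < 1 := by
    rw [map_pow]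
    exact pow_lt_one₀ zero_le hy two_ne_zero
  have key : ∀ s : ℤ, s = 1 ∨ s = -1 → w (x - (s : C)) < 1 → False := by
    intro s hs hxs
    have hs' : (s : C) = 1 ∨ (s : C) = -1 := by
      rcases hs with rfl | rfl
      · left; push_cast; rfl
      · right; push_cast; rfl
    have h3 : w (x ^ 3 - (s : C)) ≤ exp (-3 : ℤ) := dt_cube h hs' hxs
    have h0 : s + d₀ = 0 := by
      have h4 : w ((s : C) + (d₀ : C)) < 1 := by
        have e : (s : C) + (d₀ : C) = y ^ 2 - (x ^ 3 - (s : C)) - (d - (d₀ : C)) := by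
          rw [he]
          ring
        rw [e]
        apply Valuation.map_sub_lt _ (Valuation.map_sub_lt _ hy2 ?_) (lxe_d0 h)
        refine lt_of_le_of_lt h3 ?_
        rw [← WithZero.exp_zero, WithZero.exp_lt_exp]
        norm_num
      rcases hs with rfl | rfl <;> rcases h.h0 with h5 | h5 <;> rw [h5] at h4 ⊢
      · exfalso
        push_cast at h4
        rw [one_add_one_eq_two, h2] at h4
        exact lt_irrefl _ h4
      · norm_num
      · norm_num
      · exfalso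
        push_cast at h4
        rw [show (-1 : C) + -1 = -2 by ring, Valuation.map_neg, h2] at h4
        exact lt_irrefl _ h4
    have h1 : w ((d₁ : C) * l) = exp (-1 : ℤ) := by
      have h6 : w (d₁ : C) = 1 := by
        rcases h.h1 with h5 | h5 <;> rw [h5] <;> push_cast
        · exact map_one w
        · rw [Valuation.map_neg, map_one]
      rw [map_mul, h6, one_mul, h.hl]
    have h7 : w (y ^ 2) = exp (-1 : ℤ) := by
      have e : y ^ 2 = (d₁ : C) * l + ((x ^ 3 - (s : C)) +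
          ((d - ((d₀ : C) + (d₁ : C) * l + (d₂ : C) * l ^ 2)) + (d₂ : C) * l ^ 2)) := by
        have h8 : (s : C) + (d₀ : C) = 0 := by rw [← Int.cast_add, h0, Int.cast_zero]
        rw [he]
        linear_combination h8
      have h9 : w ((x ^ 3 - (s : C)) + ((d - ((d₀ : C) + (d₁ : C) * l + (d₂ : C) * l ^ 2)) +
          (d₂ : C) * l ^ 2)) ≤ exp (-2 : ℤ) := by
        apply Valuation.map_add_le _ (h3.trans (lxe_exp (by norm_num)))
        apply Valuation.map_add_le _ (h.dig.trans (lxe_exp (by norm_num)))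
        rw [map_mul, map_pow, h.hl]
        refine (mul_le_of_le_one_left' (dt_int _)).trans (le_of_eq ?_)
        rw [← WithZero.exp_nsmul]
        rfl
      rw [e, Valuation.map_add_eq_of_lt_left, h1]
      rw [h1]
      refine lt_of_le_of_lt h9 ?_
      rw [WithZero.exp_lt_exp]
      norm_num
    rw [map_pow] at h7
    exact lxe_odd h7
  rcases hx' with hx' | hx' | hx'
  · have h1 : w (y ^ 2) = 1 := by
      rw [he, Valuation.map_add_eq_of_lt_right, hd]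
      rw [hd, map_pow]
      exact pow_lt_one₀ zero_le hx' three_ne_zero
    rw [h1] at hy2
    exact lt_irrefl _ hy2
  · exact key 1 (Or.inl rfl) (by push_cast; exact hx')
  · exact key (-1) (Or.inr rfl) (by push_cast; rw [sub_neg_eq_add]; exact hx')

/-- [LXe] `w y = 1`, `w x < 1` -/
theorem lxe_case3 {x y r : C} (hr : r ^ 2 = d) (he : y ^ 2 = x ^ 3 + d) (hne : y - r ≠ 0)
    (hy : w y = 1) {σ : ℤ} (hσ : σ = 1 ∨ σ = -1) (hyσ : w (y - (σ : C)) < 1) (hx : w x < 1) :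
    ∃ h u : C, h ≠ 0 ∧ y - r = h ^ 3 * u ∧ w u = 1 ∧
      ∃ t : ℤ, w (u ^ 16 - (u ^ 16)⁻¹ - (t : C) * (l * (1 + ((d₁ * (1 + d₂) : ℤ) : C) * l)) * r) ≤
        exp (-3 : ℤ) := by
  have hd := dt_d h
  have hr1 := lxe_r h hr
  have h2 := dt_two h
  have hx3 : w (x ^ 3) ≤ exp (-3 : ℤ) := by
    rw [map_pow]
    exact lxe_pow3 hx
  have hx3' : w (x ^ 3) < 1 := by
    rw [map_pow]
    exact pow_lt_one₀ zero_le hx three_ne_zero
  have hσ2 : (σ : C) ^ 2 = 1 := by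
    rcases hσ with rfl | rfl <;> push_cast <;> norm_num
  have hσw : w (σ : C) = 1 := by
    rcases hσ with rfl | rfl <;> push_cast
    · exact map_one w
    · rw [Valuation.map_neg, map_one]
  have hd0 : d₀ = 1 := by
    rcases h.h0 with h0 | h0
    · exact h0
    · exfalso
      have h3 : w ((1 : C) - (d₀ : C)) < 1 := by
        have e : (1 : C) - (d₀ : C) = x ^ 3 + (d - (d₀ : C)) - (y - (σ : C)) * (y + (σ : C)) := by
          linear_combination he - hσ2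
        rw [e]
        apply Valuation.map_sub_lt _ (Valuation.map_add_lt _ hx3' (lxe_d0 h))
        rw [map_mul]
        refine lt_of_le_of_lt (mul_le_of_le_one_right' ?_) hyσ
        exact Valuation.map_add_le _ hy.le hσw.le
      rw [h0] at h3
      push_cast at h3
      rw [sub_neg_eq_add, one_add_one_eq_two, h2] at h3
      exact lt_irrefl _ h3
  have hprod : (y - r) * (y + r) = x ^ 3 := by linear_combination he - hr
  have hm : w (y - r) ≤ 1 := Valuation.map_sub_le _ hy.le hr1.le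
  have hp : w (y + r) ≤ 1 := Valuation.map_add_le _ hy.le hr1.le
  have h2r : w (2 * r) = 1 := by rw [map_mul, h2, hr1, one_mul]
  have hprodw : w (y - r) * w (y + r) ≤ exp (-3 : ℤ) := by
    rw [← map_mul, hprod]
    exact hx3
  rcases hp.lt_or_eq with hp1 | hp1
  · -- `w (y - r) = 1`
    have hm1 : w (y - r) = 1 := by
      by_contra hc
      have hm1 : w (y - r) < 1 := lt_of_le_of_ne hm hc
      have e : 2 * r = (y + r) - (y - r) := by ring
      rw [e] at h2r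
      have := Valuation.map_sub_lt w hp1 hm1
      rw [h2r] at this
      exact lt_irrefl _ this
    rw [hm1, one_mul] at hprodw
    have hrσ : w (r - ((-σ : ℤ) : C)) < 1 := by
      have e : r - ((-σ : ℤ) : C) = (y + r) - (y - (σ : C)) := by
        push_cast
        ring
      rw [e]
      exact Valuation.map_sub_lt _ hp1 hyσ
    have h4 := dt_two_r h hd0 hr (ρ := -σ) (by rcases hσ with rfl | rfl <;> norm_num) hrσ
    refine ⟨1, y - r, one_ne_zero, by ring, hm1, (-σ) * d₁, ?_⟩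
    have h5 : w ((y - r) - (-(2 * r))) ≤ exp (-3 : ℤ) := by
      have e : (y - r) - (-(2 * r)) = y + r := by ring
      rw [e]
      exact hprodw
    have h6 := lxe_both hm1 (by rw [Valuation.map_neg]; exact h2r) h5
    have e : (y - r) ^ 16 - ((y - r) ^ 16)⁻¹ - (((-σ) * d₁ : ℤ) : C) *
        (l * (1 + ((d₁ * (1 + d₂) : ℤ) : C) * l)) * r =
        (((y - r) ^ 16 - ((y - r) ^ 16)⁻¹) - ((-(2 * r)) ^ 16 - ((-(2 * r)) ^ 16)⁻¹)) +
        ((2 * r) ^ 16 - ((2 * r) ^ 16)⁻¹ - (((-σ) * d₁ : ℤ) : C) *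
        (l * (1 + ((d₁ * (1 + d₂) : ℤ) : C) * l)) * r) := by
      rw [show (-(2 * r)) ^ 16 = (2 * r) ^ 16 by ring]
      ring
    rw [e]
    exact Valuation.map_add_le _ h6 h4
  · -- `w (y + r) = 1`
    rw [hp1, mul_one] at hprodw
    have hx0 : x ≠ 0 := by
      rintro rfl
      apply hne
      have h3 : y + r ≠ 0 := by
        intro h0
        rw [h0, map_zero] at hp1
        exact zero_ne_one hp1
      rw [zero_pow three_ne_zero] at hprod
      exact (mul_eq_zero.1 hprod).resolve_right h3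
    have hyr0 : y + r ≠ 0 := by
      intro h0
      rw [h0, map_zero] at hp1
      exact zero_ne_one hp1
    have hrσ : w (r - (σ : C)) < 1 := by
      have e : r - (σ : C) = (y - (σ : C)) - (y - r) := by ring
      rw [e]
      refine Valuation.map_sub_lt _ hyσ (lt_of_le_of_lt hprodw ?_)
      rw [← WithZero.exp_zero, WithZero.exp_lt_exp]
      norm_num
    have h4 := dt_two_r h hd0 hr (ρ := σ) hσ hrσ
    refine ⟨x, (y + r)⁻¹, hx0, ?_, by rw [map_inv₀, hp1, inv_one], -(σ * d₁), ?_⟩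
    · field_simp
      exact hprod
    · have h5 : w ((y + r) - 2 * r) ≤ exp (-3 : ℤ) := by
        have e : (y + r) - 2 * r = y - r := by ring
        rw [e]
        exact hprodw
      have h6 := lxe_both hp1 h2r h5
      have e : ((y + r)⁻¹) ^ 16 - (((y + r)⁻¹) ^ 16)⁻¹ - ((-(σ * d₁) : ℤ) : C) *
          (l * (1 + ((d₁ * (1 + d₂) : ℤ) : C) * l)) * r =
          -((((y + r) ^ 16 - ((y + r) ^ 16)⁻¹) - ((2 * r) ^ 16 - ((2 * r) ^ 16)⁻¹)) +
          ((2 * r) ^ 16 - ((2 * r) ^ 16)⁻¹ - ((σ * d₁ : ℤ) : C) *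
          (l * (1 + ((d₁ * (1 + d₂) : ℤ) : C) * l)) * r)) := by
        rw [inv_pow, inv_inv]
        push_cast
        ring
      rw [e, Valuation.map_neg]
      exact Valuation.map_add_le _ h6 h4

/-- [LXe] `w y = w x = 1` -/
theorem lxe_case4 {x y r : C} (hr : r ^ 2 = d) (he : y ^ 2 = x ^ 3 + d) (hne : y - r ≠ 0)
    (hy : w y = 1) {σ : ℤ} (hσ : σ = 1 ∨ σ = -1) (hyσ : w (y - (σ : C)) < 1) (hx : w x = 1)
    {s : ℤ} (hs : s = 1 ∨ s = -1) (hxs : w (x - (s : C)) < 1) :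
    ∃ h u : C, h ≠ 0 ∧ y - r = h ^ 3 * u ∧ w u = 1 ∧
      ∃ t : ℤ, w (u ^ 16 - (u ^ 16)⁻¹ - (t : C) * (l * (1 + ((d₁ * (1 + d₂) : ℤ) : C) * l)) * r) ≤
        exp (-3 : ℤ) := by
  have hd := dt_d h
  have hr1 := lxe_r h hr
  have h2 := dt_two h
  have hlt3 : (exp (-3 : ℤ) : WithZero (Multiplicative ℤ)) < 1 := by
    rw [← WithZero.exp_zero, WithZero.exp_lt_exp]
    norm_num
  have hs' : (s : C) = 1 ∨ (s : C) = -1 := by
    rcases hs with rfl | rfl
    · left; push_cast; rfl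
    · right; push_cast; rfl
  have hx3 : w (x ^ 3 - (s : C)) ≤ exp (-3 : ℤ) := dt_cube h hs' hxs
  have hσ2 : (σ : C) ^ 2 = 1 := by
    rcases hσ with rfl | rfl <;> push_cast <;> norm_num
  have hσw : w (σ : C) = 1 := by
    rcases hσ with rfl | rfl <;> push_cast
    · exact map_one w
    · rw [Valuation.map_neg, map_one]
  have h3 : w ((1 : C) - (s : C) - (d₀ : C)) < 1 := by
    have e : (1 : C) - (s : C) - (d₀ : C) =
        (x ^ 3 - (s : C)) + (d - (d₀ : C)) - (y - (σ : C)) * (y + (σ : C)) := by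
      linear_combination he - hσ2
    rw [e]
    apply Valuation.map_sub_lt _ (Valuation.map_add_lt _ (lt_of_le_of_lt hx3 hlt3) (lxe_d0 h))
    rw [map_mul]
    refine lt_of_le_of_lt (mul_le_of_le_one_right' ?_) hyσ
    exact Valuation.map_add_le _ hy.le hσw.le
  have hsd : s = -1 ∧ d₀ = -1 := by
    rcases hs with rfl | rfl <;> rcases h.h0 with h5 | h5 <;> rw [h5] at h3 <;> push_cast at h3
    · exfalso
      rw [show (1 : C) - 1 - 1 = -1 by ring, Valuation.map_neg, map_one] at h3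
      exact lt_irrefl _ h3
    · exfalso
      rw [show (1 : C) - 1 - -1 = 1 by ring, map_one] at h3
      exact lt_irrefl _ h3
    · exfalso
      rw [show (1 : C) - -1 - 1 = 1 by ring, map_one] at h3
      exact lt_irrefl _ h3
    · exact ⟨rfl, h5⟩
  obtain ⟨rfl, hd0⟩ := hsd
  have hx3' : w (x ^ 3 + 1) ≤ exp (-3 : ℤ) := by
    push_cast at hx3
    rwa [sub_neg_eq_add] at hx3
  have hx0 : x ≠ 0 := by
    rintro rfl
    rw [map_zero] at hx
    exact zero_ne_one hx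
  have hx3w : w (x ^ 3) = 1 := by rw [map_pow, hx, one_pow]
  have hprod : (y - r) * (y + r) = x ^ 3 := by linear_combination he - hr
  have hm : w (y - r) ≤ 1 := Valuation.map_sub_le _ hy.le hr1.le
  have hp : w (y + r) ≤ 1 := Valuation.map_add_le _ hy.le hr1.le
  have hprodw : w (y - r) * w (y + r) = 1 := by rw [← map_mul, hprod, hx3w]
  have hm1 : w (y - r) = 1 := by
    refine le_antisymm hm ?_
    rw [← hprodw]
    exact mul_le_of_le_one_right' hp
  have hp1 : w (y + r) = 1 := by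
    rw [hm1, one_mul] at hprodw
    exact hprodw
  have hAB : ((y ^ 2 + d) / x ^ 3) ^ 2 - (2 * y / x ^ 3) ^ 2 * d = 1 := by
    field_simp
    linear_combination (y ^ 2 - d + x ^ 3) * he
  have hu : (y + r) / (y - r) = (y ^ 2 + d) / x ^ 3 + 2 * y / x ^ 3 * r := by
    rw [← hprod]
    have hyr0 : y + r ≠ 0 := by
      intro h0
      rw [h0, map_zero] at hp1
      exact zero_ne_one hp1
    field_simp
    linear_combination hr
  have hσ' : -σ = 1 ∨ -σ = -1 := by rcases hσ with rfl | rfl <;> norm_num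
  have h7 := dt_theta h hd0 (A := (y ^ 2 + d) / x ^ 3) (B := 2 * y / x ^ 3) (y := -y) (r := r) hr hAB
    (σ := -σ) hσ' (by
      have e : -y - ((-σ : ℤ) : C) = -(y - (σ : C)) := by push_cast; ring
      rw [e, Valuation.map_neg]
      exact hyσ) (by
      have e : (-y) ^ 2 - (d - 1) = x ^ 3 + 1 := by linear_combination he
      rw [e]
      exact hx3') (by
      have e : (y ^ 2 + d) / x ^ 3 - (1 - 2 * d) = 2 * d * (x ^ 3 + 1) / x ^ 3 := by
        field_simp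
        linear_combination he
      rw [e, map_div₀, hx3w, div_one, map_mul, map_mul, h2, hd, one_mul, one_mul]
      exact hx3') (by
      have e : 2 * y / x ^ 3 - 2 * -y = 2 * y * (x ^ 3 + 1) / x ^ 3 := by
        field_simp
        ring
      rw [e, map_div₀, hx3w, div_one, map_mul, map_mul, h2, hy, one_mul, one_mul]
      exact hx3'.trans (lxe_exp (by norm_num)))
  refine ⟨(y - r) / x, (y + r) / (y - r), div_ne_zero hne hx0, ?_, ?_, -((-σ) * d₁), ?_⟩
  · field_simp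
    linear_combination -hprod
  · rw [map_div₀, hm1, hp1, div_one]
  · rw [hu]
    exact h7

/-- [LXe] -/
theorem lx_point {x y r : C} (hr : r ^ 2 = d) (he : y ^ 2 = x ^ 3 + d) (hne : y - r ≠ 0)
    (hx : w x ≤ 1 → w x < 1 ∨ w (x - 1) < 1 ∨ w (x + 1) < 1) (hy : w y ≤ 1 → w y < 1 ∨ w (y - 1) < 1 ∨ w (y + 1) < 1) :
    ∃ h u : C, h ≠ 0 ∧ y - r = h ^ 3 * u ∧ w u = 1 ∧
      ∃ t : ℤ, w (u ^ 16 - (u ^ 16)⁻¹ - (t : C) * (l * (1 + ((d₁ * (1 + d₂) : ℤ) : C) * l)) * r) ≤ exp (-3 : ℤ) := by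
  have hd := dt_d h
  rcases lt_or_ge 1 (w y) with hy1 | hy1
  · exact lxe_case1 h hr he hne hy1
  · have hx1 : w x ≤ 1 := by
      by_contra hc
      rw [not_le] at hc
      have h3 : 1 < w x ^ 3 := one_lt_pow₀ hc three_ne_zero
      have h4 : w (y ^ 2) = w x ^ 3 := by
        rw [he, Valuation.map_add_eq_of_lt_left, map_pow]
        rw [hd, map_pow]
        exact h3
      have h5 : w (y ^ 2) ≤ 1 := by
        rw [map_pow]
        exact pow_le_one' hy1 2
      rw [h4] at h5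
      exact absurd h3 (not_lt.2 h5)
    rcases hy1.lt_or_eq with hy2 | hy2
    · exact (lxe_case2 h he hy2 hx1 (hx hx1)).elim
    · have hσ : ∃ σ : ℤ, (σ = 1 ∨ σ = -1) ∧ w (y - (σ : C)) < 1 := by
        rcases hy hy1 with h1 | h1 | h1
        · rw [hy2] at h1
          exact absurd h1 (lt_irrefl _)
        · exact ⟨1, Or.inl rfl, by push_cast; exact h1⟩
        · exact ⟨-1, Or.inr rfl, by push_cast; rw [sub_neg_eq_add]; exact h1⟩
      obtain ⟨σ, hσ1, hσ2⟩ := hσ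
      rcases hx1.lt_or_eq with hx2 | hx2
      · exact lxe_case3 h hr he hne hy2 hσ1 hσ2 hx2
      · have hs : ∃ s : ℤ, (s = 1 ∨ s = -1) ∧ w (x - (s : C)) < 1 := by
          rcases hx hx1 with h1 | h1 | h1
          · rw [hx2] at h1
            exact absurd h1 (lt_irrefl _)
          · exact ⟨1, Or.inl rfl, by push_cast; exact h1⟩
          · exact ⟨-1, Or.inr rfl, by push_cast; rw [sub_neg_eq_add]; exact h1⟩
        obtain ⟨s, hs1, hs2⟩ := hs
        exact lxe_case4 h hr he hne hy2 hσ1 hσ2 hx2 hs1 hs2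

end

end JXD
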