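import Pool.Agent.JXD.L0
import Pool.Agent.JXD.PA
import Pool.Agent.JXD.LX
import Pool.Agent.JD.E6

/-!
# [JXD-E6] the elements of `LamX` at the places of `KK`

`α = u + y r` (`u, y ∈ KK`), `LamX D r τ α`.

PROOF. `lam_laX` [E6]: as `JD.lam_la` (JD/E6.lean): `w` over `λ` (`exists_ov`), `w'` the conjugate place (`exists_cj`); `w α = 1`, `w (τ α) = w' α = 1`. `2 u = α + τ α`, `2 y r = α - τ α`, `w 2 = w r = 1`: `w u, w y ≤ 1`. `α^8 = P + Q r`, `P = T8 u`, `Q = y U7 u` (`pow8`, LX.lean, in `F`, with `d = jF F D`; `u² - y² D = 1`: `lam_normX`),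
`(α^8)⁻¹ = P - Q r`. `w (α^8 - 1) < 1`, `w ((α^8)⁻¹ - 1) < 1` (`ov_eight`, Q4), so `w (P - 1) < 1` (half of the sum). `α^8 - α⁻⁸ = 2 Q r`, `PX D r α` gives `q` with `Ln D q` and `w (2 Q r - jF (la q) r) ≤ w (la)³`, so `w (2 Q - la q) ≤ exp (-3)`; `Ln D q` gives the digits and `t` with `la² ∣ q - t (1 + c la)`.
Transfer to `v`: `v.valuation KK x = w.valuation F (algebraMap KK F x)` as at the end of the proof of `JD.lam_la` (with `below_val` of JXD/L0.lean); `T8 (algebraMap x) = algebraMap (T8 x)` (`unfold`, `simp`).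
-/

set_option autoImplicit false

open NumberField IsDedekindDomain
open scoped Classical

namespace JXD

open CM27 CF JZ JX JD
open CU (la om eE)

section
variable {D : Eis} {F : Type} [Field F] [NumberField F] [Algebra KK F] {r : F} {τ : F ≃ₐ[KK] F}
  {α : F} {u y : KK}

theorem lam_normX (hQ : Quad D r τ) (hα : LamX D r τ α) (huy : α = algebraMap KK F u + algebraMap KK F y * r) :
    u ^ 2 - y ^ 2 * jK D = 1 := by
  have h1 := hα.1
  rw [huy, map_add, map_mul, τ.commutes, τ.commutes, hQ.tau] at h1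
  apply (algebraMap KK F).injective
  rw [map_sub, map_pow, map_mul, map_pow, map_one, ← jF_apply, ← hQ.sq]
  linear_combination h1

theorem e6_T8 (x : KK) : algebraMap KK F (T8 x) = T8 (algebraMap KK F x) := by
  unfold T8
  simp only [map_add, map_sub, map_mul, map_pow, map_ofNat, map_one]

theorem e6_U7 (x : KK) : algebraMap KK F (U7 x) = U7 (algebraMap KK F x) := by
  unfold U7
  simp only [map_add, map_sub, map_mul, map_pow, map_ofNat, map_one]

/-- [E6] -/
theorem lam_laX (hD : Cl0 D) (hQ : Quad D r τ) (hα : LamX D r τ α) (huy : α = algebraMap KK F u + algebraMap KK F y * r)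
    (v : HeightOneSpectrum (𝓞 KK)) (hv : v.asIdeal = Ideal.span {eE la}) :
    v.valuation KK u ≤ 1 ∧ v.valuation KK y ≤ 1 ∧ v.valuation KK (T8 u - 1) < 1 ∧
      ∃ d₀ d₁ d₂ t : ℤ, Dig D d₀ d₁ d₂ ∧
        v.valuation KK (2 * (y * U7 u) - jK ((t : Eis) * (la * (1 + ((d₁ * (1 + d₂) : ℤ) : Eis) * la)))) ≤
          WithZero.exp (-3 : ℤ) := by
  obtain ⟨w, hw⟩ := exists_ov hD hQ
  obtain ⟨w', hw'⟩ := exists_cj τ w
  have how' : OvLa w' := by
    show w'.valuation F (jF F la) < 1
    rw [hw', tau_jF]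
    exact hw
  have a1 : w.valuation F α = 1 := hα.2.2.1 w hw
  have a2 : w.valuation F (τ α) = 1 := by
    rw [← hw']
    exact hα.2.2.1 w' how'
  have h2 : w.valuation F (2 : F) = 1 := by
    have h3 : (2 : F) = jF F 2 := by rw [map_ofNat]
    rw [h3]
    refine le_antisymm (q3a_le w (int_jF F 2)) (not_lt.1 fun h4 => ?_)
    have h5 := (ov_mem w hw 2).1 h4
    rw [CU.la_dvd_iff] at h5
    revert h5
    decide
  have hr := (ov_D hD hQ w hw).2
  have hτ : τ α = algebraMap KK F u - algebraMap KK F y * r := by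
    rw [huy, map_add, map_mul, τ.commutes, τ.commutes, hQ.tau]
    ring
  have hu : w.valuation F (algebraMap KK F u) ≤ 1 := by
    have e : (2 : F) * algebraMap KK F u = α + τ α := by
      rw [hτ, huy]
      ring
    have h5 : w.valuation F ((2 : F) * algebraMap KK F u) ≤ 1 := by
      rw [e]
      exact Valuation.map_add_le _ a1.le a2.le
    rwa [map_mul, h2, one_mul] at h5
  have hy : w.valuation F (algebraMap KK F y) ≤ 1 := by
    have e : (2 : F) * algebraMap KK F y * r = α - τ α := by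
      rw [hτ, huy]
      ring
    have h5 : w.valuation F ((2 : F) * algebraMap KK F y * r) ≤ 1 := by
      rw [e]
      exact Valuation.map_sub_le _ a1.le a2.le
    rwa [map_mul, map_mul, h2, hr, one_mul, mul_one] at h5
  have hn : algebraMap KK F u ^ 2 - algebraMap KK F y ^ 2 * jF F D = 1 := by
    have h1 := congrArg (algebraMap KK F) (lam_normX hQ hα huy)
    rw [map_sub, map_pow, map_mul, map_pow, map_one, ← jF_apply] at h1
    exact h1
  have hp := (pow8 hQ.sq hn).1
  have hp' := (pow8 (u := algebraMap KK F u) (y := -algebraMap KK F y) hQ.sq (by rw [neg_sq]; exact hn)).1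
  rw [← huy] at hp
  have hp2 : τ α ^ 8 = T8 (algebraMap KK F u) - algebraMap KK F y * U7 (algebraMap KK F u) * r := by
    rw [hτ]
    have e1 : algebraMap KK F u - algebraMap KK F y * r = algebraMap KK F u + -algebraMap KK F y * r := by ring
    rw [e1, hp']
    ring
  have b1 := ov_eight hD hQ w hw a1
  have b2 := ov_eight hD hQ w hw a2
  have hP : w.valuation F (T8 (algebraMap KK F u) - 1) < 1 := by
    have e : (2 : F) * (T8 (algebraMap KK F u) - 1) = (α ^ 8 - 1) + (τ α ^ 8 - 1) := by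
      rw [hp, hp2]
      ring
    have h5 : w.valuation F ((2 : F) * (T8 (algebraMap KK F u) - 1)) < 1 := by
      rw [e]
      exact Valuation.map_add_lt _ b1 b2
    rwa [map_mul, h2, one_mul] at h5
  have hinv : (α ^ 8)⁻¹ = τ α ^ 8 := by
    apply inv_eq_of_mul_eq_one_right
    rw [← mul_pow, hα.1, one_pow]
  obtain ⟨q, hq, d₀, d₁, d₂, t, hdig, m, hm⟩ := hα.2.2.2
  have h3 := hq w hw
  have hl3 : w.valuation F (jF F la) ^ 3 = WithZero.exp (-3 : ℤ) := by
    rw [ov_val hD hQ w hw, ← WithZero.exp_nsmul]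
    rfl
  have h4 : w.valuation F (2 * (algebraMap KK F y * U7 (algebraMap KK F u)) - jF F (la * q)) ≤ WithZero.exp (-3 : ℤ) := by
    have e : (2 * (algebraMap KK F y * U7 (algebraMap KK F u)) - jF F (la * q)) * r =
        α ^ 8 - (α ^ 8)⁻¹ - jF F (la * q) * r := by
      rw [hinv, hp, hp2]
      ring
    have h5 : w.valuation F ((2 * (algebraMap KK F y * U7 (algebraMap KK F u)) - jF F (la * q)) * r) ≤
        WithZero.exp (-3 : ℤ) := by
      rw [e, ← hl3]
      exact h3
    rwa [map_mul, hr, mul_one] at h5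
  have h6 : w.valuation F (2 * (algebraMap KK F y * U7 (algebraMap KK F u)) -
      jF F ((t : Eis) * (la * (1 + ((d₁ * (1 + d₂) : ℤ) : Eis) * la)))) ≤ WithZero.exp (-3 : ℤ) := by
    have e : 2 * (algebraMap KK F y * U7 (algebraMap KK F u)) -
        jF F ((t : Eis) * (la * (1 + ((d₁ * (1 + d₂) : ℤ) : Eis) * la))) =
        (2 * (algebraMap KK F y * U7 (algebraMap KK F u)) - jF F (la * q)) + jF F la ^ 3 * jF F m := by
      have e1 : la * q = (t : Eis) * (la * (1 + ((d₁ * (1 + d₂) : ℤ) : Eis) * la)) + la ^ 3 * m := by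
        linear_combination la * hm
      rw [e1, map_add, map_mul _ (la ^ 3), map_pow]
      ring
    rw [e]
    refine Valuation.map_add_le _ h4 ?_
    rw [map_mul, map_pow, hl3]
    calc WithZero.exp (-3 : ℤ) * w.valuation F (jF F m) ≤ WithZero.exp (-3 : ℤ) * 1 := by
          gcongr
          exact q3a_le w (int_jF F m)
      _ = _ := mul_one _
  obtain ⟨v', φ, hB⟩ := exists_Below w
  have hv' := l0b_ideal hB hw
  have hvv : v' = v := HeightOneSpectrum.ext (hv'.trans hv.symm)
  subst hvv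
  have key : ∀ x : KK, v'.valuation KK x = w.valuation F (algebraMap KK F x) := by
    intro x
    have h5 := below_val hB hw hD hQ (algebraMap KK (v'.adicCompletion KK) x)
    rw [hB.comm] at h5
    rw [← HeightOneSpectrum.valuedAdicCompletion_eq_valuation' w,
      ← HeightOneSpectrum.valuedAdicCompletion_eq_valuation' v']
    exact h5.symm
  refine ⟨?_, ?_, ?_, d₀, d₁, d₂, t, hdig, ?_⟩
  · rw [key]
    exact hu
  · rw [key]
    exact hy
  · rw [key, map_sub, map_one, e6_T8]
    exact hP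
  · rw [key, map_sub, map_mul, map_mul, map_ofNat, e6_U7, ← jF_apply]
    exact h6

theorem split_valX (hD : Cl0 D) (hQ : Quad D r τ) (hα : LamX D r τ α) (huy : α = algebraMap KK F u + algebraMap KK F y * r)
    (v : HeightOneSpectrum (𝓞 KK)) {s : v.adicCompletion KK} (hs : s ^ 2 = algebraMap KK (v.adicCompletion KK) (jK D)) :
    ∃ γ : WithZero (Multiplicative ℤ), Valued.v (algebraMap KK (v.adicCompletion KK) u +
      algebraMap KK (v.adicCompletion KK) y * s) = γ ^ 3 := by
  have hD0 : D ≠ 0 := ne_of_cl hD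
  obtain ⟨i, hi⟩ := e6b_hom hD0 hQ hs
  have hi' : ∀ x : KK, i (algebraMap KK F x) = algebraMap KK (v.adicCompletion KK) x := by
    intro x
    have h := hi x 0
    rw [map_zero, zero_mul, add_zero, map_zero, zero_mul, add_zero] at h
    exact h
  obtain ⟨w, hw⟩ := e6b_place v i hi'
  have hw1 : ∀ z : F, w.valuation F z = 1 → Valued.v (i z) = (1 : WithZero (Multiplicative ℤ)) := by
    intro z hz
    have hz0 : z ≠ 0 := by
      rintro rfl
      rw [map_zero] at hz
      exact zero_ne_one hz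
    refine le_antisymm (hw z hz.le) ?_
    have h1 := hw z⁻¹ (by rw [map_inv₀, hz, inv_one])
    rw [map_inv₀, map_inv₀] at h1
    have h0 : (Valued.v (i z) : WithZero (Multiplicative ℤ)) ≠ 0 :=
      (Valuation.ne_zero_iff _).2 ((map_ne_zero i).2 hz0)
    exact (inv_le_one₀ (zero_lt_iff.2 h0)).1 h1
  have hα0 : α ≠ 0 := by
    rintro rfl
    have h := hα.1
    rw [zero_mul] at h
    exact zero_ne_one h
  obtain ⟨g, hg⟩ := hα.2.1 w
  have hg0 : g ≠ 0 := by
    rintro rfl
    rw [zero_pow (by norm_num : (3 : ℕ) ≠ 0)] at hg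
    exact hα0 ((map_eq_zero _).1 hg)
  obtain ⟨π, hπ⟩ := w.valuation_surjective F g
  have hπ0 : π ≠ 0 := by
    rintro rfl
    rw [map_zero] at hπ
    exact hg0 hπ.symm
  have h1 : w.valuation F (α / π ^ 3) = 1 := by
    rw [map_div₀, map_pow, hg, hπ, div_self (pow_ne_zero _ hg0)]
  refine ⟨Valued.v (i π), ?_⟩
  have h2 := hw1 _ h1
  have h3 : α = α / π ^ 3 * π ^ 3 := by
    rw [div_mul_cancel₀ _ (pow_ne_zero _ hπ0)]
  rw [← hi, ← huy, h3, map_mul, map_mul, h2, one_mul, map_pow, map_pow]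

end

end JXD
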