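import Pool.Agent.JXD.Q3

/-!
# [JXD-Q4] residue fields over `λ`, and the correction `κ`

PROOF. `ov_eight`: first for integral `x`: `𝓞 F / w` is a finite field; its elements are the classes of `a + b r` (`exists_int`) with `a, b` modulo `la` (`Eis / la` has three elements `0, 1, -1`: `CU.la_dvd_iff`), so it has at most 9 elements and
characteristic 3: its order is 3 or 9, the order of its unit group is 2 or 8, `x ^ 8 = 1`. In general `x = n / d` with integers `n, d` of valuation 1 (`w x ≤ 1`: `HeightOneSpectrum.exists_primeCompl_mul_eq_of_integer`), `n ^ 8 ≡ 1 ≡ d ^ 8`,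
`x ^ 8 - 1 = (n ^ 8 - d ^ 8) / d ^ 8`.
(The only facts about `w` are `ov_mem` and `exists_int`. Direct computation is possible: `(a + b r)^8` modulo `la` for the 9 pairs, `r² ≡ η`.)
`exists_kappa`: If `w x = w (τ x)` for all `x` and a place `w` over `λ`, then all places over `λ` are this one (`ov_trans`), `w a = w (τ a) = (w a)⁻¹`, so `w a = 1`, `κ = 1`.
Otherwise let `w₁` be a place over `λ` (`exists_ov`), `w₂` its conjugate (`exists_cj`), `w₁ ≠ w₂`; every place over `λ` has the valuation of `w₁` or of `w₂` (`ov_trans`). `w₁ a = g³`, `w₂ a = w₁ (τ a) = g⁻³`, `g ≠ 0`. Choose `x ∈ 𝓞 F` with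
`w₁ x = exp (-1)`, `w₂ x = 1` (chinese remainder for the coprime ideals `w₁²`, `w₂`: `x ≡ π mod w₁²`, `x ≡ 1 mod w₂`, `π` a uniformizer of `w₁`: `HeightOneSpectrum.intValuation_exists_uniformizer`), `β = x ^ n` (`n ∈ ℤ`) with `w₁ β = g`, `w₂ β = 1`
(`g = exp (-n)`), `κ = β / τ β`: `κ * τ κ = 1` (`tau_tau`), `w₁ κ = w₁ β / w₁ (τ β) = g / w₂ β = g`, `w₂ κ = w₂ β / w₂ (τ β) = 1 / w₁ β = g⁻¹` (`w₂ (τ β) = w₁ (τ (τ β)) = w₁ β`).
-/

set_option autoImplicit false

open NumberField IsDedekindDomain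
open scoped Classical

namespace JXD

open CM27 CF JZ JX JD
open CU (la om eE)

private theorem q4_int {F : Type} [Field F] [NumberField F] (w : HeightOneSpectrum (𝓞 F)) {x : F}
    (hx : IsIntegral ℤ x) : w.valuation F x ≤ 1 := by
  have h := w.valuation_le_one (K := F) (⟨x, hx⟩ : 𝓞 F)
  exact h

private theorem q4_la_pow (a : Eis) : la ∣ a ^ 9 - a := by
  have h1 : la ∣ a - ((a.re + a.im : ℤ) : Eis) := by
    rw [CU.la_dvd_iff]
    simp
  have h2 : la ∣ (3 : Eis) := by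
    rw [CU.three_eq]
    exact Dvd.intro_left (-om ^ 2 * la) (by ring)
  have h3 : ∀ n : ℤ, (3 : ℤ) ∣ n ^ 9 - n := by
    intro n
    have h : ∀ m : ZMod 3, m ^ 9 - m = 0 := by decide
    have h4 := h (n : ZMod 3)
    have h5 : ((n ^ 9 - n : ℤ) : ZMod 3) = 0 := by
      push_cast
      exact h4
    exact (ZMod.intCast_zmod_eq_zero_iff_dvd _ 3).1 h5
  generalize a.re + a.im = n at h1
  obtain ⟨k, hk⟩ := h3 n
  have h5 : la ∣ a ^ 9 - (n : Eis) ^ 9 := h1.trans (sub_dvd_pow_sub_pow a (n : Eis) 9)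
  have h6 : la ∣ (n : Eis) ^ 9 - (n : Eis) := by
    have : (n : Eis) ^ 9 - (n : Eis) = 3 * (k : Eis) := by
      have h7 := congrArg (fun z : ℤ => (z : Eis)) hk
      simp only [Int.cast_sub, Int.cast_pow, Int.cast_mul] at h7
      exact h7
    rw [this]
    exact h2.mul_right _
  have h8 : a ^ 9 - a = (a ^ 9 - (n : Eis) ^ 9) + ((n : Eis) ^ 9 - (n : Eis)) - (a - (n : Eis)) := by ring
  rw [h8]
  exact (h5.add h6).sub h1

section
variable {D : Eis} {F : Type} [Field F] [NumberField F] [Algebra KK F] {r : F} {τ : F ≃ₐ[KK] F}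
  (hD : Cl0 D) (hQ : Quad D r τ)
include hD hQ

/-- `z ^ 9 ≡ z` for integers `z` -/
private theorem q4_nine (w : HeightOneSpectrum (𝓞 F)) (hw : OvLa w) {z : F} (hz : IsIntegral ℤ z) :
    w.valuation F (z ^ 9 - z) < 1 := by
  obtain ⟨a, b, hab⟩ := exists_int hD hQ hz
  have h2 : la ∣ (3 : Eis) := by
    rw [CU.three_eq]
    exact Dvd.intro_left (-om ^ 2 * la) (by ring)
  have h3 : w.valuation F (3 : F) < 1 := by
    have h := (ov_mem w hw 3).2 h2
    have h' : jF F 3 = (3 : F) := map_ofNat (jF F) 3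
    rwa [h'] at h
  have hA := q4_int w (int_jF F a)
  have hB0 := q4_int w (int_jF F b)
  have hr := q4_int w (int_r hQ)
  have hB : w.valuation F (jF F b * r) ≤ 1 := by
    rw [map_mul]
    exact mul_le_one' hB0 hr
  -- Frobenius
  have key : ∀ A B : F, w.valuation F A ≤ 1 → w.valuation F B ≤ 1 →
      w.valuation F ((A + B) ^ 9 - A ^ 9 - B ^ 9) < 1 := by
    intro A B hA hB
    have e : (A + B) ^ 9 - A ^ 9 - B ^ 9 = 3 * (A * B * (A + B) * (((A + B) ^ 3) ^ 2 +
        (A + B) ^ 3 * (A ^ 3 + B ^ 3) + (A ^ 3 + B ^ 3) ^ 2) + A ^ 3 * B ^ 3 * (A ^ 3 + B ^ 3)) := by ring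
    have hM : ∀ A B : (w.valuation F).integer, w.valuation F ((A : F) * B * (A + B) * ((((A : F) + B) ^ 3) ^ 2 +
        ((A : F) + B) ^ 3 * ((A : F) ^ 3 + (B : F) ^ 3) + ((A : F) ^ 3 + (B : F) ^ 3) ^ 2) +
        (A : F) ^ 3 * (B : F) ^ 3 * ((A : F) ^ 3 + (B : F) ^ 3)) ≤ 1 := by
      intro A B
      have h := (Valuation.mem_integer_iff (w.valuation F) _).1
        (A * B * (A + B) * (((A + B) ^ 3) ^ 2 + (A + B) ^ 3 * (A ^ 3 + B ^ 3) + (A ^ 3 + B ^ 3) ^ 2) +
        A ^ 3 * B ^ 3 * (A ^ 3 + B ^ 3)).2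
      push_cast at h
      exact h
    rw [e, map_mul]
    exact lt_of_le_of_lt (mul_le_of_le_one_right' (hM ⟨A, hA⟩ ⟨B, hB⟩)) h3
  have h4 : w.valuation F (jF F a ^ 9 - jF F a) < 1 := by
    rw [← map_pow, ← map_sub]
    exact (ov_mem w hw _).2 (q4_la_pow a)
  have h5 : w.valuation F (jF F b ^ 9 - jF F b) < 1 := by
    rw [← map_pow, ← map_sub]
    exact (ov_mem w hw _).2 (q4_la_pow b)
  have h6 : w.valuation F (r ^ 8 - 1) < 1 := by
    have e : r ^ 8 - 1 = jF F (D ^ 4 - 1) := by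
      rw [map_sub, map_pow, map_one, ← hQ.sq]
      ring
    rw [e, ov_mem w hw]
    obtain ⟨η, hη, h7⟩ := mod_la hD.2.1
    have h8 : D - η ∣ D ^ 4 - η ^ 4 := sub_dvd_pow_sub_pow D η 4
    have h9 : η ^ 4 = 1 := by
      rcases hη with rfl | rfl <;> norm_num
    rw [h9] at h8
    exact h7.trans h8
  have e : z ^ 9 - z = ((jF F a + jF F b * r) ^ 9 - jF F a ^ 9 - (jF F b * r) ^ 9) + (jF F a ^ 9 - jF F a) +
      ((jF F b ^ 9 - jF F b) * r ^ 9 + jF F b * r * (r ^ 8 - 1)) := by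
    rw [hab]
    ring
  rw [e]
  refine Valuation.map_add_lt _ (Valuation.map_add_lt _ (key _ _ hA hB) h4) (Valuation.map_add_lt _ ?_ ?_)
  · rw [map_mul, map_pow]
    exact lt_of_le_of_lt (mul_le_of_le_one_right' (pow_le_one' hr 9)) h5
  · rw [map_mul]
    exact lt_of_le_of_lt (mul_le_of_le_one_left' hB) h6

theorem ov_eight (w : HeightOneSpectrum (𝓞 F)) (hw : OvLa w) {x : F} (hx : w.valuation F x = 1) :
    w.valuation F (x ^ 8 - 1) < 1 := by
  have hz : ∀ z : 𝓞 F, w.valuation F (z : F) = 1 → w.valuation F ((z : F) ^ 8 - 1) < 1 := by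
    intro z h1
    have h2 := q4_nine hD hQ w hw z.2
    have e : (z : F) ^ 9 - z = z * ((z : F) ^ 8 - 1) := by ring
    have h3 : w.valuation F ((z : F) ^ 9 - z) < 1 := h2
    rw [e, map_mul, h1, one_mul] at h3
    exact h3
  obtain ⟨n, d, hnd⟩ := w.exists_primeCompl_mul_eq_of_integer x hx.le
  have hd : w.valuation F ((d : 𝓞 F) : F) = 1 := by
    have h := (w.intValuation_eq_one_iff_mem_primeCompl (d : 𝓞 F)).2 d.2
    rw [← w.valuation_of_algebraMap (K := F)] at h
    exact h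
  have hn : w.valuation F (n : F) = 1 := by
    have h := congrArg (w.valuation F) hnd
    rw [map_mul, hx, one_mul] at h
    exact h.symm.trans hd
  have hd0 : ((d : 𝓞 F) : F) ≠ 0 := by
    intro h
    rw [h, map_zero] at hd
    exact zero_ne_one hd
  have hx' : x = (n : F) / ((d : 𝓞 F) : F) := (eq_div_iff hd0).2 hnd
  have e : (x ^ 8 - 1) * ((d : 𝓞 F) : F) ^ 8 = ((n : F) ^ 8 - 1) - (((d : 𝓞 F) : F) ^ 8 - 1) := by
    rw [hx']
    field_simp
    ring
  have h4 := congrArg (w.valuation F) e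
  rw [map_mul, map_pow, hd, one_pow, mul_one] at h4
  rw [h4]
  exact Valuation.map_sub_lt _ (hz n hn) (hz d hd)

omit [Algebra KK F] hD hQ in
theorem q4b_crt (w₁ w₂ : HeightOneSpectrum (𝓞 F)) (h : w₁ ≠ w₂) :
    ∃ x : F, w₁.valuation F x = WithZero.exp (-1 : ℤ) ∧ w₂.valuation F x = 1 := by
  obtain ⟨π, hπ⟩ := w₁.intValuation_exists_uniformizer
  have hcop : IsCoprime (w₁.asIdeal ^ 2) w₂.asIdeal := by
    refine IsCoprime.pow_left ?_
    have m1 := w₁.isMaximal
    have m2 := w₂.isMaximal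
    refine Ideal.isCoprime_of_isMaximal ?_
    intro h1
    exact h (HeightOneSpectrum.ext h1)
  rw [Ideal.isCoprime_iff_exists] at hcop
  obtain ⟨i, hi, j, hj, hij⟩ := hcop
  refine ⟨algebraMap (𝓞 F) F (π * j + i), ?_, ?_⟩
  · have e1 : π * j + i = π + i * (1 - π) := by
      have : j = 1 - i := by rw [← hij]; ring
      rw [this]
      ring
    have h1 : w₁.valuation F (algebraMap (𝓞 F) F π) = WithZero.exp (-1 : ℤ) := by
      rw [HeightOneSpectrum.valuation_of_algebraMap, hπ]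
    have h2 : w₁.valuation F (algebraMap (𝓞 F) F (i * (1 - π))) < WithZero.exp (-1 : ℤ) := by
      rw [HeightOneSpectrum.valuation_of_algebraMap]
      have h3 := (w₁.intValuation_le_pow_iff_mem (i * (1 - π)) 2).2 (Ideal.mul_mem_right _ _ hi)
      refine lt_of_le_of_lt h3 ?_
      rw [WithZero.exp_lt_exp]
      norm_num
    rw [e1, map_add, ← h1]
    refine Valuation.map_add_eq_of_lt_left _ ?_
    rw [h1]
    exact h2
  · have e1 : π * j + i = 1 + j * (π - 1) := by
      have : i = 1 - j := by rw [← hij]; ring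
      rw [this]
      ring
    have h2 : w₂.valuation F (algebraMap (𝓞 F) F (j * (π - 1))) < 1 :=
      (w₂.valuation_lt_one_iff_mem _).2 (Ideal.mul_mem_right _ _ hj)
    rw [e1, map_add, map_one]
    have h3 : w₂.valuation F ((1 : F) + algebraMap (𝓞 F) F (j * (π - 1))) = w₂.valuation F 1 := by
      refine Valuation.map_add_eq_of_lt_left _ ?_
      rw [map_one]
      exact h2
    rw [h3, map_one]

theorem exists_kappa {a : F} (ha : a * τ a = 1)
    (h3 : ∀ w : HeightOneSpectrum (𝓞 F), OvLa w → ∃ g : WithZero (Multiplicative ℤ), w.valuation F a = g ^ 3) :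
    ∃ k : F, k * τ k = 1 ∧ ∀ w : HeightOneSpectrum (𝓞 F), OvLa w → w.valuation F a = w.valuation F k ^ 3 := by
  obtain ⟨w₁, hw₁⟩ := exists_ov hD hQ
  obtain ⟨w₂, hw₂⟩ := exists_cj τ w₁
  have htt := fun z : F => tau_tau (ne_of_cl hD) hQ z
  have ha0 : a ≠ 0 := by
    rintro rfl
    rw [zero_mul] at ha
    exact zero_ne_one ha
  by_cases hfix : ∀ x : F, w₁.valuation F (τ x) = w₁.valuation F x
  · refine ⟨1, by rw [map_one, mul_one], fun w hw => ?_⟩
    have h1 : w₁.valuation F a = 1 := by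
      have h2 := congrArg (w₁.valuation F) ha
      rw [map_mul, hfix, map_one, ← pow_two] at h2
      exact (pow_eq_one_iff.1 h2).resolve_right two_ne_zero
    rw [map_one, one_pow]
    rcases ov_trans hD hQ w₁ w hw₁ hw with h | h
    · rw [h, h1]
    · rw [h, hfix, h1]
  · have hne : w₁ ≠ w₂ := by
      intro h
      apply hfix
      intro x
      rw [← hw₂ x, ← h]
    obtain ⟨x, hx1, hx2⟩ := q4b_crt w₁ w₂ hne
    obtain ⟨g, hg⟩ := h3 w₁ hw₁
    have hg0 : g ≠ 0 := by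
      rintro rfl
      rw [zero_pow three_ne_zero, map_eq_zero] at hg
      exact ha0 hg
    have hx0 : x ≠ 0 := by
      rintro rfl
      rw [map_zero] at hx2
      exact zero_ne_one hx2
    have hβ0 : x ^ (-(WithZero.log g)) ≠ 0 := zpow_ne_zero _ hx0
    have hτβ0 : τ (x ^ (-(WithZero.log g))) ≠ 0 := (map_ne_zero _).2 hβ0
    have hβ1 : w₁.valuation F (x ^ (-(WithZero.log g))) = g := by
      rw [map_zpow₀, hx1, ← WithZero.exp_zsmul, smul_neg, neg_smul, neg_neg, zsmul_eq_mul, mul_one]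
      exact WithZero.exp_log hg0
    have hβ2 : w₂.valuation F (x ^ (-(WithZero.log g))) = 1 := by
      rw [map_zpow₀, hx2, one_zpow]
    have hκ1 : w₁.valuation F (x ^ (-(WithZero.log g)) / τ (x ^ (-(WithZero.log g)))) = g := by
      rw [map_div₀, hβ1, ← hw₂, hβ2, div_one]
    have hκ2 : w₂.valuation F (x ^ (-(WithZero.log g)) / τ (x ^ (-(WithZero.log g)))) = g⁻¹ := by
      rw [map_div₀, hβ2, hw₂, htt, hβ1, one_div]
    have ha2 : w₂.valuation F a = g⁻¹ ^ 3 := by
      have h2 := congrArg (w₁.valuation F) ha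
      rw [map_mul, map_one, ← hw₂, hg] at h2
      rw [inv_pow]
      exact eq_inv_of_mul_eq_one_right h2
    refine ⟨x ^ (-(WithZero.log g)) / τ (x ^ (-(WithZero.log g))), ?_, fun w hw => ?_⟩
    · rw [map_div₀, htt]
      field_simp
    · rcases ov_trans hD hQ w₁ w hw₁ hw with h | h
      · rw [h, h, hκ1, hg]
      · rw [h, h, ← hw₂, ← hw₂, hκ2, ha2]

end

end JXD
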