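import Pool.Agent.JXD.PA
import Pool.Agent.JXD.G4
import Pool.Agent.JD.G2
import Pool.Agent.JD.G3

/-!
# [JXD-G5] `NoBadX → 3 ∤ h(F)` and there is a unit `u` with `¬ PX D r (u / ū)`

As in `JD.G5`, with `px_adjust` instead of `local_adjust`.
-/

set_option autoImplicit false

open NumberField IsDedekindDomain
open scoped Classical

namespace JXD

open CM27 CF JZ JX JD
open CU (la om eE)

section
variable {D : Eis} {F : Type} [Field F] [NumberField F] [Algebra KK F] {r : F} {τ : F ≃ₐ[KK] F}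

omit [Algebra KK F] in
theorem g5a_unit (w : HeightOneSpectrum (𝓞 F)) (u : (𝓞 F)ˣ) : w.valuation F (u : F) = 1 := by
  have h1 : w.valuation F (u : F) ≤ 1 := w.valuation_le_one _
  have h2 : w.valuation F ((u⁻¹ : (𝓞 F)ˣ) : F) ≤ 1 := w.valuation_le_one _
  have h3 : (u : F) * ((u⁻¹ : (𝓞 F)ˣ) : F) = 1 := by simp
  have h4 : w.valuation F (u : F) * w.valuation F ((u⁻¹ : (𝓞 F)ˣ) : F) = 1 := by
    rw [← map_mul, h3, map_one]
  apply le_antisymm h1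
  rw [← h4]
  exact mul_le_of_le_one_right' h2

theorem g5a_tau (w : HeightOneSpectrum (𝓞 F)) (u : (𝓞 F)ˣ) : w.valuation F (τ (u : F)) = 1 := by
  obtain ⟨w', h⟩ := exists_cj τ w
  rw [← h, g5a_unit]

theorem g5a_norm (hD : Cl0 D) (hQ : Quad D r τ) (u : (𝓞 F)ˣ) :
    ((u : F) / τ (u : F)) * τ ((u : F) / τ (u : F)) = 1 := by
  have hu : (u : F) ≠ 0 := by
    intro h
    have h1 : (u : 𝓞 F) = 0 := RingOfIntegers.ext h
    exact u.ne_zero h1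
  have hτ : τ (u : F) ≠ 0 := (map_ne_zero τ).2 hu
  rw [map_div₀, tau_tau (ne_of_cl hD) hQ]
  field_simp

theorem g5_n1 (hD : Cl0 D) (hQ : Quad D r τ) (u : (𝓞 F)ˣ) : N1 τ ((u : F) / τ (u : F)) :=
  ⟨g5a_norm hD hQ u, fun w _ => by rw [map_div₀, g5a_unit, g5a_tau, div_one]⟩

theorem exists_u0 (hD : Cl0 D) (hQ : Quad D r τ) (hN : NoBadX D r τ) : ∃ u : (𝓞 F)ˣ,
    ¬ PX D r ((u : F) / τ (u : F)) := by
  by_contra hcon
  push Not at hcon
  obtain ⟨u, hu⟩ := unit_not_cube (ne_of_cl hD) hQ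
  apply hu
  obtain ⟨c, hc⟩ := hN ((u : F) / τ (u : F)) ⟨g5a_norm hD hQ u, fun w => ⟨1, by
    rw [map_div₀, g5a_unit, g5a_tau, div_one, one_pow]⟩, (g5_n1 hD hQ u).2, hcon u⟩
  exact ⟨c ^ 8, by rw [← hc]; ring⟩

omit [NumberField F] [Algebra KK F] in
/-- an integral element with an integral inverse is a unit -/
theorem G5b_unit {x y : F} (hx : IsIntegral ℤ x) (hy : IsIntegral ℤ y) (h : x * y = 1) :
    ∃ U : (𝓞 F)ˣ, (U : F) = x := by
  refine ⟨⟨⟨x, hx⟩, ⟨y, hy⟩, ?_, ?_⟩, rfl⟩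
  · apply RingOfIntegers.ext
    exact h
  · apply RingOfIntegers.ext
    exact (mul_comm y x).trans h

omit [Algebra KK F] in
theorem G5b_val (u : (𝓞 F)ˣ) (w : HeightOneSpectrum (𝓞 F)) : w.valuation F (u : F) = 1 := by
  have h1 : (u : F) * ((u⁻¹ : (𝓞 F)ˣ) : F) = 1 := by
    have h2 := congrArg (algebraMap (𝓞 F) F) u.mul_inv
    rwa [map_mul, map_one] at h2
  have h2 : w.valuation F (u : F) ≤ 1 := w.valuation_le_one _
  have h3 : w.valuation F ((u⁻¹ : (𝓞 F)ˣ) : F) ≤ 1 := w.valuation_le_one _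
  refine le_antisymm h2 ?_
  have h4 := congrArg (w.valuation F) h1
  rw [map_mul, map_one] at h4
  calc (1 : WithZero (Multiplicative ℤ)) = w.valuation F (u : F) * w.valuation F ((u⁻¹ : (𝓞 F)ˣ) : F) := h4.symm
    _ ≤ w.valuation F (u : F) * 1 := mul_le_mul_right h3 _
    _ = _ := mul_one _

omit [NumberField F] in
theorem g5a_three : (3 : F) = jF F (-om ^ 2) * jF F la ^ 2 := by
  rw [← map_pow, ← map_mul, ← CU.three_eq]
  exact (map_ofNat _ 3).symm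

theorem not_three (hD : Cl0 D) (hQ : Quad D r τ) (hN : NoBadX D r τ) : ¬ 3 ∣ classNumber F := by
  intro h3
  have hD0 : D ≠ 0 := ne_of_cl hD
  obtain ⟨u₀, hu₀⟩ := exists_u0 hD hQ hN
  obtain ⟨β, hβ0, hβ3, hβ⟩ := exists_beta F h3
  have hτ0 : ∀ x : F, x ≠ 0 → τ x ≠ 0 := fun x hx h0 => hx (τ.injective (by rw [h0, map_zero]))
  have hττ : ∀ x : F, τ (τ x) = x := tau_tau hD0 hQ
  have hdiv : ∀ x : F, x ≠ 0 → (x / τ x) * τ (x / τ x) = 1 := by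
    intro x hx
    rw [map_div₀, hττ]
    have := hτ0 x hx
    field_simp
  have hw0 : ∀ (w : HeightOneSpectrum (𝓞 F)) (x : F), x ≠ 0 → w.valuation F x ≠ 0 := fun w x hx =>
    (Valuation.ne_zero_iff _).2 hx
  -- `w (τ β)` is a cube
  have hβ3' : ∀ w : HeightOneSpectrum (𝓞 F), ∃ g : WithZero (Multiplicative ℤ),
      w.valuation F (τ β) = g ^ 3 := by
    intro w
    obtain ⟨w', hw'⟩ := exists_cj τ w
    obtain ⟨g, hg⟩ := hβ3 w'
    exact ⟨g, by rw [← hw', hg]⟩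
  have hα3 : ∀ w : HeightOneSpectrum (𝓞 F), ∃ g : WithZero (Multiplicative ℤ),
      w.valuation F (β / τ β) = g ^ 3 := by
    intro w
    obtain ⟨g, hg⟩ := hβ3 w
    obtain ⟨g', hg'⟩ := hβ3' w
    exact ⟨g / g', by rw [map_div₀, hg, hg', div_pow]⟩
  obtain ⟨k, hk, hkv⟩ := exists_kappa hD hQ (hdiv β hβ0) (fun w _ => hα3 w)
  have hk0 : k ≠ 0 := by
    rintro rfl
    rw [zero_mul] at hk
    exact zero_ne_one hk
  set a : F := (β / τ β) / k ^ 3 with ha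
  have ha1 : a * τ a = 1 := by
    have h1 : a * τ a = ((β / τ β) * τ (β / τ β)) / (k * τ k) ^ 3 := by
      rw [ha, map_div₀, map_pow]
      have := hτ0 k hk0
      have := hτ0 β hβ0
      field_simp
    rw [h1, hdiv β hβ0, hk, one_pow, div_one]
  have hav : ∀ w : HeightOneSpectrum (𝓞 F), OvLa w → w.valuation F a = 1 := by
    intro w hw
    rw [ha, map_div₀, map_pow, ← hkv w hw]
    exact div_self (hw0 w _ (div_ne_zero hβ0 (hτ0 β hβ0)))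
  have ha3 : ∀ w : HeightOneSpectrum (𝓞 F), ∃ g : WithZero (Multiplicative ℤ),
      w.valuation F a = g ^ 3 := by
    intro w
    obtain ⟨g, hg⟩ := hα3 w
    exact ⟨g / w.valuation F k, by rw [ha, map_div₀, map_pow, hg, div_pow]⟩
  -- the unit
  have hu0 : (u₀ : F) ≠ 0 := by
    intro h0
    have h1 := G5b_val u₀ (exists_ov hD hQ).choose
    rw [h0, map_zero] at h1
    exact zero_ne_one h1
  have hinv : ((u₀⁻¹ : (𝓞 F)ˣ) : F) = (u₀ : F)⁻¹ := by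
    have h2 := congrArg (algebraMap (𝓞 F) F) u₀.mul_inv
    rw [map_mul, map_one] at h2
    exact eq_inv_of_mul_eq_one_right h2
  have hτint : ∀ x : F, IsIntegral ℤ x → IsIntegral ℤ (τ x) := fun x hx =>
    hx.map ((τ : F →+* F).toIntAlgHom)
  obtain ⟨T, hT⟩ := G5b_unit (hτint _ (RingOfIntegers.isIntegral_coe (u₀ : 𝓞 F)))
    (hτint _ (RingOfIntegers.isIntegral_coe ((u₀⁻¹ : (𝓞 F)ˣ) : 𝓞 F))) (by
      rw [← map_mul]
      have h2 := congrArg (algebraMap (𝓞 F) F) u₀.mul_inv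
      rw [map_mul, map_one] at h2
      exact (congrArg τ h2).trans (map_one τ))
  have hT' : (T : F) = τ (u₀ : F) := hT
  have hbv : ∀ w : HeightOneSpectrum (𝓞 F), w.valuation F ((u₀ : F) / τ (u₀ : F)) = 1 := by
    intro w
    rw [map_div₀, ← hT', G5b_val, G5b_val, div_one]
  obtain ⟨j, hj⟩ := px_adjust hD hQ (a := a) (b := (u₀ : F) / τ (u₀ : F)) ⟨ha1, hav⟩ (g5_n1 hD hQ u₀) hu₀
  have hLam : LamX D r τ (a * ((u₀ : F) / τ (u₀ : F)) ^ j) := by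
    have hn := n1_mul (τ := τ) (a := a) ⟨ha1, hav⟩ (n1_pow (g5_n1 hD hQ u₀) j)
    refine ⟨hn.1, ?_, hn.2, hj⟩
    intro w
    obtain ⟨g, hg⟩ := ha3 w
    exact ⟨g, by rw [map_mul, map_pow, hbv w, one_pow, mul_one, hg]⟩
  obtain ⟨γ, hγ⟩ := hN _ hLam
  have hγ0 : γ ≠ 0 := by
    rintro rfl
    rw [zero_pow (by norm_num)] at hγ
    have h1 := hLam.1
    rw [← hγ, zero_mul] at h1
    exact zero_ne_one h1
  obtain ⟨x, hx⟩ := exists_of_fix hD0 hQ (z := β * τ β) (by rw [map_mul, hττ, mul_comm])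
  have hx0 : x ≠ 0 := by
    rintro rfl
    rw [map_zero] at hx
    exact mul_ne_zero hβ0 (hτ0 β hβ0) hx
  obtain ⟨v, d, hv, hxd⟩ := kk_cube hD hQ hx0 (by
    intro w
    obtain ⟨g, hg⟩ := hβ3 w
    obtain ⟨g', hg'⟩ := hβ3' w
    exact ⟨g * g', by rw [← hx, map_mul, hg, hg', mul_pow]⟩)
  set δ : F := algebraMap KK F d with hδ
  have hx' : β * τ β = jF F v * δ ^ 3 := by
    rw [hx, hxd, map_mul, map_pow, ← jF_apply]
  obtain ⟨v', hv'⟩ := hv.exists_right_inv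
  obtain ⟨V, hV⟩ := G5b_unit (int_jF F v) (int_jF F v') (by rw [← map_mul, hv', map_one])
  have hjv0 : jF F v ≠ 0 := by
    intro h0
    rw [h0, zero_mul] at hx'
    exact mul_ne_zero hβ0 (hτ0 β hβ0) hx'
  have hδ0 : δ ≠ 0 := by
    intro h0
    rw [h0, zero_pow (by norm_num), mul_zero] at hx'
    exact mul_ne_zero hβ0 (hτ0 β hβ0) hx'
  have hτu0 : τ (u₀ : F) ≠ 0 := hτ0 _ hu0
  have haβ : a = β ^ 2 / (jF F v * δ ^ 3 * k ^ 3) := by
    rw [ha, ← hx']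
    have := hτ0 β hβ0
    field_simp
  have hVinv : ((V⁻¹ : (𝓞 F)ˣ) : F) = (jF F v)⁻¹ := by
    have h2 := congrArg (algebraMap (𝓞 F) F) V.mul_inv
    rw [map_mul, map_one] at h2
    rw [← hV]
    exact eq_inv_of_mul_eq_one_right h2
  have hTinv : ((T⁻¹ : (𝓞 F)ˣ) : F) = (τ (u₀ : F))⁻¹ := by
    have h2 := congrArg (algebraMap (𝓞 F) F) T.mul_inv
    rw [map_mul, map_one] at h2
    rw [← hT']
    exact eq_inv_of_mul_eq_one_right h2
  refine hβ (V⁻¹ * (u₀ * T⁻¹) ^ j) (β / (γ * δ * k)) ?_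
  have hU : (((V⁻¹ * (u₀ * T⁻¹) ^ j : (𝓞 F)ˣ)) : F) =
      (jF F v)⁻¹ * ((u₀ : F) / τ (u₀ : F)) ^ j := by
    have h1 : (((V⁻¹ * (u₀ * T⁻¹) ^ j : (𝓞 F)ˣ)) : F) =
        ((V⁻¹ : (𝓞 F)ˣ) : F) * ((u₀ : F) * ((T⁻¹ : (𝓞 F)ˣ) : F)) ^ j := by
      simp only [Units.val_mul, Units.val_pow_eq_pow_val, map_mul, map_pow]
    rw [h1, hVinv, hTinv, div_eq_mul_inv]
  have hb0 : ((u₀ : F) / τ (u₀ : F)) ^ j ≠ 0 := pow_ne_zero _ (div_ne_zero hu0 hτu0)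
  have e1 : (β / (γ * δ * k)) ^ 3 = β ^ 3 / (γ ^ 3 * δ ^ 3 * k ^ 3) := by
    rw [div_pow, mul_pow, mul_pow]
  rw [hU, e1, hγ, haβ]
  generalize ((u₀ : F) / τ (u₀ : F)) ^ j = B at hb0
  field_simp

theorem class_unitX (hD : Cl0 D) (hQ : Quad D r τ) (hN : NoBadX D r τ) :
    ¬ 3 ∣ classNumber F ∧ ∃ u : (𝓞 F)ˣ, ¬ PX D r ((u : F) / τ (u : F)) :=
  ⟨not_three hD hQ hN, exists_u0 hD hQ hN⟩

end

end JXD
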