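import Pool.Agent.JXD.Defs
import Pool.Agent.JXD.LX
import Pool.Agent.JD.E4

/-!
# [JXD-E4] the place over `λ`, `D ≡ 1 mod λ`: all classes on the line come from points

`C = v.adicCompletion KK`, `V = Valued.v`, `Loc3 V l ε` (JD/L1.lean: residue field `F₃`), `ε ≡ -1 mod l`, `s² = d ≡ 1 mod l`. `β = 1 + l³ b`.

PROOF. `level1` [E4a]: put `a' = -2 s β`; wanted `h³ - a'² g³ = 2 a' s`, i.e. `h³ = 4 s² β (β g³ - 1)`. Put `g = 1 + l k`, `h = l h'`; `g³ = 1 + 3 l k + 3 l² k² + l³ k³ = 1 + l³ κ`, `κ = k³ + ε l k² + ε k` (`3 = ε l²`), `β g³ - 1 = l³ (b + β κ)`, so the equation is `h'³ = 4 s² β (b + β κ)`.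
Choose `h'` with `h' ≡ b mod l`, `h' ≠ 0`, integral: `res` for `b`: `h' = 1` or `-1`, and `h' = l` if `V b < 1`. Then `m := (h'³ / (4 s² β) - b) / β` has `V m < 1` (`h'³ ≡ h' ≡ b`, `4 s² β ≡ 1`, `β ≡ 1 mod l`; `s² = d ≡ 1`), and `k³ + ε l k² + ε k - m = 0` has a solution by `hensel3` (JD/E1.lean) with `x₀ = 0` (`f(0) = -m`, `f'(0) = ε` a unit).
`g ≠ 0` (`V g = 1`).
`sol_plusX` [E4b]: `V a = 1`, `e = a^8`, `V (e - 1) < 1` (`a ≡ ± 1`). Λ := `l (1 + c l)`, `3 Λ ≡ 0 mod l³`.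
(i) `3 ∣ t`: `V (e - e⁻¹) ≤ exp (-3)`, `e - e⁻¹ = (e - 1)(e + 1)/e`, `V (e + 1) = 1`: `V (e - 1) ≤ exp (-3)`, `a' := e⁻¹ = 1 + l³ b'`, `V b' ≤ 1`. `V b' < 1`: `cube_four` (JD/E1.lean): `e⁻¹ = m³`, `a = a^9 e⁻¹ = (a³ m)³`. `V b' = 1`: `level3X` for `a'`, `pt_of_gh` (JD/E4.lean): `y = s + a' g³`, `x = g h`; `y - s = a' g³ = a (g / a³)³`, `≠ 0`.
(ii) `3 ∤ t`: `s ≡ ρ = ± 1 mod l` (`res`; `s² ≡ 1`). `dt_two_r` (LX.lean) with `r = s`: `f = (2 s)^16`: `f - f⁻¹ ≡ ρ d₁ Λ s mod l³`. Choose `η = ± 1` with `3 ∣ t - η ρ d₁`. `η = 1`: `e - e⁻¹ ≡ f - f⁻¹ mod l³`, `(e - e⁻¹) - (f - f⁻¹) = (e - f)(1 + 1/(e f))`, and `1 + 1/(e f) ≡ 2` is a unit (`f ≡ 1`: `4 s² ≡ 1`), so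
`e = f (1 + l³ b)`, `V b ≤ 1`. `level1` with `b`: `a' = -2 s β = -e / (2 s)^15` (`β = e/f`), `pt_of_gh` for `a'`: the point `(g h, y)`, `y = s + a' g³`, `y + s = a'⁻¹ h³`; take the point `(g h, -y)`: `-y - s = -a'⁻¹ h³ = (2 s)^15 e⁻¹ h³ = a ((2 s)^5 h / a³)³`, `≠ 0` as `h ≠ 0`.
`η = -1`: `e⁻¹ - e ≡ f - f⁻¹`: `e⁻¹ = f (1 + l³ b)`, `level1`: `a' = -2 s β = -e⁻¹/(2 s)^15`, the point `(g h, y)`: `y - s = a' g³ = a (-g / (a³ (2 s)^5))³`.
-/

set_option autoImplicit false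

open NumberField IsDedekindDomain
open scoped Classical

namespace JXD

open CM27 CF JZ JX JD
open CU (la om eE)

section
variable (v : HeightOneSpectrum (𝓞 KK)) {l ε d s a : v.adicCompletion KK}
  (hL : Loc3 (Valued.v : Valuation (v.adicCompletion KK) (WithZero (Multiplicative ℤ))) l ε)
  (hε : Valued.v (ε + 1) < (1 : WithZero (Multiplicative ℤ)))
  (hs : s ^ 2 = d) (hd : Valued.v (d - 1) < (1 : WithZero (Multiplicative ℤ)))
include hL hε hs hd

/-- as `JD.level3` -/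
theorem level3X {b' : v.adicCompletion KK} (hb : Valued.v b' = (1 : WithZero (Multiplicative ℤ))) (ha : a = 1 + l ^ 3 * b') :
    ∃ g h : v.adicCompletion KK, g ≠ 0 ∧ h ^ 3 - a ^ 2 * g ^ 3 = 2 * a * s := by
  set w : Valuation (v.adicCompletion KK) (WithZero (Multiplicative ℤ)) := Valued.v with hw
  have hl0 := e4_l0 hL
  have hl1 := e4_l hL
  have hwd : w d = 1 := l1_one_of (map_one w) hd
  have hws : w s = 1 := by
    rw [← hs, map_pow] at hwd
    exact (pow_eq_one_iff.1 hwd).resolve_right (by norm_num)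
  obtain ⟨σ, hσ, hsσ⟩ := e4_sgn hL hws
  obtain ⟨β, hβ, hbβ⟩ := e4_sgn hL hb
  have hσ2 := e4_sq hσ
  have hβ2 := e4_sq hβ
  have hwσ := l1_sgn (w := w) hσ
  have hwβ := l1_sgn (w := w) hβ
  set g₀ : v.adicCompletion KK := -(σ * β) with hg₀
  have hg2 : g₀ ^ 2 = 1 := by
    rw [hg₀]
    linear_combination β ^ 2 * hσ2 + hβ2
  have hwg : w g₀ = 1 := by
    rw [hg₀, Valuation.map_neg, map_mul, hwσ, hwβ, one_mul]
  have hw1 : w (g₀ * b' + s) < 1 := by
    have h1 : g₀ * b' + s = g₀ * (b' - β) + (s - σ) := by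
      rw [hg₀]
      linear_combination -σ * hβ2
    rw [h1]
    refine w.map_add_lt ?_ hsσ
    rw [map_mul, hwg, one_mul]
    exact hbβ
  have hwt : w (-(g₀ ^ 3 * b' * (2 + l ^ 3 * b')) - 2 * a * s) < 1 := by
    have h1 : -(g₀ ^ 3 * b' * (2 + l ^ 3 * b')) - 2 * a * s =
        -(2 * (g₀ * b' + s)) + -(l * (l ^ 2 * b' * (g₀ * b' + 2 * s))) := by
      rw [ha]
      linear_combination -(g₀ * b' * (2 + l ^ 3 * b')) * hg2
    rw [h1]
    have h2 : w (2 : v.adicCompletion KK) = 1 := l1_two hL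
    refine w.map_add_lt ?_ ?_
    · rw [Valuation.map_neg, map_mul, h2, one_mul]
      exact hw1
    · rw [Valuation.map_neg]
      refine e4_mul_lt hl1 (e4_mul_le (e4_mul_le ?_ hb.le) (w.map_add_le ?_ ?_))
      · rw [map_pow]
        exact pow_le_one' hl1.le 2
      · exact e4_mul_le hwg.le hb.le
      · rw [map_mul, h2, one_mul]
        exact hws.le
  have hp : w (ε * g₀ * l) ≤ 1 := e4_mul_le (e4_mul_le hL.heps.le hwg.le) hl1.le
  have hq : w (ε * g₀ ^ 2) = 1 := by rw [hg2, mul_one]; exact hL.heps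
  obtain ⟨k, hk, -⟩ := hensel3 v (p := ε * g₀ * l) (q := ε * g₀ ^ 2)
    (t := -(g₀ ^ 3 * b' * (2 + l ^ 3 * b')) - 2 * a * s) (x₀ := 0) hp hq.le hwt.le
    (by rw [map_zero]; exact zero_le_one)
    (by
      have h1 : (0 : v.adicCompletion KK) ^ 3 + ε * g₀ * l * 0 ^ 2 + ε * g₀ ^ 2 * 0 +
          (-(g₀ ^ 3 * b' * (2 + l ^ 3 * b')) - 2 * a * s) =
          -(g₀ ^ 3 * b' * (2 + l ^ 3 * b')) - 2 * a * s := by ring
      rw [h1]
      exact hwt)
    (by
      have h1 : 3 * (0 : v.adicCompletion KK) ^ 2 + 2 * (ε * g₀ * l) * 0 + ε * g₀ ^ 2 =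
          ε * g₀ ^ 2 := by ring
      rw [h1]
      exact hq)
  have hg₀0 : g₀ ≠ 0 := by
    intro h0
    rw [h0] at hg2
    norm_num at hg2
  refine ⟨g₀ / l, (g₀ + l * k) / l, div_ne_zero hg₀0 hl0, ?_⟩
  have h3 := hL.three
  have hl3 : l ^ 3 ≠ 0 := pow_ne_zero 3 hl0
  have key : (g₀ + l * k) ^ 3 - a ^ 2 * g₀ ^ 3 = 2 * a * s * l ^ 3 := by
    rw [ha] at hk ⊢
    linear_combination l ^ 3 * hk + (g₀ ^ 2 * l * k + g₀ * l ^ 2 * k ^ 2) * h3
  have key2 : ((g₀ + l * k) / l) ^ 3 - a ^ 2 * (g₀ / l) ^ 3 =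
      ((g₀ + l * k) ^ 3 - a ^ 2 * g₀ ^ 3) / l ^ 3 := by
    rw [div_pow, div_pow]
    ring
  rw [key2, key, mul_div_assoc, div_self hl3, mul_one]

/-- [E4a] -/
theorem level1 {b : v.adicCompletion KK} (hb : Valued.v b ≤ (1 : WithZero (Multiplicative ℤ))) :
    ∃ g h : v.adicCompletion KK, g ≠ 0 ∧ h ≠ 0 ∧
      h ^ 3 - (-2 * s * (1 + l ^ 3 * b)) ^ 2 * g ^ 3 = 2 * (-2 * s * (1 + l ^ 3 * b)) * s := by
  set w : Valuation (v.adicCompletion KK) (WithZero (Multiplicative ℤ)) := Valued.v with hw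
  have hl0 := e4_l0 hL
  have hl1 := e4_l hL
  have hwd : w d = 1 := l1_one_of (map_one w) hd
  have hws : w s = 1 := by
    rw [← hs, map_pow] at hwd
    exact (pow_eq_one_iff.1 hwd).resolve_right (by norm_num)
  have h2 : w (2 : v.adicCompletion KK) = 1 := l1_two hL
  have hl3 : w (l ^ 3) < 1 := by
    rw [map_pow]
    exact pow_lt_one' hl1 (by norm_num)
  -- the residue of `h'`
  obtain ⟨τ, hτ0, hτb⟩ : ∃ τ : v.adicCompletion KK, τ ≠ 0 ∧ w (τ ^ 3 - b) < 1 := by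
    rcases lt_or_eq_of_le hb with h1 | h1
    · exact ⟨l, hl0, w.map_sub_lt hl3 h1⟩
    · obtain ⟨β, hβ, hbβ⟩ := e4_sgn hL h1
      have hβ2 := e4_sq hβ
      refine ⟨β, ?_, ?_⟩
      · intro h0
        rw [h0] at hβ2
        norm_num at hβ2
      · have h4 : β ^ 3 - b = -(b - β) := by linear_combination β * hβ2
        rw [h4, Valuation.map_neg]
        exact hbβ
  have hlb : w (l ^ 3 * b) < 1 := e4_mul_lt hl3 hb
  obtain ⟨β, hβ⟩ : ∃ β : v.adicCompletion KK, β = 1 + l ^ 3 * b := ⟨_, rfl⟩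
  have hwβ : w β = 1 := by
    refine l1_one_of (map_one w) ?_
    have h4 : β - 1 = l ^ 3 * b := by rw [hβ]; ring
    rw [h4]
    exact hlb
  have hq : w (4 * s ^ 2 * β - 1) < 1 := by
    have h4 : 4 * s ^ 2 * β - 1 = 2 * 2 * (d - 1) + 3 + 2 * 2 * d * (l ^ 3 * b) := by
      rw [hβ, hs]
      ring
    rw [h4]
    refine w.map_add_lt (w.map_add_lt ?_ (l1_three hL)) ?_
    · rw [map_mul, map_mul, h2, one_mul, one_mul]
      exact hd
    · rw [map_mul, map_mul, map_mul, h2, hwd, one_mul, one_mul, one_mul]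
      exact hlb
  have hwq : w (4 * s ^ 2 * β ^ 2) = 1 := by
    have h4 : 4 * s ^ 2 * β ^ 2 = 2 * 2 * (s ^ 2 * β ^ 2) := by ring
    rw [h4, map_mul, map_mul, map_mul, map_pow, map_pow, h2, hws, hwβ]
    norm_num
  have hq0 : 4 * s ^ 2 * β ^ 2 ≠ 0 := by
    intro h0
    rw [h0, map_zero] at hwq
    exact zero_ne_one hwq
  obtain ⟨m, hm⟩ : ∃ m : v.adicCompletion KK, m = (τ ^ 3 - 4 * s ^ 2 * β * b) / (4 * s ^ 2 * β ^ 2) := ⟨_, rfl⟩
  have hm' : 4 * s ^ 2 * β ^ 2 * m = τ ^ 3 - 4 * s ^ 2 * β * b := by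
    rw [hm, mul_div_cancel₀ _ hq0]
  have hwm : w m < 1 := by
    have h4 : w (4 * s ^ 2 * β ^ 2 * m) < 1 := by
      rw [hm']
      have h5 : τ ^ 3 - 4 * s ^ 2 * β * b = (τ ^ 3 - b) - (4 * s ^ 2 * β - 1) * b := by ring
      rw [h5]
      exact w.map_sub_lt hτb (e4_mul_lt hq hb)
    rwa [map_mul, hwq, one_mul] at h4
  obtain ⟨k, hk, hk'⟩ := hensel3 v (p := ε * l) (q := ε) (t := -m) (x₀ := 0)
    (e4_mul_le hL.heps.le hl1.le) hL.heps.le (by rw [Valuation.map_neg]; exact hwm.le)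
    (by rw [map_zero]; exact zero_le_one)
    (by
      have h1 : (0 : v.adicCompletion KK) ^ 3 + ε * l * 0 ^ 2 + ε * 0 + -m = -m := by ring
      rw [h1, Valuation.map_neg]
      exact hwm)
    (by
      have h1 : 3 * (0 : v.adicCompletion KK) ^ 2 + 2 * (ε * l) * 0 + ε = ε := by ring
      rw [h1]
      exact hL.heps)
  rw [sub_zero] at hk'
  have h3 := hL.three
  refine ⟨1 + l * k, l * τ, ?_, mul_ne_zero hl0 hτ0, ?_⟩
  · intro h0
    have h4 : l * k = -1 := by linear_combination h0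
    have h5 : w (l * k) < 1 := e4_mul_lt hl1 hk'.le
    rw [h4, Valuation.map_neg, map_one] at h5
    exact lt_irrefl _ h5
  · rw [← hβ]
    linear_combination (-(4 * s ^ 2 * β ^ 2) * (l * k + l ^ 2 * k ^ 2)) * h3 - (4 * s ^ 2 * β ^ 2 * l ^ 3) * hk -
      l ^ 3 * hm' - 4 * s ^ 2 * β * hβ

omit hL hε hs hd in
theorem e4b_pow {C : Type} [Field C] (w : Valuation C (WithZero (Multiplicative ℤ))) {x y : C}
    {g : WithZero (Multiplicative ℤ)}
    (hx : w x ≤ 1) (hy : w y ≤ 1) (h : w (x - y) < g) (n : ℕ) : w (x ^ n - y ^ n) < g := by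
  have hg : (0 : WithZero (Multiplicative ℤ)) < g := lt_of_le_of_lt zero_le h
  induction n with
  | zero => rw [pow_zero, pow_zero, sub_self, map_zero]; exact hg
  | succ n ih =>
    have e : x ^ (n + 1) - y ^ (n + 1) = (x ^ n - y ^ n) * x + y ^ n * (x - y) := by ring
    rw [e]
    apply Valuation.map_add_lt
    · rw [map_mul]
      exact lt_of_le_of_lt (mul_le_of_le_one_right' hx) ih
    · rw [map_mul, map_pow]
      exact lt_of_le_of_lt (mul_le_of_le_one_left' (pow_le_one' hy n)) h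

omit hL hε hs hd in
theorem e4b_three (hL : Loc3 (Valued.v : Valuation (v.adicCompletion KK) (WithZero (Multiplicative ℤ))) l ε) :
    Valued.v (3 : v.adicCompletion KK) ≤ (WithZero.exp (-2 : ℤ) : WithZero (Multiplicative ℤ)) := by
  rw [hL.three, map_mul, hL.heps, one_mul, map_pow, hL.hl, ← WithZero.exp_nsmul]
  norm_num

omit hL hε hs hd in
/-- `e ≡ f mod l³` -/
theorem e4b_quot (hL : Loc3 (Valued.v : Valuation (v.adicCompletion KK) (WithZero (Multiplicative ℤ))) l ε)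
    {e f : v.adicCompletion KK} (he : Valued.v (e - 1) < (1 : WithZero (Multiplicative ℤ)))
    (hf : Valued.v (f - 1) < (1 : WithZero (Multiplicative ℤ)))
    (h : Valued.v (e - e⁻¹ - (f - f⁻¹)) ≤ WithZero.exp (-3 : ℤ)) :
    ∃ b : v.adicCompletion KK, Valued.v b ≤ (1 : WithZero (Multiplicative ℤ)) ∧ e = f * (1 + l ^ 3 * b) := by
  have he1 : Valued.v e = (1 : WithZero (Multiplicative ℤ)) := l1_one_of (map_one _) he
  have hf1 : Valued.v f = (1 : WithZero (Multiplicative ℤ)) := l1_one_of (map_one _) hf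
  have he0 : e ≠ 0 := by
    rintro rfl
    rw [map_zero] at he1
    exact zero_ne_one he1
  have hf0 : f ≠ 0 := by
    rintro rfl
    rw [map_zero] at hf1
    exact zero_ne_one hf1
  have hef : Valued.v (e * f) = (1 : WithZero (Multiplicative ℤ)) := by rw [map_mul, he1, hf1, one_mul]
  have h1 : Valued.v (e * f + 1) = (1 : WithZero (Multiplicative ℤ)) := by
    refine l1_one_of (l1_two hL) ?_
    have e1 : e * f + 1 - 2 = (e - 1) * f + (f - 1) := by ring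
    rw [e1]
    exact Valuation.map_add_lt _ (e4_mul_lt he hf1.le) hf
  have h2 : Valued.v (e - f) ≤ WithZero.exp (-3 : ℤ) := by
    have e1 : (e - f) * (e * f + 1) = (e - e⁻¹ - (f - f⁻¹)) * (e * f) := by
      field_simp
      ring
    have e2 : Valued.v ((e - f) * (e * f + 1)) = Valued.v (e - f) := by rw [map_mul, h1, mul_one]
    rw [← e2, e1, map_mul, hef, mul_one]
    exact h
  have hl0 := e4_l0 hL
  have hl3 : Valued.v (l ^ 3) = (WithZero.exp (-3 : ℤ) : WithZero (Multiplicative ℤ)) := by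
    rw [map_pow, hL.hl, ← WithZero.exp_nsmul]
    norm_num
  refine ⟨(e / f - 1) / l ^ 3, ?_, ?_⟩
  · have e1 : e / f - 1 = (e - f) / f := by field_simp
    rw [map_div₀, e1, map_div₀, hf1, div_one, hl3]
    exact div_le_one_of_le₀ h2 zero_le
  · have hl30 : l ^ 3 ≠ 0 := pow_ne_zero 3 hl0
    field_simp
    ring

omit hL hε hs hd in
theorem e4b_lam (hL : Loc3 (Valued.v : Valuation (v.adicCompletion KK) (WithZero (Multiplicative ℤ))) l ε) (n : ℤ) :
    Valued.v (l * (1 + (n : v.adicCompletion KK) * l)) ≤ (WithZero.exp (-1 : ℤ) : WithZero (Multiplicative ℤ)) := by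
  have hl : Valued.v l ≤ (WithZero.exp (-1 : ℤ) : WithZero (Multiplicative ℤ)) := hL.hl.le
  have hint : Valued.v (n : v.adicCompletion KK) ≤ (WithZero.exp (0 : ℤ) : WithZero (Multiplicative ℤ)) := by
    rw [WithZero.exp_zero]
    exact dt_int n
  refine e3_mul _ hl (Valuation.map_add_le _ (by rw [map_one, WithZero.exp_zero])
    (e3_mul (0 : ℤ) hint hl (by norm_num))) (by norm_num)

omit hL hε hs hd in
/-- multiples of `3` in the coefficient of `Λ` -/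
theorem e4b_mul3 (hL : Loc3 (Valued.v : Valuation (v.adicCompletion KK) (WithZero (Multiplicative ℤ))) l ε)
    (hs1 : Valued.v s = (1 : WithZero (Multiplicative ℤ))) {n c : ℤ} (hn : (3 : ℤ) ∣ n) :
    Valued.v ((n : v.adicCompletion KK) * (l * (1 + (c : v.adicCompletion KK) * l)) * s) ≤
      (WithZero.exp (-3 : ℤ) : WithZero (Multiplicative ℤ)) := by
  obtain ⟨m, rfl⟩ := hn
  have hint : Valued.v (m : v.adicCompletion KK) ≤ (WithZero.exp (0 : ℤ) : WithZero (Multiplicative ℤ)) := by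
    rw [WithZero.exp_zero]
    exact dt_int m
  rw [map_mul, hs1, mul_one]
  push_cast
  rw [mul_assoc]
  exact e3_mul _ (e4b_three v hL) (e3_mul (-1) hint (e4b_lam v hL c) (by norm_num)) (by norm_num)

omit hd in
/-- [E4b] -/
theorem sol_plusX {d₀ d₁ d₂ : ℤ}
    (hD : Dt (Valued.v : Valuation (v.adicCompletion KK) (WithZero (Multiplicative ℤ))) l ε d d₀ d₁ d₂) (h0 : d₀ = 1)
    (ha : Valued.v a = (1 : WithZero (Multiplicative ℤ))) (t : ℤ)
    (ht : Valued.v (a ^ 8 - (a ^ 8)⁻¹ - (t : v.adicCompletion KK) *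
      (l * (1 + ((d₁ * (1 + d₂) : ℤ) : v.adicCompletion KK) * l)) * s) ≤ WithZero.exp (-3 : ℤ)) :
    (∃ g : v.adicCompletion KK, g ^ 3 = a) ∨
      ∃ x y g : v.adicCompletion KK, g ≠ 0 ∧ y ^ 2 = x ^ 3 + d ∧ y - s ≠ 0 ∧ y - s = a * g ^ 3 := by
  have hV2 := l1_two hL
  have hV3 := l1_three hL
  have hl0 := e4_l0 hL
  have hint : ∀ n : ℤ, Valued.v (n : v.adicCompletion KK) ≤ (WithZero.exp (0 : ℤ) : WithZero (Multiplicative ℤ)) :=
    fun n => by rw [WithZero.exp_zero]; exact dt_int n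
  have hd : Valued.v (d - 1) < (1 : WithZero (Multiplicative ℤ)) := by
    have h1 := hD.dig
    have hl1 : Valued.v l ≤ (WithZero.exp (-1 : ℤ) : WithZero (Multiplicative ℤ)) := hL.hl.le
    have e : d - 1 = (d - ((d₀ : v.adicCompletion KK) + (d₁ : v.adicCompletion KK) * l + (d₂ : v.adicCompletion KK) * l ^ 2)) +
        ((d₁ : v.adicCompletion KK) * l + (d₂ : v.adicCompletion KK) * (l * l)) := by
      rw [h0]
      push_cast
      ring
    rw [e]
    refine l1_of_le (n := -1) (by norm_num) (Valuation.map_add_le _ (e3_mono _ h1 (by norm_num))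
      (Valuation.map_add_le _ (e3_mul _ (hint d₁) hl1 (by norm_num)) (e3_mul _ (hint d₂) (e3_mul (-2) hl1 hl1 (by norm_num))
        (by norm_num))))
  have hVd : Valued.v d = (1 : WithZero (Multiplicative ℤ)) := l1_one_of (map_one _) hd
  have hVs : Valued.v s = (1 : WithZero (Multiplicative ℤ)) := by
    rw [← hs, map_pow] at hVd
    exact (pow_eq_one_iff.1 hVd).resolve_right (by norm_num)
  have hs0 : s ≠ 0 := by
    rintro rfl
    rw [map_zero] at hVs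
    exact zero_ne_one hVs
  have ha0 : a ≠ 0 := by
    rintro rfl
    rw [map_zero] at ha
    exact zero_ne_one ha
  have h20 : (2 : v.adicCompletion KK) ≠ 0 := by
    intro h
    rw [h, map_zero] at hV2
    exact zero_ne_one hV2
  -- `e = a ^ 8`
  obtain ⟨e, he⟩ : ∃ e : v.adicCompletion KK, e = a ^ 8 := ⟨_, rfl⟩
  rw [← he] at ht
  have he1 : Valued.v (e - 1) < (1 : WithZero (Multiplicative ℤ)) := by
    obtain ⟨σ, hσ, haσ⟩ := e4_sgn hL ha
    have hσ8 : σ ^ 8 = 1 := by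
      have h1 := e4_sq hσ
      have h2 : σ ^ 8 = (σ ^ 2) ^ 4 := by ring
      rw [h2, h1, one_pow]
    rw [he, ← hσ8]
    exact e4b_pow _ ha.le (l1_sgn hσ).le haσ 8
  have he1' : Valued.v e = (1 : WithZero (Multiplicative ℤ)) := l1_one_of (map_one _) he1
  have he0 : e ≠ 0 := by rw [he]; exact pow_ne_zero 8 ha0
  by_cases h3 : (3 : ℤ) ∣ t
  · -- `e ≡ 1 mod l³`
    have h4 : Valued.v (e - e⁻¹ - (1 - (1 : v.adicCompletion KK)⁻¹)) ≤ WithZero.exp (-3 : ℤ) := by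
      have e1 : e - e⁻¹ - (1 - (1 : v.adicCompletion KK)⁻¹) = (e - e⁻¹ - (t : v.adicCompletion KK) *
        (l * (1 + ((d₁ * (1 + d₂) : ℤ) : v.adicCompletion KK) * l)) * s) + (t : v.adicCompletion KK) *
        (l * (1 + ((d₁ * (1 + d₂) : ℤ) : v.adicCompletion KK) * l)) * s := by
        rw [inv_one]
        ring
      rw [e1]
      exact Valuation.map_add_le _ ht (e4b_mul3 v hL hVs h3)
    have h5 : Valued.v (e⁻¹ - 1) < (1 : WithZero (Multiplicative ℤ)) := by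
      have e1 : e⁻¹ - 1 = -((e - 1) / e) := by
        field_simp
        ring
      rw [e1, Valuation.map_neg, map_div₀, he1', div_one]
      exact he1
    have h6 : Valued.v (e⁻¹ - (e⁻¹)⁻¹ - (1 - (1 : v.adicCompletion KK)⁻¹)) ≤ WithZero.exp (-3 : ℤ) := by
      have e1 : e⁻¹ - (e⁻¹)⁻¹ - (1 - (1 : v.adicCompletion KK)⁻¹) = -(e - e⁻¹ - (1 - (1 : v.adicCompletion KK)⁻¹)) := by
        rw [inv_inv, inv_one]
        ring
      rw [e1, Valuation.map_neg]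
      exact h4
    obtain ⟨b, hb, heb⟩ := e4b_quot v hL h5 (by rw [sub_self, map_zero]; exact zero_lt_one) h6
    rw [one_mul] at heb
    rcases lt_or_eq_of_le hb with hb1 | hb1
    · left
      obtain ⟨m, -, hm⟩ := cube_four v hL.hl hL.heps hL.three (x := e⁻¹) (by
        have e1 : e⁻¹ - 1 = l ^ 3 * b := by rw [heb]; ring
        rw [e1]
        have h7 := e4_lpow hL 3 (l1_lt1 hb1)
        exact h7)
      refine ⟨a ^ 3 * (1 + l * m), ?_⟩
      rw [mul_pow, ← hm, he]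
      field_simp
    · right
      obtain ⟨g, h, hg, hgh⟩ := level3X v hL hε hs hd hb1 heb
      obtain ⟨hp1, hp2⟩ := pt_of_gh hs (inv_ne_zero he0) hgh
      refine ⟨g * h, s + e⁻¹ * g ^ 3, g / a ^ 3, div_ne_zero hg (pow_ne_zero 3 ha0), hp1, ?_, ?_⟩
      · rw [add_sub_cancel_left]
        exact mul_ne_zero (inv_ne_zero he0) (pow_ne_zero 3 hg)
      · rw [add_sub_cancel_left, he]
        field_simp
  -- the point with `x = 0` resp. its twist
  right
  obtain ⟨ρ, hρ, hsρ⟩ : ∃ ρ : ℤ, (ρ = 1 ∨ ρ = -1) ∧ Valued.v (s - (ρ : v.adicCompletion KK)) < (1 : WithZero (Multiplicative ℤ)) := by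
    obtain ⟨σ, hσ, hsσ⟩ := e4_sgn hL hVs
    rcases hσ with rfl | rfl
    · exact ⟨1, Or.inl rfl, by rw [Int.cast_one]; exact hsσ⟩
    · exact ⟨-1, Or.inr rfl, by rw [Int.cast_neg, Int.cast_one]; exact hsσ⟩
  have hf := dt_two_r hD h0 hs hρ hsρ
  obtain ⟨f, hfd⟩ : ∃ f : v.adicCompletion KK, f = (2 * s) ^ 16 := ⟨_, rfl⟩
  rw [← hfd] at hf
  have hf1 : Valued.v (f - 1) < (1 : WithZero (Multiplicative ℤ)) := by
    have h4 : Valued.v (4 * d - 1) < (1 : WithZero (Multiplicative ℤ)) := by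
      have e1 : 4 * d - 1 = 3 * d + (d - 1) := by ring
      rw [e1]
      exact Valuation.map_add_lt _ (e4_mul_lt hV3 hVd.le) hd
    have h5 : f = (4 * d) ^ 8 := by rw [hfd, ← hs]; ring
    rw [h5, ← one_pow 8]
    refine e4b_pow _ (l1_one_of (map_one _) h4).le (map_one _).le h4 8
  obtain ⟨η, hη, hηt⟩ : ∃ η : ℤ, (η = 1 ∨ η = -1) ∧ (3 : ℤ) ∣ t - η * (ρ * d₁) := by
    have h4 : t % 3 = 1 ∨ t % 3 = 2 := by omega
    have h5 : ρ * d₁ = 1 ∨ ρ * d₁ = -1 := by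
      rcases hρ with rfl | rfl <;> rcases hD.h1 with h5 | h5 <;> rw [h5] <;> norm_num
    rcases h5 with h5 | h5 <;> rcases h4 with h6 | h6 <;> rw [h5]
    · exact ⟨1, Or.inl rfl, by omega⟩
    · exact ⟨-1, Or.inr rfl, by omega⟩
    · exact ⟨-1, Or.inr rfl, by omega⟩
    · exact ⟨1, Or.inl rfl, by omega⟩
  have h7 := e4b_mul3 v hL hVs (c := d₁ * (1 + d₂)) hηt
  obtain ⟨Λ, hΛ⟩ : ∃ Λ : v.adicCompletion KK, Λ = l * (1 + ((d₁ * (1 + d₂) : ℤ) : v.adicCompletion KK) * l) := ⟨_, rfl⟩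
  rw [← hΛ] at h7 ht hf
  have h2s : 2 * s ≠ 0 := mul_ne_zero h20 hs0
  rcases hη with rfl | rfl
  · have h8 : Valued.v (e - e⁻¹ - (f - f⁻¹)) ≤ WithZero.exp (-3 : ℤ) := by
      have e1 : e - e⁻¹ - (f - f⁻¹) = (e - e⁻¹ - (t : v.adicCompletion KK) * Λ * s) - (f - f⁻¹ -
          ((ρ * d₁ : ℤ) : v.adicCompletion KK) * Λ * s) + ((t - 1 * (ρ * d₁) : ℤ) : v.adicCompletion KK) * Λ * s := by
        push_cast
        ring
      rw [e1]
      exact Valuation.map_add_le _ (Valuation.map_sub_le _ ht hf) h7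
    obtain ⟨b, hb, heb⟩ := e4b_quot v hL he1 hf1 h8
    obtain ⟨g, h, hg, hh, hgh⟩ := level1 v hL hε hs hd hb
    have hβ : 1 + l ^ 3 * b ≠ 0 := by
      intro h9
      rw [h9, mul_zero] at heb
      exact he0 heb
    obtain ⟨hp1, hp2⟩ := pt_of_gh hs (mul_ne_zero (mul_ne_zero (neg_ne_zero.2 h20) hs0) hβ) hgh
    have h9 : -(s + -2 * s * (1 + l ^ 3 * b) * g ^ 3) - s = a * ((2 * s) ^ 5 * h / a ^ 3) ^ 3 := by
      have e1 : -(s + -2 * s * (1 + l ^ 3 * b) * g ^ 3) - s = -(s + -2 * s * (1 + l ^ 3 * b) * g ^ 3 + s) := by ring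
      have e2 : (1 + l ^ 3 * b) = e / f := by
        rw [heb]
        have hf0 : f ≠ 0 := by rw [hfd]; exact pow_ne_zero 16 h2s
        field_simp
      rw [e1, hp2, e2, he, hfd]
      field_simp
      try ring
    refine ⟨g * h, -(s + -2 * s * (1 + l ^ 3 * b) * g ^ 3), (2 * s) ^ 5 * h / a ^ 3,
      div_ne_zero (mul_ne_zero (pow_ne_zero 5 h2s) hh) (pow_ne_zero 3 ha0), by rw [neg_sq]; exact hp1, ?_, h9⟩
    rw [h9]
    exact mul_ne_zero ha0 (pow_ne_zero 3 (div_ne_zero (mul_ne_zero (pow_ne_zero 5 h2s) hh) (pow_ne_zero 3 ha0)))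
  · have h8 : Valued.v (e⁻¹ - (e⁻¹)⁻¹ - (f - f⁻¹)) ≤ WithZero.exp (-3 : ℤ) := by
      have e1 : e⁻¹ - (e⁻¹)⁻¹ - (f - f⁻¹) = -((e - e⁻¹ - (t : v.adicCompletion KK) * Λ * s) + (f - f⁻¹ -
          ((ρ * d₁ : ℤ) : v.adicCompletion KK) * Λ * s) + ((t - -1 * (ρ * d₁) : ℤ) : v.adicCompletion KK) * Λ * s) := by
        rw [inv_inv]
        push_cast
        ring
      rw [e1, Valuation.map_neg]
      exact Valuation.map_add_le _ (Valuation.map_add_le _ ht hf) h7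
    have h5 : Valued.v (e⁻¹ - 1) < (1 : WithZero (Multiplicative ℤ)) := by
      have e1 : e⁻¹ - 1 = -((e - 1) / e) := by
        field_simp
        ring
      rw [e1, Valuation.map_neg, map_div₀, he1', div_one]
      exact he1
    obtain ⟨b, hb, heb⟩ := e4b_quot v hL h5 hf1 h8
    obtain ⟨g, h, hg, hh, hgh⟩ := level1 v hL hε hs hd hb
    have hβ : 1 + l ^ 3 * b ≠ 0 := by
      intro h9
      rw [h9, mul_zero] at heb
      exact inv_ne_zero he0 heb
    obtain ⟨hp1, hp2⟩ := pt_of_gh hs (mul_ne_zero (mul_ne_zero (neg_ne_zero.2 h20) hs0) hβ) hgh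
    have h9 : s + -2 * s * (1 + l ^ 3 * b) * g ^ 3 - s = a * (-g / (a ^ 3 * (2 * s) ^ 5)) ^ 3 := by
      have e2 : (1 + l ^ 3 * b) = e⁻¹ / f := by
        rw [heb]
        have hf0 : f ≠ 0 := by rw [hfd]; exact pow_ne_zero 16 h2s
        field_simp
      rw [add_sub_cancel_left, e2, he, hfd]
      field_simp
      try ring
    refine ⟨g * h, s + -2 * s * (1 + l ^ 3 * b) * g ^ 3, -g / (a ^ 3 * (2 * s) ^ 5),
      div_ne_zero (neg_ne_zero.2 hg) (mul_ne_zero (pow_ne_zero 3 ha0) (pow_ne_zero 5 h2s)), hp1, ?_, h9⟩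
    rw [h9]
    exact mul_ne_zero ha0 (pow_ne_zero 3 (div_ne_zero (neg_ne_zero.2 hg) (mul_ne_zero (pow_ne_zero 3 ha0)
      (pow_ne_zero 5 h2s))))

end

end JXD
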