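import Pool.Agent.JXD.Defs
import Pool.Agent.JXD.S4
import Pool.Agent.JD.S5

/-!
# [JXD-S5] the places of `ℚ(ω)`: minimality, Tamagawa numbers and Néron factors of `E_D`

As in `JD.S5`, for the class `Cl0`; the Tamagawa number at `λ` for `ClY`.
-/

set_option autoImplicit false

open Polynomial NumberField IsDedekindDomain
open scoped Classical ComplexConjugate

namespace JXD

open CM27 CF JZ JX JD
open CU (la om eE t5b_lo)

section
variable {D : Eis} (v : HeightOneSpectrum (𝓞 KK))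

theorem place_cases (hD : Cl0 D) : v.asIdeal = Ideal.span {eE la} ∨
    (∃ b : Eis, Prime b ∧ Primary b ∧ v.asIdeal = Ideal.span {eE b} ∧ ¬ b ∣ 2 * D ∧ IsUnit (6 * t5b_lo v D)) ∨
    (eE 2 ∈ v.asIdeal ∧ IsUnit (3 : v.adicCompletionIntegers KK) ∧ Irreducible (2 : v.adicCompletionIntegers KK) ∧
      ∃ (k : ℕ) (D' : v.adicCompletionIntegers KK), (k = 0 ∨ k = 1) ∧ IsUnit D' ∧ t5b_lo v D = 2 ^ k * D' ∧
        ∀ x : v.adicCompletionIntegers KK, ¬ 4 ∣ t5b_lo v D - x ^ 2) ∨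
    (eE D ∈ v.asIdeal ∧ IsUnit (6 : v.adicCompletionIntegers KK) ∧
      ∃ l D' : v.adicCompletionIntegers KK, Irreducible l ∧ IsUnit D' ∧ t5b_lo v D = l * D') := by
  have hdom : IsDomain Eis := eis_isDomain
  obtain ⟨hsf, -, h2⟩ := hD
  rcases CU.gen_cases (v := v) with hv | ⟨b, hb, hp, hv⟩
  · exact Or.inl hv
  right
  have hb3 : ¬ b ∣ 3 := CU.primary_not_three hp hb
  have u3 : IsUnit (3 : v.adicCompletionIntegers KK) := by
    have h1 := CU.t5b_unit hv 3 hb3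
    rwa [map_ofNat] at h1
  by_cases h2D : b ∣ 2 * D
  swap
  · left
    refine ⟨b, hb, hp, hv, h2D, ?_⟩
    have h1 := CU.t5b_unit hv (6 * D) (by
      intro h3
      have h4 : 6 * D = 3 * (2 * D) := by ring
      rw [h4] at h3
      exact (hb.dvd_or_dvd h3).elim hb3 h2D)
    rwa [map_mul, map_ofNat] at h1
  right
  by_cases hb2 : b ∣ 2
  · left
    have hass : Associated b 2 := hb.irreducible.associated_of_dvd TH.b4_two_prime.irreducible hb2
    have hv2 : v.asIdeal = Ideal.span {eE (2 : Eis)} := by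
      rw [hv]
      exact CU.s1_span hass
    refine ⟨(CU.mem_iff hv 2).2 hb2, u3, ?_, ?_⟩
    · have h1 := CU.t5b_irr' TH.b4_two_prime hv2
      rwa [map_ofNat] at h1
    · by_cases h2d : (2 : Eis) ∣ D
      · obtain ⟨c, hc⟩ := h2d
        have hc2 : ¬ (2 : Eis) ∣ c := by
          rintro ⟨c', hc'⟩
          exact TH.b4_two_prime.not_isUnit (hsf 2 ⟨c', by rw [hc, hc']; ring⟩)
        refine ⟨1, t5b_lo v c, Or.inr rfl, CU.t5b_unit hv2 c hc2, ?_, s5a_sq v hv2 h2⟩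
        rw [hc, map_mul, map_ofNat, pow_one]
      · exact ⟨0, t5b_lo v D, Or.inl rfl, CU.t5b_unit hv2 D h2d, by rw [pow_zero, one_mul], s5a_sq v hv2 h2⟩
  · right
    have hbD : b ∣ D := (hb.dvd_or_dvd h2D).resolve_left hb2
    refine ⟨(CU.mem_iff hv D).2 hbD, ?_, ?_⟩
    · have h1 := CU.t5b_unit hv 6 (by
        intro h3
        have h4 : (6 : Eis) = 2 * 3 := by norm_num
        rw [h4] at h3
        exact (hb.dvd_or_dvd h3).elim hb2 hb3)
      rwa [map_ofNat] at h1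
    · obtain ⟨c, hc⟩ := hbD
      refine ⟨t5b_lo v b, t5b_lo v c, CU.t5b_irr' hb hv, CU.t5b_unit hv c ?_, by rw [hc, map_mul]⟩
      rintro ⟨c', hc'⟩
      exact hb.not_isUnit (hsf b ⟨c', by rw [hc, hc']; ring⟩)

theorem s5b_not_la {D : Eis} (hD : Cl0 D) : ¬ la ∣ D := hD.2.1

theorem min_all (hD : Cl0 D) (T : WeierstrassCurve.VariableChange (v.adicCompletion KK))
    (hT : (T • (ED (t5b_lo v D)).map (algebraMap (v.adicCompletionIntegers KK) (v.adicCompletion KK))).IsMinimal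
      (v.adicCompletionIntegers KK)) :
    (IsDiscreteValuationRing.maximalIdeal (v.adicCompletionIntegers KK)).valuation (v.adicCompletion KK)
      (T.u : v.adicCompletion KK) = 1 := by
  rcases place_cases v hD with hv | ⟨b, -, -, -, -, hu⟩ | ⟨-, h3, h2, k, D', hk, hD', hlo, -⟩ |
    ⟨-, h6, l, D', hl, hD', hlo⟩
  · exact unit_la _ _ (CU.t5b_irr' CU.la_prime hv) (CU.t5b_eps v) (CU.t5b_three v) _
      (CU.t5b_unit hv _ (s5b_not_la hD)) T hT
  · exact unit_good _ hu T hT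
  · rw [hlo] at hT
    exact unit_two h3 h2 D' hD' k hk T hT
  · rw [hlo] at hT
    exact unit_p h6 l D' hl hD' T hT

theorem tam_one (hD : Cl0 D) (hv : v.asIdeal ≠ Ideal.span {eE la}) : SBSD.tam (ED (jK D)) v = 1 := by
  unfold SBSD.tam
  rw [bc]
  rcases place_cases v hD with hv' | ⟨b, -, -, -, -, hu⟩ | ⟨-, h3, h2, k, D', hk, hD', hlo, hsq⟩ |
    ⟨-, h6, l, D', hl, hD', hlo⟩
  · exact absurd hv' hv
  · exact tamagawa_good _ _ _ hu
  · rw [hlo] at hsq ⊢
    exact tamagawa_two _ _ h3 h2 D' hD' k hk hsq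
  · rw [hlo]
    exact tamagawa_p _ _ h6 l D' hl hD'

theorem tam_la (hD : ClY D) (hv : v.asIdeal = Ideal.span {eE la}) : SBSD.tam (ED (jK D)) v = 1 := by
  unfold SBSD.tam
  rw [bc]
  refine tamagawa_laX (v.adicCompletion KK) (l := t5b_lo v la) (ε := t5b_lo v (-om ^ 2))
    (CU.t5b_irr' CU.la_prime hv) (CU.t5b_eps v) (CU.t5b_three v) (CU.t5b_res hv) (CU.t5b_unit hv _ hD.2.1) ?_
  intro η' hη' hdvd
  obtain ⟨η, hη, rfl⟩ : ∃ η : Eis, (η = 1 ∨ η = -1) ∧ η' = t5b_lo v η := by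
    rcases hη' with rfl | rfl
    · exact ⟨1, Or.inl rfl, (map_one _).symm⟩
    · exact ⟨-1, Or.inr rfl, by rw [map_neg, map_one]⟩
  apply hD.2.2.2 η hη
  rw [← map_sub] at hdvd
  have h4 : la ^ 2 ∣ D - η := by_contra fun h => CU.t5b_sq_dvd CU.la_prime hv _ h hdvd
  rw [CU.three_eq]
  obtain ⟨m, hm⟩ := h4
  refine ⟨-om * m, ?_⟩
  rw [hm]
  have h5 : -om ^ 2 * -om = 1 := by
    have := CU.om_cube
    linear_combination this
  linear_combination -(la ^ 2 * m) * h5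

end

theorem finprod_tam {D : Eis} (hD : ClY D) : ∏ᶠ v : HeightOneSpectrum (𝓞 KK), SBSD.tam (ED (jK D)) v = 1 := by
  refine finprod_eq_one_of_forall_eq_one fun v => ?_
  by_cases hv : v.asIdeal = Ideal.span {eE la}
  · exact tam_la v hD hv
  · exact tam_one v (cl0_of hD) hv

theorem finprod_neron {D : Eis} (hD : Cl0 D) : ∏ᶠ v : HeightOneSpectrum (𝓞 KK), SBSD.neron (ED (jK D)) v = 1 := by
  refine finprod_eq_one_of_forall_eq_one fun v => ?_
  refine PI.neron_of KK v (ED (jK D)) fun T hT => ?_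
  have h1 : (ED (jK D)).baseChange (v.adicCompletion KK) =
      (ED (t5b_lo v D)).map (algebraMap (v.adicCompletionIntegers KK) (v.adicCompletion KK)) := by
    rw [ED_map]
    exact bc v D
  rw [h1] at hT
  exact min_all v hD T hT

end JXD
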