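import Pool.Agent.JXD.E3
import Pool.Agent.JXD.E4
import Pool.Agent.JXD.E6
import Pool.Agent.JXD.S5
import Pool.Agent.JD.E7

/-!
# [JXD-E7] the class of an element of `LamX` comes from a point at every place

`C = v.adicCompletion KK`, `V = Valued.v`, `d ∈ C` the image of `jK D`, `M` a field over `C`, `ρ ∈ M` with `ρ² = d`; `u, y` also denote the images in `C`: `u² - y² d = 1` (`lam_normX`, E6).

PROOF. `locSol_laX` [E7]: as `JD.locSol_la` (JD/E7.lean). `e7a_loc hv : Loc3 V l ε`, `l` = the image of `jK la`, `ε` = the image of `jK (-om²)`, `V (ε + 1) < 1` (see there). `lam_laX` (E6): `V u, V y ≤ 1`, `V (T8 u - 1) < 1`, digits `d₀, d₁, d₂` and `t` (`valuedAdicCompletion_eq_valuation'`, the images of `jK`; `T8`, `U7` commute with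
`algebraMap`: `unfold`, `simp only [map_..]`). `Dt V l ε d d₀ d₁ d₂` (LX.lean): `d₁ ≠ 0` since `¬ 3 ∣ D - η` (`ClY`; if `d₁ = 0` then `la² ∣ D - d₀` and `3 = -om² la²`), `dig` by `e7a_le`.
 `d₀ = -1`: `sol_minusX` (E3.lean). `d₀ = 1`: `V (d - 1) < 1`, `sqrt_one` (JD/E3.lean), `e7a_root`: `s² = d`, `ρ = algebraMap s`; `a = u + y s`, `a^8 = T8 u + y U7 u s` (`pow8`, LX.lean), `(a^8)⁻¹ = T8 u - y U7 u s`, `V a = 1` (`a (u - y s) = 1`, both `≤ 1`), so `a^8 - a⁻⁸ = 2 y U7 u s ≡ t Λ s`: `sol_plusX` (E4.lean), `e7a_rat` (JD/E7.lean).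
-/

set_option autoImplicit false

open NumberField IsDedekindDomain
open scoped Classical

namespace JXD

open CM27 CF JZ JX JD
open CU (la om eE)

/-- the digits at the place `(la)` -/
theorem e7x_dt {D : Eis} (hD : ClY D) {v : HeightOneSpectrum (𝓞 KK)} (hv : v.asIdeal = Ideal.span {eE la}) {d₀ d₁ d₂ : ℤ}
    (hdig : Dig D d₀ d₁ d₂) :
    Dt (Valued.v : Valuation (v.adicCompletion KK) (WithZero (Multiplicative ℤ)))
      (algebraMap KK (v.adicCompletion KK) (jK la)) (algebraMap KK (v.adicCompletion KK) (jK (-om ^ 2)))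
      (algebraMap KK (v.adicCompletion KK) (jK D)) d₀ d₁ d₂ := by
  have hL := e7a_loc hv
  obtain ⟨h0, h1, -, h3⟩ := hdig
  refine ⟨hL.hl, ?_, hL.three, h0, ?_, ?_⟩
  · have e1 : algebraMap KK (v.adicCompletion KK) (jK (-om ^ 2)) + 1 =
        algebraMap KK (v.adicCompletion KK) (jK (-om ^ 2 + 1)) := by
      rw [map_add, map_add, map_one, map_one]
    rw [e1]
    have h2 : la ^ 1 ∣ (-om ^ 2 + 1 : Eis) := by
      refine ⟨1 + om, ?_⟩
      rw [pow_one]
      show (-om ^ 2 + 1 : Eis) = (1 - om) * (1 + om)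
      ring
    have h3 := (e7a_le hv 1 _).2 h2
    exact lt_of_le_of_lt h3 l0b_lt
  · rcases h1 with h1 | h1 | h1
    · exfalso
      subst h1
      refine hD.2.2.2 (d₀ : Eis) ?_ ?_
      · rcases h0 with h0 | h0
        · left
          rw [h0, Int.cast_one]
        · right
          rw [h0, Int.cast_neg, Int.cast_one]
      · obtain ⟨c, hc⟩ := h3
        have hom : om ^ 3 = 1 := CU.om_cube
        refine ⟨-om * (la * c + (d₂ : Eis)), ?_⟩
        have e1 : D - (d₀ : Eis) = la ^ 2 * (la * c + (d₂ : Eis)) := by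
          rw [Int.cast_zero] at hc
          linear_combination hc
        rw [e1, CU.three_eq]
        linear_combination (-(la ^ 2 * (la * c + (d₂ : Eis)))) * hom
    · left; exact h1
    · right; exact h1
  · have e1 : algebraMap KK (v.adicCompletion KK) (jK D) - ((d₀ : v.adicCompletion KK) +
        (d₁ : v.adicCompletion KK) * algebraMap KK (v.adicCompletion KK) (jK la) +
        (d₂ : v.adicCompletion KK) * algebraMap KK (v.adicCompletion KK) (jK la) ^ 2) =
        algebraMap KK (v.adicCompletion KK) (jK (D - ((d₀ : Eis) + (d₁ : Eis) * la + (d₂ : Eis) * la ^ 2))) := by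
      simp only [map_sub, map_add, map_mul, map_pow, map_intCast]
    rw [e1]
    exact (e7a_le hv 3 _).2 h3

theorem e7x_T8 {A B : Type} [Field A] [Field B] (f : A →+* B) (x : A) : T8 (f x) = f (T8 x) := by
  unfold T8
  simp only [map_sub, map_add, map_mul, map_pow, map_ofNat, map_one]

theorem e7x_U7 {A B : Type} [Field A] [Field B] (f : A →+* B) (x : A) : U7 (f x) = f (U7 x) := by
  unfold U7
  simp only [map_sub, map_add, map_mul, map_pow, map_ofNat]

section
variable {D : Eis} {F : Type} [Field F] [NumberField F] [Algebra KK F] {r : F} {τ : F ≃ₐ[KK] F}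
  {α : F} {u y : KK} (hD : ClY D) (hQ : Quad D r τ) (hα : LamX D r τ α) (huy : α = algebraMap KK F u + algebraMap KK F y * r)
  (v : HeightOneSpectrum (𝓞 KK)) {M : Type} [Field M] [Algebra (v.adicCompletion KK) M] {ρ : M}
  (hρ : ρ ^ 2 = algebraMap (v.adicCompletion KK) M (algebraMap KK (v.adicCompletion KK) (jK D)))
include hD hQ hα huy hρ

/-- [E7] -/
theorem locSol_laX (hv : v.asIdeal = Ideal.span {eE la}) :
    LocSol (algebraMap KK (v.adicCompletion KK) (jK D)) ρ
      (algebraMap (v.adicCompletion KK) M (algebraMap KK (v.adicCompletion KK) u) +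
        algebraMap (v.adicCompletion KK) M (algebraMap KK (v.adicCompletion KK) y) * ρ) := by
  have hL := e7a_loc hv
  obtain ⟨hu0, hy0, hT0, d₀, d₁, d₂, t, hdig, ht0⟩ := lam_laX (cl0_of hD) hQ hα huy v hv
  have hDt := e7x_dt hD hv hdig
  set V : Valuation (v.adicCompletion KK) (WithZero (Multiplicative ℤ)) := Valued.v with hV
  set i := algebraMap KK (v.adicCompletion KK) with hi
  have hval : ∀ x : KK, V (i x) = v.valuation KK x := fun x =>
    HeightOneSpectrum.valuedAdicCompletion_eq_valuation' v x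
  have hu : V (i u) ≤ 1 := by rw [hval]; exact hu0
  have hy : V (i y) ≤ 1 := by rw [hval]; exact hy0
  have hT : V (T8 (i u) - 1) < 1 := by
    have e1 : T8 (i u) - 1 = i (T8 u - 1) := by
      rw [map_sub, map_one]
      exact congrArg (fun z => z - 1) (e7x_T8 i u)
    rw [e1, hval]
    exact hT0
  have ht : V (2 * (i y * U7 (i u)) - (t : v.adicCompletion KK) *
      (i (jK la) * (1 + ((d₁ * (1 + d₂) : ℤ) : v.adicCompletion KK) * i (jK la)))) ≤ WithZero.exp (-3 : ℤ) := by
    have e1 : 2 * (i y * U7 (i u)) - (t : v.adicCompletion KK) *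
      (i (jK la) * (1 + ((d₁ * (1 + d₂) : ℤ) : v.adicCompletion KK) * i (jK la))) =
        i (2 * (y * U7 u) - jK ((t : Eis) * (la * (1 + ((d₁ * (1 + d₂) : ℤ) : Eis) * la)))) := by
      have e2 : U7 (i u) = i (U7 u) := e7x_U7 i u
      rw [e2]
      simp only [map_sub, map_add, map_mul, map_one, map_ofNat, map_intCast]
    rw [e1, hval]
    exact ht0
  have hnorm : i u ^ 2 - i y ^ 2 * i (jK D) = 1 := by
    have := congrArg i (lam_normX hQ hα huy)
    simpa only [map_sub, map_mul, map_pow, map_one] using this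
  rcases hDt.h0 with h0 | h0
  · have hd1 : V (i (jK D) - 1) < 1 := by
      have e1 : i (jK D) - 1 = (i (jK D) - ((d₀ : v.adicCompletion KK) + (d₁ : v.adicCompletion KK) * i (jK la) +
          (d₂ : v.adicCompletion KK) * i (jK la) ^ 2)) +
          i (jK la) * ((d₁ : v.adicCompletion KK) + (d₂ : v.adicCompletion KK) * i (jK la)) := by
        rw [h0, Int.cast_one]
        ring
      rw [e1]
      have hla : V (i (jK la)) < 1 := by
        rw [hDt.hl]
        exact l0b_lt
      refine V.map_add_lt (l1_of_le (by norm_num) hDt.dig) ?_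
      rw [map_mul]
      refine lt_of_le_of_lt (mul_le_of_le_one_right' (V.map_add_le (dt_int d₁) ?_)) hla
      rw [map_mul]
      exact mul_le_one' (dt_int d₂) hla.le
    obtain ⟨z, hz, -⟩ := sqrt_one v (l1_two hL) hd1
    obtain ⟨s, hs, -, hρs⟩ := e7a_root hρ hz
    have hVs : V s = 1 := by
      have h5 : V (i (jK D)) = 1 := l1_one_of (map_one V) hd1
      rw [← hs, map_pow] at h5
      exact (pow_eq_one_iff.1 h5).resolve_right (by norm_num)
    have hys : V (i y * s) ≤ 1 := by
      rw [map_mul, hVs, mul_one]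
      exact hy
    have hprod : (i u + i y * s) * (i u - i y * s) = 1 := by
      rw [← hnorm, ← hs]
      ring
    have ha : V (i u + i y * s) = 1 := by
      refine (E7c_two_three v (V.map_add_le hu hys) (V.map_sub_le hu hys) ?_).1
      rw [hprod, map_one]
    obtain ⟨hp1, hp2⟩ := pow8 hs hnorm
    have hinv : ((i u + i y * s) ^ 8)⁻¹ = T8 (i u) - i y * U7 (i u) * s := by
      rw [hp1]
      refine inv_eq_of_mul_eq_one_right ?_
      rw [← hp2, ← hs]
      ring
    have h6 := e7a_rat hρs (sol_plusX v hL hDt.heps hs hDt h0 ha t (by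
      rw [hinv, hp1]
      have e1 : T8 (i u) + i y * U7 (i u) * s - (T8 (i u) - i y * U7 (i u) * s) -
          (t : v.adicCompletion KK) * (i (jK la) * (1 + ((d₁ * (1 + d₂) : ℤ) : v.adicCompletion KK) * i (jK la))) * s =
          (2 * (i y * U7 (i u)) - (t : v.adicCompletion KK) *
            (i (jK la) * (1 + ((d₁ * (1 + d₂) : ℤ) : v.adicCompletion KK) * i (jK la)))) * s := by ring
      rw [e1, map_mul, hVs, mul_one]
      exact ht))
    rw [map_add, map_mul, ← hρs] at h6
    exact h6
  · exact sol_minusX v hL hDt h0 hu hy hnorm hT t ht hρ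

theorem locSol_splitX (h2 : Valued.v (2 : v.adicCompletion KK) = (1 : WithZero (Multiplicative ℤ)))
    (h3 : Valued.v (3 : v.adicCompletion KK) = (1 : WithZero (Multiplicative ℤ)))
    (hd : Valued.v (algebraMap KK (v.adicCompletion KK) (jK D)) = (1 : WithZero (Multiplicative ℤ)))
    {x : v.adicCompletion KK}
    (hx : Valued.v (algebraMap KK (v.adicCompletion KK) (jK D) - x ^ 2) < (1 : WithZero (Multiplicative ℤ))) :
    LocSol (algebraMap KK (v.adicCompletion KK) (jK D)) ρ
      (algebraMap (v.adicCompletion KK) M (algebraMap KK (v.adicCompletion KK) u) +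
        algebraMap (v.adicCompletion KK) M (algebraMap KK (v.adicCompletion KK) y) * ρ) := by
  have hnorm := lam_normX hQ hα huy
  set d : v.adicCompletion KK := algebraMap KK (v.adicCompletion KK) (jK D) with hdd
  set U : v.adicCompletion KK := algebraMap KK (v.adicCompletion KK) u with hU
  set Y : v.adicCompletion KK := algebraMap KK (v.adicCompletion KK) y with hY
  have hnorm' : U ^ 2 - Y ^ 2 * d = 1 := by
    have h1 := congrArg (algebraMap KK (v.adicCompletion KK)) hnorm
    simpa only [map_sub, map_mul, map_pow, map_one] using h1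
  have hx2 : Valued.v (x ^ 2) = (1 : WithZero (Multiplicative ℤ)) := by
    have h1 : x ^ 2 = d - (d - x ^ 2) := by ring
    rw [h1, Valuation.map_sub_eq_of_lt_left Valued.v (by rw [hd]; exact hx), hd]
  have hxv : Valued.v x = (1 : WithZero (Multiplicative ℤ)) := by
    rw [map_pow] at hx2
    exact (pow_eq_one_iff.1 hx2).resolve_right (by norm_num)
  have hx0 : x ≠ 0 := by
    rintro rfl
    rw [map_zero] at hxv
    exact zero_ne_one hxv
  obtain ⟨z, hz, -⟩ := sqrt_one v h2 (x := d / x ^ 2) (by
    have h1 : d / x ^ 2 - 1 = (d - x ^ 2) / x ^ 2 := by field_simp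
    rw [h1, map_div₀, hx2, div_one]
    exact hx)
  obtain ⟨s, hs, hsρ⟩ : ∃ s : v.adicCompletion KK, s ^ 2 = d ∧ ρ = algebraMap (v.adicCompletion KK) M s := by
    have h1 : (x * z) ^ 2 = d := by
      rw [mul_pow, hz]
      field_simp
    have h3 : ρ ^ 2 = (algebraMap (v.adicCompletion KK) M (x * z)) ^ 2 := by
      rw [hρ, ← map_pow, h1]
    rcases sq_eq_sq_iff_eq_or_eq_neg.1 h3 with h4 | h4
    · exact ⟨x * z, h1, h4⟩
    · exact ⟨-(x * z), by rw [neg_sq]; exact h1, by rw [h4, map_neg]⟩
  have hsv : Valued.v s = (1 : WithZero (Multiplicative ℤ)) := by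
    have h1 : Valued.v (s ^ 2) = (1 : WithZero (Multiplicative ℤ)) := by rw [hs]; exact hd
    rw [map_pow] at h1
    exact (pow_eq_one_iff.1 h1).resolve_right (by norm_num)
  have ha : U + Y * s ≠ 0 := by
    intro h0
    have h1 : (U + Y * s) * (U - Y * s) = 1 := by
      rw [← hnorm', ← hs]
      ring
    rw [h0, zero_mul] at h1
    exact zero_ne_one h1
  have hav := split_valX (cl0_of hD) hQ hα huy v hs
  have hcomb : algebraMap (v.adicCompletion KK) M U + algebraMap (v.adicCompletion KK) M Y * ρ =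
      algebraMap (v.adicCompletion KK) M (U + Y * s) := by
    rw [hsρ, map_add, map_mul]
  rw [hcomb]
  rcases sol_split v h2 h3 hs hsv ha hav with ⟨g, hg⟩ | ⟨x', y', g, hg0, hE, hne, hyg⟩
  · left
    exact ⟨algebraMap _ M g, algebraMap_mem _ g, by rw [← map_pow, hg]⟩
  · right
    refine ⟨x', y', algebraMap _ M g, algebraMap_mem _ g, (map_ne_zero _).2 hg0, hE, ?_, ?_⟩
    · rw [hsρ, ← map_sub]
      exact (map_ne_zero _).2 hne
    · rw [hsρ, ← map_sub, hyg, map_mul, map_pow]

theorem locSol_allX :
    LocSol (algebraMap KK (v.adicCompletion KK) (jK D)) ρ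
      (algebraMap (v.adicCompletion KK) M (algebraMap KK (v.adicCompletion KK) u) +
        algebraMap (v.adicCompletion KK) M (algebraMap KK (v.adicCompletion KK) y) * ρ) := by
  have hn := lam_normX hQ hα huy
  set d : v.adicCompletion KK := algebraMap KK (v.adicCompletion KK) (jK D) with hd_def
  have hn' : (algebraMap KK (v.adicCompletion KK) u) ^ 2 - (algebraMap KK (v.adicCompletion KK) y) ^ 2 * d = 1 := by
    have h1 := congrArg (algebraMap KK (v.adicCompletion KK)) hn
    simpa only [map_sub, map_mul, map_pow, map_one] using h1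
  have hlo : ((CU.t5b_lo v D : v.adicCompletionIntegers KK) : v.adicCompletion KK) = d := rfl
  have two_le : Valued.v (2 : v.adicCompletion KK) ≤ (1 : WithZero (Multiplicative ℤ)) := by
    have := E7c_natle v 2
    simpa using this
  have three_le : Valued.v (3 : v.adicCompletion KK) ≤ (1 : WithZero (Multiplicative ℤ)) := by
    have := E7c_natle v 3
    simpa using this
  have d_le : Valued.v d ≤ (1 : WithZero (Multiplicative ℤ)) := (CU.t5b_lo v D).2
  have c6 : ((6 : v.adicCompletionIntegers KK) : v.adicCompletion KK) = 6 :=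
    map_ofNat (algebraMap (v.adicCompletionIntegers KK) (v.adicCompletion KK)) 6
  have c4 : ((4 : v.adicCompletionIntegers KK) : v.adicCompletion KK) = 4 :=
    map_ofNat (algebraMap (v.adicCompletionIntegers KK) (v.adicCompletion KK)) 4
  have c3 : ((3 : v.adicCompletionIntegers KK) : v.adicCompletion KK) = 3 :=
    map_ofNat (algebraMap (v.adicCompletionIntegers KK) (v.adicCompletion KK)) 3
  have c2 : ((2 : v.adicCompletionIntegers KK) : v.adicCompletion KK) = 2 :=
    map_ofNat (algebraMap (v.adicCompletionIntegers KK) (v.adicCompletion KK)) 2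
  rcases place_cases v (cl0_of hD) with hv | ⟨b, -, -, -, -, hu⟩ | ⟨-, h3, h2, k, D', hk, hD', hlo2, hsq⟩ |
    ⟨-, h6, l, D', hl, hD', hlo2⟩
  · exact locSol_laX hD hQ hα huy v hρ hv
  · have h1 := E7c_unit v hu
    have h1' : ((6 * CU.t5b_lo v D : v.adicCompletionIntegers KK) : v.adicCompletion KK) = 2 * (3 * d) := by
      have e1 : ((6 * CU.t5b_lo v D : v.adicCompletionIntegers KK) : v.adicCompletion KK) =
          ((6 : v.adicCompletionIntegers KK) : v.adicCompletion KK) * ((CU.t5b_lo v D : v.adicCompletionIntegers KK) : v.adicCompletion KK) := rfl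
      rw [e1, c6, hlo]
      ring
    rw [h1'] at h1
    have h3d : Valued.v (3 * d) ≤ (1 : WithZero (Multiplicative ℤ)) := by
      rw [map_mul]
      exact mul_le_one' three_le d_le
    obtain ⟨h2, h3d'⟩ := E7c_two_three v two_le h3d h1
    obtain ⟨h3, hd⟩ := E7c_two_three v three_le d_le h3d'
    by_cases hx : ∃ x : v.adicCompletion KK, Valued.v (d - x ^ 2) < (1 : WithZero (Multiplicative ℤ))
    · obtain ⟨x, hx⟩ := hx
      exact locSol_splitX hD hQ hα huy v hρ h2 h3 hd hx
    · push Not at hx
      exact locSol_of_sol3 hρ hn' (sol_inert v h2 h3 hd (fun x => not_lt.2 (hx x)) hn')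
  · have v2 : Valued.v (2 : v.adicCompletion KK) = (WithZero.exp (-1 : ℤ) : WithZero (Multiplicative ℤ)) := by
      have h1 := E7c_irr v h2
      rwa [c2] at h1
    have v3 : Valued.v (3 : v.adicCompletion KK) = (1 : WithZero (Multiplicative ℤ)) := by
      have h1 := E7c_unit v h3
      rwa [c3] at h1
    have vD' := E7c_unit v hD'
    have hdk : d = 2 ^ k * (D' : v.adicCompletion KK) := by
      have e1 : ((2 ^ k * D' : v.adicCompletionIntegers KK) : v.adicCompletion KK) =
          ((2 : v.adicCompletionIntegers KK) : v.adicCompletion KK) ^ k * (D' : v.adicCompletion KK) := rfl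
      rw [← hlo, hlo2, e1, c2]
    have hd : Valued.v d = (1 : WithZero (Multiplicative ℤ)) ∨ Valued.v d = WithZero.exp (-1 : ℤ) := by
      rw [hdk, map_mul, map_pow, vD', mul_one, v2]
      rcases hk with rfl | rfl
      · left; exact pow_zero _
      · right; exact pow_one _
    refine locSol_of_sol3 hρ hn' (sol_two v v2 v3 hd ?_ hn')
    intro x hx
    have hx1 : Valued.v x ≤ (1 : WithZero (Multiplicative ℤ)) := by
      by_contra hc
      push Not at hc
      have h1 : (1 : WithZero (Multiplicative ℤ)) < Valued.v (x ^ 2) := by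
        rw [map_pow]
        exact one_lt_pow₀ hc two_ne_zero
      have h4 : Valued.v (d - x ^ 2) = Valued.v (x ^ 2) :=
        Valuation.map_sub_eq_of_lt_right _ (lt_of_le_of_lt d_le h1)
      rw [h4] at hx
      have h5 : (WithZero.exp (-2 : ℤ) : WithZero (Multiplicative ℤ)) ≤ 1 := by
        rw [← WithZero.exp_zero, WithZero.exp_le_exp]
        norm_num
      exact absurd (lt_of_lt_of_le h1 (hx.trans h5)) (lt_irrefl _)
    apply hsq ⟨x, hx1⟩
    apply E7c_dvd v
    · intro h0
      have h4 : ((4 : v.adicCompletionIntegers KK) : v.adicCompletion KK) = 2 * 2 := by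
        rw [c4]
        norm_num
      rw [h4] at h0
      rcases mul_eq_zero.1 h0 with h0 | h0 <;>
      · rw [h0, map_zero] at v2
        exact WithZero.exp_ne_zero v2.symm
    · have h4 : ((4 : v.adicCompletionIntegers KK) : v.adicCompletion KK) = 2 * 2 := by
        rw [c4]
        norm_num
      rw [h4, map_mul, v2, ← WithZero.exp_add]
      exact hx
  · have h1 := E7c_unit v h6
    have h1' : ((6 : v.adicCompletionIntegers KK) : v.adicCompletion KK) = 2 * 3 := by
      rw [c6]
      norm_num
    rw [h1'] at h1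
    obtain ⟨v2, v3⟩ := E7c_two_three v two_le three_le h1
    have hd : Valued.v d = WithZero.exp (-1 : ℤ) := by
      have e1 : ((l * D' : v.adicCompletionIntegers KK) : v.adicCompletion KK) =
          (l : v.adicCompletion KK) * (D' : v.adicCompletion KK) := rfl
      rw [← hlo, hlo2, e1, map_mul, E7c_irr v hl, E7c_unit v hD', mul_one]
    exact locSol_of_sol3 hρ hn' (sol_ram v v2 v3 hd hn')

end

end JXD
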