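import Pool.Agent.JXD.Q3
import Pool.Agent.JD.F2
import Pool.Agent.JD.F5

/-!
# [JXD-F1] the lattice `{x : x³ / α integral}` and the discriminant of the form

As in `JD.F1`, `JD.F4`, `JD.F5`, for the class `Cl0`.
-/

set_option autoImplicit false

open NumberField IsDedekindDomain
open scoped Classical

namespace JXD

open CM27 CF JZ JX JD
open CU (la om eE)

section
variable {D : Eis} {F : Type} [Field F] [NumberField F] [Algebra KK F] {r : F} {τ : F ≃ₐ[KK] F} {α : F}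
  (hD : Cl0 D) (hQ : Quad D r τ)
include hD hQ

theorem exists_basis (hα : α ≠ 0) :
    ∃ e₁ e₂ : F, InM α e₁ ∧ InM α e₂ ∧ (∀ x, InM α x → ∃ m n : Eis, x = jF F m * e₁ + jF F n * e₂) ∧
      ∀ m n : Eis, jF F m * e₁ + jF F n * e₂ = 0 → m = 0 ∧ n = 0 := by
  obtain ⟨d, hd, hd1, hd2⟩ := f1b_d α
  have hdd : d ≠ 0 := fun h => hd (by rw [h, map_zero])
  have hpid : IsPrincipalIdealRing Eis := eis_pid
  have hdom : IsDomain Eis := eis_isDomain
  obtain ⟨a₁, ha₁⟩ := (hpid.principal (f1b_I hα d hd)).principal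
  obtain ⟨b₂, hb₂⟩ := (hpid.principal (f1b_J r hα d hd)).principal
  have hJ : b₂ ∈ f1b_J r hα d hd := by
    rw [hb₂]
    exact Submodule.mem_span_singleton_self b₂
  have hI : a₁ ∈ f1b_I hα d hd := by
    rw [ha₁]
    exact Submodule.mem_span_singleton_self a₁
  obtain ⟨a₂, ha₂⟩ := hJ
  have ha₁0 : a₁ ≠ 0 := by
    intro h
    have h1 : d * d ∈ f1b_I hα d hd := by
      show InM α (jF F (d * d) / jF F d)
      rw [map_mul, mul_div_cancel_right₀ _ hd]
      unfold InM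
      have e : jF F d ^ 3 / α = jF F (d ^ 2) * (jF F d * α⁻¹) := by
        rw [map_pow, div_eq_mul_inv]
        ring
      rw [e]
      exact (int_jF F _).mul hd2
    rw [ha₁, h, Submodule.span_singleton_eq_bot.2 rfl] at h1
    exact (mul_ne_zero hdd hdd) ((Submodule.mem_bot _).1 h1)
  have hb₂0 : b₂ ≠ 0 := by
    intro h
    have h1 : d * d ∈ f1b_J r hα d hd := by
      refine ⟨0, ?_⟩
      have e0 : (jF F 0 + jF F (d * d) * r) / jF F d = jF F d * r := by
        rw [map_zero, zero_add, map_mul]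
        field_simp
      rw [e0]
      unfold InM
      have e : (jF F d * r) ^ 3 / α = jF F (d ^ 2) * r ^ 3 * (jF F d * α⁻¹) := by
        rw [map_pow, div_eq_mul_inv]
        ring
      rw [e]
      exact ((int_jF F _).mul ((int_r hQ).pow 3)).mul hd2
    rw [hb₂, h, Submodule.span_singleton_eq_bot.2 rfl] at h1
    exact (mul_ne_zero hdd hdd) ((Submodule.mem_bot _).1 h1)
  refine ⟨jF F a₁ / jF F d, (jF F a₂ + jF F b₂ * r) / jF F d, hI, ha₂, ?_, ?_⟩
  · intro x hx
    have hdx : IsIntegral ℤ (jF F d * x) := by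
      refine IsIntegral.of_pow (n := 3) (by norm_num) ?_
      have e : (jF F d * x) ^ 3 = jF F (d ^ 2) * (jF F d * α) * (x ^ 3 / α) := by
        rw [map_pow]
        field_simp
      rw [e]
      exact ((int_jF F _).mul hd1).mul hx
    obtain ⟨a, b, hab⟩ := exists_int hD hQ hdx
    have hx' : x = (jF F a + jF F b * r) / jF F d := by
      rw [← hab]
      field_simp
    have hbJ : b ∈ f1b_J r hα d hd := ⟨a, by rw [← hx']; exact hx⟩
    rw [hb₂] at hbJ
    obtain ⟨n, hn⟩ := Submodule.mem_span_singleton.1 hbJ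
    rw [smul_eq_mul] at hn
    have haI : a - n * a₂ ∈ f1b_I hα d hd := by
      show InM α (jF F (a - n * a₂) / jF F d)
      have h1 := inM_add hα hx (inM_smul (int_jF F (-n)) ha₂)
      have e : x + jF F (-n) * ((jF F a₂ + jF F b₂ * r) / jF F d) = jF F (a - n * a₂) / jF F d := by
        rw [hx', ← hn, map_sub, map_mul, map_mul, map_neg]
        field_simp
        ring
      rwa [e] at h1
    rw [ha₁] at haI
    obtain ⟨m, hm⟩ := Submodule.mem_span_singleton.1 haI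
    rw [smul_eq_mul] at hm
    refine ⟨m, n, ?_⟩
    have ha : a = m * a₁ + n * a₂ := by
      rw [hm]
      ring
    rw [hx', ha, ← hn, map_add, map_mul, map_mul, map_mul]
    field_simp
    ring
  · intro m n h
    have h1 : jF F (m * a₁ + n * a₂) + jF F (n * b₂) * r = 0 := by
      have e : jF F m * (jF F a₁ / jF F d) + jF F n * ((jF F a₂ + jF F b₂ * r) / jF F d) =
          (jF F (m * a₁ + n * a₂) + jF F (n * b₂) * r) / jF F d := by
        rw [map_add, map_mul, map_mul, map_mul]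
        field_simp
        ring
      rw [e, div_eq_zero_iff] at h
      exact h.resolve_right hd
    obtain ⟨h2, h3⟩ := jr_inj hD hQ h1
    have hn : n = 0 := (mul_eq_zero.1 h3).resolve_right hb₂0
    rw [hn, zero_mul, add_zero] at h2
    exact ⟨(mul_eq_zero.1 h2).resolve_right ha₁0, hn⟩
theorem det_unit (hα : α * τ α = 1) {w₁ w₂ : F} (h₁ : InM α w₁) (h₂ : InM α w₂)
    (hb : ∀ x, InM α x → ∃ m n : Eis, x = jF F m * w₁ + jF F n * w₂)
    (hsum : ∃ (s : Finset ℕ) (x y : ℕ → F), (∀ i ∈ s, InM α (x i) ∧ InM α (y i)) ∧ ∑ i ∈ s, x i * τ (y i) = 1)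
    {u t : Eis} (h : w₁ * τ w₂ = jF F u + jF F t * r) : IsUnit t := by
  have hττ := fun z => tau_tau (ne_of_cl hD) hQ z
  have hτj : ∀ m : Eis, τ (jF F m) = jF F m := fun m => AlgEquiv.commutes τ (jK m)
  obtain ⟨A, hA⟩ := fix_int hD hQ (z := w₁ * τ w₁) (by rw [map_mul, hττ, mul_comm])
    (inM_tau hα h₁ h₁)
  obtain ⟨B, hB⟩ := fix_int hD hQ (z := w₂ * τ w₂) (by rw [map_mul, hττ, mul_comm])
    (inM_tau hα h₂ h₂)
  have h' : w₂ * τ w₁ = jF F u - jF F t * r := by
    have h1 := congrArg τ h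
    rw [map_mul, hττ, map_add, map_mul, hτj, hτj, hQ.tau] at h1
    rw [mul_comm, h1]
    ring
  have key : ∀ x y : F, InM α x → InM α y → ∃ p q : Eis, x * τ y = jF F p + jF F (t * q) * r := by
    intro x y hx hy
    obtain ⟨m, n, hx'⟩ := hb x hx
    obtain ⟨m', n', hy'⟩ := hb y hy
    refine ⟨m * m' * A + n * n' * B + m * n' * u + n * m' * u, m * n' - n * m', ?_⟩
    have hτy : τ y = jF F m' * τ w₁ + jF F n' * τ w₂ := by
      rw [hy', map_add, map_mul, map_mul, hτj, hτj]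
    rw [hx', hτy]
    simp only [map_add, map_mul, map_sub]
    linear_combination (jF F m * jF F m') * hA + (jF F n * jF F n') * hB +
      (jF F m * jF F n') * h + (jF F n * jF F m') * h'
  obtain ⟨s, x, y, hxy, hs1⟩ := hsum
  have hir : IsIntegral ℤ r := int_r hQ
  have key2 : ∀ i, ∃ p q : Eis, i ∈ s → (r * x i) * τ (y i) = jF F p + jF F (t * q) * r := by
    intro i
    by_cases hi : i ∈ s
    · obtain ⟨p, q, hpq⟩ := key (r * x i) (y i) (inM_smul hir (hxy i hi).1) (hxy i hi).2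
      exact ⟨p, q, fun _ => hpq⟩
    · exact ⟨0, 0, fun h => absurd h hi⟩
  choose p q hpq using key2
  have h1 : r = jF F (∑ i ∈ s, p i) + jF F (t * ∑ i ∈ s, q i) * r := by
    have h2 : r = ∑ i ∈ s, (r * x i) * τ (y i) := by
      have h3 : ∑ i ∈ s, (r * x i) * τ (y i) = r * ∑ i ∈ s, x i * τ (y i) := by
        rw [Finset.mul_sum]
        exact Finset.sum_congr rfl fun i _ => mul_assoc _ _ _
      rw [h3, hs1, mul_one]
    conv_lhs => rw [h2]
    rw [Finset.sum_congr rfl fun i hi => hpq i hi, Finset.sum_add_distrib, ← Finset.sum_mul,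
      Finset.mul_sum, map_sum, map_sum]
  have h4 : jF F (∑ i ∈ s, p i) + jF F (t * (∑ i ∈ s, q i) - 1) * r = 0 := by
    rw [map_sub, map_one]
    linear_combination -h1
  have h5 := (jr_inj hD hQ h4).2
  exact IsUnit.of_mul_eq_one _ (sub_eq_zero.mp h5)
theorem disc_eq (hα : α * τ α = 1) {w₁ w₂ : F} {a₁ a₂ a₃ a₄ b₁ b₂ b₃ b₄ u t : Eis}
    (h₁ : w₁ ^ 3 / α = jF F a₁ + jF F b₁ * r) (h₂ : w₁ ^ 2 * w₂ / α = jF F a₂ + jF F b₂ * r)
    (h₃ : w₁ * w₂ ^ 2 / α = jF F a₃ + jF F b₃ * r) (h₄ : w₂ ^ 3 / α = jF F a₄ + jF F b₄ * r)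
    (h : w₁ * τ w₂ = jF F u + jF F t * r) :
    disc b₁ (3 * b₂) (3 * b₃) b₄ = -27 * (4 * D * t ^ 6) := by
  have hD0 : D ≠ 0 := hD.1.ne_zero
  have hr := r_ne hD0 hQ
  have hα0 : α ≠ 0 := left_ne_zero_of_mul_eq_one hα
  have hinv : α⁻¹ = τ α := inv_eq_of_mul_eq_one_right hα
  have hinv' : (τ α)⁻¹ = α := by rw [← hinv, inv_inv]
  have hτj : ∀ a : Eis, τ (jF F a) = jF F a := fun a => τ.commutes (jK a)
  have hττ := tau_tau hD0 hQ
  have key : ∀ {z : F} {a b : Eis}, z / α = jF F a + jF F b * r →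
      2 * r * jF F b = τ α * z - α * τ z := by
    intro z a b hz
    have h1 := congrArg τ hz
    rw [map_add, map_mul, hτj, hτj, hQ.tau, map_div₀, div_eq_mul_inv, hinv'] at h1
    rw [div_eq_mul_inv, hinv] at hz
    linear_combination h1 - hz
  have e₁ := key h₁
  have e₂ := key h₂
  have e₃ := key h₃
  have e₄ := key h₄
  have e₅ : 2 * r * jF F t = w₁ * τ w₂ - τ w₁ * w₂ := by
    have h1 := congrArg τ h
    rw [map_add, map_mul, map_mul, hτj, hτj, hQ.tau, hττ] at h1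
    linear_combination h1 - h
  rw [map_pow] at e₁ e₄
  rw [map_mul, map_pow] at e₂ e₃
  apply jF_inj F
  have h2r : (2 * r) ^ 4 ≠ 0 := pow_ne_zero _ (mul_ne_zero two_ne_zero hr)
  apply mul_left_cancel₀ h2r
  have h3 : jF F 3 = 3 := map_ofNat _ 3
  rw [f5_map, map_mul, map_mul, h3, ← f5_hom]
  have e₂' : 2 * r * (3 * jF F b₂) = 3 * (τ α * w₁ ^ 2 * w₂ - α * (τ w₁) ^ 2 * τ w₂) := by
    linear_combination 3 * e₂
  have e₃' : 2 * r * (3 * jF F b₃) = 3 * (τ α * w₁ * w₂ ^ 2 - α * τ w₁ * (τ w₂) ^ 2) := by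
    linear_combination 3 * e₃
  rw [e₁, e₂', e₃', e₄, f5_poly, mul_comm (τ α) α, hα, ← e₅]
  have h5 : jF F (-27 * (4 * D * t ^ 6)) = -27 * (4 * jF F D * (jF F t) ^ 6) := by
    simp only [map_mul, map_neg, map_pow, map_ofNat]
  rw [h5, ← hQ.sq]
  ring

end

end JXD
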