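import Pool.Agent.JXD.F2
import Pool.Agent.JXD.G5
import Pool.Agent.JD.C3

/-!
# [JXD-F3] `¬ NoBadX → HasFormX D`
-/

set_option autoImplicit false

open NumberField IsDedekindDomain
open scoped Classical

namespace JXD

open CM27 CF JZ JX JD
open CU (la om eE)

theorem not_one_la : ¬ la ∣ (1 : Eis) := fun h => CU.la_prime.not_isUnit (isUnit_of_dvd_one h)

/-- `A² ≡ h³ mod λ²` and `λ ∤ A` imply `A ≡ ± 1 mod λ²` -/
theorem sq_cube {A h : Eis} (hA : ¬ la ∣ A) (h2 : la ^ 2 ∣ A ^ 2 - h ^ 3) :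
    ∃ η : Eis, (η = 1 ∨ η = -1) ∧ la ^ 2 ∣ A - η := by
  have hp := CU.la_prime
  obtain ⟨η, hη, h1⟩ := mod_la hA
  have h21 : la ∣ A ^ 2 - h ^ 3 := (Dvd.intro_left la (by ring : la * la = la ^ 2)).trans h2
  have hh : ¬ la ∣ h := by
    intro h3
    have h4 : la ∣ A ^ 2 := by
      have h5 := dvd_add h21 (dvd_pow h3 three_ne_zero)
      rwa [sub_add_cancel] at h5
    exact hA (hp.dvd_of_dvd_pow h4)
  obtain ⟨ε, hε, h3⟩ := mod_la hh
  have hη2 : η ^ 2 = 1 := by rcases hη with rfl | rfl <;> ring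
  have hA1 : la ∣ A ^ 2 - 1 := by
    have e : A ^ 2 - 1 = (A - η) * (A + η) + (η ^ 2 - 1) := by ring
    rw [e, hη2, sub_self, add_zero]
    exact h1.mul_right _
  have hε3 : la ^ 2 ∣ h ^ 3 - ε := by
    obtain ⟨k, hk⟩ := h3
    have e : h = ε + la * k := by rw [← hk]; ring
    have hε' : ε ^ 3 = ε := by rcases hε with rfl | rfl <;> ring
    have e2 : h ^ 3 - ε = la ^ 2 * (-om ^ 2 * ε ^ 2 * la * k + 3 * ε * k ^ 2 + la * k ^ 3) := by
      rw [e]
      have h3e := CU.three_eq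
      linear_combination hε' + ε ^ 2 * la * k * h3e
    rw [e2]
    exact Dvd.intro _ rfl
  have hε1 : ε = 1 := by
    rcases hε with h4 | h4
    · exact h4
    · exfalso
      have h5 : la ∣ h ^ 3 - ε := (Dvd.intro_left la (by ring : la * la = la ^ 2)).trans hε3
      have h6 : la ∣ (A ^ 2 - h ^ 3) + (h ^ 3 - ε) - (A ^ 2 - 1) := dvd_sub (dvd_add h21 h5) hA1
      have e : (A ^ 2 - h ^ 3) + (h ^ 3 - ε) - (A ^ 2 - 1) = 3 + (-1) := by
        rw [h4]
        ring
      rw [e] at h6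
      have h7 : la ∣ (3 : Eis) := by
        rw [CU.three_eq]
        exact (Dvd.intro_left la (by ring : la * la = la ^ 2)).mul_left _
      have h8 := dvd_sub h6 h7
      have e9 : (3 + (-1) - 3 : Eis) = -1 := by ring
      rw [e9] at h8
      exact not_one_la ((dvd_neg).1 h8)
  refine ⟨η, hη, ?_⟩
  have h5 : la ^ 2 ∣ (A - η) * (A + η) := by
    have e : (A - η) * (A + η) = (A ^ 2 - h ^ 3) + (h ^ 3 - ε) + (ε - η ^ 2) := by ring
    rw [e, hε1, hη2, sub_self, add_zero]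
    rw [hε1] at hε3
    exact dvd_add h2 hε3
  have h6 : ¬ la ∣ A + η := by
    intro h7
    have h8 := dvd_sub h7 h1
    have e : A + η - (A - η) = 2 * η := by ring
    rw [e] at h8
    have h9 : la ∣ 2 * η * (2 * η) - (3 : Eis) := by
      refine dvd_sub (h8.mul_right _) ?_
      rw [CU.three_eq]
      exact (Dvd.intro_left la (by ring : la * la = la ^ 2)).mul_left _
    have e9 : 2 * η * (2 * η) - (3 : Eis) = 1 := by linear_combination 4 * hη2
    rw [e9] at h9
    exact not_one_la h9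
  have hdom := eis_isDomain
  exact hp.pow_dvd_of_dvd_mul_right 2 h6 h5

section
variable {D : Eis} {F : Type} [Field F] [NumberField F] [Algebra KK F] {r : F} {τ : F ≃ₐ[KK] F} {α : F}
  (hD : Cl0 D) (hQ : Quad D r τ)
include hD hQ

/-- an element of `M` divisible by `λ` at the places over `λ` -/
theorem inM_div {L : F} (hL : InM α L)
    (hα : ∀ w : HeightOneSpectrum (𝓞 F), OvLa w → w.valuation F α = 1)
    (h : ∀ w : HeightOneSpectrum (𝓞 F), OvLa w → w.valuation F L < 1) : InM α (L / jF F la) := by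
  have key : ∀ w : HeightOneSpectrum (𝓞 F), w.valuation F ((L / jF F la) ^ 3 / α) ≤ 1 := by
    intro w
    by_cases hw : OvLa w
    · rw [map_div₀, hα w hw, div_one, map_pow, map_div₀]
      apply pow_le_one'
      rw [ov_val hD hQ w hw]
      exact div_le_one_of_le₀ (c1b_lt (h w hw)) zero_le
    · have h4 : w.valuation F (jF F la) = 1 := by
        apply le_antisymm
        · exact q3a_le w (int_jF F la)
        · exact not_lt.1 hw
      have e : (L / jF F la) ^ 3 / α = L ^ 3 / α / jF F la ^ 3 := by ring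
      rw [e, map_div₀, map_pow, h4, one_pow, div_one]
      exact q3a_le w hL
  obtain ⟨z, hz⟩ := HeightOneSpectrum.mem_integers_of_valuation_le_one (K := F) _ key
  show IsIntegral ℤ ((L / jF F la) ^ 3 / α)
  rw [← hz]
  exact RingOfIntegers.isIntegral_coe z

theorem noBad_ofX (h : ¬ HasFormX D) : NoBadX D r τ := by
  have hdom := eis_isDomain
  intro α hL
  by_contra hcube
  push Not at hcube
  obtain ⟨hα, h3, hα1, hPX⟩ := hL
  have hD0 : D ≠ 0 := ne_of_cl hD
  have hα0 : α ≠ 0 := left_ne_zero_of_mul_eq_one hα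
  have hla0 : (la : Eis) ≠ 0 := by decide
  have hjla : jF F la ≠ 0 := by
    intro h0
    exact hla0 (jF_inj F (h0.trans (map_zero _).symm))
  obtain ⟨w₁, w₂, hw₁, hw₂, hb, hind⟩ := exists_basis hD hQ hα0
  obtain ⟨a₁, b₁, h₁⟩ := exists_int hD hQ (z := w₁ ^ 3 / α) hw₁
  obtain ⟨a₂, b₂, h₂⟩ := exists_int hD hQ (inM_mul hα0 hw₁ hw₁ hw₂)
  obtain ⟨a₃, b₃, h₃⟩ := exists_int hD hQ (inM_mul hα0 hw₁ hw₂ hw₂)
  obtain ⟨a₄, b₄, h₄⟩ := exists_int hD hQ (z := w₂ ^ 3 / α) hw₂
  obtain ⟨u, t, ht⟩ := exists_int hD hQ (inM_tau hα hw₁ hw₂)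
  have h₂' : w₁ ^ 2 * w₂ / α = jF F a₂ + jF F b₂ * r := by rw [← h₂]; ring
  have h₃' : w₁ * w₂ ^ 2 / α = jF F a₃ + jF F b₃ * r := by rw [← h₃]; ring
  have ht6 : t ^ 6 = 1 := unit_six (det_unit hD hQ hα hw₁ hw₂ hb (exists_sum_one hα h3) ht)
  have hdisc := disc_eq hD hQ hα h₁ h₂' h₃' h₄ ht
  rw [ht6, mul_one] at hdisc
  have hτj : ∀ a : Eis, τ (jF F a) = jF F a := fun a => τ.commutes (jK a)
  have hinv' : (τ α)⁻¹ = α := inv_eq_of_mul_eq_one_left hα
  have hττ := tau_tau hD0 hQ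
  -- the cube of an element of `M`
  have hval : ∀ x y : Eis, (jF F x * w₁ + jF F y * w₂) ^ 3 / α =
      jF F (a₁ * x ^ 3 + 3 * a₂ * x ^ 2 * y + 3 * a₃ * x * y ^ 2 + a₄ * y ^ 3) +
      jF F (b₁ * x ^ 3 + 3 * b₂ * x ^ 2 * y + 3 * b₃ * x * y ^ 2 + b₄ * y ^ 3) * r := by
    intro x y
    have h5 : (jF F x * w₁ + jF F y * w₂) ^ 3 / α = jF F x ^ 3 * (w₁ ^ 3 / α) +
        3 * jF F x ^ 2 * jF F y * (w₁ ^ 2 * w₂ / α) +
        3 * jF F x * jF F y ^ 2 * (w₁ * w₂ ^ 2 / α) + jF F y ^ 3 * (w₂ ^ 3 / α) := by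
      ring
    rw [h5, h₁, h₂', h₃', h₄]
    simp only [map_add, map_mul, map_pow, map_ofNat]
    ring
  have hInM : ∀ x y : Eis, InM α (jF F x * w₁ + jF F y * w₂) := fun x y =>
    inM_add hα0 (inM_smul (int_jF F x) hw₁) (inM_smul (int_jF F y) hw₂)
  apply h
  refine ⟨b₁, b₂, b₃, b₄, ?_, ?_, ?_⟩
  · have h27 : (-27 : Eis) ≠ 0 := by decide
    apply mul_left_cancel₀ h27
    rw [← hdisc]
    unfold disc
    ring
  · intro x y hxy
    have hL3 := hval x y
    rw [hxy, map_zero, zero_mul, add_zero] at hL3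
    obtain ⟨L, hLdef⟩ : ∃ L, L = jF F x * w₁ + jF F y * w₂ := ⟨_, rfl⟩
    rw [← hLdef] at hL3
    have hfix : τ (L ^ 3 / α) = L ^ 3 / α := by rw [hL3, hτj]
    rw [map_div₀, map_pow, div_eq_mul_inv, hinv'] at hfix
    have hLα : α ^ 2 * (τ L) ^ 3 = L ^ 3 := by
      rw [eq_div_iff hα0] at hfix
      linear_combination hfix
    have hL0 : L = 0 := by
      by_contra hL0
      apply hcube (α * τ L / L)
      rw [div_pow, mul_pow, div_eq_iff (pow_ne_zero 3 hL0)]
      linear_combination α * hLα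
    rw [hLdef] at hL0
    exact hind x y hL0
  · intro x y m hxy hfm
    have hL3 := hval x y
    rw [hfm] at hL3
    have hLM := hInM x y
    obtain ⟨L, hLdef⟩ : ∃ L, L = jF F x * w₁ + jF F y * w₂ := ⟨_, rfl⟩
    obtain ⟨A, hAdef⟩ : ∃ A, A = a₁ * x ^ 3 + 3 * a₂ * x ^ 2 * y + 3 * a₃ * x * y ^ 2 + a₄ * y ^ 3 := ⟨_, rfl⟩
    rw [← hLdef, ← hAdef] at hL3
    rw [← hLdef] at hLM
    have hrest : ∀ w : HeightOneSpectrum (𝓞 F), OvLa w → w.valuation F (jF F (la * m) * r) < 1 := by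
      intro w hw
      rw [map_mul, (ov_D hD hQ w hw).2, mul_one, ov_mem w hw]
      exact Dvd.intro _ rfl
    -- `A` is a unit at `λ`
    have hA : ¬ la ∣ A := by
      intro hdvd
      have hβ : ∀ w : HeightOneSpectrum (𝓞 F), OvLa w → w.valuation F L < 1 := by
        intro w hw
        have h5 : w.valuation F (L ^ 3 / α) < 1 := by
          rw [hL3]
          exact Valuation.map_add_lt _ ((ov_mem w hw A).2 hdvd) (hrest w hw)
        rw [map_div₀, hα1 w hw, div_one, map_pow] at h5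
        by_contra hc
        exact absurd h5 (not_lt.2 (one_le_pow₀ (not_lt.1 hc)))
      obtain ⟨m', n', hmn⟩ := hb _ (inM_div hD hQ hLM hα1 hβ)
      rw [div_eq_iff hjla, hLdef] at hmn
      have h6 : jF F (x - la * m') * w₁ + jF F (y - la * n') * w₂ = 0 := by
        simp only [map_sub, map_mul]
        linear_combination hmn
      obtain ⟨h7, h8⟩ := hind _ _ h6
      exact hxy ⟨⟨m', by linear_combination h7⟩, ⟨n', by linear_combination h8⟩⟩
    have hwA : ∀ w : HeightOneSpectrum (𝓞 F), OvLa w → w.valuation F (jF F A) = 1 := by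
      intro w hw
      apply le_antisymm (q3b_le w (int_jF F A))
      rw [← not_lt, ov_mem w hw]
      exact hA
    have hwL : ∀ w : HeightOneSpectrum (𝓞 F), OvLa w → w.valuation F L = 1 := by
      intro w hw
      have h5 : w.valuation F (L ^ 3 / α) = 1 := by
        rw [hL3, Valuation.map_add_eq_of_lt_left _ (by rw [hwA w hw]; exact hrest w hw), hwA w hw]
      rw [map_div₀, hα1 w hw, div_one, map_pow] at h5
      exact (pow_eq_one_iff.1 h5).resolve_right three_ne_zero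
    have hwτL : ∀ w : HeightOneSpectrum (𝓞 F), OvLa w → w.valuation F (τ L) = 1 := by
      intro w hw
      obtain ⟨w', hw'⟩ := exists_cj τ w
      have h5 : OvLa w' := by
        show w'.valuation F (jF F la) < 1
        rw [hw', tau_jF]
        exact hw
      rw [← hw', hwL w' h5]
    obtain ⟨w₀, hw₀⟩ := exists_ov hD hQ
    have hL0 : L ≠ 0 := by
      intro h0
      have h5 := hwL w₀ hw₀
      rw [h0, map_zero] at h5
      exact zero_ne_one h5
    have hτL0 : τ L ≠ 0 := fun h0 => hL0 ((map_eq_zero τ).1 h0)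
    obtain ⟨H, hH⟩ := fix_int hD hQ (z := L * τ L) (by rw [map_mul, hττ, mul_comm]) (inM_tau hα hLM hLM)
    have hτβ : τ (L ^ 3 / α) = (τ L) ^ 3 * α := by
      rw [map_div₀, map_pow, div_eq_mul_inv, hinv']
    have hτβ' : τ (L ^ 3 / α) = jF F A - jF F (la * m) * r := by
      rw [hL3, map_add, map_mul, hτj, hτj, hQ.tau]
      ring
    have hAH : A ^ 2 - H ^ 3 = la ^ 2 * (m ^ 2 * D) := by
      apply jF_inj F
      have h5 : (L ^ 3 / α) * τ (L ^ 3 / α) = (L * τ L) ^ 3 := by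
        rw [hτβ]
        field_simp
      rw [hτβ', hL3, hH] at h5
      simp only [map_sub, map_mul, map_pow] at h5 ⊢
      rw [← hQ.sq]
      linear_combination h5
    obtain ⟨η, hη, hAη⟩ := sq_cube hA (h := H) (by rw [hAH]; exact Dvd.intro _ rfl)
    have hps := ps_beta hD hQ hη hAη (m := m)
    have hq : (jF F A + jF F (la * m) * r) / τ (jF F A + jF F (la * m) * r) = (L / τ L) ^ 3 * (α ^ 2)⁻¹ := by
      rw [← hL3, hτβ]
      field_simp
    have hn1 : N1 τ (L / τ L) := by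
      refine ⟨?_, fun w hw => ?_⟩
      · rw [map_div₀, hττ]
        field_simp
      · rw [map_div₀, hwL w hw, hwτL w hw, div_one]
    have hnα : N1 τ α := ⟨hα, hα1⟩
    have hpx : PX D r ((L / τ L) ^ 3 * (α ^ 2)⁻¹) := by
      have e : α ^ 2 = α * α := pow_two α
      refine px_mul hD hQ (n1_pow hn1 3) (n1_inv (n1_pow hnα 2)) (px_cube hD hQ hn1) (px_inv hD hQ (n1_pow hnα 2) ?_)
      rw [e]
      exact px_mul hD hQ hnα hnα hPX hPX
    rw [← hq] at hpx
    obtain ⟨q, hq1, hq2⟩ := hpx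
    have h5 := ps_unique hD hQ hq1 hps
    have h6 := ln_congr hq2 h5
    rcases hη with rfl | rfl
    · have h7 := ln_neg h6
      rwa [one_mul, neg_neg] at h7
    · rwa [neg_one_mul, neg_neg] at h6

end

end JXD
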