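import Pool.Agent.JX.Base
import Pool.Agent.JD.Q1

/-!
# [JXD] descent by `λ = 1 - ω` on `y² = x³ + D` over `K = ℚ(ω)` for squarefree `D` prime to `λ`: definitions

The mathematics is in `JX.md` (team-store). `F = K(√D)` is an abstract number field with an algebra structure over `KK`, `r² = D`, `τ` the conjugation
(`JD.Quad D r τ`).
-/

set_option autoImplicit false

open NumberField IsDedekindDomain
open scoped Classical

namespace JXD

open CM27 CF JZ JX JD
open CU (la om eE)

/-- squarefree, prime to `λ`, not a square modulo `4` -/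
def Cl0 (D : Eis) : Prop := Squarefree D ∧ ¬ la ∣ D ∧ CondTwo D

theorem cl0_of {D : Eis} (hD : ClY D) : Cl0 D := ⟨hD.1, hD.2.1, hD.2.2.1⟩

theorem mod_la {D : Eis} (h : ¬ la ∣ D) : ∃ η : Eis, (η = 1 ∨ η = -1) ∧ la ∣ D - η := by
  rw [CU.la_dvd_iff] at h
  have h1 : (D.re + D.im) % 3 = 1 ∨ (D.re + D.im) % 3 = 2 := by omega
  rcases h1 with h1 | h1
  · refine ⟨1, Or.inl rfl, ?_⟩
    rw [CU.la_dvd_iff]
    have e1 : (D - 1).re = D.re - 1 := rfl
    have e2 : (D - 1).im = D.im - 0 := rfl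
    rw [e1, e2]
    omega
  · refine ⟨-1, Or.inr rfl, ?_⟩
    rw [CU.la_dvd_iff]
    have e1 : (D - -1).re = D.re - -1 := rfl
    have e2 : (D - -1).im = D.im - 0 := rfl
    rw [e1, e2]
    omega

end JXD
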