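import Pool.Agent.JXD.Defs
import Pool.Agent.JXD.LX
import Pool.Agent.JD.E3

/-!
# [JXD-E3] the place over `λ`, `D ≡ -1 mod λ`: all classes on the line come from points

`C = v.adicCompletion KK`, `V = Valued.v`, `Loc3 V l ε` (JD/L1.lean: residue field `F₃`), `ε ≡ -1 mod l`; `Dt` (LX.lean) with `d₀ = -1`, so `V (d + 1) < 1`. `c = d₁ (1 + d₂)`, `Λ = l (1 + c l)`, `3 Λ ≡ 0 mod l³`. Model: `JD.sol_minus` (JD/E3.lean), its last part.

PROOF. `P = T8 u`, `Q = y U7 u`, `P² - Q² d = 1` and `(u + y r)^8 = P + Q r` (`pow8`, LX.lean). `V (2 Q - t Λ) ≤ exp (-3)`, so `V Q ≤ exp (-1)`, `V (P² - 1) ≤ exp (-2)`, `V (P + 1) = 1` (`P ≡ 1`, `V 2 = 1`), `V (P - 1) ≤ exp (-2)`.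
(i) `3 ∣ t`: `V Q ≤ exp (-3)`: `sol_la` (JD/E3.lean) for `P, Q`: `Sol3 P Q`, and `locSol_of_sol3`-style (`cheb`, JD/E1.lean): `(u + y r)^8 = γ³` with `γ ∈ C(r)`, `γ ≠ 0`; `u + y r = ((u + y r)³ / γ)³` (`(u + y r)^9 / (u + y r)^8`): first alternative of `LocSol`.
(ii) `3 ∤ t`: `d - 1 ≡ -2 ≡ 1 mod l`: `sqrt_one` (JD/E3.lean): `y₀² = d - 1`, `V (y₀ - 1) < 1`; let `σ = ± 1` with `3 ∣ t + σ d₁` and `y₁ = σ y₀` (`V (y₁ - σ) < 1`, `y₁² = d - 1`). The point `(-1, y₁)`. `θ = -(y₁ - r)² = (1 - 2 d) + 2 y₁ r` in `M`, `A = 1 - 2 d`, `B = 2 y₁`, `A² - B² d = 1`.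
`dt_theta8` (LX.lean): `P₂ = T8 A`, `Q₂ = B U7 A`: `V (P₂ - 1) ≤ exp (-2)`, `V (2 Q₂ - σ d₁ Λ) ≤ exp (-3)`, `P₂² - Q₂² d = 1`, `θ^8 = P₂ + Q₂ r` (`pow8`). `(θ α)^8 = P₃ + Q₃ r`, `P₃ = P P₂ + Q Q₂ d`, `Q₃ = P Q₂ + P₂ Q`, `P₃² - Q₃² d = 1`, `2 Q₃ ≡ 2 Q₂ + 2 Q ≡ (t + σ d₁) Λ ≡ 0 mod l³` (`V Q, V Q₂ ≤ exp (-1)`),
`V (P₃ - 1) < 1`. `sol_la`, `cheb`: `(θ α)^8 = γ₁³`, `θ α = γ³` with `γ = (θ α)³ / γ₁ ∈ C(r)`. `y₁ - r = -(y₁ - r)³/θ = α (-(y₁ - r)/γ)³`, `y₁ - r ≠ 0` (otherwise `y₁² = d`, but `y₁² = d - 1`); see the end of the proof of `JD.sol_minus`.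
-/

set_option autoImplicit false

open NumberField IsDedekindDomain
open scoped Classical

namespace JXD

open CM27 CF JZ JX JD
open CU (la om eE)

section e3xaux
open WithZero
variable {C : Type} [Field C] {w : Valuation C (WithZero (Multiplicative ℤ))} {l ε d : C}

theorem e3x_two (hL : Loc3 w l ε) {x : C} {n : ℤ} (h : w (2 * x) ≤ exp n) : w x ≤ exp n := by
  rwa [map_mul, l1_two hL, one_mul] at h

theorem e3x_three (hL : Loc3 w l ε) : w (3 : C) ≤ exp (-2 : ℤ) := by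
  rw [hL.three, map_mul, hL.heps, one_mul, map_pow, hL.hl, ← exp_nsmul]
  norm_num

theorem e3x_est (hL : Loc3 w l ε) (hd : w d = 1) {P Q P₂ Q₂ Λ : C} {t t₂ : ℤ} (hΛ : w Λ ≤ exp (-1 : ℤ))
    (h1 : w (2 * Q - (t : C) * Λ) ≤ exp (-3 : ℤ)) (h2 : w (2 * Q₂ - (t₂ : C) * Λ) ≤ exp (-3 : ℤ)) (h3 : (3 : ℤ) ∣ t + t₂)
    (hP : P ^ 2 - Q ^ 2 * d = 1) (hP1 : w (P - 1) < 1) (hP2 : w (P₂ - 1) ≤ exp (-2 : ℤ)) :
    w (P * Q₂ + P₂ * Q) ≤ exp (-3 : ℤ) ∧ w (P * P₂ + Q * Q₂ * d - 1) < 1 := by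
  have hone : w (1 : C) ≤ exp (0 : ℤ) := by rw [map_one, exp_zero]
  have hint : ∀ n : ℤ, w (n : C) ≤ exp (0 : ℤ) := fun n => by rw [exp_zero]; exact dt_int n
  have h20 : w (2 : C) ≤ exp (0 : ℤ) := e3_num 2
  have hd0 : w d ≤ exp (0 : ℤ) := by rw [hd, exp_zero]
  have hQ : w Q ≤ exp (-1 : ℤ) := by
    refine e3x_two hL ?_
    have e : 2 * Q = (2 * Q - (t : C) * Λ) + (t : C) * Λ := by ring
    rw [e]
    exact w.map_add_le (e3_mono _ h1 (by norm_num)) (e3_mul _ (hint t) hΛ (by norm_num))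
  have hQ2 : w Q₂ ≤ exp (-1 : ℤ) := by
    refine e3x_two hL ?_
    have e : 2 * Q₂ = (2 * Q₂ - (t₂ : C) * Λ) + (t₂ : C) * Λ := by ring
    rw [e]
    exact w.map_add_le (e3_mono _ h2 (by norm_num)) (e3_mul _ (hint t₂) hΛ (by norm_num))
  have hPp : w (P + 1) = 1 := by
    have e : P + 1 - 2 = P - 1 := by ring
    refine l1_one_of (l1_two hL) ?_
    rw [e]
    exact hP1
  have hPm : w (P - 1) ≤ exp (-2 : ℤ) := by
    have e : w (P - 1) = w ((P - 1) * (P + 1)) := by rw [map_mul, hPp, mul_one]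
    have e2 : (P - 1) * (P + 1) = Q * Q * d := by linear_combination hP
    rw [e, e2]
    exact e3_mul _ (e3_mul (-2) hQ hQ (by norm_num)) hd0 (by norm_num)
  have hP0 : w P₂ ≤ exp (0 : ℤ) := by
    have e : P₂ = (P₂ - 1) + 1 := by ring
    rw [e]
    exact w.map_add_le (e3_mono _ hP2 (by norm_num)) hone
  obtain ⟨m, hm⟩ := h3
  have hm' : (t : C) + (t₂ : C) = 3 * (m : C) := by
    rw [← Int.cast_add, hm]
    push_cast
    ring
  constructor
  · refine e3x_two hL ?_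
    have e : 2 * (P * Q₂ + P₂ * Q) = (2 * Q₂ - (t₂ : C) * Λ) + ((2 * Q - (t : C) * Λ) + (3 * ((m : C) * Λ) +
        (2 * ((P - 1) * Q₂) + 2 * ((P₂ - 1) * Q)))) := by
      linear_combination Λ * hm'
    rw [e]
    refine w.map_add_le h2 (w.map_add_le h1 (w.map_add_le ?_ (w.map_add_le ?_ ?_)))
    · exact e3_mul _ (e3x_three hL) (e3_mul (-1) (hint m) hΛ (by norm_num)) (by norm_num)
    · exact e3_mul _ h20 (e3_mul (-3) hPm hQ2 (by norm_num)) (by norm_num)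
    · exact e3_mul _ h20 (e3_mul (-3) hP2 hQ (by norm_num)) (by norm_num)
  · have e : P * P₂ + Q * Q₂ * d - 1 = (P - 1) * P₂ + ((P₂ - 1) + Q * Q₂ * d) := by ring
    rw [e]
    refine l1_of_le (n := -1) (by norm_num) (w.map_add_le (e3_mul _ hPm hP0 (by norm_num)) (w.map_add_le
      (e3_mono _ hP2 (by norm_num)) (e3_mul _ (e3_mul (-2) hQ hQ2 (by norm_num)) hd0 (by norm_num))))

theorem e3x_lam (hL : Loc3 w l ε) (n : ℤ) : w (l * (1 + (n : C) * l)) ≤ exp (-1 : ℤ) := by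
  have hl : w l ≤ exp (-1 : ℤ) := hL.hl.le
  have hint : w (n : C) ≤ exp (0 : ℤ) := by rw [exp_zero]; exact dt_int n
  refine e3_mul _ hl (w.map_add_le (by rw [map_one, exp_zero]) (e3_mul (0 : ℤ) hint hl (by norm_num))) (by norm_num)

theorem e3x_T8 {M : Type} [Field M] (φ : C →+* M) (x : C) : T8 (φ x) = φ (T8 x) := by
  unfold T8
  simp only [map_sub, map_add, map_mul, map_pow, map_ofNat, map_one]

theorem e3x_U7 {M : Type} [Field M] (φ : C →+* M) (x : C) : U7 (φ x) = φ (U7 x) := by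
  unfold U7
  simp only [map_sub, map_add, map_mul, map_pow, map_ofNat]

theorem e3x_pow8 {M : Type} [Field M] (φ : C →+* M) {u y : C} {r : M} (hr : r ^ 2 = φ d) (h : u ^ 2 - y ^ 2 * d = 1) :
    (φ u + φ y * r) ^ 8 = φ (T8 u) + φ (y * U7 u) * r ∧ T8 u ^ 2 - (y * U7 u) ^ 2 * d = 1 := by
  have h1 : φ u ^ 2 - φ y ^ 2 * φ d = 1 := by
    have := congrArg φ h
    simpa only [map_sub, map_mul, map_pow, map_one] using this
  obtain ⟨h2, h3⟩ := pow8 hr h1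
  rw [e3x_T8, e3x_U7] at h2 h3
  refine ⟨?_, ?_⟩
  · rw [h2, map_mul]
  · apply φ.injective
    rw [map_sub, map_mul, map_pow, map_pow, map_mul, map_one]
    exact h3

/-- a cube up to eighth powers -/
theorem e3x_cube {M : Type} [Field M] [Algebra C M] {P Q : C} {r α : M} (hr : r ^ 2 = algebraMap C M d)
    (hN : P ^ 2 - Q ^ 2 * d = 1) (hs : Sol3 P Q) (hα : α ^ 8 = algebraMap C M P + algebraMap C M Q * r) (hα0 : α ≠ 0)
    (hαm : α ∈ IntermediateField.adjoin C {r}) : ∃ γ ∈ IntermediateField.adjoin C {r}, γ ^ 3 = α := by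
  obtain ⟨a, b, h1, h2, h3⟩ := hs
  have hr' : r ∈ IntermediateField.adjoin C {r} := IntermediateField.mem_adjoin_simple_self C r
  have hβ : (algebraMap C M a + algebraMap C M b * r) ^ 3 = algebraMap C M P + algebraMap C M Q * r := by
    refine cheb hr ?_ ?_ ?_ ?_
    · rw [← h1]
      simp only [map_sub, map_mul, map_pow, map_ofNat]
    · rw [← h2]
      simp only [map_sub, map_mul, map_pow, map_ofNat, map_one]
    · have := congrArg (algebraMap C M) hN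
      simpa only [map_sub, map_mul, map_pow, map_one] using this
    · have := (map_ne_zero (algebraMap C M)).2 h3
      simpa only [map_sub, map_mul, map_pow, map_ofNat, map_one] using this
  rw [← hα] at hβ
  have hβ0 : algebraMap C M a + algebraMap C M b * r ≠ 0 := by
    intro h0
    rw [h0, zero_pow three_ne_zero] at hβ
    exact pow_ne_zero 8 hα0 hβ.symm
  refine ⟨α ^ 3 / (algebraMap C M a + algebraMap C M b * r), ?_, ?_⟩
  · exact div_mem (pow_mem hαm 3) (add_mem (algebraMap_mem _ a) (mul_mem (algebraMap_mem _ b) hr'))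
  · rw [div_pow, hβ]
    field_simp

end e3xaux

section
variable (v : HeightOneSpectrum (𝓞 KK)) {l ε d u y : v.adicCompletion KK}

/-- [E3] -/
theorem sol_minusX (hL : Loc3 (Valued.v : Valuation (v.adicCompletion KK) (WithZero (Multiplicative ℤ))) l ε)
    {d₀ d₁ d₂ : ℤ}
    (hD : Dt (Valued.v : Valuation (v.adicCompletion KK) (WithZero (Multiplicative ℤ))) l ε d d₀ d₁ d₂) (h0 : d₀ = -1)
    (hu : Valued.v u ≤ (1 : WithZero (Multiplicative ℤ))) (hy : Valued.v y ≤ (1 : WithZero (Multiplicative ℤ)))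
    (h : u ^ 2 - y ^ 2 * d = 1) (hT : Valued.v (T8 u - 1) < (1 : WithZero (Multiplicative ℤ))) (t : ℤ)
    (ht : Valued.v (2 * (y * U7 u) - (t : v.adicCompletion KK) *
      (l * (1 + ((d₁ * (1 + d₂) : ℤ) : v.adicCompletion KK) * l))) ≤ WithZero.exp (-3 : ℤ))
    {M : Type} [Field M] [Algebra (v.adicCompletion KK) M] {r : M}
    (hr : r ^ 2 = algebraMap (v.adicCompletion KK) M d) :
    LocSol d r (algebraMap (v.adicCompletion KK) M u + algebraMap (v.adicCompletion KK) M y * r) := by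
  have hV2 := l1_two hL
  have hV3 := l1_three hL
  have hd1 : Valued.v (d + 1) < (1 : WithZero (Multiplicative ℤ)) := by
    have h1 := hD.dig
    have hl0 : Valued.v l ≤ (WithZero.exp (-1 : ℤ) : WithZero (Multiplicative ℤ)) := hL.hl.le
    have hint : ∀ n : ℤ, Valued.v (n : v.adicCompletion KK) ≤ (WithZero.exp (0 : ℤ) : WithZero (Multiplicative ℤ)) :=
      fun n => by rw [WithZero.exp_zero]; exact dt_int n
    have e : d + 1 = (d - ((d₀ : v.adicCompletion KK) + (d₁ : v.adicCompletion KK) * l + (d₂ : v.adicCompletion KK) * l ^ 2)) +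
        ((d₁ : v.adicCompletion KK) * l + (d₂ : v.adicCompletion KK) * (l * l)) := by
      rw [h0]
      push_cast
      ring
    rw [e]
    refine l1_of_le (n := -1) (by norm_num) (Valuation.map_add_le _ (e3_mono _ h1 (by norm_num))
      (Valuation.map_add_le _ (e3_mul _ (hint d₁) hl0 (by norm_num)) (e3_mul _ (hint d₂) (e3_mul (-2) hl0 hl0 (by norm_num))
        (by norm_num))))
  have hVd : Valued.v d = (1 : WithZero (Multiplicative ℤ)) := by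
    refine l1_one_of (y := -1) (by rw [Valuation.map_neg, map_one]) ?_
    rw [sub_neg_eq_add]
    exact hd1
  have hΛ := e3x_lam (w := (Valued.v : Valuation (v.adicCompletion KK) (WithZero (Multiplicative ℤ)))) hL (d₁ * (1 + d₂))
  obtain ⟨Λ, hΛd⟩ : ∃ Λ : v.adicCompletion KK, Λ = l * (1 + ((d₁ * (1 + d₂) : ℤ) : v.adicCompletion KK) * l) := ⟨_, rfl⟩
  rw [← hΛd] at hΛ ht
  set φ := algebraMap (v.adicCompletion KK) M with hφ
  have hr' : r ∈ IntermediateField.adjoin (v.adicCompletion KK) {r} := IntermediateField.mem_adjoin_simple_self _ r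
  have hmem : ∀ p q : v.adicCompletion KK, φ p + φ q * r ∈ IntermediateField.adjoin (v.adicCompletion KK) {r} := fun p q =>
    add_mem (algebraMap_mem _ p) (mul_mem (algebraMap_mem _ q) hr')
  obtain ⟨hα8, hPQ⟩ := e3x_pow8 φ hr h
  obtain ⟨P, hPd⟩ : ∃ P : v.adicCompletion KK, P = T8 u := ⟨_, rfl⟩
  obtain ⟨Q, hQd⟩ : ∃ Q : v.adicCompletion KK, Q = y * U7 u := ⟨_, rfl⟩
  rw [← hPd, ← hQd] at hα8 hPQ
  rw [← hQd] at ht
  rw [← hPd] at hT
  have hα0 : φ u + φ y * r ≠ 0 := by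
    intro h0
    have h2 : φ u ^ 2 - φ y ^ 2 * φ d = 1 := by
      have := congrArg φ h
      simpa only [map_sub, map_mul, map_pow, map_one] using this
    have h1 : (φ u + φ y * r) * (φ u - φ y * r) = 1 := by
      linear_combination h2 - (φ y ^ 2) * hr
    rw [h0, zero_mul] at h1
    exact zero_ne_one h1
  by_cases h3 : (3 : ℤ) ∣ t
  · -- the class is a cube
    obtain ⟨hq, -⟩ := e3x_est hL hVd (P := P) (Q := Q) (P₂ := 1) (Q₂ := 0) (t := t) (t₂ := 0) hΛ ht (by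
      rw [mul_zero, Int.cast_zero, zero_mul, sub_zero, map_zero]
      exact zero_le) (by rw [add_zero]; exact h3) hPQ hT (by rw [sub_self, map_zero]; exact zero_le)
    have e : P * 0 + 1 * Q = Q := by ring
    rw [e] at hq
    have hs := sol_la v hL hD.heps hd1 hT hq hPQ
    obtain ⟨γ, hγ, hγ3⟩ := e3x_cube hr hPQ hs hα8 hα0 (hmem u y)
    exact Or.inl ⟨γ, hγ, hγ3⟩
  -- the class of a point `(-1, y₁)`
  obtain ⟨y₀, hy₀, hy₀'⟩ := sqrt_one v hV2 (x := d - 1) (by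
    have h1 : d - 1 - 1 = (d + 1) - 3 := by ring
    rw [h1]
    exact Valuation.map_sub_lt _ hd1 hV3)
  obtain ⟨σ, hσ, hσt⟩ : ∃ σ : ℤ, (σ = 1 ∨ σ = -1) ∧ (3 : ℤ) ∣ t + σ * d₁ := by
    have h4 : t % 3 = 1 ∨ t % 3 = 2 := by omega
    rcases hD.h1 with h5 | h5 <;> rcases h4 with h6 | h6
    · exact ⟨-1, Or.inr rfl, by rw [h5]; omega⟩
    · exact ⟨1, Or.inl rfl, by rw [h5]; omega⟩
    · exact ⟨1, Or.inl rfl, by rw [h5]; omega⟩
    · exact ⟨-1, Or.inr rfl, by rw [h5]; omega⟩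
  obtain ⟨y₁, hy₁d⟩ : ∃ y₁ : v.adicCompletion KK, y₁ = (σ : v.adicCompletion KK) * y₀ := ⟨_, rfl⟩
  have hσ2 : (σ : v.adicCompletion KK) ^ 2 = 1 := by
    rcases hσ with rfl | rfl
    · push_cast; ring
    · push_cast; ring
  have hVσ : Valued.v (σ : v.adicCompletion KK) = (1 : WithZero (Multiplicative ℤ)) := by
    rcases hσ with rfl | rfl
    · rw [Int.cast_one, map_one]
    · rw [Int.cast_neg, Int.cast_one, Valuation.map_neg, map_one]
  have hy₁ : y₁ ^ 2 = d - 1 := by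
    rw [hy₁d, mul_pow, hσ2, one_mul, hy₀]
  have hy₁' : Valued.v (y₁ - (σ : v.adicCompletion KK)) < (1 : WithZero (Multiplicative ℤ)) := by
    have e : y₁ - (σ : v.adicCompletion KK) = (σ : v.adicCompletion KK) * (y₀ - 1) := by rw [hy₁d]; ring
    rw [e, map_mul, hVσ, one_mul]
    exact hy₀'
  have hAB : (1 - 2 * d) ^ 2 - (2 * y₁) ^ 2 * d = 1 := by
    linear_combination (-(4 * d)) * hy₁
  obtain ⟨hT2, hU2⟩ := dt_theta8 hD h0 (A := 1 - 2 * d) (B := 2 * y₁) hσ hy₁'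
    (by rw [hy₁, sub_self, map_zero]; exact zero_le) (by rw [sub_self, map_zero]; exact zero_le)
    (by rw [sub_self, map_zero]; exact zero_le)
  obtain ⟨hθ8, hPQ2⟩ := e3x_pow8 φ hr hAB
  obtain ⟨P₂, hP2d⟩ : ∃ P₂ : v.adicCompletion KK, P₂ = T8 (1 - 2 * d) := ⟨_, rfl⟩
  obtain ⟨Q₂, hQ2d⟩ : ∃ Q₂ : v.adicCompletion KK, Q₂ = 2 * y₁ * U7 (1 - 2 * d) := ⟨_, rfl⟩
  rw [← hP2d, ← hQ2d] at hθ8 hPQ2
  rw [← hΛd, ← hQ2d] at hU2
  rw [← hP2d] at hT2
  obtain ⟨hest1, hest2⟩ := e3x_est hL hVd hΛ ht hU2 hσt hPQ hT hT2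
  have hN : (P * P₂ + Q * Q₂ * d) ^ 2 - (P * Q₂ + P₂ * Q) ^ 2 * d = 1 := by
    linear_combination (P₂ ^ 2 - Q₂ ^ 2 * d) * hPQ + hPQ2
  have hs := sol_la v hL hD.heps hd1 hest2 hest1 hN
  obtain ⟨α, hα⟩ : ∃ α : M, α = φ u + φ y * r := ⟨_, rfl⟩
  obtain ⟨π, hπ⟩ : ∃ π : M, π = φ y₁ - r := ⟨_, rfl⟩
  have hy1M : φ y₁ ^ 2 = φ d - 1 := by
    have := congrArg φ hy₁
    simpa only [map_sub, map_pow, map_one] using this
  have hπ0 : π ≠ 0 := by
    intro h0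
    have h1 : π * (φ y₁ + r) = -1 := by
      rw [hπ]
      linear_combination hy1M - hr
    rw [h0, zero_mul] at h1
    exact (neg_ne_zero.2 one_ne_zero) h1.symm
  have hθ : -π ^ 2 = φ (1 - 2 * d) + φ (2 * y₁) * r := by
    rw [hπ]
    simp only [map_sub, map_mul, map_ofNat, map_one]
    linear_combination -hy1M - hr
  rw [← hα] at hα8 hα0
  rw [← hθ] at hθ8
  have hθα : -π ^ 2 * α ≠ 0 := mul_ne_zero (neg_ne_zero.2 (pow_ne_zero 2 hπ0)) hα0
  have h8 : (-π ^ 2 * α) ^ 8 = φ (P * P₂ + Q * Q₂ * d) + φ (P * Q₂ + P₂ * Q) * r := by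
    rw [mul_pow, hθ8, hα8]
    simp only [map_add, map_mul]
    linear_combination (φ Q * φ Q₂) * hr
  have hπm : π ∈ IntermediateField.adjoin (v.adicCompletion KK) {r} := by
    rw [hπ]
    exact sub_mem (algebraMap_mem _ y₁) hr'
  have hαm : α ∈ IntermediateField.adjoin (v.adicCompletion KK) {r} := by
    rw [hα]
    exact hmem u y
  obtain ⟨γ, hγ, hγ3⟩ := e3x_cube hr hN hs h8 hθα (mul_mem (neg_mem (pow_mem hπm 2)) hαm)
  have hγ0 : γ ≠ 0 := by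
    rintro rfl
    rw [zero_pow three_ne_zero] at hγ3
    exact hθα hγ3.symm
  rw [← hα]
  right
  refine ⟨-1, y₁, -π / γ, ?_, ?_, ?_, ?_, ?_⟩
  · exact div_mem (neg_mem hπm) hγ
  · exact div_ne_zero (neg_ne_zero.2 hπ0) hγ0
  · rw [hy₁]
    ring
  · rw [← hφ, ← hπ]
    exact hπ0
  · rw [← hφ, ← hπ, div_pow, hγ3]
    field_simp
    try ring

end

end JXD
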