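import Pool.Agent.JXD.LZ
import Pool.Agent.JXD.Q4

/-!
# [JXD-H1] the global lemma

As `JD.cube_of_loc`, with `px_of_locK`.
-/

set_option autoImplicit false

open NumberField IsDedekindDomain
open scoped Classical

namespace JXD

open CM27 CF JZ JX JD
open CU (la om eE)

section
variable {D : Eis} {F : Type} [Field F] [NumberField F] [Algebra KK F] {r : F} {τ : F ≃ₐ[KK] F}
  (hD : ClY D) (hQ : Quad D r τ)
include hD hQ

theorem cube_of_locX (hN : NoBadX D r τ) {b : F} (hb : b ≠ 0) (hc : ∃ t : F, b * τ b = t ^ 3)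
    (hloc : ∀ w : HeightOneSpectrum (𝓞 F), LocK D r b w) : ∃ c : F, c ^ 3 = b := by
  obtain ⟨t, ht⟩ := hc
  have hD0 := ne_of_cl (cl0_of hD)
  have hτb : τ b ≠ 0 := by
    intro h
    exact hb ((map_eq_zero_iff τ τ.injective).1 h)
  have ht0 : t ≠ 0 := by
    rintro rfl
    rw [zero_pow three_ne_zero] at ht
    exact mul_ne_zero hb hτb ht
  obtain ⟨α, hα⟩ : ∃ α, α = b / τ b := ⟨_, rfl⟩
  have hα1 : α * τ α = 1 := by
    rw [hα, map_div₀, tau_tau hD0 hQ]
    field_simp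
  have hα0 : α ≠ 0 := left_ne_zero_of_mul (by rw [hα1]; exact one_ne_zero)
  have hαt : α = b ^ 2 / t ^ 3 := by
    rw [hα, ← ht]
    field_simp
  have hαv : ∀ w : HeightOneSpectrum (𝓞 F), ∃ g : WithZero (Multiplicative ℤ),
      w.valuation F α = g ^ 3 := by
    intro w
    by_cases h2 : w.valuation F (jF F (2 * D)) < 1
    · refine ⟨1, ?_⟩
      rw [hα, map_div₀, fix_of_two (cl0_of hD) hQ w h2 b, div_self, one_pow]
      exact (Valuation.ne_zero_iff _).2 hb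
    · have h2' : w.valuation F (jF F (2 * D)) = 1 :=
        le_antisymm (h1_le w (int_jF F _)) (not_lt.1 h2)
      obtain ⟨g, hg⟩ := val_of_LocKX hQ hb w h2' (hloc w)
      obtain ⟨w', hw'⟩ := exists_cj τ w
      obtain ⟨g', hg'⟩ := val_of_LocKX hQ hb w' (by rw [hw', tau_jF]; exact h2') (hloc w')
      rw [hw'] at hg'
      exact ⟨g / g', by rw [hα, map_div₀, hg, hg', div_pow]⟩
  obtain ⟨k, hk1, hk⟩ := exists_kappa (cl0_of hD) hQ hα1 (fun w _ => hαv w)
  have hk0 : k ≠ 0 := left_ne_zero_of_mul (by rw [hk1]; exact one_ne_zero)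
  obtain ⟨a, ha⟩ : ∃ a, a = α / k ^ 3 := ⟨_, rfl⟩
  have hτk : τ k ≠ 0 := right_ne_zero_of_mul (by rw [hk1]; exact one_ne_zero)
  have ha1 : a * τ a = 1 := by
    rw [ha, map_div₀, map_pow]
    have e : α / k ^ 3 * (τ α / τ k ^ 3) = (α * τ α) / (k * τ k) ^ 3 := by
      field_simp
    rw [e, hα1, hk1]
    norm_num
  have ha0 : a ≠ 0 := left_ne_zero_of_mul (by rw [ha1]; exact one_ne_zero)
  have hav : ∀ w : HeightOneSpectrum (𝓞 F), ∃ g : WithZero (Multiplicative ℤ),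
      w.valuation F a = g ^ 3 := by
    intro w
    obtain ⟨g, hg⟩ := hαv w
    exact ⟨g / w.valuation F k, by rw [ha, map_div₀, hg, map_pow, div_pow]⟩
  have hn : N1 τ a := by
    refine ⟨ha1, fun w hw => ?_⟩
    rw [ha, map_div₀, map_pow, hk w hw, div_self]
    exact pow_ne_zero _ ((Valuation.ne_zero_iff _).2 hk0)
  have hak : a = b ^ 2 * (1 / (t * k)) ^ 3 := by
    rw [ha, hαt]
    field_simp
  have hLam : LamX D r τ a := by
    obtain ⟨w, hw⟩ := exists_ov (cl0_of hD) hQ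
    exact ⟨ha1, hav, hn.2, px_of_locK hD hQ hb ⟨t, ht⟩ w hw (hloc w) hn hak⟩
  obtain ⟨c, hc⟩ := hN _ hLam
  -- `α = (c k)³`, `b² = (c k t)³`
  have hc0 : c ≠ 0 := by
    rintro rfl
    rw [zero_pow three_ne_zero] at hc
    exact ha0 hc.symm
  have hm3 : (c * k * t) ^ 3 = b ^ 2 := by
    rw [mul_pow, mul_pow, hc, ha, hαt]
    field_simp
  have hm0 : c * k * t ≠ 0 := mul_ne_zero (mul_ne_zero hc0 hk0) ht0
  refine ⟨b / (c * k * t), ?_⟩
  rw [div_pow, hm3]
  field_simp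

end

end JXD
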