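import Pool.Agent.JXD.Q3
import Pool.Agent.JD.L0

/-!
# [JXD-L0] the valuation of the completion below
-/

set_option autoImplicit false

open NumberField IsDedekindDomain
open scoped Classical

namespace JXD

open CM27 CF JZ JX JD
open CU (la om eE)

section
variable {D : Eis} {F : Type} [Field F] [NumberField F] [Algebra KK F] {r : F} {τ : F ≃ₐ[KK] F}
  {v : HeightOneSpectrum (𝓞 KK)} {w : HeightOneSpectrum (𝓞 F)} {φ : v.adicCompletion KK →+* w.adicCompletion F}
  (h : Below v w φ) (hw : OvLa w)
include h hw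

theorem below_val (hD : Cl0 D) (hQ : Quad D r τ) (x : v.adicCompletion KK) : Valued.v (φ x) = Valued.v x := by
  have h1 := below_la h hw
  have h2 : Valued.v (φ (algebraMap KK (v.adicCompletion KK) (jK la))) = WithZero.exp (-1 : ℤ) := by
    rw [h.comm]
    have h3 := ov_val hD hQ w hw
    rw [← HeightOneSpectrum.valuedAdicCompletion_eq_valuation'] at h3
    exact h3
  rcases eq_or_ne x 0 with rfl | hx
  · rw [map_zero, map_zero, map_zero]
  · set π := algebraMap KK (v.adicCompletion KK) (jK la) with hπ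
    have hv0 : (Valued.v x : WithZero (Multiplicative ℤ)) ≠ 0 := (Valuation.ne_zero_iff _).2 hx
    obtain ⟨n, hn⟩ : ∃ n : ℤ, (Valued.v x : WithZero (Multiplicative ℤ)) = WithZero.exp (-1 : ℤ) ^ n := by
      refine ⟨-WithZero.log (Valued.v x : WithZero (Multiplicative ℤ)), ?_⟩
      rw [← WithZero.exp_zsmul]
      simp only [smul_eq_mul, mul_neg, mul_one, neg_neg]
      exact (WithZero.exp_log hv0).symm
    have hπ0 : π ≠ 0 := by
      intro h3
      rw [h3, map_zero] at h1
      exact absurd h1.symm (by simp)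
    set y := x * π ^ (-n) with hy
    have hy1 : Valued.v y = (1 : WithZero (Multiplicative ℤ)) := by
      rw [hy, map_mul, map_zpow₀, h1, hn, ← zpow_add₀ (by simp)]
      simp
    have hy0 : y ≠ 0 := mul_ne_zero hx (zpow_ne_zero _ hπ0)
    have e1 : Valued.v (φ y) ≤ (1 : WithZero (Multiplicative ℤ)) := h.int y hy1.le
    have e2 : Valued.v (φ y⁻¹) ≤ (1 : WithZero (Multiplicative ℤ)) := by
      refine h.int y⁻¹ ?_
      rw [map_inv₀, hy1, inv_one]
    have e3 : Valued.v (φ y) = (1 : WithZero (Multiplicative ℤ)) := by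
      refine le_antisymm e1 ?_
      rw [map_inv₀, map_inv₀] at e2
      have h0 : (Valued.v (φ y) : WithZero (Multiplicative ℤ)) ≠ 0 :=
        (Valuation.ne_zero_iff _).2 ((map_ne_zero φ).2 hy0)
      exact (inv_le_one₀ (zero_lt_iff.2 h0)).1 e2
    have e4 : x = y * π ^ n := by
      rw [hy, mul_assoc, ← zpow_add₀ hπ0, neg_add_cancel, zpow_zero, mul_one]
    rw [hn, e4, map_mul, map_mul, e3, one_mul, map_zpow₀, map_zpow₀, h2]

end

end JXD
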