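import Pool.Agent.JXD.LX
import Pool.Agent.JXD.L0
import Pool.Agent.JXD.PA
import Pool.Agent.JD.H1

/-!
# [JXD-LZ] the local conditions at the places of `F` over `λ`

`LocK` (JD/L3.lean). `i = algebraMap F (w.adicCompletion F)`, `Valued.v (i x) = w.valuation F x` (`JD.h1_val`, H1.lean; `HeightOneSpectrum.valuedAdicCompletion_eq_valuation'`).

PROOF. `dt_of` [LZa]: `Dt Valued.v (i (jF la)) (i (jF (-om ^ 2))) (i (jF D))`: `ov_val` (Q3), `CU.three_eq : 3 = -om ^ 2 * la ^ 2`, `la ∣ -om ^ 2 + 1` (`1 - om² = la (1 + om)`; see `locSol_la` in JD/E7.lean), `Dig` (`l3`-lemmas of JD/L3.lean or: `la³ ∣ a` gives `w (jF a) ≤ exp (-3)`); `d₁ ≠ 0` because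
`¬ 3 ∣ D - η` for `η = ± 1` (`d₁ = 0` gives `la² ∣ D - d₀`, `3 = -om² la²`).
`v_eightX` [LZa]: as `JD.v_eight` (H1.lean).
`conj_inv` [LZb]: `la ∣ D + 1` (`d₀ = -1`): `w (τ x) = w x` for all `x ∈ F`: `exists_cj τ w` gives `w'` with `w' x = w (τ x)`, also over `λ` (`tau_jF`); for integral `x = jF a + jF b r` (`exists_int`): `w x < 1 ↔ la ∣ a ∧ la ∣ b ↔ w' x < 1` (`q3b_neg`), `w' = w` (`q3b_ext`).
`not_two` [LZb]: let `d₀ = -1` and `i (2 r b) = t³`, `t ≠ 0`. Choose `x ∈ F` with `Valued.v (i x / t - 1) ≤ exp (-3)` (density, as in `JD.h1_dense`: `Valued.v (i x - t) ≤ exp (-3) Valued.v t`; e.g. multiply by a suitable power of `la` first). Then `w (2 r b / x³ - 1) ≤ exp (-3)`, and by `conj_inv` `w (τ (2 r b)/ (τ x)³ - 1) ≤ exp (-3)`;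
the product: `2 r b τ (2 r b) = -4 D (b τ b) = -4 D t'³`, so `z = -4 D (t'/(x τ x))³` has `w (z - 1) ≤ exp (-3)`; `m = t'/(x τ x)`, `w m = 1` (`w (4 D) = 1`), `(m^3)^8 = m^24 ≡ 1 mod λ³` (`v_eightX`), so `(4 D)^8 ≡ z^8 ≡ 1 mod λ³`. But `4 D ≡ -1 + d₁ λ mod λ²` (`4 = 1 + 3`), `(4 D)^8 ≡ 1 - 8 d₁ λ ≡ 1 + d₁ λ mod λ²`,
`d₁ = ± 1`: contradiction (`w (λ) = exp (-1)`).
`la_of_LocKX` [LZc]: (1) `i b = t³`: `h = t`, `u = 1`, `t = 0`. (2) `i (2 r b) = t³`: `d₀ = 1` (`not_two`), `w (r - s) < 1` for `s = 1` or `-1` (`q3b_pos`, Q3), `h = t`, `u = (2 r)⁻¹`: `u^16 - (u^16)⁻¹ = -((2 r)^16 - ((2 r)^16)⁻¹)`, `dt_two_r`. (3) `Below v w φ`, point `(x, y)` over `v.adicCompletion KK`: `lx_point` for `φ x`, `φ y`, `i r`;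
`hx, hy` from `JD.below_res` (L0.lean; for elements of `v.adicCompletion KK`) and `below_val` (`Valued.v (φ z) = Valued.v z`); `b = (φ y - r) g³ = (h g)³ u`.
`px_of_locK` [LZd]: `i a = (i b)² (i k)³ = u² (h² k)³`, `g = h² (i k)`, `Valued.v (i a) = 1`, so `Valued.v g = 1`, `g^24 ≡ 1 mod λ³` (`v_eightX`), `(i a)^8 = u^16 g^24`, `(i a)^8 - (i a)^(-8) ≡ u^16 - u^(-16) ≡ t λ (1 + c λ) r mod λ³`. So the inequality of `Ps` holds at `w` for `q = t (1 + c λ)` (`w(jF la)^3 = exp (-3)`), `ps_tau` (PA): `Ps r a q`;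
`Ln D q` (with the digits and `t`).
`val_of_LocKX` [LZe]: as `JD.val_of_LocK` (L3.lean), whose proof does not use the class of `D`.
-/

set_option autoImplicit false

open NumberField IsDedekindDomain
open scoped Classical

namespace JXD

open CM27 CF JZ JX JD
open CU (la om eE)

section
variable {D : Eis} {F : Type} [Field F] [NumberField F] [Algebra KK F] {r : F} {τ : F ≃ₐ[KK] F}

/-- [LZa] -/
theorem lza_om : om ^ 3 = 1 := by
  decide

/-- [LZa] -/
theorem lza_dvd : la ∣ -om ^ 2 + 1 := by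
  rw [CU.la_dvd_iff]
  decide

/-- [LZa] -/
theorem dt_of (hD : ClY D) (hQ : Quad D r τ) (w : HeightOneSpectrum (𝓞 F)) (hw : OvLa w) {d₀ d₁ d₂ : ℤ} (hd : Dig D d₀ d₁ d₂) :
    Dt (Valued.v (R := w.adicCompletion F)) (algebraMap F (w.adicCompletion F) (jF F la))
      (algebraMap F (w.adicCompletion F) (jF F (-om ^ 2))) (algebraMap F (w.adicCompletion F) (jF F D)) d₀ d₁ d₂ := by
  have hv : ∀ x : F, Valued.v (algebraMap F (w.adicCompletion F) x) = w.valuation F x :=
    fun x => HeightOneSpectrum.valuedAdicCompletion_eq_valuation' w x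
  have hl := ov_val (cl0_of hD) hQ w hw
  have hla2 : la ^ 2 = 3 * (-om) := by
    rw [CU.three_eq]
    have h1 : om ^ 3 = 1 := lza_om
    linear_combination (-(la ^ 2)) * h1
  refine ⟨?_, ?_, ?_, hd.1, ?_, ?_⟩
  · rw [hv]
    exact hl
  · have h1 : w.valuation F (jF F (-om ^ 2 + 1)) < 1 := by
      rw [ov_mem w hw]
      exact lza_dvd
    rw [← hv, map_add, map_add, map_one, map_one] at h1
    exact h1
  · rw [← map_pow, ← map_pow, ← map_mul, ← map_mul, ← CU.three_eq, map_ofNat, map_ofNat]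
  · rcases hd.2.1 with h0 | h0
    · exfalso
      obtain ⟨c, hc⟩ := hd.2.2.2
      rw [h0, Int.cast_zero, zero_mul, add_zero] at hc
      have h3 : (3 : Eis) ∣ D - (d₀ : Eis) := by
        refine ⟨-om * (la * c + (d₂ : Eis)), ?_⟩
        have e : D - (d₀ : Eis) = la ^ 2 * (la * c + (d₂ : Eis)) := by
          linear_combination hc
        rw [e, hla2]
        ring
      refine hD.2.2.2 (d₀ : Eis) ?_ h3
      rcases hd.1 with h5 | h5
      · left
        rw [h5, Int.cast_one]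
      · right
        rw [h5, Int.cast_neg, Int.cast_one]
    · exact h0
  · obtain ⟨c, hc⟩ := hd.2.2.2
    have e : algebraMap F (w.adicCompletion F) (jF F D) - ((d₀ : w.adicCompletion F) +
        (d₁ : w.adicCompletion F) * algebraMap F (w.adicCompletion F) (jF F la) +
        (d₂ : w.adicCompletion F) * algebraMap F (w.adicCompletion F) (jF F la) ^ 2) =
        algebraMap F (w.adicCompletion F) (jF F (la ^ 3 * c)) := by
      rw [← hc]
      simp only [map_sub, map_add, map_mul, map_pow, map_intCast]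
    rw [e, hv, map_mul, map_mul, map_pow, map_pow, hl]
    have k : (WithZero.exp (-3 : ℤ) : WithZero (Multiplicative ℤ)) = WithZero.exp (-1 : ℤ) ^ 3 := by
      rw [← WithZero.exp_nsmul]
      norm_num
    rw [k]
    exact mul_le_of_le_one_right' (q3b_le w (int_jF F c))

/-- [LZa] -/
theorem v_eightX (hD : Cl0 D) (hQ : Quad D r τ) (w : HeightOneSpectrum (𝓞 F)) (hw : OvLa w) {z : w.adicCompletion F}
    (hz : Valued.v z = (1 : WithZero (Multiplicative ℤ))) : Valued.v (z ^ 24 - 1) ≤ WithZero.exp (-3 : ℤ) := by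
  obtain ⟨x, hx⟩ := h1_dense w z
  set X : w.adicCompletion F := algebraMap F (w.adicCompletion F) x with hX
  have hXv : Valued.v X = (1 : WithZero (Multiplicative ℤ)) := by
    have e : X = z + (X - z) := by ring
    rw [e, Valuation.map_add_eq_of_lt_left _ (by rw [hz]; exact hx), hz]
  have hxw : w.valuation F x = 1 := by
    rw [← h1_val w x]
    exact hXv
  have h8 : Valued.v (X ^ 8 - 1) < (1 : WithZero (Multiplicative ℤ)) := by
    have h1 := ov_eight hD hQ w hw hxw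
    rw [← h1_val w, map_sub, map_pow, map_one] at h1
    exact h1
  have h9 : Valued.v (z ^ 8 - 1) < (1 : WithZero (Multiplicative ℤ)) := by
    have e : z ^ 8 - 1 = (X ^ 8 - 1) - (X ^ 8 - z ^ 8) := by ring
    rw [e]
    exact Valuation.map_sub_lt _ h8 (h1_pow _ hXv.le hz.le hx 8)
  have h10 := h1_lt h9
  set y := z ^ 8 - 1 with hy
  have e : z ^ 24 - 1 = 3 * y + 3 * y ^ 2 + y ^ 3 := by
    rw [hy]
    ring
  have h3 : Valued.v (3 : w.adicCompletion F) ≤ WithZero.exp (-2 : ℤ) := by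
    have e3 : (3 : w.adicCompletion F) = algebraMap F (w.adicCompletion F) (jF F 3) := by
      rw [map_ofNat, map_ofNat]
    rw [e3, h1_val, CU.three_eq, map_mul, map_mul, map_pow, map_pow, ov_val hD hQ w hw]
    have h4 : w.valuation F (jF F (-om ^ 2)) ≤ 1 := h1_le w (int_jF F _)
    calc _ ≤ WithZero.exp (-1 : ℤ) ^ 2 := mul_le_of_le_one_left' h4
      _ = WithZero.exp (-2 : ℤ) := by rw [← WithZero.exp_nsmul]; norm_num
  have hy1 : Valued.v y ≤ (1 : WithZero (Multiplicative ℤ)) := h9.le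
  rw [e]
  have k3 : WithZero.exp (-3 : ℤ) = WithZero.exp (-2 : ℤ) * WithZero.exp (-1 : ℤ) := by
    rw [← WithZero.exp_add]
    norm_num
  have k1 : Valued.v (3 * y) ≤ WithZero.exp (-3 : ℤ) := by
    rw [map_mul, k3]
    exact mul_le_mul' h3 h10
  apply Valuation.map_add_le
  · apply Valuation.map_add_le _ k1
    have e2 : 3 * y ^ 2 = (3 * y) * y := by ring
    rw [e2, map_mul]
    exact le_trans (mul_le_of_le_one_right' hy1) k1
  · rw [map_pow]
    calc _ ≤ WithZero.exp (-1 : ℤ) ^ 3 := pow_le_pow_left₀ zero_le h10 3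
      _ = WithZero.exp (-3 : ℤ) := by rw [← WithZero.exp_nsmul]; norm_num

/-- [LZb] -/
theorem conj_inv (hD : Cl0 D) (hQ : Quad D r τ) (w : HeightOneSpectrum (𝓞 F)) (hw : OvLa w) (h : la ∣ D - (-1)) (x : F) :
    w.valuation F (τ x) = w.valuation F x := by
  obtain ⟨w', hw'⟩ := exists_cj τ w
  have hwo : OvLa w' := by
    unfold OvLa
    rw [hw', tau_jF]
    exact hw
  have h1 : w' = w := by
    apply q3b_ext
    intro y hy
    obtain ⟨a, b, rfl⟩ := exists_int hD hQ hy
    rw [q3b_neg hQ w' hwo h, q3b_neg hQ w hw h]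
  rw [← hw', h1]

omit [Algebra KK F] in
/-- density, relative version -/
theorem lzb_dense (w : HeightOneSpectrum (𝓞 F)) {l : F} (hl : l ≠ 0) {t : w.adicCompletion F} (ht : t ≠ 0) : ∃ x : F,
      Valued.v (algebraMap F (w.adicCompletion F) x * t⁻¹ - 1) < w.valuation F l := by
  set i : F → w.adicCompletion F := fun k => algebraMap F (w.adicCompletion F) k with hi
  have hd : DenseRange i := HeightOneSpectrum.denseRange_algebraMap F w
  have hil : i l ≠ 0 := by
    rw [hi]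
    exact (map_ne_zero_iff _ (algebraMap F (w.adicCompletion F)).injective).2 hl
  have hlt : IsOpen {x : w.adicCompletion F | Valued.v x < (1 : WithZero (Multiplicative ℤ))} := by
    have h := Valued.isOpen_ball (w.adicCompletion F) 1
    simpa only [Valuation.restrict_lt_one_iff] using h
  have hopen : IsOpen {x : w.adicCompletion F | Valued.v ((x * t⁻¹ - 1) * (i l)⁻¹) < (1 : WithZero (Multiplicative ℤ))} :=
    hlt.preimage (f := fun x : w.adicCompletion F => (x * t⁻¹ - 1) * (i l)⁻¹)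
      (((continuous_id.mul continuous_const).sub continuous_const).mul continuous_const)
  obtain ⟨a, ha⟩ := hd.exists_mem_open hopen ⟨t, by
    show Valued.v ((t * t⁻¹ - 1) * (i l)⁻¹) < 1
    rw [mul_inv_cancel₀ ht, sub_self, zero_mul, map_zero]
    exact zero_lt_one⟩
  refine ⟨a, ?_⟩
  have h1 : Valued.v ((i a * t⁻¹ - 1) * (i l)⁻¹) < (1 : WithZero (Multiplicative ℤ)) := ha
  have h2 : Valued.v (i l) = w.valuation F l := h1_val w l
  have h3 : w.valuation F l ≠ 0 := (Valuation.ne_zero_iff _).2 hl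
  rw [map_mul, map_inv₀, h2] at h1
  have h4 := mul_lt_mul_of_pos_right h1 (zero_lt_iff.2 h3)
  rw [mul_assoc, inv_mul_cancel₀ h3, mul_one, one_mul] at h4
  exact h4

theorem lzb_pow8 {R : Type} [CommRing R] {l o D d k : R} (h3 : (3 : R) = -o ^ 2 * l ^ 2) (h : D = -1 + d * l + l ^ 2 * k) :
    l ^ 2 ∣ (4 * D) ^ 8 - (1 + d * l) := by
  have h4 : l ^ 2 ∣ 4 * D - (-1 + d * l) := by
    refine ⟨k + (-o ^ 2) * D, ?_⟩
    have e : 4 * D - (-1 + d * l) = (D - (-1 + d * l)) + 3 * D := by ring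
    rw [e, h3]
    rw [show D - (-1 + d * l) = l ^ 2 * k by rw [h]; ring]
    ring
  have h5 : l ^ 2 ∣ (4 * D) ^ 8 - (-1 + d * l) ^ 8 := h4.trans (sub_dvd_pow_sub_pow _ _ 8)
  have h6 : l ^ 2 ∣ (-1 + d * l) ^ 8 - (1 + d * l) := by
    obtain ⟨y, hy⟩ : ∃ y, y = d * l := ⟨_, rfl⟩
    have e1 : (-1 + d * l) ^ 8 - (1 + d * l) = l ^ 2 * (d ^ 2 * (28 - 56 * y + 70 * y ^ 2 - 56 * y ^ 3 + 28 * y ^ 4 -
        8 * y ^ 5 + y ^ 6)) - 3 * (3 * y) := by
      rw [← hy]
      have e2 : l ^ 2 * (d ^ 2 * (28 - 56 * y + 70 * y ^ 2 - 56 * y ^ 3 + 28 * y ^ 4 - 8 * y ^ 5 + y ^ 6)) =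
        y ^ 2 * (28 - 56 * y + 70 * y ^ 2 - 56 * y ^ 3 + 28 * y ^ 4 - 8 * y ^ 5 + y ^ 6) := by
        have e3 : y ^ 2 = l ^ 2 * d ^ 2 := by rw [hy]; ring
        rw [e3]
        ring
      rw [e2]
      ring
    rw [e1]
    refine dvd_sub (dvd_mul_right _ _) ?_
    rw [h3]
    exact ⟨-o ^ 2 * (-o ^ 2 * l ^ 2 * y), by ring⟩
  have h7 : (4 * D) ^ 8 - (1 + d * l) = ((4 * D) ^ 8 - (-1 + d * l) ^ 8) +
      ((-1 + d * l) ^ 8 - (1 + d * l)) := by ring
  rw [h7]
  exact dvd_add h5 h6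

/-- [LZb] -/
theorem not_two (hD : ClY D) (hQ : Quad D r τ) {b : F} (hb : b ≠ 0) (hbt : ∃ t : F, b * τ b = t ^ 3)
    (w : HeightOneSpectrum (𝓞 F)) (hw : OvLa w) (h2 : CUD.IsCube (algebraMap F (w.adicCompletion F) (2 * r * b)))
    {d₀ d₁ d₂ : ℤ} (hd : Dig D d₀ d₁ d₂) : d₀ = 1 := by
  obtain ⟨h0, h1, -, h3⟩ := hd
  by_contra hne
  have h0' : d₀ = -1 := h0.resolve_left hne
  subst h0'
  have hD0 := cl0_of hD
  obtain ⟨m, hm⟩ := h3
  have hDe : D = -1 + (d₁ : Eis) * la + la ^ 2 * ((d₂ : Eis) + la * m) := by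
    have e : D = (D - (((-1 : ℤ) : Eis) + (d₁ : Eis) * la + (d₂ : Eis) * la ^ 2)) +
      (((-1 : ℤ) : Eis) + (d₁ : Eis) * la + (d₂ : Eis) * la ^ 2) := by ring
    rw [e, hm]
    push_cast
    ring
  have hla : la ∣ D - (-1) := by
    refine ⟨(d₁ : Eis) + la * ((d₂ : Eis) + la * m), ?_⟩
    rw [hDe]
    ring
  have hd1 : d₁ = 1 ∨ d₁ = -1 := by
    rcases h1 with h1 | h1 | h1
    · exfalso
      apply hD.2.2.2 (-1) (Or.inr rfl)
      refine ⟨-om * ((d₂ : Eis) + la * m), ?_⟩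
      have e3 : la ^ 2 = 3 * (-om) := by rw [CU.three_eq]; decide
      rw [hDe, h1, e3]
      push_cast
      ring
    · exact Or.inl h1
    · exact Or.inr h1
  -- the approximation
  obtain ⟨t, ht⟩ := h2
  have h20 : (2 : F) ≠ 0 := two_ne_zero
  have hDne : D ≠ 0 := ne_of_cl hD0
  have hr0 : r ≠ 0 := by
    intro h
    have := hQ.sq
    rw [h, zero_pow two_ne_zero] at this
    exact hDne (jF_inj F (by rw [← this, map_zero]))
  have hb2 : 2 * r * b ≠ 0 := mul_ne_zero (mul_ne_zero h20 hr0) hb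
  have ht0 : t ≠ 0 := by
    rintro rfl
    rw [zero_pow three_ne_zero] at ht
    exact hb2 ((map_eq_zero_iff _ (algebraMap F (w.adicCompletion F)).injective).1 ht)
  have hvla := ov_val hD0 hQ w hw
  have hla0 : jF F la ≠ 0 := by
    intro h
    rw [h, map_zero] at hvla
    exact (WithZero.exp_ne_zero).symm hvla
  obtain ⟨x, hx⟩ := lzb_dense w (l := jF F la ^ 3) (pow_ne_zero 3 hla0) ht0
  have he3 : w.valuation F (jF F la ^ 3) = WithZero.exp (-3 : ℤ) := by
    rw [map_pow, hvla, ← WithZero.exp_nsmul]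
    norm_num
  rw [he3] at hx
  have hlt1 : WithZero.exp (-3 : ℤ) < (1 : WithZero (Multiplicative ℤ)) := by
    rw [← WithZero.exp_zero, WithZero.exp_lt_exp]
    norm_num
  obtain ⟨y, hy⟩ : ∃ y, y = algebraMap F (w.adicCompletion F) x * t⁻¹ := ⟨_, rfl⟩
  rw [← hy] at hx
  have hyv : Valued.v y = (1 : WithZero (Multiplicative ℤ)) := by
    have e : y = 1 + (y - 1) := by ring
    rw [e, Valuation.map_add_eq_of_lt_left _ (by rw [map_one]; exact hx.trans hlt1), map_one]
  have hy0 : y ≠ 0 := by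
    rintro rfl
    rw [map_zero] at hyv
    exact zero_ne_one hyv
  have hx0 : x ≠ 0 := by
    rintro rfl
    rw [map_zero, zero_mul] at hy
    exact hy0 hy
  have hix : algebraMap F (w.adicCompletion F) x = y * t := by
    rw [hy, mul_assoc, inv_mul_cancel₀ ht0, mul_one]
  have hA : w.valuation F (2 * r * b / x ^ 3 - 1) < WithZero.exp (-3 : ℤ) := by
    rw [← h1_val w, map_sub, map_div₀, map_pow, map_one, ht, hix]
    have e : t ^ 3 / (y * t) ^ 3 - 1 = (1 ^ 3 - y ^ 3) / y ^ 3 := by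
      field_simp
      try ring
    have h4 : Valued.v (1 ^ 3 - y ^ 3) < WithZero.exp (-3 : ℤ) := by
      refine h1_pow _ (by rw [map_one]) hyv.le ?_ 3
      rw [Valuation.map_sub_swap]
      exact hx
    have h5 : Valued.v (y ^ 3) = (1 : WithZero (Multiplicative ℤ)) := by rw [map_pow, hyv, one_pow]
    rw [e, map_div₀, h5, div_one]
    exact h4
  have hB : w.valuation F (-(2 * r * τ b) / (τ x) ^ 3 - 1) < WithZero.exp (-3 : ℤ) := by
    have e : -(2 * r * τ b) / (τ x) ^ 3 - 1 = τ (2 * r * b / x ^ 3 - 1) := by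
      rw [map_sub, map_div₀, map_mul, map_mul, map_pow, map_one, map_ofNat, hQ.tau]
      ring
    rw [e, conj_inv hD0 hQ w hw hla]
    exact hA
  obtain ⟨t', ht'⟩ := hbt
  have hτx : τ x ≠ 0 := fun h => hx0 ((map_eq_zero_iff τ τ.injective).1 h)
  obtain ⟨m', hm'⟩ : ∃ m', m' = t' / (x * τ x) := ⟨_, rfl⟩
  have hAB : w.valuation F (-(4 * jF F D) * m' ^ 3 - 1) < WithZero.exp (-3 : ℤ) := by
    have hAv : w.valuation F (2 * r * b / x ^ 3) ≤ 1 := by
      have e : 2 * r * b / x ^ 3 = (2 * r * b / x ^ 3 - 1) + 1 := by ring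
      rw [e]
      exact Valuation.map_add_le _ (hA.trans hlt1).le (by rw [map_one])
    have e : -(4 * jF F D) * m' ^ 3 - 1 = (2 * r * b / x ^ 3) * (-(2 * r * τ b) / (τ x) ^ 3 - 1) +
        (2 * r * b / x ^ 3 - 1) := by
      have e1 : -(4 * jF F D) * m' ^ 3 = (2 * r * b / x ^ 3) * (-(2 * r * τ b) / (τ x) ^ 3) := by
        rw [hm', div_pow, ← ht', ← hQ.sq]
        field_simp
        try ring
      rw [e1]
      ring
    rw [e]
    refine Valuation.map_add_lt _ ?_ hA
    rw [map_mul]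
    exact lt_of_le_of_lt (mul_le_of_le_one_left' hAv) hB
  have hv4 : w.valuation F (4 * jF F D) = 1 := by
    have e : 4 * jF F D = jF F (4 * D) := by rw [map_mul, map_ofNat]
    rw [e]
    refine le_antisymm (q3b_le w (int_jF F _)) (not_lt.1 fun h => ?_)
    have h6 := (ov_mem w hw (4 * D)).1 h
    rcases CU.la_prime.dvd_or_dvd h6 with h7 | h7
    · rw [CU.la_dvd_iff] at h7
      revert h7
      decide
    · exact hD.2.1 h7
  have hzv : w.valuation F (-(4 * jF F D) * m' ^ 3) = 1 := by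
    have e : -(4 * jF F D) * m' ^ 3 = 1 + (-(4 * jF F D) * m' ^ 3 - 1) := by ring
    rw [e, Valuation.map_add_eq_of_lt_left _ (by rw [map_one]; exact hAB.trans hlt1), map_one]
  have hmv : w.valuation F m' = 1 := by
    rw [map_mul, Valuation.map_neg, hv4, one_mul, map_pow] at hzv
    rcases lt_trichotomy (w.valuation F m') 1 with h | h | h
    · exact absurd hzv (pow_lt_one₀ zero_le h (by norm_num)).ne
    · exact h
    · exact absurd hzv (one_lt_pow₀ h (by norm_num)).ne'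
  have hm24 : w.valuation F (m' ^ 24 - 1) ≤ WithZero.exp (-3 : ℤ) := by
    have h6 := v_eightX hD0 hQ w hw (z := algebraMap F (w.adicCompletion F) m') (by rw [h1_val, hmv])
    rw [← map_pow, ← map_one (algebraMap F (w.adicCompletion F)), ← map_sub, h1_val] at h6
    exact h6
  have hfin : w.valuation F (jF F ((4 * D) ^ 8 - 1)) ≤ WithZero.exp (-3 : ℤ) := by
    have h6 : w.valuation F ((-(4 * jF F D) * m' ^ 3) ^ 8 - 1 ^ 8) < WithZero.exp (-3 : ℤ) :=
      h1_pow _ hzv.le (by rw [map_one]) hAB 8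
    have e : jF F ((4 * D) ^ 8 - 1) = ((-(4 * jF F D) * m' ^ 3) ^ 8 - 1 ^ 8) - (4 * jF F D) ^ 8 * (m' ^ 24 - 1) := by
      rw [map_sub, map_pow, map_mul, map_ofNat, map_one]
      ring
    rw [e]
    refine Valuation.map_sub_le _ h6.le ?_
    rw [map_mul, map_pow, hv4, one_pow, one_mul]
    exact hm24
  obtain ⟨n, hn⟩ := lzb_pow8 CU.three_eq hDe
  have h7 : w.valuation F (jF F ((d₁ : Eis) * la)) ≤ WithZero.exp (-2 : ℤ) := by
    have e : (d₁ : Eis) * la = ((4 * D) ^ 8 - 1) - la ^ 2 * n := by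
      rw [← hn]
      ring
    rw [e, map_sub]
    refine Valuation.map_sub_le _ (hfin.trans (WithZero.exp_le_exp.2 (by norm_num))) ?_
    rw [map_mul, map_mul, map_pow, map_pow, hvla, ← WithZero.exp_nsmul]
    refine (mul_le_of_le_one_right' (q3b_le w (int_jF F n))).trans ?_
    norm_num
  have h8 : w.valuation F (jF F ((d₁ : Eis) * la)) = WithZero.exp (-1 : ℤ) := by
    rw [map_mul, map_mul, hvla]
    have h9 : w.valuation F (jF F (d₁ : Eis)) = 1 := by
      rcases hd1 with rfl | rfl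
      · rw [Int.cast_one, map_one, map_one]
      · rw [Int.cast_neg, Int.cast_one, map_neg, Valuation.map_neg, map_one, map_one]
    rw [h9, one_mul]
  rw [h8, WithZero.exp_le_exp] at h7
  norm_num at h7

/-- [LZc] -/
theorem lzc_key (w : HeightOneSpectrum (𝓞 F)) (t c : ℤ) :
    algebraMap F (w.adicCompletion F) (jF F (la * ((t : Eis) * (1 + (c : Eis) * la))) * r) =
      (t : w.adicCompletion F) * (algebraMap F (w.adicCompletion F) (jF F la) *
        (1 + (c : w.adicCompletion F) * algebraMap F (w.adicCompletion F) (jF F la))) *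
          algebraMap F (w.adicCompletion F) r := by
  simp only [map_mul, map_add, map_one, map_intCast]
  ring

/-- [LZc] -/
theorem lzc_sign (hQ : Quad D r τ) (w : HeightOneSpectrum (𝓞 F)) (hw : OvLa w) {d₁ d₂ : ℤ} (hd : Dig D 1 d₁ d₂) :
    ∃ ρ : ℤ, (ρ = 1 ∨ ρ = -1) ∧ Valued.v (algebraMap F (w.adicCompletion F) r - (ρ : w.adicCompletion F)) <
      (1 : WithZero (Multiplicative ℤ)) := by
  have h1 : la ∣ D - 1 := by
    obtain ⟨c, hc⟩ := hd.2.2.2
    refine ⟨la ^ 2 * c + (d₁ : Eis) + (d₂ : Eis) * la, ?_⟩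
    rw [Int.cast_one] at hc
    linear_combination hc
  obtain ⟨s, hs, hr⟩ := q3b_pos hQ w hw h1
  have hv : ∀ x : F, Valued.v (algebraMap F (w.adicCompletion F) x) = w.valuation F x :=
    fun x => HeightOneSpectrum.valuedAdicCompletion_eq_valuation' w x
  rw [← hv, map_sub] at hr
  rcases hs with rfl | rfl
  · refine ⟨1, Or.inl rfl, ?_⟩
    rw [map_one, map_one] at hr
    rw [Int.cast_one]
    exact hr
  · refine ⟨-1, Or.inr rfl, ?_⟩
    rw [map_neg, map_one, map_neg, map_one] at hr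
    rw [Int.cast_neg, Int.cast_one]
    exact hr

/-- [LZc] -/
theorem la_of_LocKX (hD : ClY D) (hQ : Quad D r τ) {b : F} (hb : b ≠ 0) (hbt : ∃ t : F, b * τ b = t ^ 3)
    (w : HeightOneSpectrum (𝓞 F)) (hw : OvLa w) (h : LocK D r b w) {d₀ d₁ d₂ : ℤ} (hd : Dig D d₀ d₁ d₂) :
    ∃ h u : w.adicCompletion F, h ≠ 0 ∧ algebraMap F (w.adicCompletion F) b = h ^ 3 * u ∧
      Valued.v u = (1 : WithZero (Multiplicative ℤ)) ∧
      ∃ t : ℤ, Valued.v (u ^ 16 - (u ^ 16)⁻¹ - algebraMap F (w.adicCompletion F)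
        (jF F (la * ((t : Eis) * (1 + ((d₁ * (1 + d₂) : ℤ) : Eis) * la))) * r)) ≤ WithZero.exp (-3 : ℤ) := by
  have hv : ∀ x : F, Valued.v (algebraMap F (w.adicCompletion F) x) = w.valuation F x :=
    fun x => HeightOneSpectrum.valuedAdicCompletion_eq_valuation' w x
  have hdt := dt_of hD hQ w hw hd
  have hr : algebraMap F (w.adicCompletion F) r ^ 2 =
      algebraMap F (w.adicCompletion F) (jF F D) := by
    rw [← map_pow, hQ.sq]
  have hb' : algebraMap F (w.adicCompletion F) b ≠ 0 :=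
    fun h0 => hb ((algebraMap F (w.adicCompletion F)).injective (by rw [h0, map_zero]))
  have hcase := h
  rcases hcase with ⟨t, ht⟩ | ⟨t, ht⟩ | ⟨v, φ, x, y, g, hB, hg, he, hne, hbg⟩
  · refine ⟨t, 1, ?_, ?_, map_one _, 0, ?_⟩
    · rintro rfl
      apply hb'
      rw [ht, zero_pow three_ne_zero]
    · rw [ht, mul_one]
    · rw [lzc_key, Int.cast_zero, zero_mul, zero_mul, sub_zero, one_pow, inv_one, sub_self, map_zero]
      exact zero_le
  · have h0 : d₀ = 1 := not_two hD hQ hb hbt w hw ⟨t, ht⟩ hd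
    rw [h0] at hd
    obtain ⟨ρ, hρ, hrρ⟩ := lzc_sign hQ w hw hd
    have h1 := dt_two_r hdt h0 hr hρ hrρ
    have h2 : Valued.v (2 * algebraMap F (w.adicCompletion F) r) = (1 : WithZero (Multiplicative ℤ)) := by
      have e : Valued.v (algebraMap F (w.adicCompletion F) r) = (1 : WithZero (Multiplicative ℤ)) := by
        rw [hv]
        exact (ov_D (cl0_of hD) hQ w hw).2
      rw [map_mul, dt_two hdt, e, one_mul]
    have hne : (2 * algebraMap F (w.adicCompletion F) r) ≠ 0 := by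
      intro h0
      rw [h0, map_zero] at h2
      exact zero_ne_one h2
    have ht' : (2 * algebraMap F (w.adicCompletion F) r) *
        algebraMap F (w.adicCompletion F) b = t ^ 3 := by
      rw [← ht, map_mul, map_mul, map_ofNat]
    refine ⟨t, (2 * algebraMap F (w.adicCompletion F) r)⁻¹, ?_, ?_, ?_, -(ρ * d₁), ?_⟩
    · rintro rfl
      rw [zero_pow three_ne_zero] at ht'
      exact (mul_ne_zero hne hb') ht'
    · rw [← ht', mul_comm _ (2 * algebraMap F (w.adicCompletion F) r)⁻¹, ← mul_assoc,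
        inv_mul_cancel₀ hne, one_mul]
    · rw [map_inv₀, h2, inv_one]
    · rw [lzc_key, inv_pow, inv_inv, ← Valuation.map_neg]
      refine le_trans (le_of_eq ?_) h1
      congr 1
      rw [Int.cast_neg]
      ring
  · have hval : ∀ x : v.adicCompletion KK, Valued.v (φ x) = Valued.v x :=
      fun x => below_val hB hw (cl0_of hD) hQ x
    have he' : (φ y) ^ 2 = (φ x) ^ 3 + algebraMap F (w.adicCompletion F) (jF F D) := by
      rw [← map_pow, he, map_add, map_pow]
      congr 1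
      exact hB.comm (jK D)
    have hres : ∀ z : v.adicCompletion KK, Valued.v (φ z) ≤ (1 : WithZero (Multiplicative ℤ)) →
        Valued.v (φ z) < (1 : WithZero (Multiplicative ℤ)) ∨
          Valued.v (φ z - 1) < (1 : WithZero (Multiplicative ℤ)) ∨
            Valued.v (φ z + 1) < (1 : WithZero (Multiplicative ℤ)) := by
      intro z hz
      have e4 : φ z - 1 = φ (z - 1) := by rw [map_sub, map_one]
      have e5 : φ z + 1 = φ (z + 1) := by rw [map_add, map_one]
      rw [hval] at hz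
      rw [e4, e5, hval, hval, hval]
      exact below_res hB hw hz
    obtain ⟨h, u, hh, hyu, hu1, t, hu2⟩ := lx_point hdt hr he' (sub_ne_zero.2 (sub_ne_zero.1 hne)) (hres x) (hres y)
    refine ⟨h * g, u, mul_ne_zero hh hg, ?_, hu1, t, ?_⟩
    · rw [hbg, hyu]
      ring
    · rw [lzc_key]
      exact hu2

/-- [LZd] -/
theorem px_of_locK (hD : ClY D) (hQ : Quad D r τ) {b : F} (hb : b ≠ 0) (hbt : ∃ t : F, b * τ b = t ^ 3)
    (w : HeightOneSpectrum (𝓞 F)) (hw : OvLa w) (h : LocK D r b w) {a k : F} (ha : N1 τ a) (hak : a = b ^ 2 * k ^ 3) :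
    PX D r a := by
  obtain ⟨d₀, d₁, d₂, hd⟩ := exists_dig hD.2.1
  obtain ⟨h', u, hh0, hbu, hu1, t, ht⟩ := la_of_LocKX hD hQ hb hbt w hw h hd
  have hC := cl0_of hD
  refine ⟨(t : Eis) * (1 + ((d₁ * (1 + d₂) : ℤ) : Eis) * la), ?_, d₀, d₁, d₂, t, hd, ?_⟩
  · apply ps_tau hC hQ ha w hw
    set i := algebraMap F (w.adicCompletion F) with hi
    have ha0 : a ≠ 0 := left_ne_zero_of_mul (by rw [ha.1]; exact one_ne_zero)
    obtain ⟨g, hg⟩ : ∃ g, g = h' ^ 2 * i k := ⟨_, rfl⟩
    have hia : i a = u ^ 2 * g ^ 3 := by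
      rw [hak, map_mul, map_pow, map_pow, hbu, hg]
      ring
    have hgv : Valued.v g = (1 : WithZero (Multiplicative ℤ)) := by
      have h1 : Valued.v (i a) = (1 : WithZero (Multiplicative ℤ)) := by
        rw [hi, h1_val, ha.2 w hw]
      rw [hia, map_mul, map_pow, hu1, one_pow, one_mul, map_pow] at h1
      rcases lt_trichotomy (Valued.v g) (1 : WithZero (Multiplicative ℤ)) with h2 | h2 | h2
      · exact absurd h1 (pow_lt_one₀ zero_le h2 (by norm_num)).ne
      · exact h2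
      · exact absurd h1 (one_lt_pow₀ h2 (by norm_num)).ne'
    have h24 := v_eightX hC hQ w hw hgv
    have hg0 : g ≠ 0 := by
      rintro rfl
      rw [map_zero] at hgv
      exact zero_ne_one hgv
    have hu0 : u ≠ 0 := by
      rintro rfl
      rw [map_zero] at hu1
      exact zero_ne_one hu1
    have hGv : Valued.v (g ^ 24) = (1 : WithZero (Multiplicative ℤ)) := by
      rw [map_pow, hgv, one_pow]
    have h24' : Valued.v ((g ^ 24)⁻¹ - 1) ≤ WithZero.exp (-3 : ℤ) := by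
      have e : (g ^ 24)⁻¹ - 1 = -((g ^ 24 - 1) * (g ^ 24)⁻¹) := by
        have : g ^ 24 ≠ 0 := pow_ne_zero _ hg0
        field_simp
        ring
      rw [e, Valuation.map_neg, map_mul, map_inv₀, hGv, inv_one, mul_one]
      exact h24
    have hU : Valued.v (u ^ 16) = (1 : WithZero (Multiplicative ℤ)) := by
      rw [map_pow, hu1, one_pow]
    have hfin : Valued.v (i (a ^ 8 - (a ^ 8)⁻¹ - jF F (la * ((t : Eis) *
        (1 + ((d₁ * (1 + d₂) : ℤ) : Eis) * la))) * r)) ≤ WithZero.exp (-3 : ℤ) := by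
      have e : i (a ^ 8 - (a ^ 8)⁻¹ - jF F (la * ((t : Eis) *
          (1 + ((d₁ * (1 + d₂) : ℤ) : Eis) * la))) * r) =
          (u ^ 16 - (u ^ 16)⁻¹ - i (jF F (la * ((t : Eis) *
          (1 + ((d₁ * (1 + d₂) : ℤ) : Eis) * la))) * r)) +
          (u ^ 16 * (g ^ 24 - 1) - (u ^ 16)⁻¹ * ((g ^ 24)⁻¹ - 1)) := by
        rw [map_sub, map_sub, map_inv₀, map_pow, hia]
        have e2 : (u ^ 2 * g ^ 3) ^ 8 = u ^ 16 * g ^ 24 := by ring
        rw [e2, mul_inv]
        ring
      rw [e]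
      apply Valuation.map_add_le _ ht
      refine (Valuation.map_sub _ _ _).trans (max_le ?_ ?_)
      · rw [map_mul, hU, one_mul]
        exact h24
      · rw [map_mul, map_inv₀, hU, inv_one, one_mul]
        exact h24'
    rw [hi, h1_val] at hfin
    have e3 : (WithZero.exp (-1 : ℤ)) ^ 3 = WithZero.exp (-3 : ℤ) := by
      rw [← WithZero.exp_nsmul]
      norm_num
    rw [ov_val hC hQ w hw, e3]
    exact hfin
  · rw [sub_self]
    exact dvd_zero _

/-- [LZe] -/
theorem val_of_LocKX (hQ : Quad D r τ) {b : F} (hb : b ≠ 0) (w : HeightOneSpectrum (𝓞 F)) (h2 : w.valuation F (jF F (2 * D)) = 1)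
    (h : LocK D r b w) : ∃ g : WithZero (Multiplicative ℤ), w.valuation F b = g ^ 3 := by
  have hr2 : w.valuation F r ^ 2 = w.valuation F (jF F D) := by
    rw [← map_pow, hQ.sq]
  have h2' : w.valuation F 2 * w.valuation F (jF F D) = 1 := by
    have e4 : jF F (2 * D) = 2 * jF F D := by rw [map_mul, map_ofNat]
    rw [← map_mul, ← h2, e4]
  have hle2 : w.valuation F 2 ≤ 1 := by
    have h3 := l3_intE w 2
    rw [map_ofNat] at h3
    exact h3
  have hleD := l3_intE w D
  have hD1 : w.valuation F (jF F D) = 1 := by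
    refine le_antisymm hleD ?_
    rw [← h2']
    exact mul_le_of_le_one_left' hle2
  have h21 : w.valuation F 2 = 1 := by
    rw [hD1, mul_one] at h2'
    exact h2'
  have hr1 : w.valuation F r = 1 := by
    rw [hD1] at hr2
    exact (pow_eq_one_iff.mp hr2).resolve_right two_ne_zero
  apply CUD.val_b_cube hb w (D := 2 * r)
  · rw [map_mul, h21, hr1, mul_one]
  · rcases h with h | h | ⟨v, φ, x, y, g, hB, hg, he, hne, hbg⟩
    · exact Or.inl h
    · exact Or.inr (Or.inl h)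
    · refine Or.inr (Or.inr ⟨φ x, φ y - algebraMap F (w.adicCompletion F) r, g, hne, hg, ?_, hbg⟩)
      have he' : (φ y) ^ 2 = (φ x) ^ 3 + algebraMap F (w.adicCompletion F) (jF F D) := by
        rw [← map_pow, he, map_add, map_pow]
        congr 1
        exact hB.comm (jK D)
      have hr : algebraMap F (w.adicCompletion F) r ^ 2 =
          algebraMap F (w.adicCompletion F) (jF F D) := by
        rw [← map_pow, hQ.sq]
      rw [map_mul, map_ofNat]
      linear_combination he' - hr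

end

end JXD
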