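import Pool.Agent.JXD.H1
import Pool.Agent.JD.M1

/-!
# [JXD-M1] every point of `E_D(K)` is in the image of `phiE`

As `JD.exists_phiE`.
-/

set_option autoImplicit false

open NumberField IsDedekindDomain
open scoped Classical

namespace JXD

open CM27 CF JZ JX JD
open CU (la om eE)

section
variable {D : Eis} {F : Type} [Field F] [NumberField F] [Algebra KK F] {r : F} {τ : F ≃ₐ[KK] F}

theorem m1_cube (hD : ClY D) (hQ : Quad D r τ) (hN : NoBadX D r τ) {x y : KK} (heq : y ^ 2 = x ^ 3 + jK D) :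
    algebraMap KK F y - r ≠ 0 ∧ ∃ c : F, c ^ 3 = algebraMap KK F y - r := by
  have hb0 : algebraMap KK F y - r ≠ 0 := by
    intro h0
    have h1 : algebraMap KK F y = r := sub_eq_zero.1 h0
    have h2 : algebraMap KK F (y ^ 2) = algebraMap KK F (jK D) := by
      rw [map_pow, h1, hQ.sq, jF_apply]
    exact not_sq hD.2.2.1 y ((algebraMap KK F).injective h2)
  have hbt : (algebraMap KK F y - r) * τ (algebraMap KK F y - r) = (algebraMap KK F x) ^ 3 := by
    rw [map_sub, τ.commutes, hQ.tau]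
    have h2 : (algebraMap KK F y) ^ 2 = (algebraMap KK F x) ^ 3 + r ^ 2 := by
      rw [hQ.sq, jF_apply, ← map_pow, ← map_pow, ← map_add, heq]
    linear_combination h2
  have hloc : ∀ w, LocK D r (algebraMap KK F y - r) w := by
    intro w
    obtain ⟨v, φ, hB⟩ := exists_Below w
    refine Or.inr (Or.inr ⟨v, φ, algebraMap KK _ x, algebraMap KK _ y, 1, hB, one_ne_zero, ?_, ?_, ?_⟩)
    · rw [← map_pow, ← map_pow, ← map_add, heq]
    · rw [hB.comm, ← map_sub]
      exact fun h0 => hb0 ((algebraMap F (w.adicCompletion F)).injective (h0.trans (map_zero _).symm))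
    · rw [hB.comm, ← map_sub, one_pow, mul_one]
  exact ⟨hb0, cube_of_locX hD hQ hN hb0 ⟨_, hbt⟩ hloc⟩

theorem exists_phiE (hD : ClY D) (hQ : Quad D r τ) (hN : NoBadX D r τ) {o : KK} (ho : o ^ 2 + o + 1 = 0)
    (P : (ED (jK D)).toAffine.Point) : ∃ Q, phiE ho Q = P := by
  have hD0 : D ≠ 0 := ne_of_cl (cl0_of hD)
  have hdK : jK D ≠ 0 := fun h0 => hD0 (jK_inj (h0.trans (map_zero jK).symm))
  rcases P with _ | ⟨x, y, hP⟩
  · exact ⟨0, phiE_zero ho⟩
  have heq : y ^ 2 = x ^ 3 + jK D := (ED_nonsingular two_ne_zero three_ne_zero hdK x y).1 hP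
  obtain ⟨hb0, c, hc⟩ := m1_cube (F := F) hD hQ hN heq
  have ho' : (algebraMap KK F o) ^ 2 + algebraMap KK F o + 1 = 0 := CUD.am_o ho
  obtain ⟨h1, e1⟩ : ∃ h', ptE (algebraMap KK F) rfl (.some x y hP : (ED (jK D)).toAffine.Point) =
      .some (algebraMap KK F x) (algebraMap KK F y) h' := ⟨_, rfl⟩
  obtain ⟨Q2, hQ2⟩ := m1_F ho' (r_ne hD0 hQ) hQ.sq h1 hc hb0
  obtain ⟨R₀, hR1⟩ := m1_aux (τ : F →+* F) (fun z => tau_tau hD0 hQ z) (fun k => τ.commutes k) (τ.commutes (jK D)) ho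
    ho' (fun R h => exists_ptE hD0 hQ R h) (.some x y hP) Q2 (hQ2.trans e1.symm)
  exact m1_end hdK ho hR1

end

end JXD
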